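import Pool.Agent.U986.LC.Four

/-! The statement for connected graphs on four vertices. -/

set_option autoImplicit false
set_option maxRecDepth 100000
set_option maxHeartbeats 400000
open Finset
open scoped Classical

namespace Pool.Agent.U986.LC
open Pool.Agent.H122R2.N6 hiding K43Free
open Pool.Agent.H37R3.Pen hiding bt
open Pool.Agent.R85.GT Pool.Agent.Y580.FL Pool.Agent.TH773.ST Pool.Agent.N238.G6

theorem homs_zero {k : ℕ} (F : Finset (Finset (Fin (k + 1)))) (H : Finset (Finset (Fin 0))) :
    homs F H = 0 := by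
  unfold homs
  rw [Finset.card_eq_zero]
  ext f
  exact (f 0).elim0

theorem main4 {n : ℕ} {H : Finset (Finset (Fin n))} (h3 : ∀ e ∈ H, e.card = 3) (hK : K43Free H)
    {L : SimpleGraph (Fin 4)} (hL : L.Connected) :
    243 * (homs (cone L) H + 6 * (n ^ 2 * H.card)) ≤ (cols (cone L) + 135) * n ^ 5 ∧
    243 * (2 * homs (cone L) H + 6 * (n ^ 2 * H.card)) ≤ (2 * cols (cone L) + 135) * n ^ 5 ∧
    ∃ g : Fin n → Fin 3, n ^ 2 * (symmDiff H (turan g)).card +
      322560 * (243 * (homs (cone L) H + 6 * (n ^ 2 * H.card))) ≤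
        322560 * ((cols (cone L) + 135) * n ^ 5) := by
  obtain ⟨a1, a2, g, a3⟩ := fin3 h3 hK (fact4 hL).1 (fact4 hL).2
  rw [N6_tri4, N6_Rf4] at a1 a2 a3
  rcases Nat.eq_zero_or_pos n with hn | hn
  · subst hn
    rw [homs_zero]
    refine ⟨by simp, by simp, g, by simp⟩
  · refine ⟨?_, ?_, g, ?_⟩
    · refine Nat.le_of_mul_le_mul_left (c := 3 * n) ?_ (by omega)
      calc _ = 729 * (n * homs (cone L) H + 6 * (n ^ 3 * H.card)) := by ring
        _ ≤ _ := a1
        _ = _ := by ring
    · refine Nat.le_of_mul_le_mul_left (c := 3 * n) ?_ (by omega)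
      calc _ = 729 * (2 * (n * homs (cone L) H) + 6 * (n ^ 3 * H.card)) := by ring
        _ ≤ _ := a2
        _ = _ := by ring
    · refine Nat.le_of_mul_le_mul_left (c := n) ?_ hn
      calc _ = n ^ 3 * (symmDiff H (turan g)).card +
          107520 * (729 * (n * homs (cone L) H + 6 * (n ^ 3 * H.card))) := by ring
        _ ≤ _ := a3
        _ = _ := by ring

theorem cols_edge : cols ({{0, 1, 2}} : Finset (Finset (Fin 3))) = 15 := by
  have h : cols ({{0, 1, 2}} : Finset (Finset (Fin 3))) =
      ((univ : Finset (Fin 3 → Fin 3)).filter fun c => Rf (c 0) (c 1) (c 2) = 1).card := by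
    unfold cols
    refine congrArg Finset.card (filter_congr fun c _ => ?_)
    rw [singleton_subset_iff]
    exact mem_turan (by decide) (by decide) (by decide)
  rw [h]
  decide +kernel

theorem homs_edge {n : ℕ} {H : Finset (Finset (Fin n))} (h3 : ∀ e ∈ H, e.card = 3) :
    homs ({{0, 1, 2}} : Finset (Finset (Fin 3))) H = 6 * H.card := by
  rw [← S3_tri h3]
  unfold homs
  rw [card_filter]
  have e : ∀ x : Fin 3 → Fin n, (if ∀ t ∈ ({{0, 1, 2}} : Finset (Finset (Fin 3))), t.image x ∈ H then 1 else 0) =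
      tri H (x 0) (x 1) (x 2) := by
    intro x
    rw [tri_ite]
    refine if_congr ?_ rfl rfl
    simp only [mem_singleton, forall_eq, image_insert, image_singleton]
  rw [sum_congr rfl fun x _ => e x]
  rw [Pool.Agent.N238.G6.sum_cons]
  refine sum_congr rfl fun a _ => ?_
  rw [Pool.Agent.N238.G6.sum_cons]
  refine sum_congr rfl fun b _ => ?_
  rw [Pool.Agent.N238.G6.sum_cons]
  refine sum_congr rfl fun c _ => ?_
  rw [Fintype.sum_unique]
  rfl

/-- the number of edges of Turán's construction -/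
theorem turan_edges {n m : ℕ} (g : Fin n → Fin 3)
    (hg : ∀ p, (univ.filter fun i => g i = p).card = m) :
    15 * m ^ 3 ≤ 6 * (turan g).card + 3 * n ^ 2 := by
  have h := turan_homs (k := 2) {{0, 1, 2}} g hg
  rw [cols_edge, homs_edge fun e he => turan_card he] at h
  exact h

end Pool.Agent.U986.LC
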