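import Pool.Agent.U986.LC.Main4

/-! Upper bounds for homomorphisms to Turán's construction. -/

set_option autoImplicit false
set_option maxRecDepth 100000
set_option maxHeartbeats 400000
open Finset
open scoped Classical

namespace Pool.Agent.U986.LC
open Pool.Agent.H122R2.N6 hiding K43Free
open Pool.Agent.H37R3.Pen hiding bt
open Pool.Agent.R85.GT Pool.Agent.Y580.FL Pool.Agent.TH773.ST Pool.Agent.N238.G6

theorem image_turan {n k : ℕ} {g : Fin n → Fin 3} {f : Fin k → Fin n} {t : Finset (Fin k)}
    (ht : t.card = 3) (h : t.image f ∈ turan g) : t ∈ turan (g ∘ f) := by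
  obtain ⟨a, b, c, h1, h2, h4, rfl⟩ := card_eq_three.mp ht
  rw [image_insert, image_insert, image_singleton] at h
  have h5 := turan_card h
  have d1 : f a ≠ f b := by
    intro e
    rw [e, insert_eq_of_mem (mem_insert_self _ _)] at h5
    have : ({f b, f c} : Finset (Fin n)).card ≤ 2 := card_le_two
    omega
  have d2 : f a ≠ f c := by
    intro e
    rw [e, insert_comm, insert_eq_of_mem (mem_singleton_self _)] at h5
    have : ({f b, f c} : Finset (Fin n)).card ≤ 2 := card_le_two
    omega
  have d3 : f b ≠ f c := by
    intro e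
    rw [e, insert_eq_of_mem (a := f c) (mem_singleton_self _)] at h5
    have : ({f a, f c} : Finset (Fin n)).card ≤ 2 := card_le_two
    omega
  exact (mem_turan h1 h2 h4).mpr ((mem_turan d1 d2 d3).mp h)

/-- the homomorphisms to Turán's construction with equal parts -/
theorem turan_homs_le {k n m : ℕ} {F : Finset (Finset (Fin k))} (hF : ∀ t ∈ F, t.card = 3)
    (g : Fin n → Fin 3) (hg : ∀ p, (univ.filter fun i => g i = p).card = m) :
    homs F (turan g) ≤ cols F * m ^ k := by
  unfold cols
  set VV := (univ : Finset (Fin k → Fin 3)).filter fun c => F ⊆ turan c with hVV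
  set A := (univ : Finset (Fin k → Fin n)).filter fun f => g ∘ f ∈ VV with hA
  have h1 : A.card = VV.card * m ^ k := by
    have hmap : ∀ f ∈ A, g ∘ f ∈ VV := fun f hf => (mem_filter.mp hf).2
    rw [card_eq_sum_card_fiberwise hmap, ← smul_eq_mul, ← sum_const]
    refine sum_congr rfl fun c hc => ?_
    have h2 : A.filter (fun f => g ∘ f = c) =
        Fintype.piFinset fun i => univ.filter fun x => g x = c i := by
      ext f
      rw [mem_filter, Fintype.mem_piFinset]
      constructor
      · rintro ⟨-, h⟩ i
        exact mem_filter.mpr ⟨mem_univ _, congrFun h i⟩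
      · intro h
        have h3 : g ∘ f = c := funext fun i => (mem_filter.mp (h i)).2
        exact ⟨mem_filter.mpr ⟨mem_univ _, by rw [h3]; exact hc⟩, h3⟩
    rw [h2, Fintype.card_piFinset]
    simp only [hg, prod_const, card_univ, Fintype.card_fin]
  rw [← h1]
  refine card_le_card fun f hf => ?_
  exact mem_filter.mpr ⟨mem_univ _, mem_filter.mpr ⟨mem_univ _, fun t ht =>
    image_turan (hF t ht) ((mem_filter.mp hf).2 t ht)⟩⟩

/-- the number of edges of Turán's construction -/
theorem turan_edges_le {n m : ℕ} (g : Fin n → Fin 3)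
    (hg : ∀ p, (univ.filter fun i => g i = p).card = m) :
    6 * (turan g).card ≤ 15 * m ^ 3 := by
  have h := turan_homs_le (F := ({{0, 1, 2}} : Finset (Finset (Fin 3)))) (by
    intro t ht
    rw [mem_singleton] at ht
    subst ht
    decide) g hg
  rw [cols_edge, homs_edge fun e he => turan_card he] at h
  exact h

end Pool.Agent.U986.LC
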