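import Pool.Agent.U986.LC.Hom

/-! Masks of cones over graphs on four and five vertices. -/

set_option autoImplicit false
set_option maxRecDepth 100000
set_option maxHeartbeats 4000000
open Finset
open scoped Classical

namespace Pool.Agent.U986.LC
open Pool.Agent.H122R2.N6 hiding K43Free
open Pool.Agent.H37R3.Pen hiding bt
open Pool.Agent.R85.GT Pool.Agent.Y580.FL Pool.Agent.TH773.ST Pool.Agent.N238.G6

/-- indicator of the edges of a graph -/
noncomputable def bb {k : ℕ} (L : SimpleGraph (Fin k)) (i j : Fin k) : ℕ := if L.Adj i j then 1 else 0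

theorem bb_Bt {k : ℕ} (L : SimpleGraph (Fin k)) (i j : Fin k) : Bt (bb L i j) := by
  unfold bb Bt; split_ifs <;> simp

theorem bb_zero {k : ℕ} {L : SimpleGraph (Fin k)} {i j : Fin k} (h : bb L i j = 0) : ¬ L.Adj i j := by
  intro h2
  unfold bb at h
  rw [if_pos h2] at h
  exact absurd h (by norm_num)

theorem bb_le {k : ℕ} (L : SimpleGraph (Fin k)) (i j : Fin k) {e : ℕ} (he : Bt e) :
    bb L i j ≤ e ↔ (L.Adj i j → e = 1) := by
  unfold bb
  rcases he with rfl | rfl <;> split_ifs with h <;> simp [h]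

/-- the mask of the cone over a graph with these adjacencies -/
def cm (b01 b02 b12 b03 b13 b23 b04 b14 b24 b34 : ℕ) : ℕ :=
  cd6 b01 b02 b12 0 b03 b13 0 b23 0 0 b04 b14 0 b24 0 0 b34 0 0 0

/-- the mask of the cone over a graph on five vertices -/
noncomputable def cm5 (L : SimpleGraph (Fin 5)) : ℕ :=
  cm (bb L 0 1) (bb L 0 2) (bb L 1 2) (bb L 0 3) (bb L 1 3) (bb L 2 3) (bb L 0 4) (bb L 1 4) (bb L 2 4) (bb L 3 4)

/-- the mask of the cone over a graph on four vertices, with an isolated vertex -/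
noncomputable def cm4 (L : SimpleGraph (Fin 4)) : ℕ :=
  cm (bb L 0 1) (bb L 0 2) (bb L 1 2) (bb L 0 3) (bb L 1 3) (bb L 2 3) 0 0 0 0

section
variable {V : Type} [Fintype V] {E : V → V → V → ℕ}

theorem sub5 (hE : Sy E) (L : SimpleGraph (Fin 5)) (x : Fin 6 → V) :
    SubI E (cm5 L) x = if (∀ i j : Fin 5, L.Adj i j → E (x 0) (x (Fin.castLE (by decide) i.succ)) (x (Fin.castLE (by decide) j.succ)) = 1) then 1 else 0 := by
  have z : Bt 0 := Or.inl rfl
  have h3 := sb6_iff (bb_Bt L 0 1) (bb_Bt L 0 2) (bb_Bt L 1 2) z (bb_Bt L 0 3) (bb_Bt L 1 3) z (bb_Bt L 2 3) z z (bb_Bt L 0 4) (bb_Bt L 1 4) z (bb_Bt L 2 4) z z (bb_Bt L 3 4) z z z (hE.b (x 0) (x 1) (x 2)) (hE.b (x 0) (x 1) (x 3)) (hE.b (x 0) (x 2) (x 3)) (hE.b (x 1) (x 2) (x 3)) (hE.b (x 0) (x 1) (x 4)) (hE.b (x 0) (x 2) (x 4)) (hE.b (x 1) (x 2) (x 4)) (hE.b (x 0) (x 3) (x 4)) (hE.b (x 1) (x 3) (x 4)) (hE.b (x 2) (x 3) (x 4)) (hE.b (x 0) (x 1) (x 5)) (hE.b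 (x 0) (x 2) (x 5)) (hE.b (x 1) (x 2) (x 5)) (hE.b (x 0) (x 3) (x 5)) (hE.b (x 1) (x 3) (x 5)) (hE.b (x 2) (x 3) (x 5)) (hE.b (x 0) (x 4) (x 5)) (hE.b (x 1) (x 4) (x 5)) (hE.b (x 2) (x 4) (x 5)) (hE.b (x 3) (x 4) (x 5))
  refine Eq.trans h3 (if_congr ?_ rfl rfl)
  constructor
  · rintro ⟨a0, a1, a2, a3, a4, a5, a6, a7, a8, a9, a10, a11, a12, a13, a14, a15, a16, a17, a18, a19⟩
    have key : ∀ i j : Fin 5, i < j → (L.Adj i j → E (x 0) (x (Fin.castLE (by decide) i.succ)) (x (Fin.castLE (by decide) j.succ)) = 1) := by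
      intro i j hlt
      fin_cases i <;> fin_cases j <;> first | exact absurd hlt (by decide) | skip
      exacts [(bb_le L 0 1 (hE.b _ _ _)).mp a0, (bb_le L 0 2 (hE.b _ _ _)).mp a1, (bb_le L 0 3 (hE.b _ _ _)).mp a4, (bb_le L 0 4 (hE.b _ _ _)).mp a10, (bb_le L 1 2 (hE.b _ _ _)).mp a2, (bb_le L 1 3 (hE.b _ _ _)).mp a5, (bb_le L 1 4 (hE.b _ _ _)).mp a11, (bb_le L 2 3 (hE.b _ _ _)).mp a7, (bb_le L 2 4 (hE.b _ _ _)).mp a13, (bb_le L 3 4 (hE.b _ _ _)).mp a16]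
    intro i j hij
    rcases lt_trichotomy i j with h | h | h
    · exact key i j h hij
    · rw [h] at hij; exact absurd hij (L.loopless.irrefl j)
    · rw [← hE.h132]; exact key j i h hij.symm
  · intro h
    exact ⟨(bb_le L 0 1 (hE.b _ _ _)).mpr (h 0 1), (bb_le L 0 2 (hE.b _ _ _)).mpr (h 0 2), (bb_le L 1 2 (hE.b _ _ _)).mpr (h 1 2), Nat.zero_le _, (bb_le L 0 3 (hE.b _ _ _)).mpr (h 0 3), (bb_le L 1 3 (hE.b _ _ _)).mpr (h 1 3), Nat.zero_le _, (bb_le L 2 3 (hE.b _ _ _)).mpr (h 2 3), Nat.zero_le _, Nat.zero_le _, (bb_le L 0 4 (hE.b _ _ _)).mpr (h 0 4), (bb_le L 1 4 (hE.b _ _ _)).mpr (h 1 4), Nat.zero_le _, (bb_le L 2 4 (hE.b _ _ _)).mpr (h 2 4), Nat.zero_le _, Nat.zero_le _, (bb_le L 3 4 (hE.b _ _ _)).mpr (h 3 4), Nat.zero_le _, Nat.zero_le _, Nat.zero_le _⟩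

theorem sub4 (hE : Sy E) (L : SimpleGraph (Fin 4)) (x : Fin 6 → V) :
    SubI E (cm4 L) x = if (∀ i j : Fin 4, L.Adj i j → E (x 0) (x (Fin.castLE (by decide) i.succ)) (x (Fin.castLE (by decide) j.succ)) = 1) then 1 else 0 := by
  have z : Bt 0 := Or.inl rfl
  have h3 := sb6_iff (bb_Bt L 0 1) (bb_Bt L 0 2) (bb_Bt L 1 2) z (bb_Bt L 0 3) (bb_Bt L 1 3) z (bb_Bt L 2 3) z z z z z z z z z z z z (hE.b (x 0) (x 1) (x 2)) (hE.b (x 0) (x 1) (x 3)) (hE.b (x 0) (x 2) (x 3)) (hE.b (x 1) (x 2) (x 3)) (hE.b (x 0) (x 1) (x 4)) (hE.b (x 0) (x 2) (x 4)) (hE.b (x 1) (x 2) (x 4)) (hE.b (x 0) (x 3) (x 4)) (hE.b (x 1) (x 3) (x 4)) (hE.b (x 2) (x 3) (x 4)) (hE.b (x 0) (x 1) (x 5)) (hE.b (x 0) (x 2) (x 5)) (hE.b (x 1) (x 2) (x 5)) (hE.b (x 0) (x 3) (x 5)) (hE.b (x 1) (x 3) (x 5)) (hE.b (x 2) (x 3) (x 5)) (hE.b (x 0) (x 4) (x 5)) (hE.b (x 1) (x 4) (x 5)) (hE.b (x 2) (x 4) (x 5)) (hE.b (x 3) (x 4) (x 5))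
  refine Eq.trans h3 (if_congr ?_ rfl rfl)
  constructor
  · rintro ⟨a0, a1, a2, a3, a4, a5, a6, a7, a8, a9, a10, a11, a12, a13, a14, a15, a16, a17, a18, a19⟩
    have key : ∀ i j : Fin 4, i < j → (L.Adj i j → E (x 0) (x (Fin.castLE (by decide) i.succ)) (x (Fin.castLE (by decide) j.succ)) = 1) := by
      intro i j hlt
      fin_cases i <;> fin_cases j <;> first | exact absurd hlt (by decide) | skip
      exacts [(bb_le L 0 1 (hE.b _ _ _)).mp a0, (bb_le L 0 2 (hE.b _ _ _)).mp a1, (bb_le L 0 3 (hE.b _ _ _)).mp a4, (bb_le L 1 2 (hE.b _ _ _)).mp a2, (bb_le L 1 3 (hE.b _ _ _)).mp a5, (bb_le L 2 3 (hE.b _ _ _)).mp a7]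
    intro i j hij
    rcases lt_trichotomy i j with h | h | h
    · exact key i j h hij
    · rw [h] at hij; exact absurd hij (L.loopless.irrefl j)
    · rw [← hE.h132]; exact key j i h hij.symm
  · intro h
    exact ⟨(bb_le L 0 1 (hE.b _ _ _)).mpr (h 0 1), (bb_le L 0 2 (hE.b _ _ _)).mpr (h 0 2), (bb_le L 1 2 (hE.b _ _ _)).mpr (h 1 2), Nat.zero_le _, (bb_le L 0 3 (hE.b _ _ _)).mpr (h 0 3), (bb_le L 1 3 (hE.b _ _ _)).mpr (h 1 3), Nat.zero_le _, (bb_le L 2 3 (hE.b _ _ _)).mpr (h 2 3), Nat.zero_le _, Nat.zero_le _, Nat.zero_le _, Nat.zero_le _, Nat.zero_le _, Nat.zero_le _, Nat.zero_le _, Nat.zero_le _, Nat.zero_le _, Nat.zero_le _, Nat.zero_le _, Nat.zero_le _⟩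

theorem N6_cm5 (hE : Sy E) (L : SimpleGraph (Fin 5)) : N6 E (cm5 L) =
    ((univ : Finset (Fin 6 → V)).filter fun x => ∀ i j : Fin 5, L.Adj i j → E (x 0) (x i.succ) (x j.succ) = 1).card := by
  unfold N6
  rw [card_filter]
  exact sum_congr rfl fun x _ => sub5 hE L x

theorem N6_cm4 (hE : Sy E) (L : SimpleGraph (Fin 4)) : N6 E (cm4 L) = Fintype.card V *
    ((univ : Finset (Fin 5 → V)).filter fun x => ∀ i j : Fin 4, L.Adj i j → E (x 0) (x i.succ) (x j.succ) = 1).card := by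
  unfold N6
  rw [card_filter, ← (Fin.snocEquiv (fun _ => V)).sum_comp, Fintype.sum_prod_type]
  have h : ∀ (v : V) (y : Fin 5 → V), SubI E (cm4 L) ((Fin.snocEquiv (fun _ => V)) (v, y)) =
      if (∀ i j : Fin 4, L.Adj i j → E (y 0) (y i.succ) (y j.succ) = 1) then 1 else 0 := by
    intro v y
    rw [sub4 hE L]
    have e : ∀ i : Fin 4, ((Fin.snocEquiv (fun _ => V)) (v, y)) (Fin.castLE (by decide) i.succ) = y i.succ := by
      intro i
      exact Fin.snoc_castSucc (α := fun _ : Fin 6 => V) v y i.succ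
    have e0 : ((Fin.snocEquiv (fun _ => V)) (v, y)) 0 = y 0 := by
      exact Fin.snoc_castSucc (α := fun _ : Fin 6 => V) v y 0
    simp only [e, e0]
  simp only [h, sum_const, card_univ, smul_eq_mul]

end

theorem cone_iff {k n : ℕ} (L : SimpleGraph (Fin k)) (x : Fin (k + 1) → Fin n) (H : Finset (Finset (Fin n))) :
    (∀ t ∈ cone L, t.image x ∈ H) ↔ ∀ i j, L.Adj i j → tri H (x 0) (x i.succ) (x j.succ) = 1 := by
  constructor
  · intro h i j hij
    rw [tri_iff]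
    have h1 := h {0, i.succ, j.succ} (mem_filter.mpr ⟨mem_univ _, i, j, hij, rfl⟩)
    rwa [image_insert, image_insert, image_singleton] at h1
  · intro h t ht
    obtain ⟨-, i, j, hij, rfl⟩ := mem_filter.mp ht
    rw [image_insert, image_insert, image_singleton]
    exact tri_iff.mp (h i j hij)

theorem homs_cone {k n : ℕ} (L : SimpleGraph (Fin k)) (H : Finset (Finset (Fin n))) :
    homs (cone L) H = ((univ : Finset (Fin (k + 1) → Fin n)).filter fun x =>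
      ∀ i j, L.Adj i j → tri H (x 0) (x i.succ) (x j.succ) = 1).card := by
  unfold homs
  congr 1
  ext x
  rw [mem_filter, mem_filter, cone_iff]

theorem cols_cone {k : ℕ} (L : SimpleGraph (Fin k)) :
    cols (cone L) = ((univ : Finset (Fin (k + 1) → Fin 3)).filter fun x =>
      ∀ i j, L.Adj i j → Rf (x 0) (x i.succ) (x j.succ) = 1).card := by
  unfold cols
  congr 1
  ext x
  rw [mem_filter, mem_filter]
  refine and_congr_right fun _ => ?_
  have ne : ∀ {i j : Fin k}, L.Adj i j → (0 : Fin (k + 1)) ≠ i.succ ∧ (0 : Fin (k + 1)) ≠ j.succ ∧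
      i.succ ≠ j.succ := fun h => ⟨(Fin.succ_ne_zero _).symm, (Fin.succ_ne_zero _).symm,
        fun h' => h.ne (Fin.succ_injective _ h')⟩
  constructor
  · intro h i j hij
    obtain ⟨h1, h2, h3⟩ := ne hij
    exact (mem_turan h1 h2 h3).mp (h (mem_filter.mpr ⟨mem_univ _, i, j, hij, rfl⟩))
  · intro h t ht
    obtain ⟨-, i, j, hij, rfl⟩ := mem_filter.mp ht
    obtain ⟨h1, h2, h3⟩ := ne hij
    exact (mem_turan h1 h2 h3).mpr (h i j hij)

theorem N6_tri5 {n : ℕ} (L : SimpleGraph (Fin 5)) (H : Finset (Finset (Fin n))) :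
    N6 (tri H) (cm5 L) = homs (cone L) H := by
  rw [N6_cm5 (tri_sy H), homs_cone]

theorem N6_tri4 {n : ℕ} (L : SimpleGraph (Fin 4)) (H : Finset (Finset (Fin n))) :
    N6 (tri H) (cm4 L) = n * homs (cone L) H := by
  rw [N6_cm4 (tri_sy H), homs_cone, Fintype.card_fin]

theorem N6_Rf5 (L : SimpleGraph (Fin 5)) : N6 Rf (cm5 L) = cols (cone L) := by
  rw [N6_cm5 Rf_sy, cols_cone]

theorem N6_Rf4 (L : SimpleGraph (Fin 4)) : N6 Rf (cm4 L) = 3 * cols (cone L) := by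
  rw [N6_cm4 Rf_sy, cols_cone, Fintype.card_fin]

/-! ### relabelling -/

theorem N6_relabel {V : Type} [Fintype V] {E : V → V → V → ℕ} (hE : Sy E) {c m p : ℕ}
    (hc : okm c = true) (hm : okm m = true) (h : chkP c m p = true) : N6 E c = N6 E m := by
  unfold N6
  have hb := Finite.injective_iff_bijective.mp (chkP_inj h)
  rw [← (Equiv.arrowCongr (Equiv.ofBijective _ hb).symm (Equiv.refl V)).sum_comp (fun x => SubI E m x)]
  refine sum_congr rfl fun x _ => ?_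
  rw [← chkP_I hE hc hm h x]
  rfl

/-! ### connected graphs -/

theorem cross {k : ℕ} {L : SimpleGraph (Fin k)} (h : L.Connected) (S : Finset (Fin k)) (u v : Fin k)
    (hu : u ∈ S) (hv : v ∉ S) : ∃ i j, i ∈ S ∧ j ∉ S ∧ L.Adj i j := by
  obtain ⟨w⟩ := h.preconnected u v
  obtain ⟨d, -, h1, h2⟩ := w.exists_boundary_dart (S : Set (Fin k)) (by simpa using hu) (by simpa using hv)
  exact ⟨d.fst, d.snd, by simpa using h1, by simpa using h2, d.adj⟩

theorem c4_0 {L : SimpleGraph (Fin 4)} (h : L.Connected) :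
    1 ≤ bb L 0 1 + bb L 0 2 + bb L 0 3 := by
  by_contra hc
  have h0 : ¬ L.Adj 0 1 := bb_zero (by omega)
  have h1 : ¬ L.Adj 0 2 := bb_zero (by omega)
  have h2 : ¬ L.Adj 0 3 := bb_zero (by omega)
  obtain ⟨i, j, hi, hj, hij⟩ := cross h {0} 0 1 (by decide) (by decide)
  fin_cases i <;> fin_cases j <;> first | exact absurd hi (by decide) | exact absurd hj (by decide) | skip
  exacts [h0 hij, h1 hij, h2 hij]

theorem c4_1 {L : SimpleGraph (Fin 4)} (h : L.Connected) :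
    1 ≤ bb L 0 1 + bb L 1 2 + bb L 1 3 := by
  by_contra hc
  have h0 : ¬ L.Adj 0 1 := bb_zero (by omega)
  have h1 : ¬ L.Adj 1 2 := bb_zero (by omega)
  have h2 : ¬ L.Adj 1 3 := bb_zero (by omega)
  obtain ⟨i, j, hi, hj, hij⟩ := cross h {1} 1 0 (by decide) (by decide)
  fin_cases i <;> fin_cases j <;> first | exact absurd hi (by decide) | exact absurd hj (by decide) | skip
  exacts [h0 hij.symm, h1 hij, h2 hij]

theorem c4_2 {L : SimpleGraph (Fin 4)} (h : L.Connected) :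
    1 ≤ bb L 0 2 + bb L 1 2 + bb L 2 3 := by
  by_contra hc
  have h0 : ¬ L.Adj 0 2 := bb_zero (by omega)
  have h1 : ¬ L.Adj 1 2 := bb_zero (by omega)
  have h2 : ¬ L.Adj 2 3 := bb_zero (by omega)
  obtain ⟨i, j, hi, hj, hij⟩ := cross h {2} 2 0 (by decide) (by decide)
  fin_cases i <;> fin_cases j <;> first | exact absurd hi (by decide) | exact absurd hj (by decide) | skip
  exacts [h0 hij.symm, h1 hij.symm, h2 hij]

theorem c4_3 {L : SimpleGraph (Fin 4)} (h : L.Connected) :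
    1 ≤ bb L 0 3 + bb L 1 3 + bb L 2 3 := by
  by_contra hc
  have h0 : ¬ L.Adj 0 3 := bb_zero (by omega)
  have h1 : ¬ L.Adj 1 3 := bb_zero (by omega)
  have h2 : ¬ L.Adj 2 3 := bb_zero (by omega)
  obtain ⟨i, j, hi, hj, hij⟩ := cross h {3} 3 0 (by decide) (by decide)
  fin_cases i <;> fin_cases j <;> first | exact absurd hi (by decide) | exact absurd hj (by decide) | skip
  exacts [h0 hij.symm, h1 hij.symm, h2 hij.symm]

theorem c4_01 {L : SimpleGraph (Fin 4)} (h : L.Connected) :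
    1 ≤ bb L 0 2 + bb L 1 2 + bb L 0 3 + bb L 1 3 := by
  by_contra hc
  have h0 : ¬ L.Adj 0 2 := bb_zero (by omega)
  have h1 : ¬ L.Adj 1 2 := bb_zero (by omega)
  have h2 : ¬ L.Adj 0 3 := bb_zero (by omega)
  have h3 : ¬ L.Adj 1 3 := bb_zero (by omega)
  obtain ⟨i, j, hi, hj, hij⟩ := cross h {0, 1} 0 2 (by decide) (by decide)
  fin_cases i <;> fin_cases j <;> first | exact absurd hi (by decide) | exact absurd hj (by decide) | skip
  exacts [h0 hij, h2 hij, h1 hij, h3 hij]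

theorem c4_02 {L : SimpleGraph (Fin 4)} (h : L.Connected) :
    1 ≤ bb L 0 1 + bb L 1 2 + bb L 0 3 + bb L 2 3 := by
  by_contra hc
  have h0 : ¬ L.Adj 0 1 := bb_zero (by omega)
  have h1 : ¬ L.Adj 1 2 := bb_zero (by omega)
  have h2 : ¬ L.Adj 0 3 := bb_zero (by omega)
  have h3 : ¬ L.Adj 2 3 := bb_zero (by omega)
  obtain ⟨i, j, hi, hj, hij⟩ := cross h {0, 2} 0 1 (by decide) (by decide)
  fin_cases i <;> fin_cases j <;> first | exact absurd hi (by decide) | exact absurd hj (by decide) | skip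
  exacts [h0 hij, h2 hij, h1 hij.symm, h3 hij]

theorem c4_03 {L : SimpleGraph (Fin 4)} (h : L.Connected) :
    1 ≤ bb L 0 1 + bb L 0 2 + bb L 1 3 + bb L 2 3 := by
  by_contra hc
  have h0 : ¬ L.Adj 0 1 := bb_zero (by omega)
  have h1 : ¬ L.Adj 0 2 := bb_zero (by omega)
  have h2 : ¬ L.Adj 1 3 := bb_zero (by omega)
  have h3 : ¬ L.Adj 2 3 := bb_zero (by omega)
  obtain ⟨i, j, hi, hj, hij⟩ := cross h {0, 3} 0 1 (by decide) (by decide)
  fin_cases i <;> fin_cases j <;> first | exact absurd hi (by decide) | exact absurd hj (by decide) | skip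
  exacts [h0 hij, h1 hij, h2 hij.symm, h3 hij.symm]

/-- connectedness of a graph on 4 vertices -/
def conn4 (b01 b02 b12 b03 b13 b23 : ℕ) : Bool := (and (Nat.ble 1 (Nat.add b01 (Nat.add b02 b03))) (and (Nat.ble 1 (Nat.add b01 (Nat.add b12 b13))) (and (Nat.ble 1 (Nat.add b02 (Nat.add b12 b23))) (and (Nat.ble 1 (Nat.add b03 (Nat.add b13 b23))) (and (Nat.ble 1 (Nat.add b02 (Nat.add b12 (Nat.add b03 b13)))) (and (Nat.ble 1 (Nat.add b01 (Nat.add b12 (Nat.add b03 b23)))) (Nat.ble 1 (Nat.add b01 (Nat.add b02 (Nat.add b13 b23))))))))))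

theorem conn4_true {L : SimpleGraph (Fin 4)} (h : L.Connected) : conn4 (bb L 0 1) (bb L 0 2) (bb L 1 2) (bb L 0 3) (bb L 1 3) (bb L 2 3) = true := by
  unfold conn4
  simp only [Bool.and_eq_true, Nat.ble_eq, Nat.add_eq]
  have qc4_0 := c4_0 h
  have qc4_1 := c4_1 h
  have qc4_2 := c4_2 h
  have qc4_3 := c4_3 h
  have qc4_01 := c4_01 h
  have qc4_02 := c4_02 h
  have qc4_03 := c4_03 h
  refine ⟨?_, ?_, ?_, ?_, ?_, ?_, ?_⟩ <;> omega

theorem c5_0 {L : SimpleGraph (Fin 5)} (h : L.Connected) :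
    1 ≤ bb L 0 1 + bb L 0 2 + bb L 0 3 + bb L 0 4 := by
  by_contra hc
  have h0 : ¬ L.Adj 0 1 := bb_zero (by omega)
  have h1 : ¬ L.Adj 0 2 := bb_zero (by omega)
  have h2 : ¬ L.Adj 0 3 := bb_zero (by omega)
  have h3 : ¬ L.Adj 0 4 := bb_zero (by omega)
  obtain ⟨i, j, hi, hj, hij⟩ := cross h {0} 0 1 (by decide) (by decide)
  fin_cases i <;> fin_cases j <;> first | exact absurd hi (by decide) | exact absurd hj (by decide) | skip
  exacts [h0 hij, h1 hij, h2 hij, h3 hij]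

theorem c5_1 {L : SimpleGraph (Fin 5)} (h : L.Connected) :
    1 ≤ bb L 0 1 + bb L 1 2 + bb L 1 3 + bb L 1 4 := by
  by_contra hc
  have h0 : ¬ L.Adj 0 1 := bb_zero (by omega)
  have h1 : ¬ L.Adj 1 2 := bb_zero (by omega)
  have h2 : ¬ L.Adj 1 3 := bb_zero (by omega)
  have h3 : ¬ L.Adj 1 4 := bb_zero (by omega)
  obtain ⟨i, j, hi, hj, hij⟩ := cross h {1} 1 0 (by decide) (by decide)
  fin_cases i <;> fin_cases j <;> first | exact absurd hi (by decide) | exact absurd hj (by decide) | skip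
  exacts [h0 hij.symm, h1 hij, h2 hij, h3 hij]

theorem c5_2 {L : SimpleGraph (Fin 5)} (h : L.Connected) :
    1 ≤ bb L 0 2 + bb L 1 2 + bb L 2 3 + bb L 2 4 := by
  by_contra hc
  have h0 : ¬ L.Adj 0 2 := bb_zero (by omega)
  have h1 : ¬ L.Adj 1 2 := bb_zero (by omega)
  have h2 : ¬ L.Adj 2 3 := bb_zero (by omega)
  have h3 : ¬ L.Adj 2 4 := bb_zero (by omega)
  obtain ⟨i, j, hi, hj, hij⟩ := cross h {2} 2 0 (by decide) (by decide)
  fin_cases i <;> fin_cases j <;> first | exact absurd hi (by decide) | exact absurd hj (by decide) | skip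
  exacts [h0 hij.symm, h1 hij.symm, h2 hij, h3 hij]

theorem c5_3 {L : SimpleGraph (Fin 5)} (h : L.Connected) :
    1 ≤ bb L 0 3 + bb L 1 3 + bb L 2 3 + bb L 3 4 := by
  by_contra hc
  have h0 : ¬ L.Adj 0 3 := bb_zero (by omega)
  have h1 : ¬ L.Adj 1 3 := bb_zero (by omega)
  have h2 : ¬ L.Adj 2 3 := bb_zero (by omega)
  have h3 : ¬ L.Adj 3 4 := bb_zero (by omega)
  obtain ⟨i, j, hi, hj, hij⟩ := cross h {3} 3 0 (by decide) (by decide)
  fin_cases i <;> fin_cases j <;> first | exact absurd hi (by decide) | exact absurd hj (by decide) | skip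
  exacts [h0 hij.symm, h1 hij.symm, h2 hij.symm, h3 hij]

theorem c5_4 {L : SimpleGraph (Fin 5)} (h : L.Connected) :
    1 ≤ bb L 0 4 + bb L 1 4 + bb L 2 4 + bb L 3 4 := by
  by_contra hc
  have h0 : ¬ L.Adj 0 4 := bb_zero (by omega)
  have h1 : ¬ L.Adj 1 4 := bb_zero (by omega)
  have h2 : ¬ L.Adj 2 4 := bb_zero (by omega)
  have h3 : ¬ L.Adj 3 4 := bb_zero (by omega)
  obtain ⟨i, j, hi, hj, hij⟩ := cross h {4} 4 0 (by decide) (by decide)
  fin_cases i <;> fin_cases j <;> first | exact absurd hi (by decide) | exact absurd hj (by decide) | skip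
  exacts [h0 hij.symm, h1 hij.symm, h2 hij.symm, h3 hij.symm]

theorem c5_01 {L : SimpleGraph (Fin 5)} (h : L.Connected) :
    1 ≤ bb L 0 2 + bb L 1 2 + bb L 0 3 + bb L 1 3 + bb L 0 4 + bb L 1 4 := by
  by_contra hc
  have h0 : ¬ L.Adj 0 2 := bb_zero (by omega)
  have h1 : ¬ L.Adj 1 2 := bb_zero (by omega)
  have h2 : ¬ L.Adj 0 3 := bb_zero (by omega)
  have h3 : ¬ L.Adj 1 3 := bb_zero (by omega)
  have h4 : ¬ L.Adj 0 4 := bb_zero (by omega)
  have h5 : ¬ L.Adj 1 4 := bb_zero (by omega)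
  obtain ⟨i, j, hi, hj, hij⟩ := cross h {0, 1} 0 2 (by decide) (by decide)
  fin_cases i <;> fin_cases j <;> first | exact absurd hi (by decide) | exact absurd hj (by decide) | skip
  exacts [h0 hij, h2 hij, h4 hij, h1 hij, h3 hij, h5 hij]

theorem c5_02 {L : SimpleGraph (Fin 5)} (h : L.Connected) :
    1 ≤ bb L 0 1 + bb L 1 2 + bb L 0 3 + bb L 2 3 + bb L 0 4 + bb L 2 4 := by
  by_contra hc
  have h0 : ¬ L.Adj 0 1 := bb_zero (by omega)
  have h1 : ¬ L.Adj 1 2 := bb_zero (by omega)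
  have h2 : ¬ L.Adj 0 3 := bb_zero (by omega)
  have h3 : ¬ L.Adj 2 3 := bb_zero (by omega)
  have h4 : ¬ L.Adj 0 4 := bb_zero (by omega)
  have h5 : ¬ L.Adj 2 4 := bb_zero (by omega)
  obtain ⟨i, j, hi, hj, hij⟩ := cross h {0, 2} 0 1 (by decide) (by decide)
  fin_cases i <;> fin_cases j <;> first | exact absurd hi (by decide) | exact absurd hj (by decide) | skip
  exacts [h0 hij, h2 hij, h4 hij, h1 hij.symm, h3 hij, h5 hij]

theorem c5_03 {L : SimpleGraph (Fin 5)} (h : L.Connected) :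
    1 ≤ bb L 0 1 + bb L 0 2 + bb L 1 3 + bb L 2 3 + bb L 0 4 + bb L 3 4 := by
  by_contra hc
  have h0 : ¬ L.Adj 0 1 := bb_zero (by omega)
  have h1 : ¬ L.Adj 0 2 := bb_zero (by omega)
  have h2 : ¬ L.Adj 1 3 := bb_zero (by omega)
  have h3 : ¬ L.Adj 2 3 := bb_zero (by omega)
  have h4 : ¬ L.Adj 0 4 := bb_zero (by omega)
  have h5 : ¬ L.Adj 3 4 := bb_zero (by omega)
  obtain ⟨i, j, hi, hj, hij⟩ := cross h {0, 3} 0 1 (by decide) (by decide)
  fin_cases i <;> fin_cases j <;> first | exact absurd hi (by decide) | exact absurd hj (by decide) | skip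
  exacts [h0 hij, h1 hij, h4 hij, h2 hij.symm, h3 hij.symm, h5 hij]

theorem c5_04 {L : SimpleGraph (Fin 5)} (h : L.Connected) :
    1 ≤ bb L 0 1 + bb L 0 2 + bb L 0 3 + bb L 1 4 + bb L 2 4 + bb L 3 4 := by
  by_contra hc
  have h0 : ¬ L.Adj 0 1 := bb_zero (by omega)
  have h1 : ¬ L.Adj 0 2 := bb_zero (by omega)
  have h2 : ¬ L.Adj 0 3 := bb_zero (by omega)
  have h3 : ¬ L.Adj 1 4 := bb_zero (by omega)
  have h4 : ¬ L.Adj 2 4 := bb_zero (by omega)
  have h5 : ¬ L.Adj 3 4 := bb_zero (by omega)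
  obtain ⟨i, j, hi, hj, hij⟩ := cross h {0, 4} 0 1 (by decide) (by decide)
  fin_cases i <;> fin_cases j <;> first | exact absurd hi (by decide) | exact absurd hj (by decide) | skip
  exacts [h0 hij, h1 hij, h2 hij, h3 hij.symm, h4 hij.symm, h5 hij.symm]

theorem c5_12 {L : SimpleGraph (Fin 5)} (h : L.Connected) :
    1 ≤ bb L 0 1 + bb L 0 2 + bb L 1 3 + bb L 2 3 + bb L 1 4 + bb L 2 4 := by
  by_contra hc
  have h0 : ¬ L.Adj 0 1 := bb_zero (by omega)
  have h1 : ¬ L.Adj 0 2 := bb_zero (by omega)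
  have h2 : ¬ L.Adj 1 3 := bb_zero (by omega)
  have h3 : ¬ L.Adj 2 3 := bb_zero (by omega)
  have h4 : ¬ L.Adj 1 4 := bb_zero (by omega)
  have h5 : ¬ L.Adj 2 4 := bb_zero (by omega)
  obtain ⟨i, j, hi, hj, hij⟩ := cross h {1, 2} 1 0 (by decide) (by decide)
  fin_cases i <;> fin_cases j <;> first | exact absurd hi (by decide) | exact absurd hj (by decide) | skip
  exacts [h0 hij.symm, h2 hij, h4 hij, h1 hij.symm, h3 hij, h5 hij]

theorem c5_13 {L : SimpleGraph (Fin 5)} (h : L.Connected) :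
    1 ≤ bb L 0 1 + bb L 1 2 + bb L 0 3 + bb L 2 3 + bb L 1 4 + bb L 3 4 := by
  by_contra hc
  have h0 : ¬ L.Adj 0 1 := bb_zero (by omega)
  have h1 : ¬ L.Adj 1 2 := bb_zero (by omega)
  have h2 : ¬ L.Adj 0 3 := bb_zero (by omega)
  have h3 : ¬ L.Adj 2 3 := bb_zero (by omega)
  have h4 : ¬ L.Adj 1 4 := bb_zero (by omega)
  have h5 : ¬ L.Adj 3 4 := bb_zero (by omega)
  obtain ⟨i, j, hi, hj, hij⟩ := cross h {1, 3} 1 0 (by decide) (by decide)
  fin_cases i <;> fin_cases j <;> first | exact absurd hi (by decide) | exact absurd hj (by decide) | skip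
  exacts [h0 hij.symm, h1 hij, h4 hij, h2 hij.symm, h3 hij.symm, h5 hij]

theorem c5_14 {L : SimpleGraph (Fin 5)} (h : L.Connected) :
    1 ≤ bb L 0 1 + bb L 1 2 + bb L 1 3 + bb L 0 4 + bb L 2 4 + bb L 3 4 := by
  by_contra hc
  have h0 : ¬ L.Adj 0 1 := bb_zero (by omega)
  have h1 : ¬ L.Adj 1 2 := bb_zero (by omega)
  have h2 : ¬ L.Adj 1 3 := bb_zero (by omega)
  have h3 : ¬ L.Adj 0 4 := bb_zero (by omega)
  have h4 : ¬ L.Adj 2 4 := bb_zero (by omega)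
  have h5 : ¬ L.Adj 3 4 := bb_zero (by omega)
  obtain ⟨i, j, hi, hj, hij⟩ := cross h {1, 4} 1 0 (by decide) (by decide)
  fin_cases i <;> fin_cases j <;> first | exact absurd hi (by decide) | exact absurd hj (by decide) | skip
  exacts [h0 hij.symm, h1 hij, h2 hij, h3 hij.symm, h4 hij.symm, h5 hij.symm]

theorem c5_23 {L : SimpleGraph (Fin 5)} (h : L.Connected) :
    1 ≤ bb L 0 2 + bb L 1 2 + bb L 0 3 + bb L 1 3 + bb L 2 4 + bb L 3 4 := by
  by_contra hc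
  have h0 : ¬ L.Adj 0 2 := bb_zero (by omega)
  have h1 : ¬ L.Adj 1 2 := bb_zero (by omega)
  have h2 : ¬ L.Adj 0 3 := bb_zero (by omega)
  have h3 : ¬ L.Adj 1 3 := bb_zero (by omega)
  have h4 : ¬ L.Adj 2 4 := bb_zero (by omega)
  have h5 : ¬ L.Adj 3 4 := bb_zero (by omega)
  obtain ⟨i, j, hi, hj, hij⟩ := cross h {2, 3} 2 0 (by decide) (by decide)
  fin_cases i <;> fin_cases j <;> first | exact absurd hi (by decide) | exact absurd hj (by decide) | skip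
  exacts [h0 hij.symm, h1 hij.symm, h4 hij, h2 hij.symm, h3 hij.symm, h5 hij]

theorem c5_24 {L : SimpleGraph (Fin 5)} (h : L.Connected) :
    1 ≤ bb L 0 2 + bb L 1 2 + bb L 2 3 + bb L 0 4 + bb L 1 4 + bb L 3 4 := by
  by_contra hc
  have h0 : ¬ L.Adj 0 2 := bb_zero (by omega)
  have h1 : ¬ L.Adj 1 2 := bb_zero (by omega)
  have h2 : ¬ L.Adj 2 3 := bb_zero (by omega)
  have h3 : ¬ L.Adj 0 4 := bb_zero (by omega)
  have h4 : ¬ L.Adj 1 4 := bb_zero (by omega)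
  have h5 : ¬ L.Adj 3 4 := bb_zero (by omega)
  obtain ⟨i, j, hi, hj, hij⟩ := cross h {2, 4} 2 0 (by decide) (by decide)
  fin_cases i <;> fin_cases j <;> first | exact absurd hi (by decide) | exact absurd hj (by decide) | skip
  exacts [h0 hij.symm, h1 hij.symm, h2 hij, h3 hij.symm, h4 hij.symm, h5 hij.symm]

theorem c5_34 {L : SimpleGraph (Fin 5)} (h : L.Connected) :
    1 ≤ bb L 0 3 + bb L 1 3 + bb L 2 3 + bb L 0 4 + bb L 1 4 + bb L 2 4 := by
  by_contra hc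
  have h0 : ¬ L.Adj 0 3 := bb_zero (by omega)
  have h1 : ¬ L.Adj 1 3 := bb_zero (by omega)
  have h2 : ¬ L.Adj 2 3 := bb_zero (by omega)
  have h3 : ¬ L.Adj 0 4 := bb_zero (by omega)
  have h4 : ¬ L.Adj 1 4 := bb_zero (by omega)
  have h5 : ¬ L.Adj 2 4 := bb_zero (by omega)
  obtain ⟨i, j, hi, hj, hij⟩ := cross h {3, 4} 3 0 (by decide) (by decide)
  fin_cases i <;> fin_cases j <;> first | exact absurd hi (by decide) | exact absurd hj (by decide) | skip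
  exacts [h0 hij.symm, h1 hij.symm, h2 hij.symm, h3 hij.symm, h4 hij.symm, h5 hij.symm]

/-- connectedness of a graph on 5 vertices -/
def conn5 (b01 b02 b12 b03 b13 b23 b04 b14 b24 b34 : ℕ) : Bool := (and (Nat.ble 1 (Nat.add b01 (Nat.add b02 (Nat.add b03 b04)))) (and (Nat.ble 1 (Nat.add b01 (Nat.add b12 (Nat.add b13 b14)))) (and (Nat.ble 1 (Nat.add b02 (Nat.add b12 (Nat.add b23 b24)))) (and (Nat.ble 1 (Nat.add b03 (Nat.add b13 (Nat.add b23 b34)))) (and (Nat.ble 1 (Nat.add b04 (Nat.add b14 (Nat.add b24 b34)))) (and (Nat.ble 1 (Nat.add b02 (Nat.add b12 (Nat.add b03 (Nat.add b13 (Nat.add b04 b14)))))) (and (Nat.ble 1 (Nat.add b01 (Nat.add b12 (Nat.add b03 (Nat.add b23 (Nat.add b04 b24)))))) (and (Nat.ble 1 (Nat.add b01 (Nat.add b02 (Nat.add b13 (Nat.add b23 (Nat.add b04 b34)))))) (and (Nat.ble 1 (Nat.add b01 (Nat.add b02 (Nat.add b03 (Nat.add b14 (Nat.add b24 b34)))))) (and (Nat.ble 1 (Nat.add b01 (Nat.add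 b02 (Nat.add b13 (Nat.add b23 (Nat.add b14 b24)))))) (and (Nat.ble 1 (Nat.add b01 (Nat.add b12 (Nat.add b03 (Nat.add b23 (Nat.add b14 b34)))))) (and (Nat.ble 1 (Nat.add b01 (Nat.add b12 (Nat.add b13 (Nat.add b04 (Nat.add b24 b34)))))) (and (Nat.ble 1 (Nat.add b02 (Nat.add b12 (Nat.add b03 (Nat.add b13 (Nat.add b24 b34)))))) (and (Nat.ble 1 (Nat.add b02 (Nat.add b12 (Nat.add b23 (Nat.add b04 (Nat.add b14 b34)))))) (Nat.ble 1 (Nat.add b03 (Nat.add b13 (Nat.add b23 (Nat.add b04 (Nat.add b14 b24))))))))))))))))))))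

theorem conn5_true {L : SimpleGraph (Fin 5)} (h : L.Connected) : conn5 (bb L 0 1) (bb L 0 2) (bb L 1 2) (bb L 0 3) (bb L 1 3) (bb L 2 3) (bb L 0 4) (bb L 1 4) (bb L 2 4) (bb L 3 4) = true := by
  unfold conn5
  simp only [Bool.and_eq_true, Nat.ble_eq, Nat.add_eq]
  have qc5_0 := c5_0 h
  have qc5_1 := c5_1 h
  have qc5_2 := c5_2 h
  have qc5_3 := c5_3 h
  have qc5_4 := c5_4 h
  have qc5_01 := c5_01 h
  have qc5_02 := c5_02 h
  have qc5_03 := c5_03 h
  have qc5_04 := c5_04 h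
  have qc5_12 := c5_12 h
  have qc5_13 := c5_13 h
  have qc5_14 := c5_14 h
  have qc5_23 := c5_23 h
  have qc5_24 := c5_24 h
  have qc5_34 := c5_34 h
  refine ⟨?_, ?_, ?_, ?_, ?_, ?_, ?_, ?_, ?_, ?_, ?_, ?_, ?_, ?_, ?_⟩ <;> omega

end Pool.Agent.U986.LC
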