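import Pool.Agent.U986.LC.Defs
import Pool.Agent.N238.G6.Base2
import Pool.Agent.TH773.ST.Avg

/-! From certificates with a six-vertex right side to homomorphisms of cones. -/

set_option autoImplicit false
set_option maxRecDepth 100000
set_option maxHeartbeats 4000000
open Finset
open scoped Classical

namespace Pool.Agent.U986.LC
open Pool.Agent.H122R2.N6 hiding K43Free
open Pool.Agent.H37R3.Pen hiding bt
open Pool.Agent.R85.GT Pool.Agent.Y580.FL Pool.Agent.TH773.ST Pool.Agent.N238.G6

/-- the number of homomorphisms from the 3-graph with mask `F` -/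
def N6 {V : Type} [Fintype V] (E : V → V → V → ℕ) (F : ℕ) : ℕ := ∑ x : Fin 6 → V, SubI E F x

/-- the cube of the number of vertices times the number of ordered edges -/
def X3 {V : Type} [Fintype V] (E : V → V → V → ℕ) : ℕ :=
  Fintype.card V ^ 3 * ∑ a, ∑ b, ∑ c, E a b c

/-- what is proved for a 3-graph with mask `F` and `tc` colourings -/
def Fact (lam tc F : ℕ) : Prop :=
  ∀ {V : Type} [Fintype V] {E : V → V → V → ℕ}, Sy E → NoK4 E →
    729 * (lam * N6 E F + X3 E) + NT E ≤ (lam * tc + 405) * Fintype.card V ^ 6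

section
variable {V : Type} [Fintype V] {E : V → V → V → ℕ}

/-- stability -/
theorem stab (hE : Sy E) (hK : NoK4 E) {Y : ℕ} (hN : 645120 * NT E ≤ Y)
    (hS : 1000 * X3 E ≤ 550 * Fintype.card V ^ 6 → Fintype.card V ^ 6 ≤ Y) :
    ∃ g : V → Fin 3, Fintype.card V ^ 3 * bad E g ≤ Y := by
  obtain ⟨g, hg⟩ := exists_col (E := E)
  refine ⟨g, ?_⟩
  have h1 := seeds_card hE hK
  have hb := bad_le (E := E) g
  rw [mul_assoc] at h1
  unfold X3 at hS
  generalize (∑ a, ∑ b, ∑ c, E a b c) = S at hS h1 ⊢
  generalize bad E g = b at hg hb ⊢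
  generalize (Seeds E).card = q at hg h1
  generalize NT E = N at hg hN
  generalize Fintype.card V = n at hg hS h1 hb ⊢
  by_cases hc : 1000 * (n ^ 3 * S) ≤ 550 * n ^ 6
  · have h2 : n ^ 3 * b ≤ n ^ 6 := by
      calc n ^ 3 * b ≤ n ^ 3 * n ^ 3 := Nat.mul_le_mul_left _ hb
        _ = n ^ 6 := by ring
    exact h2.trans (hS hc)
  · push Not at hc
    rcases Nat.eq_zero_or_pos n with hn | hn
    · subst hn
      simp only [Nat.zero_pow (n := 3) (by norm_num), Nat.zero_pow (n := 6) (by norm_num), zero_mul, mul_zero, lt_irrefl] at hc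
    have h3 : 5 * n ^ 6 < 460800 * (q * n) := by
      generalize n ^ 3 * S = Y at hc h1
      generalize n ^ 6 = W at hc h1 ⊢
      generalize q * n = Z at h1 ⊢
      omega
    have h4 : 5 * n ^ 5 ≤ 460800 * q := by
      have h5 : (5 * n ^ 5) * n ≤ (460800 * q) * n := by
        calc (5 * n ^ 5) * n = 5 * n ^ 6 := by ring
          _ ≤ 460800 * (q * n) := h3.le
          _ = (460800 * q) * n := by ring
      exact Nat.le_of_mul_le_mul_right h5 hn
    have h6 : n ^ 3 * b ≤ 645120 * N := by
      have h7 : (5 * n ^ 5) * b ≤ 460800 * (7 * (N * n ^ 2)) := by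
        calc (5 * n ^ 5) * b ≤ (460800 * q) * b := Nat.mul_le_mul_right _ h4
          _ = 460800 * (q * b) := by ring
          _ ≤ 460800 * (7 * (N * n ^ 2)) := Nat.mul_le_mul_left _ hg
      have h8 : (5 * n ^ 2) * (n ^ 3 * b) ≤ (5 * n ^ 2) * (645120 * N) := by
        calc (5 * n ^ 2) * (n ^ 3 * b) = (5 * n ^ 5) * b := by ring
          _ ≤ 460800 * (7 * (N * n ^ 2)) := h7
          _ = (5 * n ^ 2) * (645120 * N) := by ring
      exact Nat.le_of_mul_le_mul_left h8 (by positivity)
    exact h6.trans hN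

/-- the conclusions from two certificates, with the defect `D` of the first one -/
theorem fin2 (hE : Sy E) (hK : NoK4 E) {tc F : ℕ} (h1 : Fact 1 tc F) (h2 : Fact 2 tc F) :
    729 * (N6 E F + X3 E) ≤ (tc + 405) * Fintype.card V ^ 6 ∧
    729 * (2 * N6 E F + X3 E) ≤ (2 * tc + 405) * Fintype.card V ^ 6 ∧
    ∃ g : V → Fin 3, Fintype.card V ^ 3 * bad E g + 645120 * (729 * (N6 E F + X3 E)) ≤
      645120 * ((tc + 405) * Fintype.card V ^ 6) := by
  have a1 := h1 hE hK
  have a2 := h2 hE hK
  rw [one_mul, one_mul] at a1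
  obtain ⟨D, hD⟩ : ∃ D, (tc + 405) * Fintype.card V ^ 6 = 729 * (N6 E F + X3 E) + D :=
    Nat.exists_eq_add_of_le ((Nat.le_add_right _ _).trans a1)
  have hN : NT E ≤ D := by omega
  refine ⟨(Nat.le_add_right _ _).trans a1, (Nat.le_add_right _ _).trans a2, ?_⟩
  obtain ⟨g, hg⟩ := stab hE hK (Y := 645120 * D) (Nat.mul_le_mul_left _ hN) (by
    intro hx
    have e2 : (2 * tc + 405) * Fintype.card V ^ 6 = 2 * (tc * Fintype.card V ^ 6) +
      405 * Fintype.card V ^ 6 := by ring
    have e1 : (tc + 405) * Fintype.card V ^ 6 = tc * Fintype.card V ^ 6 +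
      405 * Fintype.card V ^ 6 := by ring
    rw [e2] at a2
    rw [e1] at hD
    generalize tc * Fintype.card V ^ 6 = T at a2 hD
    generalize Fintype.card V ^ 6 = W at a2 hD hx ⊢
    generalize N6 E F = N at a2 hD
    generalize X3 E = X at a2 hD hx
    omega)
  refine ⟨g, ?_⟩
  rw [hD, Nat.mul_add]
  omega

end

/-! ### 3-graphs -/

section
variable {n : ℕ}

theorem tri_iff {H : Finset (Finset (Fin n))} {a b c : Fin n} :
    tri H a b c = 1 ↔ ({a, b, c} : Finset (Fin n)) ∈ H := by
  unfold tri
  have e : (@insert (Fin n) (Finset (Fin n)) (@Finset.instInsert (Fin n) fun a b => Classical.propDecidable (a = b)) a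
      (@insert (Fin n) (Finset (Fin n)) (@Finset.instInsert (Fin n) fun a b => Classical.propDecidable (a = b)) b {c})) = ({a, b, c} : Finset (Fin n)) := by
    ext t
    simp only [mem_insert, mem_singleton]
  rw [e]
  split_ifs with h <;> simp [h]

theorem tri_ite (H : Finset (Finset (Fin n))) (a b c : Fin n) :
    tri H a b c = if ({a, b, c} : Finset (Fin n)) ∈ H then 1 else 0 := by
  split_ifs with h
  · exact tri_iff.mpr h
  · have h1 : tri H a b c ≠ 1 := fun h2 => h (tri_iff.mp h2)
    rcases (tri_sy H).b a b c with h2 | h2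
    · exact h2
    · exact absurd h2 h1

theorem univ_turan : ∀ g : Fin 3 → Fin 3, (univ : Finset (Fin 3)) ∈ turan g ↔
    Rf (g 0) (g 1) (g 2) = 1 := by
  unfold turan
  decide +kernel

theorem mem_turan_comp {m : ℕ} (g : Fin n → Fin 3) (f : Fin m → Fin n)
    (hf : Function.Injective f) (t : Finset (Fin m)) :
    t.image f ∈ turan g ↔ t ∈ turan (g ∘ f) := by
  unfold turan
  have e : ∀ p, ((t.image f).filter fun i => g i = p).card =
      (t.filter fun i => (g ∘ f) i = p).card := by
    intro p
    rw [filter_image, card_image_of_injective _ hf]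
    rfl
  rw [mem_filter, mem_filter, mem_powersetCard, mem_powersetCard, card_image_of_injective _ hf]
  simp only [e, subset_univ, true_and, mem_image, exists_exists_and_eq_and, Function.comp]

theorem mem_turan {g : Fin n → Fin 3} {a b c : Fin n} (hab : a ≠ b) (hac : a ≠ c) (hbc : b ≠ c) :
    ({a, b, c} : Finset (Fin n)) ∈ turan g ↔ Rf (g a) (g b) (g c) = 1 := by
  have hf : Function.Injective ![a, b, c] := by
    intro i j h
    fin_cases i <;> fin_cases j <;> simp_all
  have h1 : ({a, b, c} : Finset (Fin n)) = (univ : Finset (Fin 3)).image ![a, b, c] := by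
    ext v
    simp only [mem_insert, mem_singleton, mem_image, mem_univ, true_and, Fin.exists_fin_succ]
    simp [eq_comm]
  rw [h1, mem_turan_comp g _ hf, univ_turan]
  rfl

theorem turan_card {g : Fin n → Fin 3} {e : Finset (Fin n)} (he : e ∈ turan g) :
    e.card = 3 := (mem_powersetCard.mp (mem_filter.mp he).1).2

end

end Pool.Agent.U986.LC
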