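import Mathlib

/-! Definitions used in statements about Turán's `(3,4)`-problem and small graphs in the links. -/

set_option autoImplicit false
open Finset
open scoped Classical

namespace Pool.Agent.U986.LC

/-- The 3-graph `H` has no four vertices spanning all four triples. -/
def K43Free {n : ℕ} (H : Finset (Finset (Fin n))) : Prop :=
  ∀ S : Finset (Fin n), S.card = 4 → ∃ s ⊆ S, s.card = 3 ∧ s ∉ H

/-- Turán's construction for the division of the vertices into the parts `g = 0`, `g = 1`, `g = 2`:
the triples that meet all three parts, and the triples with two vertices in one part and one vertex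
in the following part, where part 0 follows part 2. -/
def turan {n : ℕ} (g : Fin n → Fin 3) : Finset (Finset (Fin n)) :=
  ((univ : Finset (Fin n)).powersetCard 3).filter fun t =>
    (∀ p, ∃ i ∈ t, g i = p) ∨
      ∃ p, (t.filter fun i => g i = p).card = 2 ∧ (t.filter fun i => g i = p + 1).card = 1

/-- The number of homomorphisms of the 3-graph `F` to the 3-graph `H`: the maps of the vertices which
map every edge of `F` onto an edge of `H`. -/
noncomputable def homs {k n : ℕ} (F : Finset (Finset (Fin k))) (H : Finset (Finset (Fin n))) : ℕ :=
  ((univ : Finset (Fin k → Fin n)).filter fun f => ∀ t ∈ F, t.image f ∈ H).card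

/-- The number of colourings `c` of the vertices of `F` with the three parts for which every edge of
`F` is an edge of Turán's construction with the parts `c = 0`, `c = 1`, `c = 2`. -/
noncomputable def cols {k : ℕ} (F : Finset (Finset (Fin k))) : ℕ :=
  ((univ : Finset (Fin k → Fin 3)).filter fun c => F ⊆ turan c).card

/-- The cone over the graph `L` on `0, …, k - 1`: the 3-graph on `0, …, k` whose edges are the
triples `{0, i + 1, j + 1}` for the edges `{i, j}` of `L`. A homomorphism of the cone to a 3-graph `H`
is a vertex `v` of `H` together with a homomorphism of `L` to the link graph of `v`. -/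
noncomputable def cone {k : ℕ} (L : SimpleGraph (Fin k)) : Finset (Finset (Fin (k + 1))) :=
  (univ : Finset (Finset (Fin (k + 1)))).filter fun e => ∃ i j, L.Adj i j ∧ e = {0, i.succ, j.succ}

end Pool.Agent.U986.LC
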