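import Pool.Agent.N238.G6.Base2

set_option autoImplicit false
set_option maxRecDepth 100000

namespace Pool.Agent.U986.LC.FG2
open Pool.Agent.N238.G6

def L : ℕ := 0x12800098002014000260b00008a0008030008208010480010a124002140010c0002c0020110100300041220050001500820400824020060800c0020ce00004900040240d000070000488004180040220400608c0002500004108860000e0002440005400041020400a80280100a002084801800038010090000b00208200086010410082100411010090004900805000250040300013
def PL : ℕ := 0x31aa2322a15a86b2224c8b0c42b1518c585a16346c419519a1c429711a2346855885d46056321d421ad084d81a3634254589486ac21a0d1b0466a15988b42c688b0c62a708a8d62274888446b11aa45899508ae222b518a634295606654193508cd6a0362615223a888d5660ad1815858b1161d81176141d88895846c61195942c65095a22c688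
def T0 : Tr := (.node 1 (.node 4 .one (.node 10 .one .nil)) (.node 2 (.node 5 .one (.node 11 .one .nil)) (.node 3 (.node 6 .one (.node 12 .one .nil)) (.node 4 (.node 10 .one .nil) (.node 5 (.node 11 .one .nil) (.node 6 (.node 12 .one .nil) .nil))))))
def T1 : Tr := (.node 1 (.node 2 .one (.node 13 .one .nil)) (.node 4 (.node 5 .one (.node 16 .one .nil)) (.node 8 (.node 9 .one (.node 19 .one .nil)) (.node 2 (.node 13 .one .nil) (.node 5 (.node 16 .one .nil) (.node 9 (.node 19 .one .nil) .nil))))))
def T2 : Tr := (.node 1 (.node 3 .one (.node 8 .one .nil)) (.node 10 (.node 12 .one (.node 17 .one .nil)) (.node 13 (.node 15 .one (.node 19 .one .nil)) (.node 3 (.node 8 .one .nil) (.node 12 (.node 17 .one .nil) (.node 15 (.node 19 .one .nil) .nil))))))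
def T3 : Tr := (.node 5 (.node 6 .one (.node 9 .one .nil)) (.node 11 (.node 12 .one (.node 15 .one .nil)) (.node 16 (.node 17 .one (.node 19 .one .nil)) (.node 6 (.node 9 .one .nil) (.node 12 (.node 15 .one .nil) (.node 17 (.node 19 .one .nil) .nil))))))
def T4 : Tr := (.node 3 (.node 9 .one (.node 15 .one .nil)) (.node 1 (.node 13 .one .nil) (.node 5 (.node 11 .one .nil) (.node 9 (.node 15 .one .nil) .nil))))
def T5 : Tr := (.node 6 (.node 8 .one (.node 17 .one .nil)) (.node 1 (.node 10 .one .nil) (.node 5 (.node 16 .one .nil) (.node 8 (.node 17 .one .nil) .nil))))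
def T6 : Tr := (.node 11 (.node 13 .one (.node 16 .one .nil)) (.node 12 (.node 17 .one .nil) (.node 13 (.node 16 .one .nil) .nil)))
def T7 : Tr := (.node 1 (.node 8 .one .nil) (.node 6 (.node 12 .one .nil) (.node 9 (.node 15 .one .nil) .nil)))
def T8 : Tr := (.node 8 (.node 9 .one .nil) (.node 13 (.node 15 .one .nil) (.node 16 (.node 17 .one .nil) .nil)))
def T9 : Tr := (.node 5 (.node 9 .one .nil) (.node 8 (.node 17 .one .nil) .nil))
def T10 : Tr := (.node 12 (.node 15 .one .nil) (.node 13 (.node 16 .one .nil) .nil))
/-- the tree of the masks -/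
def T : Tr := (.node 0 T0 (.node 7 T1 (.node 14 T2 (.node 18 T3 (.node 2 T4 (.node 4 T5 (.node 10 T6 (.node 3 T7 (.node 19 T8 (.node 6 T9 (.node 11 T10 .nil)))))))))))
theorem cT : chkC L 60 (cds T) 0 = true := by decide +kernel
def Q0 : ℕ := 0x643a040380dc1a0442809c090542f0c0140302a0ac2c02c340cc12094240801e0702307c220742106c360ec0f05c160c42e028260d4390600e0342d0a4130c8070200600c020140400400
theorem cs0 : chkS L Q0 181889 60 = true := by decide +kernel
def Q1 : ℕ := 0xc41408429080170d4180cc240ec1d0bc2e0702c09c1b0e0130ac260483208c190e43707c150c02d0a81a088340d8160783a0a0250380c028110341002c0f0240801807014040040000c02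
theorem cs1 : chkS L Q1 181840 60 = true := by decide +kernel
def Q2 : ℕ := 0xec160e40d07c1e08434060040bc150c42e0a80c0182d0a42803c030942408c1a0d4200dc3605c1103822064330743a0c014020050701009c1b0e02c02c07008130282b048320980900400
theorem cs2 : chkS L Q2 181448 60 = true := by decide +kernel
def Q3 : ℕ := 0xec1d0602405c200d4210cc290c4140b82f04c260ac120c81c09c2c06c38068220d0360581e0e82809423064390dc1f054300b42a0440f0400e0340a0240c02c0500c010200401c0201800
theorem cs3 : chkS L Q3 178312 60 = true := by decide +kernel
theorem okF : okm 19 = true := by decide +kernel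
theorem cL : chkL 19 L PL 60 = true := by decide +kernel

end Pool.Agent.U986.LC.FG2
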