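import Pool.Agent.N238.G6.Base2

set_option autoImplicit false
set_option maxRecDepth 100000

namespace Pool.Agent.U986.LC.FG5
open Pool.Agent.N238.G6

def L : ℕ := 0x318000b4000924001450211080180c0a2803018002490002d0108840018c0cc002404836000078000600c0c300061800514004510003301202408a20028a000c303006001860001e00006c5140060c0050050600306c0005a000480484802460300502804120840a04205021048224012120120a00a0140a0028a0005a0c00600c060030600036a9000c500098800c280094400a2400a0240902208420882204c0140901108810882102c00a0a009088084840824084120441410211042121011108110880904409002290011909005024050024500095050030280300143000a3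
def PL : ℕ := 0x6621626450ec29ab0112b461ac22ac0d1ac44ec22a64432b4298838d11458d146316168586a0c2b0b46c0c3b114ec06b44436340bb022ec41ab0866a119b02a5a1298c26a115c4456a911d4440a334a8c516328d8c20ab30aac412b28cac252b054ac85630558c88a90e2ac1aa10ea8c19510e2ac8b110ea8c80e234468d2e214c6854e11546450ea30ba8412a2cca8315a313a441622d4a4335a1156443620d584372909ca8176109ca8876205d8888e90a3a81ae10ab8819590a3a88b190ab88895a065688b1a06c688
def T0 : Tr := (.node 1 (.node 5 (.node 7 .one .nil) (.node 6 (.node 8 .one .nil) (.node 11 (.node 13 .one .nil) (.node 12 (.node 14 .one .nil) .nil)))) (.node 2 (.node 4 (.node 7 .one .nil) (.node 6 (.node 9 .one .nil) (.node 10 (.node 13 .one .nil) (.node 12 (.node 15 .one .nil) .nil)))) (.node 3 (.node 4 (.node 8 .one .nil) (.node 5 (.node 9 .one .nil) (.node 10 (.node 14 .one .nil) (.node 11 (.node 15 .one .nil) .nil)))) (.node 4 (.node 11 (.node 16 .one .nil) (.node 12 (.node 17 .one .nil) .nil)) (.node 5 (.node 10 (.node 16 .one .nil) (.node 12 (.node 18 .one .nil) .nil)) (.node 6 (.node 10 (.node 17 .one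 .nil) (.node 11 (.node 18 .one .nil) .nil)) .nil))))))
def T1 : Tr := (.node 7 (.node 1 (.node 14 .one .nil) (.node 2 (.node 15 .one .nil) (.node 4 (.node 17 .one .nil) (.node 5 (.node 18 .one .nil) .nil)))) (.node 8 (.node 1 (.node 13 .one .nil) (.node 3 (.node 15 .one .nil) (.node 4 (.node 16 .one .nil) (.node 6 (.node 18 .one .nil) .nil)))) (.node 9 (.node 2 (.node 13 .one .nil) (.node 3 (.node 14 .one .nil) (.node 5 (.node 16 .one .nil) (.node 6 (.node 17 .one .nil) .nil)))) (.node 10 (.node 13 (.node 17 .one .nil) (.node 14 (.node 16 .one .nil) .nil)) (.node 11 (.node 13 (.node 18 .one .nil) (.node 15 (.node 16 .one .nil) .nil)) (.node 12 (.node 14 (.node 18 .one .nil) (.node 15 (.node 17 .one .nil) .nil)) .nil))))))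
def T2 : Tr := (.node 2 (.node 4 (.node 5 .one .nil) (.node 8 (.node 9 .one .nil) (.node 10 (.node 11 .one .nil) (.node 14 (.node 15 .one .nil) .nil)))) (.node 3 (.node 4 (.node 6 .one .nil) (.node 7 (.node 9 .one .nil) (.node 10 (.node 12 .one .nil) (.node 13 (.node 15 .one .nil) .nil)))) (.node 4 (.node 13 (.node 16 .one .nil) (.node 14 (.node 17 .one .nil) .nil)) (.node 10 (.node 7 (.node 16 .one .nil) (.node 8 (.node 17 .one .nil) .nil)) .nil))))
def T3 : Tr := (.node 9 (.node 2 (.node 11 .one .nil) (.node 3 (.node 12 .one .nil) (.node 7 (.node 16 .one .nil) (.node 8 (.node 17 .one .nil) .nil)))) (.node 15 (.node 2 (.node 5 .one .nil) (.node 3 (.node 6 .one .nil) (.node 13 (.node 16 .one .nil) (.node 14 (.node 17 .one .nil) .nil)))) (.node 4 (.node 5 (.node 17 .one .nil) (.node 6 (.node 16 .one .nil) .nil)) (.node 10 (.node 11 (.node 17 .one .nil) (.node 12 (.node 16 .one .nil) .nil)) .nil))))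
def T4 : Tr := (.node 6 (.node 2 (.node 3 .one .nil) (.node 7 (.node 8 .one .nil) (.node 11 (.node 12 .one .nil) (.node 16 (.node 17 .one .nil) .nil)))) (.node 11 (.node 4 (.node 10 .one .nil) (.node 7 (.node 13 .one .nil) (.node 9 (.node 15 .one .nil) .nil))) (.node 2 (.node 13 (.node 16 .one .nil) .nil) (.node 4 (.node 8 (.node 9 .one .nil) .nil) .nil))))
def T5 : Tr := (.node 8 (.node 4 (.node 10 .one .nil) (.node 6 (.node 12 .one .nil) (.node 7 (.node 13 .one .nil) (.node 9 (.node 15 .one .nil) .nil)))) (.node 13 (.node 2 (.node 3 .one .nil) (.node 11 (.node 12 .one .nil) (.node 16 (.node 17 .one .nil) .nil))) (.node 3 (.node 6 (.node 17 .one .nil) .nil) (.node 10 (.node 11 (.node 15 .one .nil) .nil) .nil))))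
def T6 : Tr := (.node 2 (.node 3 (.node 8 .one .nil) (.node 11 (.node 16 .one .nil) .nil)) (.node 4 (.node 6 (.node 9 .one .nil) (.node 10 (.node 13 .one .nil) .nil)) (.node 8 (.node 16 (.node 17 .one .nil) .nil) (.node 9 (.node 13 (.node 15 .one .nil) .nil) .nil))))
def T7 : Tr := (.node 3 (.node 2 (.node 11 .one .nil) (.node 8 (.node 17 .one .nil) .nil)) (.node 6 (.node 4 (.node 10 .one .nil) (.node 9 (.node 15 .one .nil) .nil)) (.node 10 (.node 13 (.node 15 .one .nil) .nil) (.node 11 (.node 16 (.node 17 .one .nil) .nil) .nil))))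
/-- the tree of the masks -/
def T : Tr := (.node 0 T0 (.node 19 T1 (.node 1 T2 (.node 18 T3 (.node 5 T4 (.node 14 T5 (.node 7 T6 (.node 12 T7 .nil))))))))
theorem cT : chkC L 90 (cds T) 0 = true := by decide +kernel
def Q0 : ℕ := 0x1644d1084013c5412052114441544e1604312c4a1245311c411445013057118560fc3e0f43c0e83b0e0390d8370d0350c8330c0310b82f0b02d09c26094240ac2a0a4280842008c220781f0701d0681b0541404c120641805c1603c0e044100300d01c060140402c0a024080080300001
theorem cs0 : chkS L Q0 181889 90 = true := by decide +kernel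
def Q1 : ℕ := 0xec4a1183e0c42a11c321043d0b829134350d8580ac4814c57108440b045144400e456140281643a0fc380dc4b1302d0cc521542f0c04f0d043124541383c09c26094240882307c1e084200641805c160741c06c1a0501504813040110340c03c0e0280b0200900c020040001c0601404
theorem cs1 : chkS L Q1 181840 90 = true := by decide +kernel
def Q2 : ℕ := 0x12c4d12045130491083f1004410c3c160551644a150570f8461585013c5310451148470f44e07c1e0601408c2105c130741c06c1a0400e0340c02c0a0240801c06014040dc220d8200ec3a0cc320c430064390d411054380d00f0582f0482e0b42c0ac2a0a42809c260942400c0200400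
theorem cs2 : chkS L Q2 181448 90 = true := by decide +kernel
def Q3 : ℕ := 0x1283b0c42a1183e0c8470b8291043d0e84c12c590fc33148550bc2510c3013c26124541383c1604d0ac270dc360d4341205315c42114510b42c0e456140280e0401102408823080210781f06c1a0741c05c160641804c120541402c0a01c0600c02044100140103c0e024000340c02004
theorem cs3 : chkS L Q3 178312 90 = true := by decide +kernel
theorem okF : okm 163 = true := by decide +kernel
theorem cL : chkL 163 L PL 90 = true := by decide +kernel

end Pool.Agent.U986.LC.FG5
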