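import Pool.Agent.N238.G6.Base2

set_option autoImplicit false
set_option maxRecDepth 100000

namespace Pool.Agent.U986.LC.FG6
open Pool.Agent.N238.G6

def L : ℕ := 0x24510364000ec000e00c0c308241481249030190003d0128840a2840038c2145031c000bc000980c09248211480f800251400f4000dc0007c0025108250480514810c3030070003701282408a240026c128a0003e0003b0002f0001f0120a4108a4028a470c005a80048a0470050603404824871800412487140061c0051c006d000492404920849048700304882448a20502a04822440a2470060418606007050070124820038a24502061820e00a0540a12092241120015a2441212412205120451210492024920e00602c0600386000b60c00e0030e0a00e0600e0028e0018eb24009a8008a204b0110a034088308d2800e0140da000e9000d8800ca800e0300d0220e0240c034084308e5000b4400b600086102a640096400ec0008c300cd000ad0008c2088c108d00a0b00908a08486082d02808a280c02a0902a08828482284b018086180a019090190841828218210c11204510015902c050880d0024d21411098054184121441210510145109809054090900d0180d0022d4182110c2110831000b51043100c3141061002694086101861002650006d0540302c0300153000b30500b0014b0440b0140b0011b0005b02807000a70240700c070009700037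
def PL : ℕ := 0x4c585464588b1611531622c55194cd815644a8330c5583620e911368585c4458ca16115a16328571184354356188336308d8d114455911d4458d168d81d444ac230c7503630a911a2d58290d4a8b12b284ad110d51835c40d8d068c14c68530569a14c15a30531a64454570a68435c08d70a14468d0cd88435a11d29a34431d08b16235a10d11a35c09915464589d08c74a114358a842d41595610e214b88565531854466a11951d05474855c0558c155c2158c888d0e2358a8c0ea3189422ec08b94a0e5443b0a0ec4434cc14c4c53054d314c1533053132d414354c2847433152c454c0d508d70b1540cd5052d41542c350d4c435111d5052d40cd50b14231d08d8c42d51133443531152cb5444cd10c54350d0ca15c2858cd0d435310d1133540d115c4458d50cc54b11510b54c0dc54875406b1118cd4252c2b0329c5418cd09c14a70545d11176206314a8c54650ca9590ac2c270d09c35074c42b31075421d8887442ab10a74c09d842acc0ac6428d5063548ad406b50894346c0d1953065681b1306c68194b42c2d0953225688b1322c688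
def T0 : Tr := (.node 1 (.node 2 (.node 4 (.node 5 .one (.node 7 .one .nil)) (.node 10 (.node 11 .one (.node 13 .one .nil)) (.node 5 (.node 7 .one .nil) (.node 11 (.node 13 .one .nil) .nil)))) (.node 3 (.node 4 (.node 6 .one (.node 8 .one .nil)) (.node 10 (.node 12 .one (.node 14 .one .nil)) (.node 6 (.node 8 .one .nil) (.node 12 (.node 14 .one .nil) .nil)))) (.node 4 (.node 5 (.node 7 .one .nil) (.node 6 (.node 8 .one .nil) .nil)) (.node 10 (.node 11 (.node 13 .one .nil) (.node 12 (.node 14 .one .nil) .nil)) .nil)))) (.node 5 (.node 6 (.node 2 (.node 3 .one (.node 9 .one .nil)) (.node 11 (.node 12 .one (.node 18 .one .nil)) (.node 3 (.node 9 .one .nil) (.node 12 (.node 18 .one .nil) .nil)))) (.node 4 (.node 10 (.node 11 .one (.node 16 .one .nil)) (.node 2 (.node 7 .one .nil) (.node 11 (.node 16 .one .nil) .nil))) (.node 11 (.node 10 (.node 16 .one .nil) (.node 12 (.node 18 .one .nil) .nil)) (.node 2 (.node 3 (.node 9 .one .nil) .nil) .nil)))) (.node 12 (.node 3 (.node 2 (.node 11 .one (.node 15 .one .nil)) (.node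 10 (.node 14 .one .nil) (.node 11 (.node 15 .one .nil) .nil))) (.node 6 (.node 4 (.node 10 .one (.node 17 .one .nil)) (.node 10 (.node 17 .one .nil) (.node 11 (.node 18 .one .nil) .nil))) (.node 2 (.node 11 (.node 15 .one .nil) .nil) (.node 4 (.node 10 (.node 17 .one .nil) .nil) .nil)))) (.node 2 (.node 3 (.node 6 (.node 9 .one .nil) (.node 11 (.node 15 .one .nil) .nil)) (.node 10 (.node 11 (.node 13 .one .nil) .nil) .nil)) (.node 4 (.node 6 (.node 3 (.node 8 .one .nil) (.node 10 (.node 17 .one .nil) .nil)) (.node 10 (.node 11 (.node 16 .one .nil) .nil) .nil)) .nil)))))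
def T1 : Tr := (.node 7 (.node 8 (.node 1 (.node 13 .one (.node 14 .one .nil)) (.node 4 (.node 16 .one (.node 17 .one .nil)) (.node 13 (.node 14 .one .nil) (.node 16 (.node 17 .one .nil) .nil)))) (.node 9 (.node 2 (.node 13 .one (.node 15 .one .nil)) (.node 5 (.node 16 .one (.node 18 .one .nil)) (.node 13 (.node 15 .one .nil) (.node 16 (.node 18 .one .nil) .nil)))) (.node 13 (.node 1 (.node 14 .one .nil) (.node 2 (.node 15 .one .nil) .nil)) (.node 16 (.node 4 (.node 17 .one .nil) (.node 5 (.node 18 .one .nil) .nil)) .nil)))) (.node 14 (.node 15 (.node 3 (.node 8 .one (.node 9 .one .nil)) (.node 12 (.node 17 .one (.node 18 .one .nil)) (.node 8 (.node 9 .one .nil) (.node 17 (.node 18 .one .nil) .nil)))) (.node 13 (.node 10 (.node 16 .one (.node 17 .one .nil)) (.node 1 (.node 8 .one .nil) (.node 16 (.node 17 .one .nil) .nil))) (.node 17 (.node 10 (.node 16 .one .nil) (.node 12 (.node 18 .one .nil) .nil)) (.node 3 (.node 8 (.node 9 .one .nil) .nil) .nil)))) (.node 18 (.node 9 (.node 6 (.node 8 .one (.node 17 .one .nil))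 (.node 5 (.node 16 .one .nil) (.node 8 (.node 17 .one .nil) .nil))) (.node 15 (.node 11 (.node 13 .one (.node 16 .one .nil)) (.node 12 (.node 17 .one .nil) (.node 13 (.node 16 .one .nil) .nil))) (.node 6 (.node 8 (.node 17 .one .nil) .nil) (.node 11 (.node 13 (.node 16 .one .nil) .nil) .nil)))) (.node 8 (.node 9 (.node 3 (.node 15 .one .nil) (.node 6 (.node 17 .one .nil) .nil)) (.node 4 (.node 16 (.node 17 .one .nil) .nil) .nil)) (.node 13 (.node 15 (.node 2 (.node 9 .one .nil) (.node 11 (.node 16 .one .nil) .nil)) (.node 10 (.node 16 (.node 17 .one .nil) .nil) .nil)) .nil)))))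
def T2 : Tr := (.node 2 (.node 3 (.node 7 (.node 8 .one (.node 9 .one .nil)) (.node 13 (.node 14 .one (.node 15 .one .nil)) (.node 8 (.node 9 .one .nil) (.node 14 (.node 15 .one .nil) .nil)))) (.node 7 (.node 4 (.node 5 .one .nil) (.node 8 (.node 9 .one .nil) .nil)) (.node 13 (.node 10 (.node 11 .one .nil) (.node 14 (.node 15 .one .nil) .nil)) .nil))) (.node 4 (.node 10 (.node 7 (.node 13 .one (.node 16 .one .nil)) (.node 8 (.node 14 .one (.node 17 .one .nil)) (.node 13 (.node 16 .one .nil) (.node 14 (.node 17 .one .nil) .nil)))) (.node 8 (.node 3 (.node 6 .one .nil) (.node 14 (.node 17 .one .nil) .nil)) (.node 7 (.node 13 (.node 16 .one .nil) .nil) .nil))) (.node 14 (.node 3 (.node 10 (.node 12 .one .nil) (.node 13 (.node 15 .one .nil) .nil)) (.node 8 (.node 7 (.node 13 .one .nil) (.node 10 (.node 17 .one .nil) .nil)) .nil)) (.node 7 (.node 3 (.node 8 (.node 9 .one .nil) .nil) (.node 10 (.node 13 (.node 16 .one .nil) .nil) .nil)) .nil))))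
def T3 : Tr := (.node 5 (.node 6 (.node 4 (.node 16 .one (.node 17 .one .nil)) (.node 11 (.node 12 .one .nil) (.node 16 (.node 17 .one .nil) .nil))) (.node 9 (.node 2 (.node 11 .one (.node 15 .one .nil)) (.node 7 (.node 16 .one .nil) (.node 11 (.node 15 .one .nil) .nil))) (.node 2 (.node 11 (.node 15 .one .nil) .nil) (.node 4 (.node 16 (.node 17 .one .nil) .nil) .nil)))) (.node 12 (.node 15 (.node 3 (.node 6 .one (.node 9 .one .nil)) (.node 6 (.node 9 .one .nil) (.node 14 (.node 17 .one .nil) .nil))) (.node 10 (.node 11 (.node 16 .one (.node 17 .one .nil)) (.node 16 (.node 17 .one .nil) .nil)) (.node 3 (.node 6 (.node 9 .one .nil) .nil) (.node 11 (.node 16 (.node 17 .one .nil) .nil) .nil)))) (.node 6 (.node 9 (.node 3 (.node 15 .one .nil) (.node 8 (.node 17 .one .nil) .nil)) (.node 4 (.node 16 (.node 17 .one .nil) .nil) .nil)) (.node 11 (.node 15 (.node 2 (.node 9 .one .nil) (.node 13 (.node 16 .one .nil) .nil)) (.node 10 (.node 16 (.node 17 .one .nil) .nil) .nil)) .nil))))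
def T4 : Tr := (.node 7 (.node 2 (.node 11 (.node 13 .one (.node 16 .one .nil)) (.node 13 (.node 16 .one .nil) .nil)) (.node 4 (.node 6 (.node 8 .one (.node 9 .one .nil)) (.node 8 (.node 9 .one .nil) .nil)) (.node 6 (.node 8 (.node 9 .one .nil) .nil) (.node 11 (.node 13 (.node 16 .one .nil) .nil) .nil)))) (.node 2 (.node 9 (.node 3 (.node 6 .one .nil) (.node 11 (.node 15 .one .nil) .nil)) (.node 11 (.node 13 (.node 16 .one .nil) .nil) .nil)) (.node 4 (.node 6 (.node 8 (.node 9 .one .nil) (.node 16 (.node 17 .one .nil) .nil)) (.node 10 (.node 11 (.node 16 .one .nil) .nil) .nil)) .nil)))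
def T5 : Tr := (.node 14 (.node 3 (.node 6 (.node 8 .one (.node 17 .one .nil)) (.node 8 (.node 17 .one .nil) .nil)) (.node 10 (.node 11 (.node 13 .one (.node 15 .one .nil)) (.node 13 (.node 15 .one .nil) .nil)) (.node 6 (.node 8 (.node 17 .one .nil) .nil) (.node 11 (.node 13 (.node 15 .one .nil) .nil) .nil)))) (.node 3 (.node 6 (.node 8 (.node 17 .one .nil) (.node 9 (.node 15 .one .nil) .nil)) (.node 2 (.node 11 (.node 15 .one .nil) .nil) .nil)) (.node 10 (.node 11 (.node 13 (.node 15 .one .nil) (.node 16 (.node 17 .one .nil) .nil)) (.node 4 (.node 6 (.node 17 .one .nil) .nil) .nil)) .nil)))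
def T6 : Tr := (.node 2 (.node 9 (.node 3 (.node 8 .one .nil) (.node 13 (.node 15 .one .nil) .nil)) (.node 11 (.node 13 (.node 16 .one .nil) .nil) .nil)) (.node 4 (.node 8 (.node 6 (.node 9 .one .nil) (.node 16 (.node 17 .one .nil) .nil)) (.node 10 (.node 13 (.node 16 .one .nil) .nil) .nil)) .nil))
def T7 : Tr := (.node 3 (.node 8 (.node 6 (.node 17 .one .nil) (.node 9 (.node 15 .one .nil) .nil)) (.node 2 (.node 13 (.node 15 .one .nil) .nil) .nil)) (.node 10 (.node 13 (.node 11 (.node 15 .one .nil) (.node 16 (.node 17 .one .nil) .nil)) (.node 4 (.node 8 (.node 17 .one .nil) .nil) .nil)) .nil))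
/-- the tree of the masks -/
def T : Tr := (.node 0 T0 (.node 19 T1 (.node 1 T2 (.node 18 T3 (.node 5 T4 (.node 12 T5 (.node 7 T6 (.node 14 T7 .nil))))))))
theorem cT : chkC L 180 (cds T) 0 = true := by decide +kernel
def Q0 : ℕ := 0x2b4b227cb02a48e2ccac2449c2bca8264a6278a42548d284932c4a5274aa2588c29c982409b28c94280922ac9723cae2889a20c801f87c1e4782147722c812088a1e8891ec881f47f21c86210761d4731d070184721bc631886b1b0601a0691946419c661b86d1c46a1745b17c5c1785a11c3f0f83b0d4341203c1084f140400e04b130360cc53164460e443110510dc4e160570e8521583d1144d1044a15454124320c42f0c02d0b82605c1807c1e0702c0801b06819058250a42807427090230882a0ac2104c1105412050100380f0300d0140400c020040002c0a0240801c06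
theorem cs0 : chkS L Q0 181889 180 = true := by decide +kernel
def Q1 : ℕ := 0x1e88a2c46e2bc8624c79248721bc711d4812746d2688427c7f2849e2947e1f4a32647325c681986a2b4ab2448f2406c1946422cb21c07621cae20ca221482298802809c26c7c1a4b32b06b19c8829c74260aa2a0892a4b02908e1e0941ec961dc952348c18c621846017c5e1705d1685b14c431144c128491644b1184811c4413456148551505013c5115c4e160421043f1003d0f83b0f0390e8320c4300bc2e0b4380dc360d4340cc1a04c14038090281b03c23090150481f0800b020070982c05c0c064160882a0ac21034060942904418078270a01d0701000c010140201000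
theorem cs1 : chkS L Q1 181840 180 = true := by decide +kernel
def Q2 : ℕ := 0x29ca6294a428ca22649825c96254942ccb22c4b02bcae284a02789f2749b2709a2b4ac2acaa2a4a824c922409123c8d2388c1645815c56154541184911c4410c3f1043e0f43b0e8370d4340cc320c4300bc1a050230482007c190882a0982c0ac2105c160942904418078270a01d0701022c8a2248821c8614c5213c421444e12c381344a2104820c8509082204501fc402007e1f43c1f07b06c4c1e8361e4781dc761d4741cc1504c6819c6a1885d1786918c451c06b1986e1b45f1705b0e4721b060194640b8710b46f1845a03c0e0340c02c0a0200901807014040080300001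
theorem cs2 : chkS L Q2 181448 180 = true := by decide +kernel
def Q3 : ℕ := 0x1c0b222c7621cae1c86f1c4931e4921b49d204752109a2149c20c82298a026ca21885c178961dc942a8a81845b1688e2308d2c48a1e86e2bc86284a327c9e294801f87f1f4631ec892a478254b02905f174ad2acb32b08829c6c1ac6a1a46819867190651f099244601d0971cc982408f10c53130451244a1603d144401384f104570f8541543f110461584716442134501204b1483a0e43c0ec370e0340cc360d4310c82e0b4300bc0e0240a068130500f06c2007c0b0202408c1504811094290140400c02078270a01d070100982c01c010882a0ac21034060641805c1603000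
theorem cs3 : chkS L Q3 178312 180 = true := by decide +kernel
theorem okF : okm 55 = true := by decide +kernel
theorem cL : chkL 55 L PL 180 = true := by decide +kernel

end Pool.Agent.U986.LC.FG6
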