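import Pool.Agent.N238.G6.Base2

set_option autoImplicit false
set_option maxRecDepth 100000

namespace Pool.Agent.U986.LC.FG7
open Pool.Agent.N238.G6

def L : ℕ := 0x71c000fc00492482514870070003f048a24128a424512124920e00e0038eda800e0340b6400ed0008c308d02a08a284b019086182214510980d10c31418610026d0540b0015b02c07000b7
def PL : ℕ := 0x7111634451632858d175112b44436308d8d05630558c89510ec44331a14568c51914468d1622cd6843620d56445610dd88195909d8887610ac64295a06c68195a22c688
def T0 : Tr := (.node 1 (.node 2 (.node 4 (.node 5 (.node 7 .one .nil) .nil) (.node 10 (.node 11 (.node 13 .one .nil) .nil) .nil)) (.node 3 (.node 4 (.node 6 (.node 8 .one .nil) .nil) (.node 10 (.node 12 (.node 14 .one .nil) .nil) .nil)) .nil)) (.node 5 (.node 6 (.node 2 (.node 3 (.node 9 .one .nil) .nil) (.node 11 (.node 12 (.node 18 .one .nil) .nil) .nil)) (.node 4 (.node 10 (.node 11 (.node 16 .one .nil) .nil) .nil) .nil)) (.node 12 (.node 2 (.node 3 (.node 11 (.node 15 .one .nil) .nil) .nil) (.node 4 (.node 6 (.node 10 (.node 17 .one .nil)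 .nil) .nil) .nil)) .nil)))
def T1 : Tr := (.node 7 (.node 8 (.node 1 (.node 13 (.node 14 .one .nil) .nil) (.node 4 (.node 16 (.node 17 .one .nil) .nil) .nil)) (.node 9 (.node 2 (.node 13 (.node 15 .one .nil) .nil) (.node 5 (.node 16 (.node 18 .one .nil) .nil) .nil)) .nil)) (.node 14 (.node 15 (.node 3 (.node 8 (.node 9 .one .nil) .nil) (.node 12 (.node 17 (.node 18 .one .nil) .nil) .nil)) (.node 10 (.node 13 (.node 16 (.node 17 .one .nil) .nil) .nil) .nil)) (.node 18 (.node 6 (.node 8 (.node 9 (.node 17 .one .nil) .nil) .nil) (.node 11 (.node 13 (.node 15 (.node 16 .one .nil) .nil) .nil) .nil)) .nil)))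
def T2 : Tr := (.node 2 (.node 3 (.node 7 (.node 8 (.node 9 .one .nil) .nil) (.node 13 (.node 14 (.node 15 .one .nil) .nil) .nil)) .nil) (.node 4 (.node 10 (.node 7 (.node 13 (.node 16 .one .nil) .nil) (.node 8 (.node 14 (.node 17 .one .nil) .nil) .nil)) .nil) .nil))
def T3 : Tr := (.node 2 (.node 11 (.node 7 (.node 13 (.node 16 .one .nil) .nil) (.node 9 (.node 15 (.node 18 .one .nil) .nil) .nil)) .nil) (.node 4 (.node 6 (.node 7 (.node 8 (.node 9 .one .nil) .nil) (.node 16 (.node 17 (.node 18 .one .nil) .nil) .nil)) .nil) .nil))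
def T4 : Tr := (.node 3 (.node 6 (.node 8 (.node 14 (.node 17 .one .nil) .nil) (.node 9 (.node 15 (.node 18 .one .nil) .nil) .nil)) .nil) (.node 10 (.node 11 (.node 13 (.node 14 (.node 15 .one .nil) .nil) (.node 16 (.node 17 (.node 18 .one .nil) .nil) .nil)) .nil) .nil))
/-- the tree of the masks -/
def T : Tr := (.node 0 T0 (.node 19 T1 (.node 1 T2 (.node 5 T3 (.node 12 T4 .nil)))))
theorem cT : chkC L 30 (cds T) 0 = true := by decide +kernel
def Q0 : ℕ := 0x741c05c160641806c1a0501504c120380c03c1102c100340a0240601c08014040040000c02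
theorem cs0 : chkS L Q0 181889 30 = true := by decide +kernel
def Q1 : ℕ := 0x741c0681b064180541405c1604c1203c100440e0340a0240c02c0500c060200201c0400400
theorem cs1 : chkS L Q1 181840 30 = true := by decide +kernel
def Q2 : ℕ := 0x3c1c0341a0281802c160200601c04044100740e06c0c05c190141504c140241200c0200400
theorem cs2 : chkS L Q2 181448 30 = true := by decide +kernel
def Q3 : ℕ := 0x701d06c1a04c1205c1605414064180440d03c0e0400b03009028030140101c040200201800
theorem cs3 : chkS L Q3 178312 30 = true := by decide +kernel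
theorem okF : okm 183 = true := by decide +kernel
theorem cL : chkL 183 L PL 30 = true := by decide +kernel

end Pool.Agent.U986.LC.FG7
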