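import Pool.Agent.N238.G6.Base2

set_option autoImplicit false
set_option maxRecDepth 100000

namespace Pool.Agent.U986.LC.FX797
open Pool.Agent.N238.G6

def L : ℕ := 0x38ec846ec854dc82adc8994e8666a8a1ea85c5a83a72883f28935682ad68c64788c4f8495b83b23857138272b84b1b8aa87856b1883f1893a5846e586a998c1d983ca98958d825ab88c8f8634aca4cacc4d2c39724477241d5a4635a4a8d645674491f449354c54d4c6a5c4c34cc3c6c485ec41d4e4a4ce4c64748a57448dd43ca5416b54668d44c9d49d0746729485e94a5a34476345d194c1d943b31413b54a39348b174950dca293cc30dc628dc5513cc493c82d5c42d5c854bc454bc6a51c2a53ca8c5c28cdc5c49c1c4dc9943c1953c6469c24e9ca163c2363c5271c1371c90e5c14e5c99616c9516e301eb121e55916d481e6389ac8c9aa8e1ab0a1e55b122bb121da9263a9298656c4656b844ee04ce495c647256572463b146352c6591c63ab4238e4a38a56c4e52d484ec8cd2e08ce66ac25c9c21d8d291f4289dc293a4aa38ca25ac623a5619956458d6a385689956c18d6aa87286a72a8966949661a7626a4e25c562545662c6e224ee2624eaa863ac263ab842ed052e48daa46a3a66a2a32b2a3c8aa689aa1c8ea22e6a18d6a44ceac4c6a8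2e6a90d6a298ba294e63923a396263d2a215a3a156662b93213b2a137622b166573226b1a24393a43566a1ea289da2990eaa30eac3632c95329d072872729583ac193a898baa5a2695926e302ed112ec346685666a14e6a6839ca439d301de481d97055cc455b4847d8447b302be842b9b063ac8635c6157421d6a6197221d972512ea511f231a6a315c64374a0b732076a6232e2631e263b320bb4a07e221be0a1bd4217d12179c2538ca53aa2338b233a1b238972385b15c17158c565e052d34b2395b0535325b1127587157850d3c9459c165d850799703593133c9237812bb81279b1611f1311e155871353a7093ab41a3b21273253a31526b155674156b09c37114b313d310d73107669154e155ca531e212d4a7237212b4e56166929c613556323237a143b91531c5915c5332c391ac3b08cb32ac9a3a8983a99c0e99d04cda0da922f89835a9c358942f89525c91b1a919b838a4e988ec3995c118fc11a5c96a9916a1c5a8da1297a1686997848d3b0a9aa0e9a8e8329b833b0c3b80cb6b18368a93e848b780c72e0b92c5a53c2993c6853d2a117299157852e8d116ac914fc12c9c595ac1ac8e1868d984dc5666a14e4e15c1a9649a95c9837488b662c34c6c3c4e9145b9157099c60d95d191cc4d14e0b94ca93c4d8545785570c5d40cd67285645a5e488d740c7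
def PL : ℕ := 0x6688a1a1a6a8862a192e0a90a5c62950a82b4688e1a134e8863a1142b32a80bae029982a6a0a6a819a60688ad42a88e2a0b2e88a3a0a22a718a8c460ad3829ae0469813729414a58119a98a628296a2a586a980386a468719a1452865ca110a1acc62a4298e0a538e9413a6046b12a843ae109886aaa161a868a21681ad40a98e2a430e98a3a4206a719a84421aeb8504e1a2885356065585835889d850760445662a8c62b31088d62335081aa65681813a654c185aa25688853a254c8a1a86c681a1386c4c1a5a82c688a5382c4c831aa04a990ac2d094b72a04ab0372a20ca9811aa5194362a860a9986a619aa035a80589942c2c294bb182a560a858aa2629a988696222a871ca0a7610838a922c4cbaa00654c18ab22a8e3a886a8320a8b328694629b1845d3108d505c54868ca2055965580aac4a620c585a559829898662a188a9762068899ae205d88815a84d89846c0ca943b190a5642819aaa660899a2866295942b508b0b41d501614a69518a8b82354870d41d80a729082a5c94b42b5018ea06c650ae2225611222ac1aa371505d5086a9121a833606956212e2a03aa10ab32888b88ba18561855604a5a519a01b132254d9528a1465a36052b20cad02ec083b0a52b044ad14ec20bb104ec043b1132b084aca313a1894a113a5994242b86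0ad186b411ae00d4a58b1166c40b52881d2a174242c651b180a56439512a560b95009d84475129d80c75016328571115c2858d111d28394a54b80172aad0853948353818b0a8d0a417622ac6027290d58542e862545195822b8a2ac889d0547485282cba14063aac4195610d53184e830ca130a3a4455922c69ab084cca207512ab80195a35461a94182b29c42945d80d883aa30698c27518158c174a80d8c24e506b46021ca8d70236340b94256322a70855c050729a5c42b2a095162970231d08d710423a698d0b0a60ba841614d18e8a234454e166c0a346821d88a728a1c29c2a8425644a8b2d5802b1966542274850d61580b5290c3a5494a62a7018ab06c458aa3225419223a81ae251d0557084e9121ac23604dd42132a0dab011622c55192a3a288ca8caa107610ea302ae185d40c55845ca28711711a0895a1294d336006c69a948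
def T0 : Tr := (.node 7 (.node 14 (.node 18 (.node 2 (.node 17 (.node 1 (.node 6 (.node 16 .one .nil) .nil) (.node 3 (.node 11 (.node 19 .one .nil) .nil) (.node 5 (.node 8 (.node 10 .one .nil) .nil) (.node 9 (.node 12 (.node 13 .one .nil) .nil) .nil)))) (.node 6 (.node 16 (.node 3 (.node 19 .one .nil) (.node 12 (.node 13 .one .nil) .nil)) .nil) (.node 8 (.node 10 (.node 9 (.node 12 .one .nil) (.node 11 (.node 19 .one .nil) .nil)) .nil) .nil))) (.node 4 (.node 15 (.node 1 (.node 9 (.node 11 .one .nil) .nil) (.node 3 (.node 5 (.node 13 .one .nil) .nil) (.node 6 (.node 10 (.node 19 .one .nil) .nil) (.node 8 (.node 12 (.node 16 .one .nil) .nil) .nil)))) (.node 3 (.node 13 (.node 6 (.node 19 .one .nil) (.node 12 (.node 16 .one .nil) .nil)) .nil) (.node 9 (.node 11 (.node 8 (.node 12 .one .nil) (.node 10 (.node 19 .one .nil) .nil)) .nil) .nil))) (.node 1 (.node 6 (.node 9 (.node 10 (.node 15 .one .nil) (.node 13 (.node 17 .one .nil) .nil)) .nil) (.node 11 (.node 16 (.node 3 (.node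 17 .one .nil) (.node 8 (.node 15 .one .nil) .nil)) .nil) .nil)) (.node 5 (.node 3 (.node 8 (.node 11 (.node 17 .one .nil) (.node 15 (.node 16 .one .nil) .nil)) .nil) (.node 10 (.node 13 (.node 6 (.node 15 .one .nil) (.node 9 (.node 17 .one .nil) .nil)) .nil) .nil)) .nil)))) (.node 6 (.node 11 (.node 19 (.node 2 (.node 8 (.node 10 .one .nil) .nil) (.node 3 (.node 4 (.node 13 .one .nil) .nil) (.node 5 (.node 15 (.node 17 .one .nil) .nil) (.node 9 (.node 12 (.node 16 .one .nil) .nil) .nil)))) (.node 8 (.node 2 (.node 15 (.node 17 .one .nil) .nil) (.node 9 (.node 10 (.node 16 .one .nil) .nil) .nil)) (.node 13 (.node 3 (.node 9 (.node 16 .one .nil) .nil) (.node 4 (.node 15 (.node 17 .one .nil) .nil) .nil)) .nil))) .nil) (.node 9 (.node 16 (.node 12 (.node 2 (.node 8 (.node 10 .one .nil) .nil) (.node 3 (.node 4 (.node 13 .one .nil) .nil) (.node 5 (.node 15 (.node 17 .one .nil) .nil) .nil))) (.node 15 (.node 17 (.node 2 (.node 10 .one .nil) (.node 3 (.node 4 .one .nil) .nil)) .nil)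 .nil)) .nil) (.node 5 (.node 15 (.node 17 (.node 2 (.node 8 (.node 10 .one .nil) .nil) (.node 3 (.node 4 (.node 13 .one .nil) .nil) .nil)) .nil) .nil) .nil)))) (.node 15 (.node 17 (.node 1 (.node 18 (.node 2 (.node 6 (.node 16 .one .nil) .nil) (.node 3 (.node 10 (.node 19 .one .nil) .nil) (.node 4 (.node 9 (.node 11 .one .nil) .nil) (.node 8 (.node 12 (.node 13 .one .nil) .nil) .nil)))) (.node 6 (.node 16 (.node 3 (.node 19 .one .nil) (.node 12 (.node 13 .one .nil) .nil)) .nil) (.node 9 (.node 11 (.node 8 (.node 12 .one .nil) (.node 10 (.node 19 .one .nil) .nil)) .nil) .nil))) (.node 3 (.node 5 (.node 13 (.node 6 (.node 19 .one .nil) (.node 12 (.node 16 .one .nil) .nil)) .nil) (.node 10 (.node 18 (.node 2 (.node 16 .one .nil) (.node 4 (.node 9 .one .nil) .nil)) .nil) .nil)) (.node 8 (.node 5 (.node 10 (.node 9 (.node 12 .one .nil) (.node 11 (.node 19 .one .nil) .nil)) .nil) (.node 13 (.node 18 (.node 2 (.node 6 .one .nil) (.node 4 (.node 11 .one .nil) .nil)) .nil) .nil))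 .nil))) (.node 6 (.node 10 (.node 8 (.node 16 (.node 3 (.node 13 .one .nil) (.node 9 (.node 11 .one .nil) (.node 12 (.node 19 .one .nil) .nil))) .nil) (.node 19 (.node 1 (.node 9 (.node 11 .one .nil) .nil) (.node 3 (.node 5 (.node 13 .one .nil) .nil) .nil)) .nil)) .nil) (.node 8 (.node 12 (.node 16 (.node 1 (.node 9 (.node 11 .one .nil) .nil) (.node 3 (.node 5 (.node 13 .one .nil) .nil) .nil)) .nil) .nil) .nil))) (.node 3 (.node 10 (.node 8 (.node 13 (.node 18 (.node 6 (.node 16 .one .nil) (.node 9 (.node 11 .one .nil) (.node 12 (.node 19 .one .nil) .nil))) (.node 5 (.node 12 (.node 19 .one .nil) .nil) (.node 9 (.node 11 (.node 17 .one .nil) .nil) .nil))) (.node 5 (.node 11 (.node 17 (.node 19 .one .nil) .nil) .nil) .nil)) (.node 18 (.node 19 (.node 2 (.node 6 (.node 16 .one .nil) .nil) (.node 4 (.node 9 (.node 11 .one .nil) .nil) .nil)) .nil) .nil)) (.node 11 (.node 9 (.node 13 (.node 12 (.node 19 (.node 4 .one (.node 17 .one .nil)) .nil) (.node 6 (.node 16 (.node 17 .one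 .nil) .nil) .nil)) .nil) (.node 1 (.node 6 (.node 16 (.node 17 (.node 19 .one .nil) .nil) .nil) .nil) .nil)) .nil)) (.node 12 (.node 6 (.node 16 (.node 1 (.node 9 (.node 11 (.node 19 .one .nil) (.node 13 (.node 17 .one .nil) .nil)) .nil) (.node 2 (.node 8 (.node 10 (.node 19 .one .nil) (.node 13 (.node 18 .one .nil) .nil)) .nil) .nil)) .nil) (.node 8 (.node 9 (.node 13 (.node 4 (.node 11 (.node 18 .one .nil) .nil) (.node 5 (.node 10 (.node 17 .one .nil) .nil) .nil)) .nil) .nil) .nil)) .nil)))) (.node 8 (.node 13 (.node 18 (.node 5 (.node 14 (.node 1 (.node 9 (.node 16 .one .nil) .nil) (.node 2 (.node 4 (.node 19 .one .nil) .nil) (.node 3 (.node 11 (.node 17 .one .nil) .nil) (.node 6 (.node 10 (.node 15 .one .nil) .nil) .nil)))) (.node 1 (.node 3 (.node 16 (.node 17 .one .nil) .nil) (.node 9 (.node 10 (.node 15 .one .nil) .nil) .nil)) (.node 19 (.node 2 (.node 3 (.node 17 .one .nil) .nil) (.node 4 (.node 10 (.node 15 .one .nil) .nil) .nil)) .nil))) (.node 2 (.node 4 (.node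 14 (.node 6 (.node 15 .one .nil) (.node 11 (.node 17 .one .nil) .nil)) .nil) (.node 12 (.node 16 (.node 1 (.node 17 .one .nil) (.node 3 (.node 19 .one .nil) .nil)) .nil) .nil)) (.node 9 (.node 4 (.node 12 (.node 1 (.node 15 .one .nil) (.node 10 (.node 19 .one .nil) .nil)) .nil) (.node 14 (.node 16 (.node 3 (.node 11 .one .nil) (.node 6 (.node 10 .one .nil) .nil)) .nil) .nil)) .nil))) (.node 9 (.node 17 (.node 2 (.node 4 (.node 11 (.node 14 .one .nil) (.node 15 (.node 16 .one .nil) .nil)) (.node 5 (.node 12 (.node 14 .one .nil) .nil) .nil)) (.node 11 (.node 5 (.node 12 (.node 19 .one .nil) .nil) (.node 6 (.node 15 (.node 16 .one .nil) .nil) .nil)) (.node 3 (.node 10 (.node 15 (.node 16 .one .nil) .nil) .nil) .nil))) .nil) (.node 4 (.node 14 (.node 2 (.node 5 (.node 12 (.node 19 .one .nil) .nil) (.node 6 (.node 15 (.node 16 .one .nil) .nil) .nil)) (.node 5 (.node 12 (.node 15 (.node 16 .one .nil) .nil) .nil) .nil)) .nil) (.node 5 (.node 6 (.node 12 (.node 15 (.node 16 (.node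 19 .one .nil) .nil) .nil) .nil) .nil) .nil)))) (.node 16 (.node 15 (.node 1 (.node 5 (.node 17 (.node 2 (.node 19 .one .nil) (.node 3 (.node 18 .one .nil) (.node 11 (.node 14 .one .nil) .nil))) .nil) (.node 9 (.node 12 (.node 4 (.node 18 .one .nil) (.node 10 (.node 19 .one .nil) .nil)) .nil) (.node 2 (.node 10 (.node 18 (.node 19 .one .nil) .nil) .nil) .nil))) (.node 2 (.node 6 (.node 14 (.node 5 (.node 19 .one .nil) (.node 11 (.node 17 .one .nil) .nil)) .nil) (.node 10 (.node 18 (.node 3 (.node 17 .one .nil) (.node 4 (.node 9 .one .nil) .nil)) .nil) .nil)) .nil)) (.node 2 (.node 12 (.node 5 (.node 17 (.node 1 (.node 19 .one .nil) (.node 9 (.node 14 .one .nil) .nil)) .nil) (.node 9 (.node 11 (.node 14 (.node 19 .one .nil) .nil) .nil) .nil)) .nil) (.node 1 (.node 5 (.node 9 (.node 11 (.node 14 (.node 17 .one .nil) .nil) .nil) .nil) .nil) .nil))) (.node 19 (.node 2 (.node 10 (.node 5 (.node 3 (.node 17 (.node 18 .one .nil) .nil) (.node 6 (.node 14 (.node 15 .one .nil) .nil)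 .nil)) (.node 4 (.node 9 (.node 12 (.node 18 .one .nil) .nil) .nil) .nil)) (.node 4 (.node 9 (.node 11 (.node 12 (.node 14 .one .nil) .nil) .nil) .nil) .nil)) (.node 1 (.node 5 (.node 9 (.node 12 (.node 10 (.node 15 .one .nil) (.node 11 (.node 17 .one .nil) .nil)) .nil) .nil) .nil) .nil)) .nil))) (.node 9 (.node 1 (.node 19 (.node 4 (.node 15 (.node 5 (.node 13 (.node 12 .one (.node 17 .one .nil)) .nil) (.node 6 (.node 14 (.node 11 .one (.node 16 .one .nil)) .nil) .nil)) (.node 18 (.node 2 (.node 16 (.node 12 .one (.node 14 .one .nil)) .nil) (.node 3 (.node 17 (.node 11 .one (.node 13 .one .nil)) .nil) .nil)) .nil)) (.node 16 (.node 17 (.node 2 (.node 11 (.node 14 .one .nil) .nil) (.node 3 (.node 12 (.node 13 .one .nil) .nil) .nil)) .nil) .nil)) (.node 13 (.node 5 (.node 15 (.node 6 (.node 14 (.node 16 .one (.node 17 .one .nil)) .nil) (.node 10 (.node 17 (.node 18 .one .nil) .nil) .nil)) .nil) (.node 2 (.node 12 (.node 16 (.node 17 (.node 18 .one .nil) .nil) .nil) .nil)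 .nil)) (.node 14 (.node 16 (.node 18 (.node 3 (.node 11 (.node 17 .one .nil) .nil) (.node 6 (.node 10 (.node 15 .one .nil) .nil) .nil)) .nil) .nil) .nil))) (.node 4 (.node 13 (.node 14 (.node 5 (.node 11 (.node 17 (.node 19 .one .nil) .nil) (.node 12 (.node 15 (.node 16 .one .nil) .nil) .nil)) (.node 6 (.node 11 (.node 15 (.node 17 .one .nil) .nil) (.node 12 (.node 16 (.node 19 .one .nil) .nil) .nil)) .nil)) (.node 3 (.node 17 (.node 18 (.node 2 (.node 16 .one .nil) (.node 10 (.node 15 .one .nil) .nil)) .nil) .nil) .nil)) (.node 2 (.node 14 (.node 16 (.node 18 (.node 3 (.node 17 .one .nil) (.node 10 (.node 15 .one .nil) .nil)) .nil) .nil) .nil) .nil)) .nil)) (.node 19 (.node 1 (.node 5 (.node 15 (.node 6 (.node 11 (.node 14 (.node 17 .one .nil) .nil) (.node 12 (.node 13 (.node 16 .one .nil) .nil) .nil)) (.node 3 (.node 10 (.node 17 (.node 18 .one .nil) .nil) .nil) .nil)) (.node 3 (.node 12 (.node 13 (.node 16 (.node 17 .one .nil) .nil) .nil) .nil) .nil)) (.node 2 (.node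 6 (.node 16 (.node 10 (.node 15 (.node 18 .one .nil) .nil) (.node 11 (.node 14 (.node 17 .one .nil) .nil) .nil)) .nil) .nil) .nil)) (.node 4 (.node 2 (.node 14 (.node 6 (.node 10 (.node 15 (.node 18 .one .nil) .nil) (.node 12 (.node 13 (.node 16 .one .nil) .nil) .nil)) (.node 3 (.node 11 (.node 17 (.node 18 .one .nil) .nil) .nil) .nil)) (.node 3 (.node 12 (.node 13 (.node 16 (.node 18 .one .nil) .nil) .nil) .nil) .nil)) (.node 3 (.node 5 (.node 13 (.node 10 (.node 15 (.node 18 .one .nil) .nil) (.node 11 (.node 14 (.node 17 .one .nil) .nil) .nil)) .nil) .nil) .nil)) .nil)) .nil))))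
def T1 : Tr := (.node 5 (.node 12 (.node 19 (.node 2 (.node 6 (.node 10 (.node 7 (.node 17 .one .nil) (.node 9 (.node 14 .one .nil) (.node 13 (.node 18 .one .nil) .nil))) .nil) (.node 3 (.node 18 (.node 8 (.node 16 .one .nil) (.node 13 (.node 17 .one .nil) .nil)) .nil) (.node 11 (.node 14 (.node 8 (.node 16 .one .nil) (.node 9 (.node 17 .one .nil) .nil)) .nil) .nil))) (.node 4 (.node 3 (.node 11 (.node 7 (.node 15 .one .nil) (.node 8 (.node 18 .one .nil) (.node 14 (.node 16 .one .nil) .nil))) .nil) (.node 6 (.node 14 (.node 9 (.node 13 .one .nil) (.node 15 (.node 16 .one .nil) .nil)) .nil) (.node 10 (.node 18 (.node 8 (.node 15 .one .nil) (.node 9 (.node 13 .one .nil) .nil)) .nil) .nil))) (.node 7 (.node 3 (.node 6 (.node 13 (.node 17 .one .nil) (.node 15 (.node 16 .one .nil) .nil)) .nil) (.node 10 (.node 11 (.node 8 (.node 15 .one .nil) (.node 9 (.node 17 .one .nil) .nil)) .nil) .nil)) .nil))) (.node 8 (.node 13 (.node 18 (.node 2 (.node 6 (.node 10 .one .nil) .nil) (.node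 3 (.node 4 (.node 11 .one .nil) .nil) (.node 7 (.node 15 (.node 17 .one .nil) .nil) (.node 9 (.node 14 (.node 16 .one .nil) .nil) .nil)))) (.node 6 (.node 2 (.node 15 (.node 17 .one .nil) .nil) (.node 9 (.node 10 (.node 16 .one .nil) .nil) .nil)) (.node 11 (.node 3 (.node 9 (.node 16 .one .nil) .nil) (.node 4 (.node 15 (.node 17 .one .nil) .nil) .nil)) .nil))) .nil) (.node 9 (.node 16 (.node 14 (.node 2 (.node 6 (.node 10 .one .nil) .nil) (.node 3 (.node 4 (.node 11 .one .nil) .nil) (.node 7 (.node 15 (.node 17 .one .nil) .nil) .nil))) (.node 15 (.node 17 (.node 2 (.node 10 .one .nil) (.node 3 (.node 4 .one .nil) .nil)) .nil) .nil)) .nil) (.node 7 (.node 15 (.node 17 (.node 2 (.node 6 (.node 10 .one .nil) .nil) (.node 3 (.node 4 (.node 11 .one .nil) .nil) .nil)) .nil) .nil) .nil)))) (.node 3 (.node 11 (.node 6 (.node 10 (.node 19 (.node 8 (.node 16 .one .nil) (.node 9 (.node 13 .one .nil) (.node 14 (.node 18 .one .nil) .nil))) (.node 7 (.node 14 (.node 18 .one .nil) .nil)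 (.node 8 (.node 15 (.node 16 .one .nil) .nil) (.node 9 (.node 13 (.node 17 .one .nil) .nil) .nil)))) (.node 7 (.node 14 (.node 15 (.node 16 .one .nil) .nil) .nil) .nil)) (.node 17 (.node 7 (.node 15 (.node 8 (.node 18 .one .nil) (.node 14 (.node 16 .one .nil) .nil)) .nil) (.node 9 (.node 13 (.node 8 (.node 16 .one .nil) (.node 14 (.node 18 .one .nil) .nil)) .nil) .nil)) (.node 18 (.node 4 (.node 9 (.node 13 (.node 14 .one .nil) .nil) .nil) (.node 7 (.node 8 (.node 10 (.node 15 .one .nil) .nil) .nil) .nil)) .nil))) (.node 10 (.node 19 (.node 2 (.node 16 (.node 8 (.node 18 .one .nil) (.node 15 (.node 17 .one .nil) .nil)) .nil) (.node 4 (.node 9 (.node 13 (.node 18 .one .nil) (.node 15 (.node 17 .one .nil) .nil)) .nil) .nil)) (.node 6 (.node 7 (.node 13 (.node 17 (.node 18 .one .nil) .nil) .nil) .nil) .nil)) .nil)) (.node 6 (.node 10 (.node 14 (.node 7 (.node 9 (.node 17 (.node 11 .one (.node 15 .one .nil)) .nil) .nil) (.node 8 (.node 16 (.node 18 (.node 2 .one (.node 15 .one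 .nil)) .nil) .nil) .nil)) (.node 13 (.node 15 (.node 7 (.node 17 (.node 18 .one .nil) .nil) (.node 8 (.node 9 (.node 16 .one .nil) .nil) .nil)) .nil) .nil)) (.node 11 (.node 19 (.node 2 (.node 8 (.node 14 (.node 16 .one .nil) (.node 15 (.node 17 .one .nil) .nil)) .nil) (.node 4 (.node 13 (.node 9 (.node 14 .one .nil) (.node 15 (.node 17 .one .nil) .nil)) .nil) .nil)) .nil) .nil)) .nil))) (.node 6 (.node 11 (.node 12 (.node 2 (.node 4 (.node 19 (.node 7 (.node 18 .one .nil) (.node 8 (.node 15 .one .nil) (.node 13 (.node 17 .one .nil) .nil))) (.node 7 (.node 14 (.node 18 .one .nil) .nil) (.node 8 (.node 15 (.node 16 .one .nil) .nil) (.node 9 (.node 13 (.node 17 .one .nil) .nil) .nil)))) (.node 7 (.node 9 (.node 14 (.node 17 .one .nil) .nil) .nil) .nil)) (.node 19 (.node 3 (.node 13 (.node 7 (.node 17 .one .nil) (.node 9 (.node 16 .one .nil) .nil)) .nil) (.node 8 (.node 10 (.node 7 (.node 15 .one .nil) (.node 9 (.node 16 .one .nil) .nil)) .nil) .nil)) (.node 4 (.node 7 (.node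 14 (.node 15 (.node 16 .one .nil) .nil) .nil) .nil) .nil))) (.node 18 (.node 7 (.node 14 (.node 8 (.node 15 (.node 16 .one .nil) .nil) (.node 9 (.node 13 (.node 17 .one .nil) .nil) .nil)) (.node 19 (.node 2 (.node 3 (.node 17 .one .nil) .nil) (.node 4 (.node 10 (.node 15 .one .nil) .nil) .nil)) .nil)) (.node 14 (.node 19 (.node 2 (.node 3 (.node 16 .one .nil) .nil) (.node 4 (.node 9 (.node 10 .one .nil) .nil) .nil)) .nil) .nil)) (.node 9 (.node 15 (.node 16 (.node 17 (.node 2 (.node 4 .one .nil) (.node 3 (.node 10 .one .nil) (.node 8 (.node 13 .one .nil) .nil))) .nil) .nil) .nil) .nil))) (.node 2 (.node 12 (.node 16 (.node 7 (.node 8 (.node 15 (.node 18 .one .nil) .nil) (.node 9 (.node 14 (.node 17 .one .nil) .nil) .nil)) (.node 13 (.node 8 (.node 15 (.node 17 .one .nil) .nil) (.node 9 (.node 14 (.node 18 .one .nil) .nil) .nil)) .nil)) (.node 18 (.node 4 (.node 9 (.node 13 (.node 14 .one .nil) .nil) .nil) (.node 7 (.node 8 (.node 10 (.node 15 .one .nil) .nil) .nil) .nil))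 .nil)) (.node 10 (.node 19 (.node 3 (.node 17 (.node 7 (.node 18 .one .nil) (.node 15 (.node 16 .one .nil) .nil)) .nil) (.node 4 (.node 9 (.node 14 (.node 18 .one .nil) (.node 15 (.node 16 .one .nil) .nil)) .nil) .nil)) .nil) .nil)) .nil)) (.node 4 (.node 11 (.node 9 (.node 12 (.node 7 (.node 13 (.node 17 (.node 18 .one .nil) .nil) (.node 14 (.node 15 (.node 16 .one .nil) .nil) .nil)) (.node 8 (.node 13 (.node 15 (.node 17 .one .nil) .nil) (.node 14 (.node 16 (.node 18 .one .nil) .nil) .nil)) .nil)) (.node 3 (.node 17 (.node 19 (.node 2 (.node 16 .one .nil) (.node 10 (.node 15 .one .nil) .nil)) .nil) .nil) .nil)) (.node 18 (.node 3 (.node 7 (.node 10 (.node 15 (.node 19 .one .nil) .nil) (.node 12 (.node 13 (.node 17 .one .nil) .nil) .nil)) (.node 2 (.node 14 (.node 16 (.node 19 .one .nil) .nil) .nil) .nil)) (.node 2 (.node 8 (.node 12 (.node 14 (.node 16 .one .nil) .nil) .nil) .nil) .nil)) .nil)) (.node 2 (.node 12 (.node 19 (.node 3 (.node 17 (.node 9 (.node 16 .one .nil)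 (.node 13 (.node 18 .one .nil) .nil)) .nil) (.node 10 (.node 15 (.node 8 (.node 18 .one .nil) (.node 9 (.node 16 .one .nil) .nil)) .nil) .nil)) .nil) .nil) .nil)) .nil)))
def T2 : Tr := (.node 4 (.node 3 (.node 10 (.node 9 (.node 16 (.node 6 (.node 11 (.node 14 .one (.node 19 .one .nil)) .nil) (.node 8 (.node 13 (.node 12 .one (.node 18 .one .nil)) .nil) .nil)) (.node 17 (.node 5 (.node 12 (.node 13 .one (.node 19 .one .nil)) .nil) (.node 7 (.node 14 (.node 11 .one (.node 18 .one .nil)) .nil) .nil)) .nil)) (.node 15 (.node 16 (.node 5 (.node 12 (.node 8 .one (.node 19 .one .nil)) .nil) (.node 7 (.node 14 (.node 6 .one (.node 18 .one .nil)) .nil) .nil)) (.node 17 (.node 6 (.node 11 (.node 7 .one (.node 19 .one .nil)) .nil) (.node 8 (.node 13 (.node 5 .one (.node 18 .one .nil)) .nil) .nil)) .nil)) (.node 5 (.node 7 (.node 12 (.node 14 (.node 18 .one (.node 19 .one .nil)) .nil) .nil) .nil) (.node 6 (.node 8 (.node 11 (.node 13 (.node 18 .one (.node 19 .one .nil)) .nil) .nil)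 .nil) .nil)))) (.node 18 (.node 5 (.node 8 (.node 14 (.node 11 (.node 19 .one .nil) (.node 12 (.node 16 .one .nil) .nil)) .nil) .nil) (.node 6 (.node 7 (.node 13 (.node 11 (.node 17 .one .nil) (.node 12 (.node 19 .one .nil) .nil)) .nil) .nil) .nil)) (.node 19 (.node 5 (.node 8 (.node 11 (.node 13 (.node 17 .one .nil) .nil) .nil) .nil) (.node 6 (.node 7 (.node 12 (.node 14 (.node 16 .one .nil) .nil) .nil) .nil) .nil)) .nil))) (.node 12 (.node 8 (.node 13 (.node 5 (.node 19 (.node 6 (.node 15 .one .nil) (.node 11 (.node 17 .one .nil) .nil)) .nil) (.node 9 (.node 16 (.node 6 (.node 11 .one .nil) (.node 15 (.node 17 .one .nil) .nil)) .nil) .nil)) (.node 7 (.node 18 (.node 10 (.node 11 (.node 19 .one .nil) .nil) (.node 14 (.node 15 (.node 16 .one .nil) .nil) .nil)) .nil) .nil)) (.node 14 (.node 9 (.node 5 (.node 10 (.node 13 (.node 18 .one .nil) .nil) (.node 11 (.node 17 (.node 19 .one .nil) .nil) .nil)) (.node 7 (.node 10 (.node 11 (.node 19 .one .nil) .nil) (.node 13 (.node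 17 (.node 18 .one .nil) .nil) .nil)) .nil)) (.node 5 (.node 6 (.node 15 (.node 16 (.node 19 .one .nil) .nil) .nil) .nil) .nil)) .nil)) (.node 6 (.node 11 (.node 14 (.node 7 (.node 18 (.node 8 (.node 15 .one .nil) (.node 13 (.node 17 .one .nil) .nil)) .nil) (.node 9 (.node 16 (.node 8 (.node 13 .one .nil) (.node 15 (.node 17 .one .nil) .nil)) .nil) .nil)) (.node 7 (.node 8 (.node 10 (.node 15 (.node 18 .one .nil) .nil) .nil) .nil) .nil)) (.node 5 (.node 10 (.node 13 (.node 19 (.node 8 (.node 15 .one .nil) (.node 14 (.node 18 .one .nil) .nil)) .nil) .nil) .nil) .nil)) .nil))) (.node 10 (.node 6 (.node 7 (.node 14 (.node 5 (.node 11 (.node 17 (.node 19 .one .nil) .nil) (.node 12 (.node 15 (.node 16 .one .nil) .nil) .nil)) (.node 9 (.node 11 (.node 12 (.node 19 .one .nil) .nil) (.node 15 (.node 16 (.node 17 .one .nil) .nil) .nil)) .nil)) (.node 13 (.node 18 (.node 3 (.node 12 (.node 19 .one .nil) .nil) (.node 8 (.node 15 (.node 17 .one .nil) .nil) .nil)) .nil) .nil)) (.node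 8 (.node 16 (.node 3 (.node 11 (.node 14 (.node 18 .one .nil) .nil) (.node 12 (.node 13 (.node 19 .one .nil) .nil) .nil)) (.node 9 (.node 11 (.node 12 (.node 19 .one .nil) .nil) (.node 13 (.node 14 (.node 18 .one .nil) .nil) .nil)) .nil)) (.node 5 (.node 11 (.node 15 (.node 17 (.node 19 .one .nil) .nil) .nil) .nil) .nil)) .nil)) (.node 5 (.node 8 (.node 12 (.node 7 (.node 13 (.node 17 (.node 18 .one .nil) .nil) (.node 14 (.node 15 (.node 16 .one .nil) .nil) .nil)) (.node 9 (.node 13 (.node 14 (.node 18 .one .nil) .nil) (.node 15 (.node 16 (.node 17 .one .nil) .nil) .nil)) .nil)) (.node 3 (.node 11 (.node 14 (.node 18 (.node 19 .one .nil) .nil) .nil) .nil) .nil)) (.node 3 (.node 7 (.node 17 (.node 11 (.node 14 (.node 19 .one .nil) .nil) (.node 12 (.node 13 (.node 18 .one .nil) .nil) .nil)) .nil) .nil) .nil)) .nil)) .nil))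
def T3 : Tr := (.node 4 (.node 11 (.node 7 (.node 14 (.node 5 (.node 6 (.node 15 (.node 19 .one .nil) .nil) (.node 9 (.node 12 (.node 17 .one .nil) .nil) .nil)) (.node 16 (.node 6 (.node 12 (.node 19 .one .nil) .nil) (.node 9 (.node 15 (.node 17 .one .nil) .nil) .nil)) .nil)) (.node 8 (.node 18 (.node 10 (.node 12 (.node 19 .one .nil) .nil) (.node 13 (.node 15 (.node 17 .one .nil) .nil) .nil)) .nil) .nil)) (.node 13 (.node 9 (.node 6 (.node 10 (.node 14 (.node 18 .one .nil) .nil) (.node 12 (.node 16 (.node 19 .one .nil) .nil) .nil)) (.node 8 (.node 10 (.node 12 (.node 19 .one .nil) .nil) (.node 14 (.node 16 (.node 18 .one .nil) .nil) .nil)) .nil)) (.node 5 (.node 6 (.node 15 (.node 17 (.node 19 .one .nil) .nil) .nil) .nil) .nil)) .nil)) (.node 5 (.node 12 (.node 13 (.node 7 (.node 8 (.node 15 (.node 18 .one .nil) .nil) (.node 9 (.node 14 (.node 17 .one .nil) .nil) .nil)) (.node 16 (.node 8 (.node 14 (.node 18 .one .nil) .nil) (.node 9 (.node 15 (.node 17 .one .nil) .nil)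 .nil)) .nil)) (.node 7 (.node 8 (.node 10 (.node 15 (.node 18 .one .nil) .nil) .nil) .nil) .nil)) (.node 6 (.node 10 (.node 14 (.node 19 (.node 7 (.node 15 .one .nil) (.node 13 (.node 18 .one .nil) .nil)) .nil) .nil) .nil) .nil)) .nil)) (.node 10 (.node 5 (.node 8 (.node 13 (.node 6 (.node 11 (.node 15 (.node 17 .one .nil) .nil) (.node 12 (.node 16 (.node 19 .one .nil) .nil) .nil)) (.node 9 (.node 11 (.node 12 (.node 19 .one .nil) .nil) (.node 15 (.node 16 (.node 17 .one .nil) .nil) .nil)) .nil)) (.node 7 (.node 14 (.node 15 (.node 16 (.node 18 .one .nil) .nil) .nil) .nil) .nil)) (.node 7 (.node 9 (.node 17 (.node 11 (.node 12 (.node 19 .one .nil) .nil) (.node 13 (.node 14 (.node 18 .one .nil) .nil) .nil)) .nil) (.node 6 (.node 12 (.node 15 (.node 16 (.node 19 .one .nil) .nil) .nil) .nil) .nil)) .nil)) (.node 6 (.node 7 (.node 11 (.node 8 (.node 13 (.node 15 (.node 17 .one .nil) .nil) (.node 14 (.node 16 (.node 18 .one .nil) .nil) .nil)) (.node 9 (.node 13 (.node 14 (.node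 18 .one .nil) .nil) (.node 15 (.node 16 (.node 17 .one .nil) .nil) .nil)) .nil)) .nil) .nil) .nil)) .nil))
/-- the tree of the masks -/
def T : Tr := (.node 0 T0 (.node 1 T1 (.node 2 T2 (.node 3 T3 .nil))))
theorem cT : chkC L 360 (cds T) 0 = true := by decide +kernel
def Q0 : ℕ := 0x5194550d44509415013d4ed3a4e1394dd364d5344c9334c5304bd2e4b52c4ad2a4a5274a1264f93f4f167599645956358961521495814757d5e5715d56d5a56558559575555454d525455053d4e5354b5314a4912548121489234751c47d1e45d164551446d1a4651843d0e4350c44d124451040d04419024150941d0a42d083f8ff4010134cd2344d033cce334cb330ca2f8bf300af298ae294b72d8bb2ccb22a0a72e8bd308b52aca92a8ad2b0b12c0d6360d9350da2e4d73f4fc3ecfa3e4f83dcf53d8f42e0bc304b4290a3288e331cf13c8f3390c83a8e5354c93b0eb388c63a4e8370db3c0ee378dd384df380e7398ef3b4c5310c32749c2789f284a02649826c9a2589724c92254942388f240912288b2308d220892188720c82214841fc7e204801283a118450ec4412c47120490c8310c02f0a02e0a42c09c2b0681f0981908c2206c1e0902105c0303c080041203409028040400005805030110740e050431dc7d1d0751d87b1e8781302006007018020702d1e47c0d0330940b054390e0731c8711c06e0f06c1a8131b46f1ac670dc6119464180421a06213c3d18c691984117c530d44d0a85a140551744e164510d8571605c1003f148561783e16c54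
theorem cs0 : chkS L Q0 181889 360 = true := by decide +kernel
def Q1 : ℕ := 0x5956459d665314f5394d54d52545505514a52d57561555595b57d5e5755c58961581635655a4150440d01400ff3f8f03cce939cf23b0e63ace83a8ee378dd354d8368d9358ad2d8b22b8bb2f8b32dcb92bcac2c4d22c0d4300d3310c82a4c2334ce314c632cc92acbd328cf2a8b5330ba30cc729ca8298a52fcd15254851cd0519455114336cdc3bced394b83d8f73d0f55053e35d423ed383e93d4ed395013a4fd3c3e4b42f0c1290a3289374d8fc3f5334c9343c5314d52248124419024491a46d0f45d134591e431184651f4351c3892141d2b450e34b10e4a0f84a52f440e44a92e4952349d2d4c126455114750a42d09420e1380df280a12649825c962689b27c9e2749c1b06b148541a4531a0571c472168591606716c6f158781a8741c079144661e87b1f07d200841cc6e1b4821dc8c23481218761d495250832448f2207e1785f1745c140551906518c6221c8b228892388518092240931fc611384f12c4a1344c1103e1004110c491143f1184710848084200641806c1d078170440f038140480d03007018050100300801000090201504c0b0f43c058370e0100e40a0ec3a0d81f0903208c310d41c0d0330c02f0881a098250b82d0b02b0a8290a027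
theorem cs1 : chkS L Q1 181840 360 = true := by decide +kernel
def Q2 : ℕ := 0x57d5e5755c581615896359d6659564539595694d5314b5294f5455054d525515b5615755955521494f13b4e9394e13d501414f93f5094751945511434a9354d9294a1274992b4b52c4bd2e4c1374d1334c9314852248124495234791f4711d4651846d1a4551445d164451044d124350c43d0e2549c278942749f284a024c922449023c8e1cc7a1c8781e47b1d8711d470190651845d16c57158631a46817c53178521886019c66164581443613835134380d0391303313c430c8450c4440ec4611c480c02f0f4420dc411003f0f8260942408c220842007c1e0741c06c1a0641805c160541403c0a02c0e0340c02403014010100701802415044190941d0a1686f0482804c2a42d0840d02405003fcfe1b8872182e0b43c2308b21085208831b45c0a408044103e0fc3e4fa12cf73d4003f4fb3d8f42688d2042c0ac273acea38ce23c8f33b0e53c4e43a4e73c0803bc9b384e03b8ed0e8493a0e637c4a354dd36cd71dc50150cc334ce348d0350c8318c5310c33248833c55360da31cde370d9358d3344cb3288a2246c1ac961fc981a8c2304c02fcbe2f4bc2ecba2e4b82dcb62d4b42ccb22c4b025c991f47c2bcac2acaa2b4ae2a47e290a329ca52a0a229874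
theorem cs2 : chkS L Q2 181448 360 = true := by decide +kernel
def Q3 : ℕ := 0x59967591654f13b4e93d505404fd3e3ecfa3e4f73d8f53d0ef3cce939cf23ace83b0e6394ed4e53850945519435114757d5e5755c581635896152548344d033ccd330cb328a62f8b32a0bf2d8b22dcba29ca52c0db2c4c92e0dc30cc7288c1360d7314c6364d4290b4358d528cbc368b9310c82bcae2b4ac2ecde3a8ee3c0dd401013f8ff348d356d5a564c0561575595554d5033903551045294d53d055494e5454c52cbd2d4c22acaa2a506409204910f45d1b46913449163f0fd4dd364d4f14d1334c9314890c479184650d47ce2470f84b12f3911041d28439214a52b38d144b92a48d2542d0a42508384e037d2d49d30499154451d26c9a25c9626498284a02749c27c9e228892348821c8c22c8624c9023c95250922448e204801fc7e2148420c821ec7a1f47c1e0791806318866154531485615c5d170591605116c5a1507417c5e1d87514077194641b86d1a4681b06b1bc701cc671c8711a8610803c0f441084460641e06c4a0e83b0601d130390e0371344e110451003f0f8130540701810058050100f0380d0300b0200a024000081105c0312c4f048481081411c011244308c310d41c0d81f090320b82d0b02b0a82809c290d0330c02f0882506826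
theorem cs3 : chkS L Q3 178312 360 = true := by decide +kernel
theorem okF : okm 79644 = true := by decide +kernel
theorem cL : chkL 79644 L PL 360 = true := by decide +kernel

end Pool.Agent.U986.LC.FX797
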