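import Pool.Agent.N238.G6.Base2

set_option autoImplicit false
set_option maxRecDepth 100000

namespace Pool.Agent.U986.LC.FX805
open Pool.Agent.N238.G6

def L : ℕ := 0x54ec82aec838dc846dc8937282af283a56883d68636a8a4ea8595a84cda8a1da883da89c4e844de8664e846ce88b4e8835e84c5b8894f8471b85b138ca4788a4f8c66382a738372382b6382b2b8236b893b1846f1856a5883e5846e38a6878aa9382ad384793846b3863998c8d98439b848db835a982cab82ce9824eb8c1e9883e9828ed89c8d8858f86a8d82acd8868f8878d883ad8664aca1cac1d72463724395a4475a4e0d2ca0dacd452c3a52c3952c195ac9374454f445654c91d4c8cd645456caa5642a56c56564475641d6c4a4ec43c4e485ce44b5c4435e468dc484de491dc485dc428dcce24cc624ecd14cc915cc38ccc3c4cc1c4ec4a5d488d74469d46c8d4cc4748c574c66541c6d436a541ce541cb5414f546299ca287ce483ca683cd491c34a9c34a5c16a5c98c5ca2c5ca0e5c82e5c90d5c88d5c6c49c5469c644bc4c4bc5a51c62d1c6271c42f1c5255c4a55c6389c3323ce309cd305ca943c9163ca14bc894bc83974ab134c9594495d4c1f141973433b141b7141b354137543331c13b1c85f14476545591c9705ca5a9425a9c9d0d4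1d4d44769455994472d4478d4459d45519c5549c4569c672342723c5d1341d53485e3497074871748793485b349507c9543c8563c6a89ac1c9ae481ed301e5d116c1d1667216c1716b9216d1616d121e9161e1db1255a9263b122ba9263a1623b16a0e1eb8a1a15a9a56a1a55a1ae0a1ee0e1ac0e9ac305ecc456685c6c14ce37246552c65b146391c6591561b1569845eb8646156c65564654746d8456d844ed04ce3994654d46d4946b484ea9856c3856c19568395691e4a93b42c6a5246a5a8ce522ba5238f423aa523aa4a38a5a38e4638b4688ed21c8da24ec6b08cec8dc248dc6e28ca628da64ec25c8d25c8ca54cca44eca64ac6648d64c8d627ac223ad21d9c2199c689cd2b18ca91aca91ec289ec2a18cea18d6898d6c4476b486626ae284e721c9e28ca72aa962ac872ac866a88765a5621cd621c76218f626c4e22a6e2684e62c4e69486ec483e36a2a62b2a32a6a26a6a6c8aa389aa688ba2c8ba62e2a626aa22f2a585aa5856a1a56ab862aa843e94c6a82d6a90e6a84e6ac2c6ac0d6ae843aca43ac247ae842ee052ec0d2e634aa398aa1d8e22b4e24723625ae2296e235266172661da32396a23d2323962a392aa3d2263923615b3255136299aa495aa2b9a22b13617b221372a2b9622b1e21736213b62537226b1325332a5313a4b13a6b126635264372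6a1f2289f22b306a9b06ac95a2e30aaa5aa29d0e2c723283672c583a9193ac18ba858ba89d329b0728b2728b632897329907a9983a8993ad51269192ec546683666c14e6854e6b1926a3466a1b26a1e26a1666b112eb302ea306eaa839c6439e301dd481d9d055c6455d4847b8447e302bb842b9d063aa863a5a15c46557c215d4615d421d5461d1f25197231a6a512ea31a6a1526a5593a199721917239c26397a219e2619e221d6261d6a21ba8a1bc4a5386a53a5a23a862bc3233872336e223aa623aa2632a6636a2332e233986477221bb0a1bb12179921793a43b32437320bb32073324774217b4a2374a07b4a0b34a2b5c2175e2439c6439c2631c6635c2531e253c9523a8963c491dc9515a8565c452d74b0391b4399b03597039931319b137c123b8923b812b3892b9174578127d1127d052d78705d8515d850d5851d7850758707157251c95535b053c16534b073c1279570595325951279c1559c945949473e14593545d31457310dd3107531476e115c6915c6155469552eb1183b19c3b114b711c331343b1356b415670956b03563433a7413ab113ab093a3193a7053a34526b31a29391e1658a5651f1611b13927b2123725a37219b1319b1299352983729a3325a31358b135ca5614a731e29297212dca5234a563e212b6292b4e5317612956329567214e7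216612d661354e13573283a1aa3c15957318523ba143791e08cbe04cda0ea9c0d99c24cdc309da28cba30ab3328b33a89a2e89a2ac922ec932b8923b895318d53589c2d895278943789c25c942dc9c8c99984e9c8cc3990e31b1e14b3915938319783895a388dc31b5c198dc11a7c1197c1985c918dc96a9c16b191a95a128fa16b1856a195a85a5295a578689e848dab0a93a0e9e84996849daa0b92b0b9a9a8328f83a8a9329a93b90c33a0cbb80c7390c768e837a0c36a1c36a98368b83780cb7848b6868ba4ca93e0a91f1a12cda185a95273a12c7a13538515b851f2913c6a13d2913c6893c2a93d2853c295172d1950d52e0e98c4e92e8e12c8d517ac114ec92e9c12c9e116bc115bc194ec1ac8d194ac9948d98c8d9ac8c5a4cc584ec5666c14e6c1749895c989cc4e1e48a9672a15d1a1cc4c3e488b672835d183662a3648ab5c1a34c4e3c5a9144f91c4a9345a93c7099560d9c60b9470b95c9914e4d14cb914ce914c6d15c1995e0994e0d9c558544f85c45a5455a5d50c5560cdd40c7550c764d85760c5662c56668564785740cd7488d6498d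
def PL : ℕ := 0x5394151d08b94231d05a9417150ca94331522354889d0d1b0c42b62a321a83099b1d42142b321ac2318a9562109d30354c08d7014ec62156a84342971522308bb1c22a05572a8c109994270d0d194350d8e909888d22a723a81710a4d42342335085da630ab8420cab01754508aeb881629522a437488816ac0cd508ad48ab069883518a4d62230274c0d52147484e528394a11d0e1a958582a0ad1b0362c2a54580627418d510a7442d5119a9d811298b2561146b120aca21c5486a52c294b115111add4602d0b1566066a120a8b95064286b76140b82a560659b0242c2e565029d10b5442857084ec66056a80b468715063283b1c06a21572a8c834270d0d40e9894a582a88d19436252ac458644aa20e960d8a9518a8b82055940cad1163ac2861750444ae30a940d8e9710aca8207517294199420a98cba2260ca99162a838615582c55086ac46076b80a66851d0622c2b1406b21d52b8884252ec6508a82e3a0a728454a1929896c61106a723a8829c1518c51518dc468a2328529c8caa287112d096c41906b522ac82d4159885a222d46681598852d488ba285195017540cd8983626455087542c50ac2c5899421acb8a8a1951414b40c7510e540b95111d66c42509950d0d182b94a60ab0362c4696140e2a4d8981542c4a990a52c454b08cac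1563054ac2363ac88a27415442d0a63a9c06322a54870baa081956a6448d0a5ca8122a8e068d813a59528a0b8a215911334285d458b2560a11aa60ad10a334aac411175d80a72908d41c35a825688b1a06968441996c642062add8884c8b1306522c4dab019486819536a522c05a10aadd2a041c3697024c435382936069aa448294c435368d82911a54b113a6045d1133443428e98132a871a80d12968d4c4443b1c0a940d7298d040bb1115c66542c0993444cd503284ac8563ad182074a214aca163ac18a27488c1a9505ca9c20a94362546c2984688d5303684a6a318a5382035a843a985610ea84ca98543321615a9830c54372a2234688e941c2a89590ab811a2346b42185d0a1ad02a3142acc72828545c31075d84274285d881a1c2ac60a45c165681302aec6888e84452a341d32b8504c1b132252254da941b08681b136ac22505a6a8321a134e884ca1a458941aa32a0742a5c419b1314c614a5a161a438a23584cc15a845a214cc6a815a8454cc853a2831a222acc15380baa115a65582a1194e1a1a32816168c4c5a1386868c85a14531370155c08d8d036344570855c2858c156308d8c856328571035c4450ec2858d1621a8a8e8a1171c14a60c5590a560a95911546c6250d12ec090b1994b40d8d0660a828e9a5071c3421156447510e546c28312b28571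12e542c08b819a8a728a118e314a2d582a10b35c42a2c4aca12b08c31d40cac242b8602d584275d310a83311ae084356029d74444c558858a82729a508e33420d586a3030ec4458ca15c284ad10e528474a62a85d40c850ac352909d86b302622a518e8a0a71c1517485290d4ac152b44462988aae081175d10a88334d518ad40635410cca8336254c614358888ac176251d22a22305ca95708898a54ac122b8a04cd88175d50881aa51728a0a8e315182a66540b650b044e90a566c2c20e154468d32a0d560c0e234ba8411955580b5290cd61454b8158c8a540ec4436143654c810baac4c1688b1a06522c693b019484c195a4e522c05361194d4e0063aa94c42ac6250caa8871c54168435a8293604d3a4482968435a4cd82911366a81d44474a11aa6065511a344ac852b40c74151d08c31d08d70251d05570154464b12a881ac8762ad422a6608152cd11a4c4a610aba5a82035341d86b31032b40b9422ec40d8c23438a981aa588a234394a0e508b503a590aca6261835442566c2d02e851380d60ab191541294cd68446562c0d16688a141d21ca8b1620ab85d302a818e3548811ae214b29d82b10a423a54159a4271c3502d4a198a81622d4645a198a82d488b14551952b2226688a96142e89510ea819a2266a6218550e1a982e2143a8c5282c56543185558435438558c1a142ec40b6541654c1303aac4c88a86452e2aa161854c681b1a225225693941b084c1b1a4ec2250534e8321a1a6a884ca13650941ae22e0543a540ac66221d12a2d460d55911d5013620e52c2611b1a14c2a562c0ca41ca53161a428e33504e115a305a2168c4e815384568c85aa2831380aae115345d82b111223a8c15aa8171c5484cca1a8681614cc685a1a8684cc85314531a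
def T0 : Tr := (.node 7 (.node 14 (.node 18 (.node 2 (.node 17 (.node 3 (.node 11 (.node 8 .one (.node 16 .one .nil)) (.node 6 (.node 16 .one .nil) .nil)) (.node 9 (.node 10 (.node 8 .one (.node 13 .one .nil)) (.node 6 (.node 13 .one .nil) .nil)) (.node 6 (.node 13 (.node 16 .one .nil) .nil) (.node 8 (.node 10 (.node 11 .one .nil) .nil) .nil)))) (.node 6 (.node 16 (.node 1 (.node 12 .one (.node 19 .one .nil)) (.node 3 (.node 13 .one .nil) (.node 12 (.node 19 .one .nil) .nil))) .nil) (.node 8 (.node 10 (.node 5 (.node 12 .one (.node 19 .one .nil)) (.node 9 (.node 11 .one .nil) (.node 12 (.node 19 .one .nil) .nil))) .nil) .nil))) (.node 4 (.node 15 (.node 3 (.node 13 (.node 6 .one (.node 16 .one .nil)) (.node 8 (.node 16 .one .nil) .nil)) (.node 9 (.node 10 (.node 6 .one (.node 11 .one .nil)) (.node 8 (.node 11 .one .nil) .nil)) (.node 6 (.node 10 (.node 13 .one .nil) .nil) (.node 8 (.node 11 (.node 16 .one .nil) .nil) .nil)))) (.node 3 (.node 13 (.node 5 (.node 12 .one (.node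 19 .one .nil)) (.node 6 (.node 16 .one .nil) (.node 12 (.node 19 .one .nil) .nil))) .nil) (.node 9 (.node 11 (.node 1 (.node 12 .one (.node 19 .one .nil)) (.node 8 (.node 10 .one .nil) (.node 12 (.node 19 .one .nil) .nil))) .nil) .nil))) (.node 1 (.node 5 (.node 15 (.node 6 (.node 10 .one .nil) (.node 8 (.node 16 .one .nil) .nil)) (.node 17 (.node 3 (.node 11 .one .nil) (.node 9 (.node 13 .one .nil) .nil)) .nil)) (.node 12 (.node 8 (.node 15 (.node 16 .one .nil) .nil) (.node 9 (.node 13 (.node 17 .one .nil) .nil) .nil)) (.node 19 (.node 3 (.node 11 (.node 17 .one .nil) .nil) (.node 6 (.node 10 (.node 15 .one .nil) .nil) .nil)) .nil))) (.node 5 (.node 12 (.node 8 (.node 15 (.node 16 .one .nil) .nil) (.node 9 (.node 13 (.node 17 .one .nil) .nil) .nil)) (.node 19 (.node 3 (.node 11 (.node 17 .one .nil) .nil) (.node 6 (.node 10 (.node 15 .one .nil) .nil) .nil)) .nil)) (.node 3 (.node 8 (.node 11 (.node 16 (.node 15 .one (.node 17 .one .nil)) .nil) .nil) .nil) (.node 6 (.node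 9 (.node 10 (.node 13 (.node 15 .one (.node 17 .one .nil)) .nil) .nil) .nil) .nil)))))) (.node 6 (.node 11 (.node 19 (.node 2 (.node 10 (.node 9 .one (.node 17 .one .nil)) (.node 15 (.node 17 .one .nil) .nil)) (.node 3 (.node 4 (.node 15 .one (.node 16 .one .nil)) (.node 9 (.node 16 .one .nil) .nil)) (.node 4 (.node 15 (.node 17 .one .nil) .nil) (.node 9 (.node 10 (.node 16 .one .nil) .nil) .nil)))) (.node 8 (.node 9 (.node 16 (.node 12 .one (.node 13 .one .nil)) .nil) (.node 15 (.node 17 (.node 5 .one (.node 13 .one .nil)) .nil) .nil)) (.node 9 (.node 16 (.node 3 (.node 10 .one .nil) (.node 12 (.node 13 .one .nil) .nil)) .nil) (.node 15 (.node 17 (.node 2 (.node 4 .one .nil) (.node 5 (.node 13 .one .nil) .nil)) .nil) .nil)))) (.node 3 (.node 5 (.node 15 (.node 10 (.node 19 .one .nil) (.node 13 (.node 17 .one .nil) .nil)) .nil) .nil) (.node 4 (.node 12 (.node 16 (.node 2 (.node 19 .one .nil) (.node 9 (.node 13 .one .nil) .nil)) .nil) .nil) .nil))) (.node 9 (.node 16 (.node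 15 (.node 17 (.node 2 (.node 4 .one (.node 12 .one .nil)) (.node 3 (.node 5 .one (.node 10 .one .nil)) (.node 4 (.node 12 .one .nil) (.node 5 (.node 10 .one .nil) .nil)))) (.node 4 (.node 12 (.node 13 .one .nil) .nil) .nil)) (.node 2 (.node 8 (.node 12 (.node 11 .one (.node 17 .one .nil)) .nil) .nil) .nil)) (.node 5 (.node 8 (.node 17 (.node 10 (.node 15 .one .nil) (.node 12 (.node 13 .one .nil) .nil)) .nil) .nil) (.node 2 (.node 4 (.node 11 (.node 12 (.node 19 .one .nil) .nil) .nil) .nil) .nil))) (.node 5 (.node 15 (.node 8 (.node 10 (.node 11 (.node 17 .one .nil) .nil) (.node 12 (.node 13 (.node 16 .one .nil) .nil) .nil)) (.node 3 (.node 13 (.node 16 (.node 17 .one .nil) .nil) .nil) .nil)) (.node 3 (.node 10 (.node 11 (.node 17 (.node 19 .one .nil) .nil) .nil) .nil) .nil)) .nil)))) (.node 15 (.node 17 (.node 1 (.node 18 (.node 3 (.node 10 (.node 9 .one (.node 16 .one .nil)) (.node 6 (.node 16 .one .nil) .nil)) (.node 8 (.node 11 (.node 9 .one (.node 13 .one .nil)) (.node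 6 (.node 13 .one .nil) .nil)) (.node 6 (.node 13 (.node 16 .one .nil) .nil) (.node 9 (.node 10 (.node 11 .one .nil) .nil) .nil)))) (.node 6 (.node 16 (.node 2 (.node 12 .one (.node 19 .one .nil)) (.node 3 (.node 13 .one .nil) (.node 12 (.node 19 .one .nil) .nil))) .nil) (.node 9 (.node 11 (.node 4 (.node 12 .one (.node 19 .one .nil)) (.node 8 (.node 10 .one .nil) (.node 12 (.node 19 .one .nil) .nil))) .nil) .nil))) (.node 3 (.node 4 (.node 5 (.node 13 (.node 12 .one (.node 19 .one .nil)) .nil) (.node 10 (.node 18 (.node 2 .one (.node 19 .one .nil)) .nil) .nil)) (.node 5 (.node 13 (.node 6 (.node 16 .one .nil) (.node 12 (.node 19 .one .nil) .nil)) .nil) (.node 10 (.node 18 (.node 2 (.node 19 .one .nil) (.node 9 (.node 16 .one .nil) .nil)) .nil) .nil))) (.node 8 (.node 2 (.node 5 (.node 10 (.node 12 .one (.node 19 .one .nil)) .nil) (.node 13 (.node 18 (.node 4 .one (.node 12 .one .nil)) .nil) .nil)) (.node 5 (.node 10 (.node 9 (.node 11 .one .nil) (.node 12 (.node 19 .one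 .nil) .nil)) .nil) (.node 13 (.node 18 (.node 4 (.node 12 .one .nil) (.node 6 (.node 11 .one .nil) .nil)) .nil) .nil))) .nil))) (.node 8 (.node 10 (.node 6 (.node 16 (.node 3 (.node 11 .one (.node 19 .one .nil)) (.node 9 (.node 12 .one (.node 13 .one .nil)) (.node 11 (.node 19 .one .nil) (.node 12 (.node 13 .one .nil) .nil)))) (.node 1 (.node 11 (.node 19 .one .nil) .nil) .nil)) (.node 1 (.node 12 (.node 5 (.node 19 .one .nil) (.node 9 (.node 16 .one .nil) .nil)) .nil) .nil)) (.node 12 (.node 9 (.node 18 (.node 1 (.node 16 .one .nil) (.node 4 (.node 13 .one .nil) .nil)) .nil) (.node 5 (.node 6 (.node 13 (.node 16 .one .nil) .nil) .nil) .nil)) .nil)) (.node 19 (.node 6 (.node 1 (.node 5 (.node 12 (.node 16 .one .nil) .nil) (.node 10 (.node 11 (.node 18 .one .nil) .nil) .nil)) (.node 3 (.node 5 (.node 10 (.node 16 .one .nil) .nil) .nil) .nil)) (.node 3 (.node 4 (.node 10 (.node 11 (.node 18 .one .nil) .nil) .nil) .nil) .nil)) .nil))) (.node 3 (.node 13 (.node 8 (.node 18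 (.node 10 (.node 6 (.node 11 .one (.node 19 .one .nil)) (.node 9 (.node 12 .one (.node 16 .one .nil)) (.node 11 (.node 19 .one .nil) (.node 12 (.node 16 .one .nil) .nil)))) (.node 2 (.node 12 (.node 16 .one .nil) .nil) .nil)) (.node 9 (.node 11 (.node 17 (.node 12 .one (.node 16 .one .nil)) .nil) .nil) .nil)) (.node 17 (.node 9 (.node 11 (.node 6 (.node 10 .one (.node 19 .one .nil)) (.node 10 (.node 19 .one .nil) (.node 12 (.node 16 .one .nil) .nil))) (.node 1 (.node 12 (.node 16 .one .nil) .nil) .nil)) (.node 1 (.node 19 (.node 5 (.node 12 .one .nil) (.node 6 (.node 11 .one .nil) .nil)) .nil) .nil)) (.node 2 (.node 18 (.node 19 (.node 4 (.node 12 .one .nil) (.node 6 (.node 10 .one .nil) .nil)) .nil) .nil) .nil))) (.node 19 (.node 10 (.node 11 (.node 4 (.node 8 (.node 18 .one .nil) .nil) (.node 5 (.node 9 (.node 17 .one .nil) .nil) .nil)) (.node 2 (.node 6 (.node 17 (.node 18 .one .nil) .nil) .nil) .nil)) (.node 1 (.node 6 (.node 11 (.node 17 (.node 18 .one .nil) .nil)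 .nil) .nil) .nil)) .nil)) (.node 12 (.node 8 (.node 13 (.node 9 (.node 4 (.node 10 (.node 18 .one .nil) .nil) (.node 5 (.node 11 (.node 17 .one .nil) .nil) .nil)) (.node 2 (.node 16 (.node 17 (.node 18 .one .nil) .nil) .nil) .nil)) (.node 2 (.node 4 (.node 10 (.node 18 (.node 19 .one .nil) .nil) .nil) .nil) .nil)) (.node 1 (.node 9 (.node 17 (.node 5 (.node 11 (.node 19 .one .nil) .nil) (.node 13 (.node 16 (.node 18 .one .nil) .nil) .nil)) .nil) .nil) .nil)) .nil)))) (.node 8 (.node 13 (.node 5 (.node 18 (.node 14 (.node 2 (.node 4 (.node 15 .one (.node 17 .one .nil)) (.node 3 (.node 17 .one .nil) .nil)) (.node 9 (.node 10 (.node 15 .one (.node 16 .one .nil)) (.node 3 (.node 16 .one .nil) .nil)) (.node 3 (.node 16 (.node 17 .one .nil) .nil) (.node 4 (.node 10 (.node 15 .one .nil) .nil) .nil)))) (.node 1 (.node 3 (.node 17 (.node 11 .one (.node 19 .one .nil)) .nil) (.node 10 (.node 15 (.node 6 .one (.node 19 .one .nil)) .nil) .nil)) (.node 3 (.node 17 (.node 2 (.node 16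 .one .nil) (.node 11 (.node 19 .one .nil) .nil)) .nil) (.node 10 (.node 15 (.node 4 (.node 9 .one .nil) (.node 6 (.node 19 .one .nil) .nil)) .nil) .nil)))) (.node 12 (.node 19 (.node 2 (.node 4 (.node 15 .one (.node 17 .one .nil)) (.node 9 (.node 17 .one .nil) .nil)) (.node 3 (.node 10 (.node 9 .one (.node 16 .one .nil)) (.node 15 (.node 16 .one .nil) .nil)) (.node 4 (.node 15 (.node 16 .one .nil) .nil) (.node 9 (.node 10 (.node 17 .one .nil) .nil) .nil)))) (.node 9 (.node 17 (.node 2 (.node 10 .one .nil) (.node 11 (.node 14 .one .nil) .nil)) .nil) (.node 15 (.node 16 (.node 3 (.node 4 .one .nil) (.node 6 (.node 14 .one .nil) .nil)) .nil) .nil))) (.node 2 (.node 6 (.node 15 (.node 10 (.node 19 .one .nil) (.node 14 (.node 16 .one .nil) .nil)) .nil) .nil) (.node 4 (.node 11 (.node 17 (.node 3 (.node 19 .one .nil) (.node 9 (.node 14 .one .nil) .nil)) .nil) .nil) .nil)))) (.node 9 (.node 16 (.node 15 (.node 17 (.node 2 (.node 6 .one (.node 10 .one .nil)) (.node 3 (.node 4 .one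 (.node 11 .one .nil)) (.node 4 (.node 11 .one .nil) (.node 6 (.node 10 .one .nil) .nil)))) .nil) (.node 14 (.node 18 (.node 1 (.node 6 .one (.node 11 .one .nil)) (.node 3 (.node 10 .one .nil) (.node 6 (.node 11 .one .nil) .nil))) .nil) .nil)) (.node 4 (.node 12 (.node 18 (.node 1 (.node 11 .one (.node 19 .one .nil)) (.node 10 (.node 15 .one .nil) (.node 11 (.node 19 .one .nil) .nil))) (.node 3 (.node 11 (.node 19 .one .nil) .nil) .nil)) (.node 11 (.node 14 (.node 15 (.node 17 .one .nil) .nil) .nil) .nil)) .nil)) (.node 2 (.node 18 (.node 4 (.node 14 (.node 6 (.node 11 .one (.node 19 .one .nil)) (.node 11 (.node 19 .one .nil) (.node 15 (.node 17 .one .nil) .nil))) .nil) (.node 12 (.node 16 (.node 1 (.node 6 .one (.node 19 .one .nil)) (.node 3 (.node 17 .one .nil) (.node 6 (.node 19 .one .nil) .nil))) .nil) .nil)) (.node 6 (.node 16 (.node 10 (.node 12 (.node 19 .one .nil) .nil) (.node 14 (.node 15 (.node 17 .one .nil) .nil) .nil)) .nil) .nil)) .nil))) (.node 16 (.node 2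 (.node 14 (.node 19 (.node 6 (.node 11 (.node 1 .one (.node 15 .one .nil)) (.node 4 (.node 15 .one .nil) .nil)) (.node 12 (.node 5 (.node 1 .one (.node 9 .one .nil)) (.node 9 (.node 10 .one .nil) .nil)) .nil)) (.node 17 (.node 1 (.node 5 (.node 15 .one .nil) (.node 9 (.node 11 .one .nil) .nil)) (.node 5 (.node 6 (.node 15 .one .nil) .nil) (.node 9 (.node 11 (.node 12 .one .nil) .nil) .nil))) (.node 4 (.node 6 (.node 11 (.node 15 .one .nil) .nil) .nil) (.node 5 (.node 9 (.node 10 (.node 12 .one .nil) .nil) .nil) .nil)))) (.node 18 (.node 10 (.node 15 (.node 1 (.node 9 .one (.node 17 .one .nil)) (.node 3 (.node 4 .one (.node 19 .one .nil)) (.node 4 (.node 19 .one .nil) (.node 9 (.node 17 .one .nil) .nil)))) (.node 3 (.node 5 (.node 19 .one .nil) .nil) .nil)) (.node 1 (.node 5 (.node 12 (.node 19 .one .nil) (.node 15 (.node 17 .one .nil) .nil)) .nil) .nil)) (.node 6 (.node 9 (.node 10 (.node 12 (.node 19 .one .nil) .nil) .nil) .nil) .nil))) (.node 1 (.node 15 (.node 5 (.node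 17 (.node 3 (.node 11 .one (.node 19 .one .nil)) (.node 11 (.node 19 .one .nil) (.node 14 (.node 18 .one .nil) .nil))) .nil) (.node 9 (.node 12 (.node 4 (.node 11 .one (.node 19 .one .nil)) (.node 10 (.node 18 .one .nil) (.node 11 (.node 19 .one .nil) .nil))) .nil) .nil)) (.node 9 (.node 11 (.node 6 (.node 12 (.node 19 .one .nil) .nil) (.node 14 (.node 17 (.node 18 .one .nil) .nil) .nil)) .nil) .nil)) .nil)) (.node 19 (.node 2 (.node 10 (.node 5 (.node 3 (.node 14 (.node 18 .one .nil) .nil) (.node 6 (.node 15 (.node 17 .one .nil) .nil) .nil)) (.node 4 (.node 12 (.node 15 (.node 18 .one .nil) .nil) .nil) .nil)) (.node 3 (.node 4 (.node 11 (.node 14 (.node 18 .one .nil) .nil) .nil) .nil) .nil)) (.node 1 (.node 5 (.node 15 (.node 6 (.node 11 (.node 17 .one .nil) .nil) (.node 10 (.node 12 (.node 18 .one .nil) .nil) .nil)) .nil) .nil) .nil)) .nil))) (.node 9 (.node 1 (.node 16 (.node 14 (.node 15 (.node 6 (.node 4 (.node 13 .one (.node 18 .one .nil)) (.node 5 (.node 10 .one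 (.node 19 .one .nil)) (.node 10 (.node 19 .one .nil) (.node 13 (.node 18 .one .nil) .nil)))) (.node 2 (.node 4 (.node 18 .one .nil) .nil) .nil)) (.node 17 (.node 11 (.node 3 (.node 5 .one (.node 19 .one .nil)) (.node 2 (.node 18 .one .nil) (.node 5 (.node 19 .one .nil) .nil))) (.node 2 (.node 4 (.node 18 .one .nil) .nil) .nil)) .nil)) (.node 12 (.node 13 (.node 17 (.node 2 (.node 6 .one (.node 19 .one .nil)) (.node 3 (.node 18 .one .nil) (.node 6 (.node 19 .one .nil) .nil))) (.node 6 (.node 11 (.node 19 .one .nil) .nil) .nil)) (.node 2 (.node 4 (.node 19 (.node 15 .one (.node 17 .one .nil)) .nil) .nil) .nil)) (.node 3 (.node 4 (.node 17 (.node 11 (.node 19 .one .nil) (.node 13 (.node 18 .one .nil) .nil)) .nil) .nil) (.node 2 (.node 6 (.node 10 (.node 15 (.node 19 .one .nil) .nil) .nil) .nil) .nil)))) (.node 5 (.node 13 (.node 15 (.node 17 (.node 4 (.node 14 .one (.node 18 .one .nil)) (.node 6 (.node 10 .one (.node 19 .one .nil)) (.node 10 (.node 19 .one .nil) (.node 14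 (.node 18 .one .nil) .nil)))) .nil) (.node 4 (.node 12 (.node 19 (.node 14 .one (.node 18 .one .nil)) .nil) .nil) .nil)) (.node 17 (.node 19 (.node 3 (.node 10 (.node 15 .one .nil) .nil) (.node 11 (.node 12 (.node 14 .one .nil) .nil) .nil)) .nil) .nil)) (.node 4 (.node 11 (.node 19 (.node 6 (.node 14 (.node 13 .one (.node 18 .one .nil)) .nil) (.node 3 (.node 15 (.node 17 .one .nil) .nil) .nil)) .nil) (.node 3 (.node 13 (.node 15 (.node 17 (.node 18 .one .nil) .nil) .nil) .nil) .nil)) .nil))) (.node 4 (.node 13 (.node 3 (.node 18 (.node 17 (.node 2 (.node 10 .one (.node 19 .one .nil)) (.node 10 (.node 19 .one .nil) (.node 15 (.node 16 .one .nil) .nil))) (.node 5 (.node 10 (.node 19 .one .nil) .nil) .nil)) (.node 12 (.node 16 (.node 14 (.node 5 .one (.node 19 .one .nil)) (.node 11 (.node 19 .one .nil) .nil)) .nil) .nil)) (.node 14 (.node 11 (.node 17 (.node 2 (.node 6 .one (.node 19 .one .nil)) (.node 5 (.node 15 .one .nil) (.node 6 (.node 19 .one .nil) .nil))) .nil) (.node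 12 (.node 16 (.node 5 (.node 19 .one .nil) (.node 6 (.node 15 .one .nil) .nil)) .nil) .nil)) .nil)) (.node 2 (.node 14 (.node 18 (.node 16 (.node 3 (.node 10 .one (.node 19 .one .nil)) (.node 10 (.node 19 .one .nil) (.node 15 (.node 17 .one .nil) .nil))) (.node 6 (.node 10 (.node 19 .one .nil) .nil) .nil)) (.node 11 (.node 12 (.node 17 (.node 19 .one .nil) .nil) .nil) .nil)) .nil) .nil)) .nil)) (.node 19 (.node 1 (.node 5 (.node 15 (.node 6 (.node 11 (.node 13 (.node 17 .one .nil) .nil) (.node 12 (.node 14 (.node 16 .one .nil) .nil) .nil)) (.node 3 (.node 10 (.node 16 (.node 17 .one .nil) .nil) .nil) .nil)) (.node 3 (.node 12 (.node 13 (.node 17 (.node 18 .one .nil) .nil) .nil) .nil) .nil)) (.node 2 (.node 6 (.node 16 (.node 10 (.node 15 (.node 17 .one .nil) .nil) (.node 11 (.node 14 (.node 18 .one .nil) .nil) .nil)) .nil) .nil) .nil)) (.node 4 (.node 2 (.node 14 (.node 6 (.node 10 (.node 13 (.node 18 .one .nil) .nil) (.node 12 (.node 15 (.node 16 .one .nil) .nil) .nil))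 (.node 3 (.node 11 (.node 16 (.node 18 .one .nil) .nil) .nil) .nil)) (.node 3 (.node 12 (.node 13 (.node 17 (.node 18 .one .nil) .nil) .nil) .nil) .nil)) (.node 3 (.node 5 (.node 13 (.node 10 (.node 14 (.node 18 .one .nil) .nil) (.node 11 (.node 15 (.node 17 .one .nil) .nil) .nil)) .nil) .nil) .nil)) .nil)) .nil))))
def T1 : Tr := (.node 5 (.node 12 (.node 19 (.node 2 (.node 17 (.node 3 (.node 13 (.node 6 .one (.node 16 .one .nil)) (.node 8 (.node 16 .one .nil) .nil)) (.node 9 (.node 10 (.node 6 .one (.node 11 .one .nil)) (.node 8 (.node 11 .one .nil) .nil)) (.node 6 (.node 10 (.node 13 .one .nil) .nil) (.node 8 (.node 11 (.node 16 .one .nil) .nil) .nil)))) (.node 6 (.node 10 (.node 7 (.node 14 .one (.node 18 .one .nil)) (.node 9 (.node 13 .one .nil) (.node 14 (.node 18 .one .nil) .nil))) .nil) (.node 8 (.node 16 (.node 3 (.node 11 .one .nil) (.node 14 (.node 18 .one .nil) .nil)) .nil) .nil))) (.node 4 (.node 15 (.node 3 (.node 11 (.node 8 .one (.node 16 .one .nil)) (.node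 6 (.node 16 .one .nil) .nil)) (.node 9 (.node 10 (.node 8 .one (.node 13 .one .nil)) (.node 6 (.node 13 .one .nil) .nil)) (.node 6 (.node 13 (.node 16 .one .nil) .nil) (.node 8 (.node 10 (.node 11 .one .nil) .nil) .nil)))) (.node 3 (.node 11 (.node 7 (.node 14 .one (.node 18 .one .nil)) (.node 8 (.node 16 .one .nil) (.node 14 (.node 18 .one .nil) .nil))) .nil) (.node 9 (.node 13 (.node 6 (.node 10 .one .nil) (.node 14 (.node 18 .one .nil) .nil)) .nil) .nil))) (.node 7 (.node 14 (.node 6 (.node 15 (.node 16 .one .nil) .nil) (.node 9 (.node 11 (.node 17 .one .nil) .nil) .nil)) (.node 18 (.node 3 (.node 13 (.node 17 .one .nil) .nil) (.node 8 (.node 10 (.node 15 .one .nil) .nil) .nil)) .nil)) (.node 3 (.node 6 (.node 13 (.node 16 (.node 15 .one (.node 17 .one .nil)) .nil) .nil) .nil) (.node 8 (.node 9 (.node 10 (.node 11 (.node 15 .one (.node 17 .one .nil)) .nil) .nil) .nil) .nil))))) (.node 8 (.node 13 (.node 18 (.node 2 (.node 10 (.node 9 .one (.node 17 .one .nil)) (.node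 15 (.node 17 .one .nil) .nil)) (.node 3 (.node 4 (.node 15 .one (.node 16 .one .nil)) (.node 9 (.node 16 .one .nil) .nil)) (.node 4 (.node 15 (.node 17 .one .nil) .nil) (.node 9 (.node 10 (.node 16 .one .nil) .nil) .nil)))) (.node 6 (.node 9 (.node 16 (.node 11 .one (.node 14 .one .nil)) .nil) (.node 15 (.node 17 (.node 7 .one (.node 11 .one .nil)) .nil) .nil)) (.node 9 (.node 16 (.node 3 (.node 10 .one .nil) (.node 11 (.node 14 .one .nil) .nil)) .nil) (.node 15 (.node 17 (.node 2 (.node 4 .one .nil) (.node 7 (.node 11 .one .nil) .nil)) .nil) .nil)))) (.node 3 (.node 7 (.node 15 (.node 10 (.node 18 .one .nil) (.node 11 (.node 17 .one .nil) .nil)) .nil) .nil) (.node 4 (.node 14 (.node 16 (.node 2 (.node 18 .one .nil) (.node 9 (.node 11 .one .nil) .nil)) .nil) .nil) .nil))) (.node 9 (.node 16 (.node 15 (.node 17 (.node 2 (.node 4 .one (.node 14 .one .nil)) (.node 3 (.node 7 .one (.node 10 .one .nil)) (.node 4 (.node 14 .one .nil) (.node 7 (.node 10 .one .nil) .nil)))) (.node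 4 (.node 11 (.node 14 .one .nil) .nil) .nil)) (.node 2 (.node 6 (.node 14 (.node 13 .one (.node 17 .one .nil)) .nil) .nil) .nil)) (.node 6 (.node 7 (.node 17 (.node 10 (.node 15 .one .nil) (.node 11 (.node 14 .one .nil) .nil)) .nil) .nil) (.node 2 (.node 4 (.node 13 (.node 14 (.node 18 .one .nil) .nil) .nil) .nil) .nil))) (.node 7 (.node 15 (.node 6 (.node 10 (.node 13 (.node 17 .one .nil) .nil) (.node 11 (.node 14 (.node 16 .one .nil) .nil) .nil)) (.node 3 (.node 11 (.node 16 (.node 17 .one .nil) .nil) .nil) .nil)) (.node 3 (.node 10 (.node 13 (.node 17 (.node 18 .one .nil) .nil) .nil) .nil) .nil)) .nil)))) (.node 3 (.node 10 (.node 19 (.node 18 (.node 2 (.node 8 (.node 11 .one (.node 17 .one .nil)) (.node 15 (.node 17 .one .nil) .nil)) (.node 4 (.node 13 (.node 6 .one (.node 15 .one .nil)) (.node 15 (.node 17 .one .nil) .nil)) (.node 6 (.node 11 (.node 8 .one (.node 13 .one .nil)) .nil) .nil))) (.node 6 (.node 11 (.node 9 (.node 14 .one (.node 16 .one .nil)) (.node 8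 (.node 13 .one .nil) (.node 14 (.node 16 .one .nil) .nil))) .nil) (.node 15 (.node 17 (.node 2 (.node 4 .one .nil) (.node 9 (.node 16 .one .nil) .nil)) .nil) .nil))) (.node 8 (.node 15 (.node 16 (.node 6 (.node 13 .one (.node 18 .one .nil)) (.node 7 (.node 18 .one .nil) .nil)) .nil) (.node 9 (.node 11 (.node 13 (.node 17 .one .nil) .nil) .nil) .nil)) (.node 9 (.node 13 (.node 17 (.node 18 (.node 7 .one (.node 11 .one .nil)) .nil) .nil) .nil) .nil))) (.node 11 (.node 17 (.node 7 (.node 15 (.node 4 (.node 14 .one (.node 18 .one .nil)) (.node 8 (.node 16 .one .nil) (.node 14 (.node 18 .one .nil) .nil))) .nil) (.node 9 (.node 13 (.node 6 (.node 14 .one (.node 16 .one .nil)) (.node 8 (.node 18 .one .nil) (.node 14 (.node 16 .one .nil) .nil))) .nil) .nil)) (.node 2 (.node 14 (.node 19 (.node 4 (.node 18 .one .nil) (.node 6 (.node 16 .one .nil) .nil)) .nil) .nil) .nil)) .nil)) (.node 6 (.node 15 (.node 10 (.node 7 (.node 17 (.node 2 (.node 14 .one (.node 18 .one .nil)) (.node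 9 (.node 13 .one .nil) (.node 14 (.node 18 .one .nil) .nil))) .nil) (.node 8 (.node 16 (.node 9 (.node 11 .one (.node 14 .one .nil)) (.node 11 (.node 14 .one .nil) (.node 13 (.node 18 .one .nil) .nil))) .nil) .nil)) (.node 11 (.node 19 (.node 17 (.node 2 (.node 4 .one (.node 14 .one .nil)) (.node 4 (.node 14 .one .nil) (.node 8 (.node 13 .one .nil) .nil))) (.node 4 (.node 9 (.node 14 .one .nil) .nil) .nil)) (.node 7 (.node 8 (.node 14 (.node 16 .one .nil) .nil) .nil) .nil)) .nil)) (.node 14 (.node 11 (.node 9 (.node 4 (.node 10 (.node 19 .one .nil) .nil) (.node 7 (.node 13 (.node 17 .one .nil) .nil) .nil)) (.node 2 (.node 16 (.node 17 (.node 19 .one .nil) .nil) .nil) .nil)) (.node 2 (.node 4 (.node 10 (.node 18 (.node 19 .one .nil) .nil) .nil) .nil) .nil)) .nil)) .nil))) (.node 6 (.node 11 (.node 7 (.node 12 (.node 19 (.node 2 (.node 4 (.node 15 .one (.node 17 .one .nil)) (.node 3 (.node 17 .one .nil) .nil)) (.node 9 (.node 10 (.node 15 .one (.node 16 .one .nil)) (.node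 3 (.node 16 .one .nil) .nil)) (.node 3 (.node 16 (.node 17 .one .nil) .nil) (.node 4 (.node 10 (.node 15 .one .nil) .nil) .nil)))) (.node 8 (.node 15 (.node 16 (.node 2 .one (.node 14 .one .nil)) .nil) .nil) (.node 9 (.node 13 (.node 17 (.node 4 .one (.node 14 .one .nil)) .nil) .nil) .nil))) (.node 18 (.node 14 (.node 2 (.node 4 (.node 15 .one (.node 17 .one .nil)) (.node 9 (.node 17 .one .nil) .nil)) (.node 3 (.node 10 (.node 9 .one (.node 16 .one .nil)) (.node 15 (.node 16 .one .nil) .nil)) (.node 4 (.node 15 (.node 16 .one .nil) .nil) (.node 9 (.node 10 (.node 17 .one .nil) .nil) .nil)))) (.node 3 (.node 13 (.node 17 (.node 4 .one (.node 19 .one .nil)) .nil) .nil) (.node 8 (.node 10 (.node 15 (.node 2 .one (.node 19 .one .nil)) .nil) .nil) .nil))) (.node 2 (.node 17 (.node 3 (.node 16 (.node 19 .one .nil) .nil) (.node 9 (.node 10 (.node 14 .one .nil) .nil) .nil)) .nil) (.node 4 (.node 15 (.node 3 (.node 14 (.node 16 .one .nil) .nil) (.node 9 (.node 10 (.node 19 .one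 .nil) .nil) .nil)) .nil) .nil)))) (.node 9 (.node 15 (.node 17 (.node 16 (.node 2 (.node 8 .one (.node 10 .one .nil)) (.node 3 (.node 4 .one (.node 13 .one .nil)) (.node 4 (.node 13 .one .nil) (.node 8 (.node 10 .one .nil) .nil)))) (.node 4 (.node 12 (.node 13 .one .nil) .nil) .nil)) (.node 4 (.node 10 (.node 14 (.node 19 .one .nil) .nil) .nil) .nil)) (.node 13 (.node 4 (.node 14 (.node 18 (.node 3 .one (.node 19 .one .nil)) .nil) .nil) (.node 8 (.node 12 (.node 16 (.node 19 .one .nil) .nil) .nil) .nil)) (.node 3 (.node 10 (.node 12 (.node 16 (.node 19 .one .nil) .nil) .nil) .nil) .nil))) (.node 2 (.node 19 (.node 4 (.node 12 (.node 8 (.node 13 .one (.node 18 .one .nil)) (.node 13 (.node 18 .one .nil) (.node 15 (.node 17 .one .nil) .nil))) .nil) (.node 14 (.node 16 (.node 3 (.node 17 .one .nil) (.node 8 (.node 18 .one .nil) .nil)) .nil) .nil)) (.node 8 (.node 16 (.node 10 (.node 14 (.node 18 .one .nil) .nil) (.node 12 (.node 15 (.node 17 .one .nil) .nil) .nil)) .nil) .nil))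 .nil))) (.node 2 (.node 16 (.node 10 (.node 18 (.node 19 (.node 3 (.node 7 .one (.node 15 .one .nil)) (.node 4 (.node 15 .one .nil) .nil)) (.node 9 (.node 14 (.node 8 .one (.node 12 .one .nil)) .nil) .nil)) (.node 9 (.node 7 (.node 12 (.node 14 .one .nil) .nil) (.node 15 (.node 17 (.node 19 .one .nil) .nil) .nil)) (.node 3 (.node 4 (.node 15 (.node 19 .one .nil) .nil) .nil) .nil))) (.node 12 (.node 8 (.node 15 (.node 4 (.node 13 .one (.node 18 .one .nil)) (.node 7 (.node 17 .one .nil) (.node 13 (.node 18 .one .nil) .nil))) .nil) (.node 9 (.node 14 (.node 7 (.node 18 .one .nil) (.node 13 (.node 17 .one .nil) .nil)) .nil) .nil)) .nil)) (.node 18 (.node 10 (.node 7 (.node 3 (.node 12 (.node 19 .one .nil) .nil) (.node 8 (.node 15 (.node 17 .one .nil) .nil) .nil)) (.node 4 (.node 14 (.node 15 (.node 19 .one .nil) .nil) .nil) .nil)) (.node 3 (.node 4 (.node 12 (.node 13 (.node 19 .one .nil) .nil) .nil) .nil) .nil)) .nil)) .nil)) (.node 4 (.node 9 (.node 11 (.node 3 (.node 18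 (.node 19 (.node 10 (.node 7 .one (.node 17 .one .nil)) (.node 2 (.node 17 .one .nil) .nil)) (.node 14 (.node 16 (.node 12 .one (.node 13 .one .nil)) .nil) .nil)) (.node 16 (.node 7 (.node 12 (.node 14 .one .nil) .nil) (.node 15 (.node 17 (.node 19 .one .nil) .nil) .nil)) (.node 2 (.node 10 (.node 17 (.node 19 .one .nil) .nil) .nil) .nil))) (.node 12 (.node 13 (.node 17 (.node 2 (.node 8 .one (.node 18 .one .nil)) (.node 7 (.node 15 .one .nil) (.node 8 (.node 18 .one .nil) .nil))) .nil) (.node 14 (.node 16 (.node 7 (.node 18 .one .nil) (.node 8 (.node 15 .one .nil) .nil)) .nil) .nil)) .nil)) (.node 2 (.node 12 (.node 19 (.node 16 (.node 3 (.node 10 .one (.node 18 .one .nil)) (.node 10 (.node 18 .one .nil) (.node 15 (.node 17 .one .nil) .nil))) (.node 8 (.node 10 (.node 18 .one .nil) .nil) .nil)) (.node 13 (.node 14 (.node 17 (.node 18 .one .nil) .nil) .nil) .nil)) .nil) .nil)) (.node 18 (.node 2 (.node 12 (.node 8 (.node 10 (.node 11 (.node 19 .one .nil) .nil) (.node 14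 (.node 15 (.node 16 .one .nil) .nil) .nil)) (.node 3 (.node 13 (.node 16 (.node 19 .one .nil) .nil) .nil) .nil)) (.node 3 (.node 11 (.node 14 (.node 17 (.node 19 .one .nil) .nil) .nil) .nil) .nil)) (.node 3 (.node 7 (.node 11 (.node 10 (.node 12 (.node 19 .one .nil) .nil) (.node 13 (.node 15 (.node 17 .one .nil) .nil) .nil)) .nil) .nil) .nil)) .nil)) .nil)))
def T2 : Tr := (.node 4 (.node 12 (.node 14 (.node 5 (.node 19 (.node 3 (.node 10 (.node 9 .one (.node 16 .one .nil)) (.node 6 (.node 16 .one .nil) .nil)) (.node 8 (.node 11 (.node 9 .one (.node 13 .one .nil)) (.node 6 (.node 13 .one .nil) .nil)) (.node 6 (.node 13 (.node 16 .one .nil) .nil) (.node 9 (.node 10 (.node 11 .one .nil) .nil) .nil)))) (.node 8 (.node 15 (.node 16 (.node 10 .one (.node 18 .one .nil)) .nil) .nil) (.node 9 (.node 13 (.node 17 (.node 3 .one (.node 18 .one .nil)) .nil) .nil) .nil))) (.node 7 (.node 18 (.node 3 (.node 10 (.node 9 .one (.node 16 .one .nil)) (.node 8 (.node 16 .one .nil) .nil)) (.node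 6 (.node 11 (.node 8 .one (.node 13 .one .nil)) (.node 9 (.node 13 .one .nil) .nil)) (.node 8 (.node 11 (.node 16 .one .nil) .nil) (.node 9 (.node 10 (.node 13 .one .nil) .nil) .nil)))) (.node 6 (.node 15 (.node 16 (.node 10 .one (.node 19 .one .nil)) .nil) .nil) (.node 9 (.node 11 (.node 17 (.node 3 .one (.node 19 .one .nil)) .nil) .nil) .nil))) (.node 3 (.node 16 (.node 6 (.node 13 (.node 19 .one .nil) .nil) (.node 8 (.node 11 (.node 18 .one .nil) .nil) .nil)) .nil) (.node 9 (.node 10 (.node 6 (.node 13 (.node 18 .one .nil) .nil) (.node 8 (.node 11 (.node 19 .one .nil) .nil) .nil)) .nil) .nil)))) (.node 8 (.node 9 (.node 16 (.node 13 (.node 3 (.node 11 .one (.node 17 .one .nil)) (.node 6 (.node 10 .one (.node 15 .one .nil)) (.node 10 (.node 15 .one .nil) (.node 11 (.node 17 .one .nil) .nil)))) (.node 5 (.node 10 (.node 15 .one .nil) .nil) .nil)) (.node 10 (.node 11 (.node 18 (.node 19 .one .nil) .nil) .nil) .nil)) (.node 15 (.node 7 (.node 10 (.node 18 (.node 6 .one (.node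 19 .one .nil)) .nil) .nil) (.node 5 (.node 13 (.node 17 (.node 19 .one .nil) .nil) .nil) .nil)) (.node 5 (.node 6 (.node 11 (.node 13 (.node 19 .one .nil) .nil) .nil) .nil) .nil))) (.node 3 (.node 19 (.node 5 (.node 10 (.node 7 (.node 15 .one (.node 17 .one .nil)) (.node 9 (.node 16 .one .nil) (.node 15 (.node 17 .one .nil) .nil))) .nil) (.node 13 (.node 18 (.node 6 (.node 16 .one .nil) (.node 7 (.node 17 .one .nil) .nil)) .nil) .nil)) (.node 13 (.node 17 (.node 5 (.node 9 (.node 16 .one .nil) .nil) (.node 7 (.node 11 (.node 18 .one .nil) .nil) .nil)) .nil) .nil)) .nil))) (.node 3 (.node 10 (.node 18 (.node 8 (.node 13 (.node 6 (.node 15 .one (.node 16 .one .nil)) (.node 9 (.node 11 .one (.node 17 .one .nil)) (.node 11 (.node 17 .one .nil) (.node 15 (.node 16 .one .nil) .nil)))) .nil) (.node 7 (.node 14 (.node 5 (.node 15 .one (.node 17 .one .nil)) (.node 9 (.node 16 .one .nil) (.node 15 (.node 17 .one .nil) .nil))) .nil) .nil)) (.node 6 (.node 11 (.node 19 (.node 8 (.node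 15 .one (.node 16 .one .nil)) (.node 9 (.node 13 .one (.node 17 .one .nil)) (.node 13 (.node 17 .one .nil) (.node 15 (.node 16 .one .nil) .nil)))) .nil) .nil) .nil)) (.node 11 (.node 14 (.node 16 (.node 9 (.node 6 (.node 13 .one (.node 17 .one .nil)) (.node 7 (.node 17 .one .nil) .nil)) (.node 8 (.node 18 (.node 19 .one .nil) .nil) .nil)) (.node 5 (.node 17 (.node 19 (.node 13 .one (.node 18 .one .nil)) .nil) .nil) .nil)) (.node 13 (.node 17 (.node 5 (.node 6 (.node 19 .one .nil) .nil) (.node 7 (.node 8 (.node 18 .one .nil) .nil) .nil)) .nil) .nil)) .nil)) (.node 6 (.node 14 (.node 9 (.node 16 (.node 11 (.node 8 (.node 10 .one (.node 15 .one .nil)) (.node 10 (.node 15 .one .nil) (.node 13 (.node 17 .one .nil) .nil))) (.node 7 (.node 10 (.node 15 .one .nil) .nil) .nil)) (.node 10 (.node 13 (.node 18 (.node 19 .one .nil) .nil) .nil) .nil)) (.node 15 (.node 5 (.node 10 (.node 19 (.node 8 .one (.node 18 .one .nil)) .nil) .nil) (.node 7 (.node 11 (.node 17 (.node 18 .one .nil)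 .nil) .nil) .nil)) (.node 7 (.node 8 (.node 11 (.node 13 (.node 18 .one .nil) .nil) .nil) .nil) .nil))) (.node 8 (.node 10 (.node 15 (.node 5 (.node 11 (.node 19 .one .nil) .nil) (.node 7 (.node 13 (.node 18 .one .nil) .nil) .nil)) .nil) .nil) .nil)) .nil))) (.node 10 (.node 6 (.node 7 (.node 3 (.node 16 (.node 15 (.node 14 (.node 5 .one (.node 17 .one .nil)) (.node 11 (.node 17 .one .nil) .nil)) (.node 12 (.node 19 (.node 8 .one (.node 18 .one .nil)) .nil) .nil)) (.node 17 (.node 13 (.node 18 (.node 5 .one (.node 19 .one .nil)) .nil) (.node 8 (.node 11 (.node 15 .one .nil) .nil) .nil)) .nil)) (.node 8 (.node 11 (.node 19 (.node 12 (.node 14 .one (.node 16 .one .nil)) (.node 5 (.node 14 .one .nil) .nil)) (.node 15 (.node 17 (.node 18 .one .nil) .nil) .nil)) (.node 12 (.node 13 (.node 18 (.node 5 .one (.node 15 .one .nil)) .nil) .nil) .nil)) (.node 14 (.node 5 (.node 11 (.node 12 (.node 19 .one .nil) .nil) (.node 15 (.node 16 (.node 17 .one .nil) .nil) .nil)) (.node 9 (.node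 11 (.node 17 (.node 19 .one .nil) .nil) (.node 12 (.node 15 (.node 16 .one .nil) .nil) .nil)) .nil)) .nil))) (.node 8 (.node 5 (.node 13 (.node 14 (.node 18 (.node 12 .one (.node 16 .one .nil)) .nil) (.node 15 (.node 17 (.node 3 .one (.node 19 .one .nil)) .nil) .nil)) (.node 14 (.node 3 (.node 16 (.node 18 .one .nil) .nil) (.node 11 (.node 15 (.node 19 .one .nil) .nil) .nil)) .nil)) (.node 16 (.node 3 (.node 11 (.node 12 (.node 19 .one .nil) .nil) (.node 13 (.node 14 (.node 18 .one .nil) .nil) .nil)) (.node 9 (.node 11 (.node 14 (.node 18 .one .nil) .nil) (.node 12 (.node 13 (.node 19 .one .nil) .nil) .nil)) .nil)) .nil)) .nil)) (.node 5 (.node 8 (.node 3 (.node 16 (.node 15 (.node 12 (.node 7 .one (.node 17 .one .nil)) (.node 13 (.node 17 .one .nil) .nil)) (.node 14 (.node 18 (.node 19 .one .nil) .nil) .nil)) (.node 11 (.node 17 (.node 19 (.node 7 .one (.node 18 .one .nil)) .nil) .nil) .nil)) (.node 12 (.node 7 (.node 13 (.node 14 (.node 18 .one .nil) .nil) (.node 15 (.node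 16 (.node 17 .one .nil) .nil) .nil)) (.node 9 (.node 13 (.node 17 (.node 18 .one .nil) .nil) (.node 14 (.node 15 (.node 16 .one .nil) .nil) .nil)) .nil)) .nil)) (.node 3 (.node 7 (.node 17 (.node 11 (.node 12 (.node 19 .one .nil) .nil) (.node 13 (.node 14 (.node 18 .one .nil) .nil) .nil)) .nil) .nil) .nil)) .nil)) .nil))
def T3 : Tr := (.node 4 (.node 11 (.node 7 (.node 6 (.node 13 (.node 19 (.node 12 (.node 9 .one (.node 14 .one .nil)) (.node 5 (.node 14 .one .nil) .nil)) (.node 15 (.node 17 (.node 10 .one (.node 18 .one .nil)) .nil) .nil)) (.node 14 (.node 19 (.node 5 (.node 12 .one .nil) (.node 15 (.node 16 .one .nil) .nil)) .nil) (.node 9 (.node 10 (.node 15 (.node 17 .one .nil) .nil) .nil) .nil))) (.node 9 (.node 10 (.node 12 (.node 19 (.node 13 .one (.node 18 .one .nil)) .nil) (.node 14 (.node 17 (.node 5 .one (.node 15 .one .nil)) .nil) .nil)) (.node 14 (.node 17 (.node 5 (.node 15 .one .nil) (.node 12 (.node 16 .one .nil) .nil)) .nil) .nil)) (.node 8 (.node 18 (.node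 5 (.node 10 (.node 15 .one .nil) (.node 12 (.node 13 .one .nil) .nil)) (.node 10 (.node 15 (.node 19 .one .nil) .nil) (.node 12 (.node 13 (.node 17 .one .nil) .nil) .nil))) .nil) .nil))) (.node 13 (.node 5 (.node 8 (.node 14 (.node 18 (.node 9 .one (.node 12 .one .nil)) .nil) (.node 15 (.node 17 (.node 10 .one (.node 19 .one .nil)) .nil) .nil)) (.node 14 (.node 6 (.node 17 (.node 19 .one .nil) .nil) (.node 9 (.node 10 (.node 18 .one .nil) .nil) .nil)) .nil)) (.node 9 (.node 6 (.node 10 (.node 12 (.node 19 .one .nil) .nil) (.node 14 (.node 16 (.node 18 .one .nil) .nil) .nil)) (.node 8 (.node 10 (.node 14 (.node 18 .one .nil) .nil) (.node 12 (.node 16 (.node 19 .one .nil) .nil) .nil)) .nil)) .nil)) .nil)) (.node 5 (.node 13 (.node 9 (.node 17 (.node 12 (.node 7 (.node 10 .one (.node 15 .one .nil)) (.node 10 (.node 15 .one .nil) (.node 14 (.node 16 .one .nil) .nil))) (.node 8 (.node 10 (.node 15 .one .nil) .nil) .nil)) (.node 10 (.node 14 (.node 18 (.node 19 .one .nil) .nil)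 .nil) .nil)) (.node 15 (.node 6 (.node 10 (.node 19 (.node 7 .one (.node 18 .one .nil)) .nil) .nil) (.node 8 (.node 12 (.node 16 (.node 18 .one .nil) .nil) .nil) .nil)) (.node 7 (.node 8 (.node 12 (.node 14 (.node 18 .one .nil) .nil) .nil) .nil) .nil))) (.node 7 (.node 10 (.node 15 (.node 6 (.node 12 (.node 19 .one .nil) .nil) (.node 8 (.node 14 (.node 18 .one .nil) .nil) .nil)) .nil) .nil) .nil)) .nil)) (.node 10 (.node 5 (.node 7 (.node 6 (.node 13 (.node 12 (.node 19 (.node 8 .one (.node 15 .one .nil)) .nil) (.node 14 (.node 18 (.node 11 .one (.node 17 .one .nil)) .nil) .nil)) (.node 14 (.node 8 (.node 11 (.node 18 .one .nil) .nil) (.node 15 (.node 16 (.node 19 .one .nil) .nil) .nil)) .nil)) (.node 8 (.node 11 (.node 12 (.node 19 (.node 13 .one (.node 17 .one .nil)) .nil) (.node 14 (.node 15 (.node 18 .one .nil) .nil) .nil)) (.node 12 (.node 15 (.node 16 (.node 18 .one .nil) .nil) .nil) .nil)) (.node 9 (.node 17 (.node 11 (.node 14 (.node 19 .one .nil) .nil) (.node 12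 (.node 13 (.node 18 .one .nil) .nil) .nil)) .nil) .nil))) (.node 8 (.node 13 (.node 6 (.node 11 (.node 12 (.node 19 .one .nil) .nil) (.node 15 (.node 16 (.node 17 .one .nil) .nil) .nil)) (.node 9 (.node 11 (.node 15 (.node 17 .one .nil) .nil) (.node 12 (.node 16 (.node 19 .one .nil) .nil) .nil)) .nil)) .nil) .nil)) (.node 6 (.node 7 (.node 11 (.node 8 (.node 13 (.node 14 (.node 18 .one .nil) .nil) (.node 15 (.node 16 (.node 17 .one .nil) .nil) .nil)) (.node 9 (.node 13 (.node 15 (.node 17 .one .nil) .nil) (.node 14 (.node 16 (.node 18 .one .nil) .nil) .nil)) .nil)) .nil) .nil) .nil)) .nil))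
/-- the tree of the masks -/
def T : Tr := (.node 0 T0 (.node 1 T1 (.node 2 T2 (.node 3 T3 .nil))))
theorem cT : chkC L 720 (cds T) 0 = true := by decide +kernel
def Q0 : ℕ := 0xa4291a3e8e9f27d9ee7aa1a879de799d674a06789fe7ea0e769ae6a9a66899e669966498e62986608be2b88e1f8ca1e8b62c8a2298aa3d89e3c8e6378e2368ee338ea3e8fe218821d8721ba1684b3acfb36cc9c26f9ca6d9ba73b1ac7a4e92af671b066cafebeb2acbb26c8b12c0b16bcb0ec2a228ba0a8da3289a2a80aeebaae6b8adeb6ad6b4aceb2ac6b089a1a912309163591a2290e1990a18906409364b92648946259422493e4e8c65996e5d95e5594e52a669aa92a2a769ba869fa829e96a2ea72ab91e5cabe34aa6a8abaa5a9aa7a8e5f9324aab658a6297ab2aaa5a95a525e95a5484e128521585e16809fe811ff802058220982a0b806038320f81a1181e0d83a106a1906718c69da668da2685a0661996759f679916398d6298b5894554d5d56d5a5216157d8755982605805f57c5fd7e555765d14658d785457a5bd6e5a9695a16d5b16b5d57b5dd795654b52567599505715263d655c55e5c95758158591546b5886b1856c5af66d9a511fd7e5f8611837ddf67d5f47c1ef7c5fb6adaa7c9f35294c51d4e53d4d7b9fc6eded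7b1fa7a9eb5cdb0781706b9a5691de775dc765d876dda719d0711d2715d671dd5625b76e58673dce729c9721cd731cb701bf6e9b374de9789b5785b8799bd795e470db46d9df75db279dbc745be64d946499670997705e3655d47a1a94fd3e5014150d424ed3a4f53c4e1394ad2849d26495244b92f4c1314a9294dd2d4b1364d5344cd32419114751c44115485204150440d02405004790b449134891f42909421074510f4390d4312346d1a4651845d1620480250832089527c9e18c5b184601685f1745c25c56264981ac671a8661545423464240682445e23c8e24c651a492148530a801098220441b064181284f07c140741c0a40409423124481144411c4610c42104400fc3e0f43c0dc360c8310c0350d0330ac1302c0209c2002408058060142f0b80a068103e4f82582d0e01e3b4ec3bc9d3e8fd374da384e337cde3944c12c0001c0f00c0e0340c3f0fb3fcfe0e81515c621e87b14071134701b46c0a0171e0760b0121d4743ace936ce23a8e8370e43dc7c3d4f43c8e03c4f03d8f3084241f4ee39ce6360d90ec79338391dc8c22ccf314c4304c030cc22fcbe2f4bc2ecba2e4b81447f1389b2dcb62c8b12c0b52d0b3290a32706f2bcd7324732acd531c58318d4164aa3349a32cca348a1344d01c8a71f8cc2b86e34ca022086214842b4a22a4a8224a6294c821cac3588a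
theorem cs0 : chkS L Q0 181889 720 = true := by decide +kernel
def Q1 : ℕ := 0xb36ccb3eceabeaeab6aca96a4a869fa769ca6a9ba6297a5694a8299ac6b3aaa96aa6a6ae2a7ae6a3b2ecab26c8aa2b7ad6abacab4b1ec6ac29eb16bbb12a2b0ec2b02c1aeabfafab6af6bc85e1682e0982a087fdfe8120280603789dd76de377dda785e0771de715d3739c371dc673dd7701bf72dd1741c2705cc735d66e5b86b1ad6d1b66d5b76c5b06bdae6798f645906659c66d9a65d93649966559468da2685a069d9f6999d695a462d6c589655755c56d5a5795f5858659d7b5bd755c5705b574599735fd6458d78581895dd815c9886157e629795b96b601825655855d565555454d52a4e92639455f5485a9495454b51950a468fa428e5a5686328ba228aa258da368c511b3729be7ddf67e5f8611836a5e9711eb761ba7a1d47c1d97c9ed53d4a51d4ea1287a0680a0e7ea1a7fa16827a9ef9da6c749ec9f1d59ca719de7b9b66e9cdfb6adaa9e6789f5f19ea709be759d1fa5354c6c9ee9ae6a99266996677f1bb98e62986609a269725c87cd989364b926489465093e4e9325f92a5a9665896da895e5494e5295a559765c97a158020591e258b2285da3c89df57d2208aa218c62684d7a8e97c8922e8ad878e2348ca298de368e6238d64688a1181e068ee3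3912308be458f62d8fa3f90e429064087e1e8761c86e1a8661883e0c79de46f5bc839e6842127960d851fd509434ed3a4e5384f13d505404fd3e3fcfe3ccf23c4f02ecb62bca72acaa2d0b52e8be298ad2a4a8288fa3ecbc3f0fd2c4b034cd2344d0284a0368ac3b0ed374d835cd6354d43b8ea39ce93a0e0364db370e4388bd4dd364791f485223acef37ce3378e54d5344cd323e10b449133e50a42107424e13d1023d901399063dcf544503411154151043d0e4350c46d1a4651828cb32dcb92c8b8314c3304c0324a4320a531cc62b928401204c529330ca335304a92b338cb4751c4bcbf499144b52c495244b927308c433d2345d162709d2789f2689b260992589724c9225494228892208521087218912408f2308b2388d14c340c44210c4e1304b13c300f4370e4380d43c0bc2907c1e094230741c0b42606c1a0a8220641803c0e0340c02c0a0240801c060140400c020040020c11128141ec7e0547d1f05105c280b012090211fc8004033058201e4740b8131dc761e02b1d482100272047a1cc3b1ac470d8671c8480c86a1bc451b8661103e1c4701b46c1a468194641243f134500e8461484118c621846017c5e1745c16c5a1645815c5615454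
theorem cs1 : chkS L Q1 181840 720 = true := by decide +kernel
def Q2 : ℕ := 0xb2ecab26c8b3eceb36ccb1ac7b06bdafebeb16bcb0ec2b12c0aeabba669aa92a2a769ba869fa829eab6acabeaea72a5a6297a5694aaab7a5ab6aceb1acab0ad6abad2b8ae6a9aa2a3a9ea6a4a939f67c9ee7a9ca719c26e9b66ca1a87a12859e66f9de739d674a4690a3e8ea0e76a06789fe7ea028da328ba0a8aa26889aa6b8fe3e8f63c8ee3a8e6388de3697a5f91647912468d6349364c92e4a9264890e429064095e569565494e529725a9765b9465093e4e9a66899e669966498e6298660966588ca338c23188e228862087e1e86e1c8761a866188be2e8b62c8ae2a89e288a6268962450d42505404fd3e4dd364d5344cd324c5304bd2e4b52c491274a52b4a925499283f4fc3ecfa38cde36ce2370e43a0eb394df3bcea3a4ec364d835cd634cd2344d0320c9334ce330cf314c430cc2304c02b8ba2e0ac2bcbc2b4be2dcb62d4b42ccb22c4b02e4bf2ecbd29ca6294a428ca2284a02749c26c9a1fc7e1cc721bc6e1e0791d8771c4701b46c228942408e2308b1a4681946423c97234821d4741ac662248421c862208519c832586a2609514c521445013c4e1344c12c4a1244811c461144410c42104400fc3e0f43c0ec3a0e0390dc360d4340cc320c4300bc2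e0b42c0ac2a0a42807c1e06c1a06418058170541404c120441002c0a03c0e0340c018070140400c020040085e168561484e12354e709855090588461083e0e8360c82e0a8260881e0680a0180dfe811ff802054892332cca094540741c18c5b15c6218460399134510b418c73e508424e14489f4350e245113dcf61f47c3d4f409c597f5fc7edfa43cc6415044050017c5a1585e7bc5d025ec7c9ee7b5f34f1157c5f47e5f64305c7c1f8021f57dcd47adea7a5e84f4da79de6795e4779e0785df48520789e3440f8775dc76dda765d8719d0711d2715d671dd573dce735cc72dca725c874dd7745d42047a2649370dc2705c06fdbe6f5bc428236edba6e5b82a58d6798f631a82a02241da767da6675a5691a965d9365594649966419c2ac216ddb640d02080aa6c1b16b9af66d9a6d5b46b5ac6cdb26adaa6658e68da264598685a046d1845d163ccf03b8e0468f23f938464f14e91e62d8a6258861d866158460d82605805fd7e5f57c5ed7a5e5785dd765d5745cd725c1715bd6e5b56c5ad6a5a56859d665956458d62585603fd3b47d39278922007b57d5e4751c5755c56d5a5615955d565555454d5253d4e5354c545503b4dd5294b5254851d4651544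
theorem cs2 : chkS L Q2 181448 720 = true := by decide +kernel
def Q3 : ℕ := 0xb3acfb32cda1e86a16849f67c9e6779d2759ca739b66e9c26f7edfa7d9f77b5ec7c9ef7e5f07e1f1789dd76de3765e87a5ea7add8715d3711d271dca73dd56fdc072dd16f9cd731d4709c19ee7aa4291a3a8fa0e76a067f9fa78b2ecab26c8a3680a2e82a2a89b1ec6a4e92b1688b128cb0ac3b02c19b2bdaf2beafe716718c689a36398d6659e69d9f6999d6dda96cdba6d5b9691a564d9765195659926b5ac6a9ab6c5b06bdae6699b625835816453d4e5314d5415158d78599685d56f5b5745c57059d7f5cd65585865898b605775f98a5e572621855f5845a969521455194b5254452947739c36d1585b9596015557d5655d5e8260882e0a6097b6e1e1719dc779b677dd755191aeebaaceb1ae2b95ad6c63eb5ac2b2ad190adeb6a9ea8aa6aa575535495cab2af811da7fe01aba02ab5e0aaea67f9d0a7a96a92a2a69d6a7e17a6297a6ea0681a1a8603a96a385a95a529ca76995695b6625c96a0597e0096e15975a89364c92e4a9465093a4f979b298e61962599a269721c998a649826b92249995bb95a539525595e527f1ee7ce6799a6a8b22891e255f22e8922291a078ae118ca2988d878197689e3c8a97a8e6368c6268d6348e2138ddf47d6218823a8ce3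b8c2448f62d8be4583e0c79de46f1bd84a148360e841fd799e58fa3f90e42902418721986e1f8621d87a1a4f53c4e5384ed3a50d424fd3e5054047d1e46d1a465184390d42109429074410f431154150440d0240521489134dd36445124d5344cd324190b4a1004811c4752b4a9314c1294592d4b92f4b11749d264952448d143f0fd3f8ff3e8fb33cce334cc32cca34cd2344d02cca02c0bc28cab2bcaa29cae2e0a82e4a22fca12dcb22c4a92b4be298b42d4bb2d8ba3ccf23c4f03e4f83dcf63d4f430cc5310c2320c7324c6290a5384da2b0ec358d438ce537cd535cd83bcde374ed3a4e636cbd3a8e8370e439cd9300c13ace2380ee1284f1ec5112c7c0cc400c07a208800d04210c3d0dc350f0390e07f1e4781dc761d4742049520c942287d1f89a274962248821c86214840b02403c0e0a0210340c0b82b02c0a09c200240807c1e0741c06c1a06418050110481705410058130c406270072784c00c4e26c9f010250bc050a4232449200898004222408d0b4002308b23c26238932642a14c9711c6b0ec731a8321146f19c36120721103e1b86618c621846017c5e1745c1605515c5b15059168561c4701b46c1a468194641405211849134410fc3a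
theorem cs3 : chkS L Q3 178312 720 = true := by decide +kernel
theorem okF : okm 79658 = true := by decide +kernel
theorem cL : chkL 79658 L PL 720 = true := by decide +kernel

end Pool.Agent.U986.LC.FX805
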