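import Pool.Agent.N238.G6.Base2

set_option autoImplicit false
set_option maxRecDepth 100000

namespace Pool.Agent.U986.LC.FX819
open Pool.Agent.N238.G6

def L : ℕ := 0x91ec883ec891dc883dc8396a83c6a85672846f285656846d6855998459b897078870f85c9984c9b89b0788b0f83ab183aa582af182ae582c6b8296b8476c485f2485da4474e4a1f24a1da43c4ac394ac666c4664e43a74438f443a54c38d4c2c4bc294bc6b19463994ac874a68744b1d41a55c439d418d5c8c9748697422f1c22e5c32b1c32a5c1a75418f543d2941d6943d2341d6343529c1569c3523c1563c89f1289e92b304eb10ce2b9c22b8d2299c6298d6b482eb092e1d9a21d932199aa1993a8c67214f6214e6a8a67216b6216a6a272e2236e22726623666c1f12c1e925c89a5589a6a9c26a8d256b4254f4256a4a54e4acc472ca4725d1325d1a2672a2636a24c8ba458ba591aa5913a5272a42f2a5256a42d6ad841ed061ed304e4b15643956d10ce456c6454e6646c6689c663626e092e67226644e6e482e63916e061e6b116688d6e841e7860b7821b78607782174e6517490d4e253749074e6314e2332e9612e9317412d741272e1652e1351f0e11f0d17308d7308b720cd720cb1e0e91e0d925ba125b8513bc113b894979149783137c11378948f9148f8324fa124f85c6651c66319b03997039aa961aa93193b419374193b0993709a4ea1c8d91c95919d0d1a5aa19d0e18b0b9870b99c0e99c0d990ec982ec990dc982dc9d841dd061dd490d8c95586955d412d85725855a5a1725aa165a4e85e20cda5a85a15a5e308da6855e061dac855aa135e841db482bb092bb3047b10c7b860bb86078c6638a663b821bb821789b1389a93c1b13c6253d4907d3047c8d83e20cbc9583c1a93e308bd10c7ca463e092bcc463c6233e482bd4127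
def PL : ℕ := 0x2e0a8c62a4e0a54629668891a232a0ae0a5a6a0a5c4296a885d4214e88556212a88e885a2e888d622460ad982a82a660ad1a226688d186868466a519a1c4680e1a93868899a234680a1ada8684298d8a62898a6342989d2235480a98daa600e9893a60a606ac29875182c2d0159895660a9c22b508a9982b460a626298d0421ae1a98621aa1ad0a98865298ad08652d011aa4c6a85286558198a865c2a895065c3505296158588a9622ac89516254c815a86a8c8b1320d6a0aa162c458aa065d2a0b1065d3100e2a4b8a885aa232a8062ad98a822a8d8aa1858a98b110ea84baa0622a488ab06a8d9aa085d423350a58898951a5a829710aca82b31032a60d8983286a075175420d81aa1c45c548a1a86866266c40585a819a9a94812969ab081626606a9665404a990d4a435612d4a0b560113a5ca11115653328313a0c5588e84542e87604533609584543588e9423a8872941ca8876141d888959425688ae046c611ae142c650153845519ae222c68835380d51854b8153180a3a4a8e8853a222e8063a918e822b890ae122c690b1946b80aae00ab8508e906b8888ea855622358225690959a53829518a8b82a31832b40d8d005caa055955c201762a14654748a1384195a46c60876206c69394821ca93b081634604e9465604ad152b2158c868ca1a36009ca4a72815c44d71009d84a76011d44c7500e544295945ca195282ac6107610ac64b95041ca595602ec4185610ec44a958614a51760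
def T0 : Tr := (.node 19 (.node 1 (.node 18 (.node 5 (.node 14 (.node 2 (.node 8 (.node 16 .one .nil) .nil) (.node 3 (.node 11 (.node 17 .one .nil) .nil) (.node 4 (.node 9 (.node 13 .one .nil) .nil) (.node 6 (.node 10 (.node 15 .one .nil) .nil) .nil)))) (.node 3 (.node 8 (.node 11 (.node 17 .one .nil) .nil) .nil) (.node 6 (.node 10 (.node 13 (.node 15 .one .nil) .nil) .nil) .nil))) (.node 7 (.node 12 (.node 2 (.node 6 (.node 16 .one .nil) .nil) (.node 3 (.node 13 (.node 17 .one .nil) .nil) (.node 4 (.node 9 (.node 11 .one .nil) .nil) (.node 8 (.node 10 (.node 15 .one .nil) .nil) .nil)))) (.node 3 (.node 6 (.node 13 (.node 17 .one .nil) .nil) .nil) (.node 8 (.node 10 (.node 11 (.node 15 .one .nil) .nil) .nil) .nil))) (.node 2 (.node 16 (.node 6 (.node 12 (.node 13 .one .nil) .nil) (.node 8 (.node 11 (.node 14 .one .nil) .nil) .nil)) .nil) (.node 4 (.node 9 (.node 6 (.node 13 (.node 14 .one .nil) .nil) (.node 8 (.node 11 (.node 12 .one .nil) .nil) .nil)) .nil) .nil)))) (.node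 9 (.node 15 (.node 4 (.node 11 (.node 12 (.node 7 .one (.node 8 .one .nil)) .nil) (.node 16 (.node 17 (.node 2 .one (.node 3 .one .nil)) .nil) .nil)) (.node 10 (.node 5 (.node 6 (.node 13 .one (.node 14 .one .nil)) .nil) (.node 16 (.node 17 (.node 2 .one (.node 3 .one .nil)) .nil) .nil)) .nil)) .nil) (.node 16 (.node 17 (.node 2 (.node 6 (.node 12 (.node 7 .one (.node 13 .one .nil)) .nil) .nil) (.node 3 (.node 5 (.node 11 (.node 8 .one (.node 14 .one .nil)) .nil) .nil) .nil)) .nil) .nil))) (.node 2 (.node 17 (.node 4 (.node 15 (.node 3 (.node 10 (.node 18 .one .nil) .nil) (.node 5 (.node 8 (.node 13 .one .nil) .nil) (.node 6 (.node 11 (.node 14 .one .nil) .nil) .nil))) (.node 3 (.node 9 (.node 10 (.node 18 .one .nil) .nil) .nil) (.node 6 (.node 11 (.node 13 (.node 14 .one .nil) .nil) .nil) .nil))) (.node 7 (.node 12 (.node 3 (.node 13 (.node 18 .one .nil) .nil) (.node 5 (.node 8 (.node 10 .one .nil) .nil) (.node 9 (.node 11 (.node 14 .one .nil) .nil) .nil))) (.node 3 (.node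 6 (.node 13 (.node 18 .one .nil) .nil) .nil) (.node 9 (.node 10 (.node 11 (.node 14 .one .nil) .nil) .nil) .nil))) (.node 5 (.node 8 (.node 6 (.node 13 (.node 15 .one .nil) .nil) (.node 9 (.node 10 (.node 12 .one .nil) .nil) .nil)) .nil) .nil))) (.node 8 (.node 14 (.node 5 (.node 10 (.node 12 (.node 7 .one (.node 9 .one .nil)) .nil) (.node 3 (.node 16 (.node 18 .one .nil) .nil) .nil)) (.node 11 (.node 4 (.node 6 (.node 13 .one (.node 15 .one .nil)) .nil) (.node 3 (.node 16 (.node 18 .one .nil) .nil) .nil)) .nil)) .nil) (.node 3 (.node 4 (.node 10 (.node 16 (.node 18 (.node 9 .one (.node 15 .one .nil)) .nil) .nil) .nil) .nil) .nil))) (.node 7 (.node 3 (.node 6 (.node 10 (.node 11 (.node 8 (.node 13 .one (.node 16 .one .nil)) (.node 9 (.node 13 .one (.node 16 .one .nil)) .nil)) .nil) (.node 14 (.node 15 (.node 16 (.node 4 .one (.node 5 .one .nil)) .nil) .nil) .nil)) (.node 4 (.node 5 (.node 12 (.node 13 (.node 14 .one (.node 15 .one .nil)) .nil) .nil) .nil) .nil)) (.node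 12 (.node 14 (.node 5 (.node 6 (.node 15 (.node 16 .one .nil) .nil) (.node 9 (.node 11 (.node 17 .one .nil) .nil) .nil)) (.node 4 (.node 6 (.node 15 (.node 16 .one .nil) .nil) .nil) .nil)) (.node 4 (.node 8 (.node 10 (.node 15 (.node 18 .one .nil) .nil) .nil) .nil) .nil)) (.node 10 (.node 11 (.node 4 (.node 8 (.node 15 (.node 18 .one .nil) .nil) .nil) (.node 5 (.node 9 (.node 14 (.node 17 .one .nil) .nil) .nil) .nil)) .nil) .nil))) (.node 13 (.node 8 (.node 9 (.node 12 (.node 16 (.node 3 (.node 10 .one (.node 11 .one .nil)) (.node 6 (.node 10 .one (.node 11 .one .nil)) .nil)) .nil) .nil) (.node 5 (.node 11 (.node 15 (.node 17 (.node 4 .one (.node 6 .one .nil)) .nil) .nil) .nil) .nil)) (.node 4 (.node 5 (.node 3 (.node 12 (.node 16 (.node 14 .one (.node 15 .one .nil)) .nil) .nil) (.node 9 (.node 10 (.node 14 (.node 18 .one .nil) .nil) .nil) .nil)) (.node 6 (.node 9 (.node 10 (.node 14 (.node 18 .one .nil) .nil) .nil) .nil) .nil)) .nil)) .nil)))) (.node 7 (.node 8 (.node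 9 (.node 10 (.node 11 (.node 14 (.node 17 (.node 2 .one (.node 5 .one .nil)) .nil) (.node 15 (.node 18 (.node 1 .one (.node 4 .one .nil)) .nil) .nil)) (.node 12 (.node 13 (.node 16 (.node 3 .one (.node 6 .one .nil)) .nil) (.node 15 (.node 18 (.node 1 .one (.node 4 .one .nil)) .nil) .nil)) .nil)) (.node 11 (.node 12 (.node 13 (.node 16 (.node 3 .one (.node 6 .one .nil)) .nil) (.node 14 (.node 17 (.node 2 .one (.node 5 .one .nil)) .nil) .nil)) .nil) .nil)) .nil) (.node 13 (.node 16 (.node 3 (.node 6 (.node 14 (.node 15 (.node 4 .one (.node 5 .one .nil)) .nil) (.node 17 (.node 18 (.node 1 .one (.node 2 .one .nil)) .nil) .nil)) (.node 12 (.node 17 (.node 18 (.node 1 .one (.node 2 .one .nil)) .nil) .nil) .nil)) (.node 6 (.node 12 (.node 14 (.node 15 (.node 4 .one (.node 5 .one .nil)) .nil) .nil) .nil) .nil)) .nil) .nil)) (.node 14 (.node 5 (.node 8 (.node 17 (.node 2 (.node 13 (.node 15 (.node 4 .one (.node 6 .one .nil)) .nil) (.node 16 (.node 18 (.node 1 .one (.node 3 .one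 .nil)) .nil) .nil)) (.node 11 (.node 13 (.node 15 (.node 4 .one (.node 6 .one .nil)) .nil) .nil) .nil)) .nil) (.node 4 (.node 9 (.node 13 (.node 15 (.node 18 (.node 1 .one (.node 10 .one .nil)) .nil) .nil) .nil) .nil) .nil)) (.node 18 (.node 1 (.node 2 (.node 8 (.node 11 (.node 16 (.node 17 .one .nil) .nil) .nil) .nil) (.node 4 (.node 6 (.node 9 (.node 13 (.node 15 .one .nil) .nil) .nil) .nil) .nil)) (.node 2 (.node 3 (.node 8 (.node 11 (.node 16 (.node 17 .one .nil) .nil) .nil) .nil) .nil) (.node 4 (.node 6 (.node 9 (.node 10 (.node 13 (.node 15 .one .nil) .nil) .nil) .nil) .nil) .nil))) .nil)) (.node 1 (.node 9 (.node 15 (.node 16 (.node 17 (.node 18 (.node 2 (.node 4 .one (.node 10 .one .nil)) (.node 3 (.node 4 .one (.node 10 .one .nil)) .nil)) .nil) .nil) .nil) .nil) .nil) .nil))))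
def T1 : Tr := (.node 18 (.node 2 (.node 17 (.node 4 (.node 15 (.node 3 (.node 10 (.node 19 .one .nil) .nil) (.node 6 (.node 7 (.node 11 .one .nil) .nil) (.node 8 (.node 12 (.node 13 .one .nil) .nil) .nil))) (.node 3 (.node 9 (.node 10 (.node 19 .one .nil) .nil) .nil) (.node 8 (.node 11 (.node 12 (.node 13 .one .nil) .nil) .nil) .nil))) (.node 5 (.node 14 (.node 3 (.node 11 (.node 19 .one .nil) .nil) (.node 6 (.node 7 (.node 10 .one .nil) .nil) (.node 9 (.node 12 (.node 13 .one .nil) .nil) .nil))) (.node 3 (.node 8 (.node 11 (.node 19 .one .nil) .nil) .nil) (.node 9 (.node 10 (.node 12 (.node 13 .one .nil) .nil) .nil) .nil))) (.node 6 (.node 7 (.node 8 (.node 11 (.node 15 .one .nil) .nil) (.node 9 (.node 10 (.node 14 .one .nil) .nil) .nil)) .nil) .nil))) (.node 6 (.node 12 (.node 7 (.node 10 (.node 14 (.node 5 .one (.node 9 .one .nil)) .nil) (.node 3 (.node 16 (.node 19 .one .nil) .nil) .nil)) (.node 13 (.node 4 (.node 8 (.node 11 .one (.node 15 .one .nil)) .nil) (.node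 3 (.node 16 (.node 19 .one .nil) .nil) .nil)) .nil)) .nil) (.node 3 (.node 4 (.node 10 (.node 16 (.node 19 (.node 9 .one (.node 15 .one .nil)) .nil) .nil) .nil) .nil) .nil))) (.node 5 (.node 3 (.node 8 (.node 10 (.node 13 (.node 6 (.node 11 .one (.node 16 .one .nil)) (.node 9 (.node 11 .one (.node 16 .one .nil)) .nil)) .nil) (.node 12 (.node 15 (.node 16 (.node 4 .one (.node 7 .one .nil)) .nil) .nil) .nil)) (.node 4 (.node 7 (.node 11 (.node 14 (.node 12 .one (.node 15 .one .nil)) .nil) .nil) .nil) .nil)) (.node 12 (.node 7 (.node 9 (.node 13 (.node 17 (.node 10 .one (.node 14 .one .nil)) .nil) .nil) (.node 8 (.node 14 (.node 15 (.node 16 .one .nil) .nil) .nil) .nil)) (.node 4 (.node 8 (.node 14 (.node 15 (.node 16 .one .nil) .nil) .nil) .nil) .nil)) (.node 4 (.node 6 (.node 10 (.node 15 (.node 19 (.node 13 .one (.node 14 .one .nil)) .nil) .nil) .nil) .nil) .nil))) (.node 11 (.node 6 (.node 9 (.node 14 (.node 16 (.node 3 (.node 10 .one (.node 13 .one .nil)) (.node 8 (.node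 10 .one (.node 13 .one .nil)) .nil)) .nil) .nil) (.node 7 (.node 13 (.node 15 (.node 17 (.node 4 .one (.node 8 .one .nil)) .nil) .nil) .nil) .nil)) (.node 4 (.node 7 (.node 3 (.node 14 (.node 16 (.node 12 .one (.node 15 .one .nil)) .nil) .nil) (.node 9 (.node 10 (.node 12 (.node 19 .one .nil) .nil) .nil) .nil)) (.node 8 (.node 9 (.node 10 (.node 12 (.node 19 .one .nil) .nil) .nil) .nil) .nil)) .nil)) .nil))) (.node 5 (.node 6 (.node 9 (.node 13 (.node 12 (.node 17 (.node 2 (.node 10 .one (.node 14 .one .nil)) (.node 7 (.node 10 .one (.node 14 .one .nil)) .nil)) .nil) (.node 11 (.node 14 (.node 16 (.node 3 .one (.node 8 .one .nil)) .nil) .nil) (.node 4 (.node 10 (.node 15 (.node 19 .one .nil) .nil) .nil) .nil))) (.node 10 (.node 14 (.node 11 (.node 16 (.node 3 .one (.node 8 .one .nil)) .nil) (.node 4 (.node 15 (.node 19 .one .nil) .nil) .nil)) .nil) .nil)) .nil) (.node 11 (.node 16 (.node 8 (.node 12 (.node 15 (.node 3 (.node 4 .one (.node 7 .one .nil)) (.node 14 (.node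 4 .one (.node 7 .one .nil)) .nil)) .nil) (.node 2 (.node 3 (.node 17 (.node 19 .one .nil) .nil) .nil) .nil)) (.node 2 (.node 3 (.node 14 (.node 17 (.node 19 .one .nil) .nil) .nil) .nil) .nil)) .nil) .nil)) (.node 12 (.node 6 (.node 17 (.node 7 (.node 11 (.node 15 (.node 2 (.node 4 .one (.node 8 .one .nil)) (.node 13 (.node 4 .one (.node 8 .one .nil)) .nil)) .nil) (.node 2 (.node 3 (.node 16 (.node 19 .one .nil) .nil) .nil) .nil)) (.node 2 (.node 3 (.node 13 (.node 16 (.node 19 .one .nil) .nil) .nil) .nil) .nil)) .nil) (.node 4 (.node 9 (.node 10 (.node 11 (.node 15 (.node 19 (.node 7 .one (.node 8 .one .nil)) .nil) .nil) .nil) .nil) .nil) .nil)) .nil)))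
def T2 : Tr := (.node 4 (.node 9 (.node 16 (.node 12 (.node 14 (.node 3 (.node 5 (.node 10 .one (.node 17 .one .nil)) (.node 7 (.node 10 .one (.node 17 .one .nil)) .nil)) (.node 15 (.node 5 (.node 10 .one (.node 17 .one .nil)) (.node 7 (.node 10 .one (.node 17 .one .nil)) .nil)) .nil)) .nil) (.node 6 (.node 8 (.node 10 (.node 15 (.node 11 .one (.node 13 .one .nil)) .nil) .nil) (.node 3 (.node 11 (.node 13 (.node 17 .one .nil) .nil) .nil) .nil)) (.node 3 (.node 8 (.node 11 (.node 13 (.node 17 .one .nil) .nil) .nil) .nil) .nil))) (.node 3 (.node 10 (.node 11 (.node 13 (.node 17 (.node 6 .one (.node 8 .one .nil)) .nil) .nil) .nil) .nil) .nil)) (.node 6 (.node 8 (.node 11 (.node 5 (.node 14 (.node 19 (.node 13 .one (.node 15 .one .nil)) .nil) .nil) (.node 3 (.node 10 (.node 15 (.node 16 .one .nil) .nil) .nil) (.node 7 (.node 12 (.node 13 (.node 18 .one .nil) .nil) .nil) .nil))) (.node 13 (.node 15 (.node 3 (.node 10 (.node 16 .one .nil) .nil) (.node 7 (.node 12 (.node 18 .one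 .nil) .nil) .nil)) .nil) .nil)) (.node 5 (.node 11 (.node 14 (.node 17 (.node 19 (.node 13 .one (.node 15 .one .nil)) .nil) .nil) .nil) .nil) .nil)) (.node 7 (.node 17 (.node 12 (.node 8 (.node 13 (.node 18 (.node 11 .one (.node 15 .one .nil)) .nil) .nil) (.node 3 (.node 5 (.node 10 (.node 15 .one .nil) .nil) .nil) .nil)) (.node 3 (.node 5 (.node 10 (.node 14 (.node 15 .one .nil) .nil) .nil) .nil) .nil)) .nil) .nil))) (.node 10 (.node 17 (.node 6 (.node 8 (.node 15 (.node 16 (.node 3 (.node 11 .one (.node 13 .one .nil)) (.node 9 (.node 11 .one (.node 13 .one .nil)) .nil)) .nil) .nil) (.node 7 (.node 13 (.node 14 (.node 18 (.node 5 .one (.node 9 .one .nil)) .nil) .nil) .nil) .nil)) (.node 5 (.node 7 (.node 3 (.node 15 (.node 16 (.node 12 .one (.node 14 .one .nil)) .nil) .nil) (.node 8 (.node 11 (.node 12 (.node 19 .one .nil) .nil) .nil) .nil)) (.node 8 (.node 9 (.node 11 (.node 12 (.node 19 .one .nil) .nil) .nil) .nil) .nil)) .nil)) (.node 12 (.node 14 (.node 5 (.node 7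 (.node 6 (.node 13 (.node 18 .one .nil) .nil) (.node 8 (.node 11 (.node 19 .one .nil) .nil) .nil)) (.node 8 (.node 9 (.node 11 (.node 19 .one .nil) .nil) .nil) .nil)) (.node 6 (.node 7 (.node 9 (.node 13 (.node 18 .one .nil) .nil) .nil) .nil) .nil)) .nil) .nil)) .nil))
def T3 : Tr := (.node 4 (.node 15 (.node 9 (.node 17 (.node 10 (.node 5 (.node 7 (.node 12 .one (.node 14 .one .nil)) .nil) (.node 11 (.node 13 (.node 6 .one (.node 8 .one .nil)) .nil) .nil)) (.node 11 (.node 13 (.node 16 (.node 6 .one (.node 8 .one .nil)) .nil) .nil) .nil)) .nil) (.node 5 (.node 6 (.node 12 (.node 13 (.node 19 (.node 7 .one (.node 16 .one .nil)) .nil) .nil) .nil) (.node 7 (.node 8 (.node 11 (.node 14 (.node 18 .one .nil) .nil) .nil) .nil) .nil)) (.node 7 (.node 8 (.node 11 (.node 14 (.node 16 (.node 18 .one .nil) .nil) .nil) .nil) .nil) .nil))) (.node 12 (.node 14 (.node 5 (.node 6 (.node 13 (.node 19 (.node 7 .one (.node 16 .one .nil)) .nil) .nil) (.node 7 (.node 8 (.node 11 (.node 18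 .one .nil) .nil) .nil) .nil)) (.node 7 (.node 8 (.node 11 (.node 16 (.node 18 .one .nil) .nil) .nil) .nil) .nil)) .nil) .nil)) (.node 10 (.node 5 (.node 14 (.node 8 (.node 13 (.node 18 (.node 6 (.node 11 .one (.node 16 .one .nil)) (.node 9 (.node 11 .one (.node 16 .one .nil)) .nil)) .nil) .nil) (.node 7 (.node 9 (.node 15 (.node 16 (.node 17 .one .nil) .nil) .nil) .nil) .nil)) (.node 7 (.node 9 (.node 12 (.node 15 (.node 16 (.node 17 .one .nil) .nil) .nil) .nil) .nil) .nil)) (.node 6 (.node 7 (.node 11 (.node 12 (.node 19 (.node 8 (.node 13 .one (.node 16 .one .nil)) (.node 9 (.node 13 .one (.node 16 .one .nil)) .nil)) .nil) .nil) .nil) .nil) .nil)) .nil))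
/-- the tree of the masks -/
def T : Tr := (.node 0 T0 (.node 1 T1 (.node 2 T2 (.node 3 T3 .nil))))
theorem cT : chkC L 240 (cds T) 0 = true := by decide +kernel
def Q0 : ℕ := 0x34cd6348d5330cd33cd7338d4318c1310be31cc3314bf2dcb52d8b42e4b83a0ee3b0e63bced32cca3a4e73a8eb344d0308c0384e537ce3380c9390c8378e22c8b02ccb1364d8374db370da2ecbd2e8bc2b8af29ca6294a428ca22b4ac2acaa2a4a82789a260a126c99274a02709f258971b8702288b224881cc752308d24893244901f07b1d86d1dc791c8781b06f1c487218742088020c852387a23c811f4941f8952107f1a4681ac6a18c591885819c6516c5a15c5615454184601986417c5e1745c1445014c5212c4a1244813c4e1344c11847078200e03a0e43d08c251003b0f042104430b02b0981d09c29088280701f084370d8240c8300cc350f82a0fc310b4440b8450d02f0641806c1a058170501504813040110200201c010240002c0f0340400c060140e0300a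
theorem cs0 : chkS L Q0 181889 240 = true := by decide +kernel
def Q1 : ℕ := 0x3b4ec3bcee394e1374db370da3acd837cde3a8d938ce23a4e73a0e6380e42acaf2b8aa25c962549424c922449023c8e21c86224882348c26c9c2689f2849e2088020c81274a0228a522ca4214a3210a2358d51f47a35cd41e4781fc7e2d8b42c8b02fcb8300be2e4c230cc11f07b34cd2344d033cce334cc32cca314c42d4b731cc6324c82ccb12ecbd2e8bc29ca62b499260ac2a4a81d8771c06f1b86d1b0751d0731c8711985f1905e1846b174691805c19c631a868194621685b16059158571505513c4e1344c14c52144501244812c4a10c421104511c46100410f83f0f03d0e4380ec3a0d8370d0350c4300cc3206c1a05c15050130441003c0e02c0a0240801c0501003008010bc2e030060b40d0b02b0a8000a42809c26058190942408c22084180801f0781d07012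
theorem cs1 : chkS L Q1 181840 240 = true := by decide +kernel
def Q2 : ℕ := 0x3a4e839ce63a8eb3bcee3b4ec38ce2394e437cde384e0370dd368db360d9358d7350d533cce340d134cd2330cd328cb320c9314c431cc62fcc02f8c230cc12f0bd2e8bb2e0b92d4b42dcb62c4b02ccb219c631985f184601745c1645716c5a1545413c4d1304b1445014c491484811c461144410c42104400fc3e0ec3c0e8380e43d0dc360d4340cc320c4300bc2e0b42c0ac2a0a42809c260942408c220842007c1e0741c05c13058122bcad044192b8102acaa2b0182a4a8294a429c1b2981a28ca226c992749c284152809f278142689825c962549424c922449023c8e2208c2348b2248a21c862148420c82204801fc7e1f47c1ec7a1e4781dc761d4741cc721c4701bc6e1b46c160561905e1ac691384a1a868194620380f0300d0140400c020040002c0a0240801c06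
theorem cs2 : chkS L Q2 181448 240 = true := by decide +kernel
def Q3 : ℕ := 0x3b8ef3b0ed35ccf334cc32cca2aca92b4ac24c761f47a2448f2408e1dc793acd3348d0358d5338d43a8d13a4e839ce61c878228a51c4a72148128c801d0a62809f2749c20c82224881cc7526c9a2649825c9638ce23949439086310be318703047b1bcbd2f07e2ecba2ccb22c4b02bcae248aa38495374db370da1b07f1b8c72dcb61b4a830c7c2e4b8308c02309e37c84288de360c8364e02d0bf2d4c9314a42848b21c8d19c6518c621ac611a8601a468198641745c17c5e1645816c5a1545415c5614853140511384f1304d1284b1204905c16030190b40d0fc3e104400940b0240708c21018180900a0c8330c0310141410c040682609c220a42a0f4350e4280e01b05401000030802b1103611c4607c2e0380203c0804413108450f0340ec100e8370bc2c070120781d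
theorem cs3 : chkS L Q3 178312 240 = true := by decide +kernel
theorem okF : okm 79753 = true := by decide +kernel
theorem cL : chkL 79753 L PL 240 = true := by decide +kernel

end Pool.Agent.U986.LC.FX819
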