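import Pool.Agent.N238.G6.Base2

set_option autoImplicit false
set_option maxRecDepth 100000

namespace Pool.Agent.U986.LC.FX863
open Pool.Agent.N238.G6

def L : ℕ := 0x6a5a866a985c5c45731444cdc4353c3cac215a5628cea23a3a3b32219566a8ce8c4cd8a3a38c353899564c4cccc352cc353495a54c4cd4c48dcc313c84cdc8353cc351cc4c9cc4c5cc44dcc0cdcc343cc253cc153ca3a1a95a1695a52a8cca94a5685a5695a4699546958569525691a56a3a3299526991669156699562a8ce2994669856689566a84eaa323a88cea83a3aa3a2aa8caaa8c6aa88eaa0ceaa383aa2a3aa1a3a3ca433b22366a1957215393235c54555315571156a5293b123563153a323473152b3233b321573115730553315173153b303333231b323625a962a996a4a938ac36a1a92a5a96a5a1585c56a589685a94a5a9668995c5856629946a9966a913ca8366a8964a9926a99545c534ac34c5c52cac33cac15c5c15c4c55c1c51c5c53c8c33c2c31cac3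
def PL : ℕ := 0x4458ca16340d8c236372a21d8882158ec6888ea22b8880558e568864589a1612c589316160d8a115a80d69a3600cd893360a0c6a911a563214ac811564c55811d44551935c40c750354605711815661558615862159a8c604ad13056941594e52151192ec41956088d60d11a4ec2035612d580b950a546058d1a1466a11936340cad010d6943580e544531a55c21474854c603b1162545995081d46175062c45c15174445a9488c54627482ac611b1882b4650d121d8907612256ab310b13210959ad422c2d075421d31070d419b1006c6a2ac829d8297100a5668711a6341c5482a5602b1986b41176046560195aac446a8c86ac22a708a2346c0d105d8827618cd408b1a95322354842c6652d0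
def T0 : Tr := (.node 7 (.node 14 (.node 6 (.node 15 (.node 16 (.node 1 (.node 9 (.node 11 .one (.node 17 .one .nil)) (.node 11 (.node 17 .one .nil) .nil)) (.node 2 (.node 8 (.node 10 .one (.node 18 .one .nil)) (.node 10 (.node 18 .one .nil) .nil)) (.node 8 (.node 10 (.node 18 .one .nil) .nil) (.node 9 (.node 11 (.node 17 .one .nil) .nil) .nil)))) (.node 1 (.node 9 (.node 11 (.node 17 .one .nil) .nil) .nil) (.node 2 (.node 8 (.node 10 (.node 18 .one .nil) .nil) .nil) .nil))) (.node 16 (.node 1 (.node 9 (.node 11 (.node 17 .one .nil) .nil) .nil) (.node 2 (.node 8 (.node 10 (.node 18 .one .nil) .nil) .nil) .nil)) .nil)) (.node 9 (.node 11 (.node 17 (.node 3 (.node 4 (.node 13 .one (.node 18 .one .nil)) (.node 13 (.node 18 .one .nil) .nil)) (.node 1 (.node 15 (.node 16 .one .nil) .nil) (.node 4 (.node 13 (.node 18 .one .nil) .nil) .nil))) (.node 3 (.node 4 (.node 13 (.node 18 .one .nil) .nil) .nil) .nil)) (.node 3 (.node 4 (.node 13 (.node 17 (.node 18 .one .nil) .nil) .nil) .nil)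 .nil)) (.node 18 (.node 2 (.node 8 (.node 10 (.node 15 (.node 16 .one .nil) .nil) .nil) .nil) (.node 3 (.node 4 (.node 11 (.node 13 (.node 17 .one .nil) .nil) .nil) .nil) .nil)) .nil))) (.node 15 (.node 8 (.node 10 (.node 18 (.node 3 (.node 5 (.node 13 .one (.node 17 .one .nil)) (.node 13 (.node 17 .one .nil) .nil)) (.node 2 (.node 6 (.node 16 .one .nil) .nil) (.node 5 (.node 13 (.node 17 .one .nil) .nil) .nil))) (.node 3 (.node 5 (.node 13 (.node 17 .one .nil) .nil) .nil) .nil)) (.node 3 (.node 5 (.node 13 (.node 17 (.node 18 .one .nil) .nil) .nil) .nil) .nil)) (.node 17 (.node 1 (.node 6 (.node 9 (.node 11 (.node 16 .one .nil) .nil) .nil) .nil) (.node 3 (.node 5 (.node 10 (.node 13 (.node 18 .one .nil) .nil) .nil) .nil) .nil)) .nil)) (.node 3 (.node 13 (.node 17 (.node 18 (.node 4 (.node 9 (.node 11 .one .nil) .nil) (.node 5 (.node 8 (.node 10 .one .nil) .nil) .nil)) .nil) .nil) .nil) .nil))) (.node 8 (.node 13 (.node 9 (.node 12 (.node 16 (.node 1 (.node 5 (.node 15 .one (.node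 17 .one .nil)) (.node 15 (.node 17 .one .nil) .nil)) (.node 2 (.node 4 (.node 14 .one (.node 18 .one .nil)) (.node 14 (.node 18 .one .nil) .nil)) (.node 4 (.node 14 (.node 18 .one .nil) .nil) (.node 5 (.node 15 (.node 17 .one .nil) .nil) .nil)))) (.node 1 (.node 5 (.node 15 (.node 17 .one .nil) .nil) .nil) (.node 2 (.node 4 (.node 14 (.node 18 .one .nil) .nil) .nil) .nil))) (.node 16 (.node 1 (.node 5 (.node 15 (.node 17 .one .nil) .nil) .nil) (.node 2 (.node 4 (.node 14 (.node 18 .one .nil) .nil) .nil) .nil)) .nil)) (.node 5 (.node 15 (.node 17 (.node 1 (.node 12 (.node 16 .one .nil) .nil) (.node 3 (.node 10 (.node 18 .one .nil) .nil) .nil)) .nil) .nil) (.node 2 (.node 4 (.node 12 (.node 14 (.node 16 (.node 18 .one .nil) .nil) .nil) .nil) .nil) .nil))) (.node 16 (.node 2 (.node 14 (.node 18 (.node 4 (.node 9 (.node 12 .one .nil) .nil) (.node 6 (.node 10 (.node 15 .one .nil) .nil) .nil)) .nil) .nil) (.node 1 (.node 5 (.node 9 (.node 12 (.node 15 (.node 17 .one .nil) .nil) .nil)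 .nil) .nil) .nil)) .nil)) (.node 9 (.node 13 (.node 4 (.node 14 (.node 18 (.node 2 (.node 12 (.node 16 .one .nil) .nil) (.node 3 (.node 11 (.node 17 .one .nil) .nil) .nil)) .nil) .nil) (.node 1 (.node 5 (.node 12 (.node 15 (.node 16 (.node 17 .one .nil) .nil) .nil) .nil) .nil) .nil)) (.node 1 (.node 6 (.node 11 (.node 14 (.node 15 (.node 16 (.node 17 .one .nil) .nil) .nil) .nil) .nil) .nil) .nil)) .nil)))
def T1 : Tr := (.node 1 (.node 5 (.node 3 (.node 11 (.node 17 (.node 4 (.node 9 (.node 12 .one (.node 13 .one .nil)) (.node 12 (.node 13 .one .nil) .nil)) (.node 6 (.node 7 (.node 10 .one (.node 15 .one .nil)) (.node 10 (.node 15 .one .nil) .nil)) (.node 7 (.node 10 (.node 15 .one .nil) .nil) (.node 9 (.node 12 (.node 13 .one .nil) .nil) .nil)))) (.node 4 (.node 9 (.node 12 (.node 13 .one .nil) .nil) .nil) (.node 6 (.node 7 (.node 10 (.node 15 .one .nil) .nil) .nil) .nil))) (.node 17 (.node 4 (.node 9 (.node 12 (.node 13 .one .nil) .nil) .nil) (.node 6 (.node 7 (.node 10 (.node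 15 .one .nil) .nil) .nil) .nil)) .nil)) (.node 6 (.node 10 (.node 15 (.node 2 (.node 8 (.node 12 .one (.node 16 .one .nil)) (.node 12 (.node 16 .one .nil) .nil)) (.node 7 (.node 11 (.node 17 .one .nil) .nil) (.node 8 (.node 12 (.node 16 .one .nil) .nil) .nil))) (.node 2 (.node 8 (.node 12 (.node 16 .one .nil) .nil) .nil) .nil)) (.node 2 (.node 8 (.node 12 (.node 15 (.node 16 .one .nil) .nil) .nil) .nil) .nil)) (.node 12 (.node 2 (.node 8 (.node 10 (.node 15 (.node 16 .one .nil) .nil) .nil) .nil) (.node 4 (.node 9 (.node 11 (.node 13 (.node 17 .one .nil) .nil) .nil) .nil) .nil)) .nil))) (.node 6 (.node 2 (.node 12 (.node 16 (.node 4 (.node 9 (.node 11 .one (.node 14 .one .nil)) (.node 11 (.node 14 .one .nil) .nil)) (.node 8 (.node 10 (.node 15 .one .nil) .nil) (.node 9 (.node 11 (.node 14 .one .nil) .nil) .nil))) (.node 4 (.node 9 (.node 11 (.node 14 .one .nil) .nil) .nil) .nil)) (.node 4 (.node 9 (.node 11 (.node 14 (.node 16 .one .nil) .nil) .nil) .nil) .nil)) (.node 11 (.node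 3 (.node 7 (.node 10 (.node 15 (.node 17 .one .nil) .nil) .nil) .nil) (.node 4 (.node 9 (.node 12 (.node 14 (.node 16 .one .nil) .nil) .nil) .nil) .nil)) .nil)) (.node 4 (.node 9 (.node 11 (.node 12 (.node 2 (.node 14 (.node 16 .one .nil) .nil) (.node 3 (.node 13 (.node 17 .one .nil) .nil) .nil)) .nil) .nil) .nil) .nil))) (.node 2 (.node 4 (.node 3 (.node 10 (.node 18 (.node 5 (.node 8 (.node 12 .one (.node 13 .one .nil)) (.node 12 (.node 13 .one .nil) .nil)) (.node 6 (.node 7 (.node 11 .one (.node 14 .one .nil)) (.node 11 (.node 14 .one .nil) .nil)) (.node 7 (.node 11 (.node 14 .one .nil) .nil) (.node 8 (.node 12 (.node 13 .one .nil) .nil) .nil)))) (.node 5 (.node 8 (.node 12 (.node 13 .one .nil) .nil) .nil) (.node 6 (.node 7 (.node 11 (.node 14 .one .nil) .nil) .nil) .nil))) (.node 18 (.node 5 (.node 8 (.node 12 (.node 13 .one .nil) .nil) .nil) (.node 6 (.node 7 (.node 11 (.node 14 .one .nil) .nil) .nil) .nil)) .nil)) (.node 6 (.node 11 (.node 14 (.node 7 (.node 10 (.node 18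 .one .nil) .nil) (.node 9 (.node 12 (.node 16 .one .nil) .nil) .nil)) .nil) .nil) (.node 5 (.node 8 (.node 10 (.node 12 (.node 13 (.node 18 .one .nil) .nil) .nil) .nil) .nil) .nil))) (.node 10 (.node 3 (.node 18 (.node 5 (.node 8 (.node 12 (.node 13 .one .nil) .nil) .nil) (.node 6 (.node 7 (.node 11 (.node 14 .one .nil) .nil) .nil) .nil)) .nil) (.node 5 (.node 6 (.node 8 (.node 12 (.node 15 (.node 16 .one .nil) .nil) .nil) .nil) .nil) .nil)) .nil)) (.node 3 (.node 4 (.node 5 (.node 12 (.node 13 (.node 8 (.node 10 (.node 18 .one .nil) .nil) (.node 9 (.node 11 (.node 17 .one .nil) .nil) .nil)) .nil) .nil) (.node 6 (.node 7 (.node 10 (.node 11 (.node 14 (.node 18 .one .nil) .nil) .nil) .nil) .nil) .nil)) (.node 5 (.node 6 (.node 7 (.node 10 (.node 11 (.node 15 (.node 17 .one .nil) .nil) .nil) .nil) .nil) .nil) .nil)) .nil)))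
def T2 : Tr := (.node 5 (.node 12 (.node 8 (.node 15 (.node 16 (.node 2 (.node 6 (.node 10 .one .nil) .nil) (.node 9 (.node 13 (.node 17 .one .nil) .nil) .nil)) .nil) .nil) (.node 3 (.node 4 (.node 9 (.node 11 (.node 13 (.node 17 .one .nil) .nil) .nil) .nil) .nil) .nil)) (.node 3 (.node 6 (.node 7 (.node 10 (.node 11 (.node 15 (.node 17 .one .nil) .nil) .nil) .nil) .nil) .nil) .nil)) (.node 6 (.node 9 (.node 11 (.node 14 (.node 16 (.node 2 (.node 4 (.node 12 .one .nil) .nil) (.node 7 (.node 15 (.node 17 .one .nil) .nil) .nil)) .nil) .nil) .nil) .nil) .nil))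
def T3 : Tr := (.node 2 (.node 4 (.node 3 (.node 10 (.node 5 (.node 8 (.node 12 (.node 13 .one .nil) .nil) .nil) (.node 6 (.node 7 (.node 11 (.node 14 .one .nil) .nil) .nil) .nil)) .nil) (.node 8 (.node 9 (.node 12 (.node 13 (.node 14 (.node 16 .one .nil) .nil) .nil) .nil) .nil) .nil)) (.node 6 (.node 7 (.node 8 (.node 10 (.node 14 (.node 15 (.node 16 .one .nil) .nil) .nil) .nil) .nil) .nil) .nil)) (.node 3 (.node 7 (.node 13 (.node 17 (.node 4 (.node 9 (.node 11 (.node 14 .one .nil) .nil) .nil) (.node 5 (.node 8 (.node 10 (.node 15 .one .nil) .nil) .nil) .nil)) .nil) .nil) .nil) .nil))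
/-- the tree of the masks -/
def T : Tr := (.node 0 T0 (.node 19 T1 (.node 1 T2 (.node 18 T3 .nil))))
theorem cT : chkC L 120 (cds T) 0 = true := by decide +kernel
def Q0 : ℕ := 0x1d4741dc761c8731b46e1b0701c46f19c6418c621ac651986a1a468180611785f1705d160571585b1685915055128491003e0f43c0e0370d8531483a0e4451183b1043f10c511085013c4e1104811c4d1304b0d0350c8330701d0781401402048010440001c100380d0300f0280802c2f0c031010030181604c180242e05c2b0a426088250902307c210542009c190b41b0682c0a828
theorem cs0 : chkS L Q0 181889 120 = true := by decide +kernel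
def Q1 : ℕ := 0x1d8771c46d1bc6e1d46c1cc721d0701a86b1a06914c521544a11845104400fc3e0f43c0ec3a0e4380dc361944919c6610c421384f1104811c641504c12c631884d144501846017c5e1745c16c5a1645815c560c02e0b42c0bc350c4340cc320a82b0a029098270882108025090230781f0500b048110400a0380d0301d03c1b0681904c1705815070180200901807008010000501003
theorem cs1 : chkS L Q1 181840 120 = true := by decide +kernel
def Q2 : ℕ := 0x1ac6919c631785f09c230680c01c031dc681d86a1d465198621d064180611c87316c581745615c5c1645a0cc320982d09029094300b82f0ac100140402c0606413060090580d054110381d05c1b07c14078120880f154540044e1304d1480212c1c140081c45313c511c035028000e4370f02a0e86f114430ec410fc38110360f84a0d03d1006e11c21108281b446124481b02c0c420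
theorem cs2 : chkS L Q2 181448 120 = true := by decide +kernel
def Q3 : ℕ := 0x1d4711dc6d1bc6c1d86e1cc701d0721985213c4e1946b19c490f43c0e8480e447118450ec410fc4410c4214c4a1546a0dc361a4680e0400f854190601785d1705815c561684c1644b18c6216c6117c4d144500cc320d4340a42d0a02c0c02e0a82b0c42f0942209c200842608c2400c00014110100b04c150180906002064010700f040070200a0680c0580d038170741b07c140481e
theorem cs3 : chkS L Q3 178312 120 = true := by decide +kernel
theorem okF : okm 88662 = true := by decide +kernel
theorem cL : chkL 88662 L PL 120 = true := by decide +kernel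

end Pool.Agent.U986.LC.FX863
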