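import Pool.Agent.N238.G6.Base2

set_option autoImplicit false
set_option maxRecDepth 100000

namespace Pool.Agent.U986.LC.FX864
open Pool.Agent.N238.G6

def L : ℕ := 0xea5a8e8ce8e3538e3a38e6a98e4cd8cb52cd9564dc5c4cccccd4cd4d5a54d7314d3534c4adcc333cc751cc6c9cc5c5cc45dcc3c3cc25bcc157cc0cfca7a1a97a169d54695356b5a52bcac2accca9da4695c5694ad685a5e84cdeb8ce2985e6a85ea88ceeaacaaa8aeaa2abaa0cfab3a32bb322b9562a333aaba2aa9c6aa3c3aa1a7a9b52683a3e8353e8956e99c669936691a769157667a1957a1523a3b3ba233da4315a5739363553555d54519567575153b5236b5294353d4731d2b32b7b321773115f305533353f303333331b3271731762ab9625b9585e54a5ad7a5a13a3a338ae36a3a96aca9685e92a5ab28ceb3ea8326a9b34ad32cacb3ccc33c3c31cac71c5c776a917cac17c5c164ad96ea896e58966c99663995e5855639546a9d5c3c55ccc5545d54c5cd44cdd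
def PL : ℕ := 0x4458d91624c584b1622858da16180d69836240d8e115a4cd80336208d8da360a0c6a911a11564c55811d44551931d40d51815c44d71081566155850565511961584856388564c15a4e522a31812b4558c82d5829518a1464d8d050d60531a54c6157086558015630d586a11910d68395151d203b1188d60cad052b2058d12e540d11a2ec413b0881d461750ae221995062546c68862c45d1117054656886a52227488c545d88882b4650d121d8907612256ab31042566b508b0b42c4c874c41d508a5c4298d029d811b1866c401b1a70d4287118ab223a8846562a8c8a9c22c0d18d5210b1994b4254c845d80176209d86b111065682959715202b192a560ab1886b408b1a8cd41ab08a2345ca88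
def T0 : Tr := (.node 7 (.node 14 (.node 18 (.node 2 (.node 6 (.node 10 (.node 3 (.node 4 (.node 11 .one .nil) (.node 8 (.node 15 .one .nil) .nil)) (.node 16 (.node 4 (.node 8 .one .nil) (.node 11 (.node 15 .one .nil) .nil)) .nil)) (.node 8 (.node 9 (.node 15 (.node 16 .one .nil) .nil) .nil) .nil)) (.node 13 (.node 4 (.node 9 (.node 3 (.node 11 .one .nil) (.node 8 (.node 16 .one .nil) .nil)) .nil) (.node 8 (.node 10 (.node 15 (.node 16 .one .nil) .nil) .nil) .nil)) .nil)) (.node 17 (.node 3 (.node 13 (.node 4 (.node 8 (.node 9 .one .nil) (.node 10 (.node 11 .one .nil) .nil)) (.node 15 (.node 8 (.node 10 .one .nil) (.node 9 (.node 11 .one .nil) .nil)) .nil)) (.node 4 (.node 6 (.node 9 (.node 11 .one .nil) .nil) .nil) .nil)) (.node 16 (.node 6 (.node 15 (.node 8 (.node 10 .one .nil) (.node 9 (.node 11 .one .nil) .nil)) .nil) (.node 4 (.node 9 (.node 11 (.node 13 .one .nil) .nil) .nil) .nil)) .nil)) .nil)) (.node 1 (.node 6 (.node 15 (.node 16 (.node 2 (.node 8 (.node 10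 .one .nil) (.node 9 (.node 11 .one .nil) .nil)) (.node 17 (.node 8 (.node 9 .one .nil) (.node 10 (.node 11 .one .nil) .nil)) .nil)) (.node 3 (.node 9 (.node 11 (.node 17 .one .nil) .nil) .nil) .nil)) (.node 4 (.node 9 (.node 11 (.node 16 (.node 17 .one .nil) .nil) .nil) .nil) .nil)) (.node 9 (.node 11 (.node 13 (.node 17 (.node 3 (.node 4 .one .nil) (.node 15 (.node 16 .one .nil) .nil)) .nil) .nil) .nil) .nil)) .nil)) (.node 5 (.node 15 (.node 17 (.node 3 (.node 10 (.node 1 (.node 6 (.node 11 .one .nil) (.node 8 (.node 13 .one .nil) .nil)) (.node 18 (.node 6 (.node 8 .one .nil) (.node 11 (.node 13 .one .nil) .nil)) .nil)) (.node 8 (.node 9 (.node 13 (.node 18 .one .nil) .nil) .nil) .nil)) (.node 16 (.node 1 (.node 9 (.node 6 (.node 11 .one .nil) (.node 8 (.node 13 .one .nil) .nil)) .nil) (.node 8 (.node 10 (.node 13 (.node 18 .one .nil) .nil) .nil) .nil)) .nil)) (.node 2 (.node 8 (.node 10 (.node 18 (.node 3 (.node 13 .one .nil) (.node 6 (.node 16 .one .nil) .nil)) .nil)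 .nil) .nil) .nil)) (.node 3 (.node 4 (.node 13 (.node 17 (.node 18 (.node 8 (.node 10 .one .nil) (.node 9 (.node 11 .one .nil) .nil)) .nil) .nil) .nil) .nil) .nil)) .nil)) (.node 12 (.node 8 (.node 13 (.node 9 (.node 16 (.node 1 (.node 2 (.node 4 (.node 14 .one .nil) (.node 5 (.node 15 .one .nil) .nil)) (.node 17 (.node 4 (.node 5 .one .nil) (.node 14 (.node 15 .one .nil) .nil)) .nil)) (.node 18 (.node 2 (.node 4 (.node 5 .one .nil) (.node 14 (.node 15 .one .nil) .nil)) (.node 17 (.node 4 (.node 14 .one .nil) (.node 5 (.node 15 .one .nil) .nil)) .nil)) .nil)) (.node 3 (.node 1 (.node 5 (.node 15 (.node 17 .one .nil) .nil) .nil) (.node 2 (.node 4 (.node 14 (.node 18 .one .nil) .nil) .nil) .nil)) .nil)) (.node 10 (.node 5 (.node 3 (.node 18 (.node 2 (.node 4 .one .nil) (.node 15 (.node 17 .one .nil) .nil)) .nil) (.node 1 (.node 15 (.node 16 (.node 17 .one .nil) .nil) .nil) .nil)) (.node 2 (.node 4 (.node 14 (.node 16 (.node 18 .one .nil) .nil) .nil) .nil) .nil)) .nil))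 (.node 6 (.node 16 (.node 2 (.node 10 (.node 15 (.node 1 (.node 5 .one .nil) (.node 14 (.node 18 .one .nil) .nil)) .nil) (.node 4 (.node 9 (.node 14 (.node 18 .one .nil) .nil) .nil) .nil)) (.node 1 (.node 5 (.node 9 (.node 15 (.node 17 .one .nil) .nil) .nil) .nil) .nil)) .nil) .nil)) (.node 9 (.node 11 (.node 1 (.node 16 (.node 6 (.node 14 (.node 2 (.node 4 .one .nil) (.node 15 (.node 17 .one .nil) .nil)) .nil) (.node 5 (.node 13 (.node 15 (.node 17 .one .nil) .nil) .nil) .nil)) (.node 3 (.node 4 (.node 5 (.node 13 (.node 17 .one .nil) .nil) .nil) .nil) .nil)) (.node 4 (.node 13 (.node 14 (.node 18 (.node 2 (.node 16 .one .nil) (.node 3 (.node 17 .one .nil) .nil)) .nil) .nil) .nil) .nil)) .nil) .nil)) .nil))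
def T1 : Tr := (.node 1 (.node 5 (.node 12 (.node 2 (.node 6 (.node 16 (.node 4 (.node 8 (.node 10 .one .nil) (.node 9 (.node 11 .one .nil) .nil)) (.node 15 (.node 8 (.node 9 .one .nil) (.node 10 (.node 11 .one .nil) .nil)) .nil)) (.node 3 (.node 8 (.node 10 (.node 15 .one .nil) .nil) .nil) .nil)) (.node 13 (.node 3 (.node 4 (.node 8 (.node 10 .one .nil) (.node 9 (.node 11 .one .nil) .nil)) .nil) (.node 8 (.node 10 (.node 15 (.node 16 .one .nil) .nil) .nil) .nil)) .nil)) (.node 17 (.node 3 (.node 11 (.node 4 (.node 6 (.node 9 .one .nil) (.node 10 (.node 13 .one .nil) .nil)) (.node 15 (.node 6 (.node 10 .one .nil) (.node 9 (.node 13 .one .nil) .nil)) .nil)) (.node 4 (.node 8 (.node 9 (.node 13 .one .nil) .nil) .nil) .nil)) (.node 16 (.node 8 (.node 15 (.node 6 (.node 10 .one .nil) (.node 9 (.node 13 .one .nil) .nil)) .nil) (.node 4 (.node 9 (.node 11 (.node 13 .one .nil) .nil) .nil) .nil)) .nil)) .nil)) (.node 7 (.node 3 (.node 11 (.node 17 (.node 4 (.node 6 (.node 10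 .one .nil) (.node 9 (.node 13 .one .nil) .nil)) (.node 15 (.node 6 (.node 9 .one .nil) (.node 10 (.node 13 .one .nil) .nil)) .nil)) (.node 2 (.node 6 (.node 10 (.node 15 .one .nil) .nil) .nil) .nil)) (.node 6 (.node 8 (.node 10 (.node 15 (.node 17 .one .nil) .nil) .nil) .nil) .nil)) (.node 6 (.node 10 (.node 15 (.node 16 (.node 2 (.node 8 .one .nil) (.node 11 (.node 17 .one .nil) .nil)) .nil) .nil) .nil) .nil)) .nil)) (.node 14 (.node 6 (.node 11 (.node 2 (.node 4 (.node 3 (.node 7 (.node 10 .one .nil) (.node 9 (.node 12 .one .nil) .nil)) (.node 16 (.node 7 (.node 9 .one .nil) (.node 10 (.node 12 .one .nil) .nil)) .nil)) (.node 9 (.node 12 (.node 15 (.node 16 .one .nil) .nil) .nil) .nil)) (.node 17 (.node 7 (.node 15 (.node 3 (.node 10 .one .nil) (.node 9 (.node 16 .one .nil) .nil)) .nil) (.node 4 (.node 9 (.node 12 (.node 16 .one .nil) .nil) .nil) .nil)) .nil)) (.node 2 (.node 8 (.node 12 (.node 16 (.node 4 (.node 9 .one .nil) (.node 10 (.node 15 .one .nil) .nil)) .nil)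 .nil) .nil) .nil)) (.node 4 (.node 9 (.node 11 (.node 12 (.node 13 (.node 2 (.node 16 .one .nil) (.node 3 (.node 17 .one .nil) .nil)) .nil) .nil) .nil) .nil) .nil)) .nil)) (.node 18 (.node 2 (.node 4 (.node 3 (.node 10 (.node 5 (.node 6 (.node 7 (.node 11 .one .nil) (.node 8 (.node 12 .one .nil) .nil)) (.node 13 (.node 7 (.node 8 .one .nil) (.node 11 (.node 12 .one .nil) .nil)) .nil)) (.node 14 (.node 6 (.node 7 (.node 8 .one .nil) (.node 11 (.node 12 .one .nil) .nil)) (.node 13 (.node 7 (.node 11 .one .nil) (.node 8 (.node 12 .one .nil) .nil)) .nil)) .nil)) (.node 9 (.node 5 (.node 8 (.node 12 (.node 13 .one .nil) .nil) .nil) (.node 6 (.node 7 (.node 11 (.node 14 .one .nil) .nil) .nil) .nil)) .nil)) (.node 16 (.node 12 (.node 8 (.node 13 (.node 5 (.node 10 .one .nil) (.node 9 (.node 14 .one .nil) .nil)) .nil) (.node 6 (.node 9 (.node 11 (.node 14 .one .nil) .nil) .nil) .nil)) (.node 6 (.node 7 (.node 10 (.node 11 (.node 14 .one .nil) .nil) .nil) .nil) .nil)) .nil))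 (.node 10 (.node 15 (.node 6 (.node 7 (.node 14 (.node 3 (.node 11 .one .nil) (.node 8 (.node 16 .one .nil) .nil)) .nil) (.node 5 (.node 8 (.node 12 (.node 16 .one .nil) .nil) .nil) .nil)) (.node 3 (.node 5 (.node 8 (.node 12 (.node 13 .one .nil) .nil) .nil) .nil) .nil)) .nil) .nil)) (.node 3 (.node 17 (.node 4 (.node 11 (.node 7 (.node 14 (.node 6 (.node 10 .one .nil) (.node 9 (.node 13 .one .nil) .nil)) .nil) (.node 5 (.node 9 (.node 12 (.node 13 .one .nil) .nil) .nil) .nil)) (.node 5 (.node 8 (.node 10 (.node 12 (.node 13 .one .nil) .nil) .nil) .nil) .nil)) (.node 5 (.node 7 (.node 10 (.node 15 (.node 6 (.node 11 .one .nil) (.node 8 (.node 13 .one .nil) .nil)) .nil) .nil) .nil) .nil)) .nil) .nil)) .nil))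
/-- the tree of the masks -/
def T : Tr := (.node 0 T0 (.node 19 T1 .nil))
theorem cT : chkC L 120 (cds T) 0 = true := by decide +kernel
def Q0 : ℕ := 0x1bc701b46c1ac6a1b8761dc711d4741cc721a0691986718c6219464180611785f13c4d12c4a10c47114481084112451148401743e1703c16c5a14c561603f15c3d16455150501184e1104c0e83b0d8370e0390742306c180241300c00014110380f02c0c05c15050160d00206801034120d4040cc210403209c24098250c01e0b0190a82b07c280a4070c406028080b41c0bc220802e
theorem cs0 : chkS L Q0 181889 120 = true := by decide +kernel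
def Q1 : ℕ := 0x1cc721d0751dc7617c5b1685914c491284b1444811c4f1184e1144d1104c1c4431603e1c06f1b85d0fc52100501b4561a45419864188601a86b1b06819c6518c61178411085515c5c0f03d0bc300b8310cc320d0350dc360e03a0ec390b02d0a82b09c260a42809025088230541603c06008080240c0140001c200840100c040401107c0d0381a0280b06c1c05c1e0641204c1d05018
theorem cs1 : chkS L Q1 181840 120 = true := by decide +kernel
def Q2 : ℕ := 0x1d8771c8731d0751b86f1c0711a86b1b06d1a0691946319c6119860190620ec3a0cc340a82b0bc290c4280b42e07c210682006c1c08c2203c0e0340c02c0a0240800c050000101c040180217c5e0581709c240485c1741015c1316454154141685b160560dc15044361344c1485014c1d0784e13c51060190e0390982c0c0350943212c4a1244811c46114440fc3d1083e10c3c10041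
theorem cs2 : chkS L Q2 181448 120 = true := by decide +kernel
def Q3 : ℕ := 0x1bc6e17458168591c0711dc7613c47128431383e12453118510fc521005016c4b1d44817c731c8741144d1104c19862190601b469158541786b19c5c1b06515c551a83d0f06118c68108410dc380d83a0ec390b42c0bc2e0c0310cc320d4340a4270ac250a8240a026044100802101c060140400c010080003c150580c0240808c2205c0b028140380d04c1207c1e0741c06c1906818
theorem cs3 : chkS L Q3 178312 120 = true := by decide +kernel
theorem okF : okm 88663 = true := by decide +kernel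
theorem cL : chkL 88663 L PL 120 = true := by decide +kernel

end Pool.Agent.U986.LC.FX864
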