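import Pool.Agent.N238.G6.Base2

set_option autoImplicit false
set_option maxRecDepth 100000

namespace Pool.Agent.U986.LC.FX867
open Pool.Agent.N238.G6

def L : ℕ := 0x435a828da82a4e884ce8836384a53826a388393823a9844e98468d888cd86252c9152c1c56483564195c444dc4544cca0ccc84e544c4d49485c6489cc0d1cc245cc443c17254858d4c149ca303c15b148953443714471345311c55216a1a1662a1a91a1a990569164658546388cac0cca91946c485628ec283a5215ac21ca5234a46a0e2aa286a684aaa883a2c8e288d629846aa84662b2323322a23b22197221b16239126894e285a32a18aac303ac1526950669521594a433c22356219a2a19662153a243a322354705985455c11538b03991233a129c25296a12356145c31152a72146b11173211b311333055330362689629894a5c1585892b1a168585a84a96a09939283a88c32ca9134a8926ac11c6c11c9c13c0c54c5a147291660a9c489955185c44c564a835c0c3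
def PL : ℕ := 0xae1422ac88ea22a85886a6298d0aa3222a58ae2221ad08e9429898ad1814ac8b11613b08b1941ab0872a22a66054b81c2a856322346835460d7103156256504e520c750899a2545850ba1d2a06a521d88885d40b528aca80cad0662a19aa0a5c41ca50a5a81aa604cd819b102ec42c688b0a62a70854c6157088caa14358711a0d4e036340b56066541d85075182529895a2227482e540c4e851d2216a84cca1a86885562a3182a3a0ca98a8b80a7282ea81956046b829518463a0aae088d614a58a538117284e981a36046c60ab18b1322c2d0ad422b31074c41d50835a80d898519a0a76088ba1c3502e2a195284656158585598252d09532235482a560c6a87152214e84e1a1a32845d823350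
def T0 : Tr := (.node 7 (.node 14 (.node 18 (.node 1 (.node 6 (.node 15 (.node 16 .one .nil) .nil) (.node 9 (.node 11 (.node 17 .one .nil) .nil) .nil)) (.node 2 (.node 6 (.node 10 (.node 19 .one .nil) .nil) (.node 8 (.node 12 (.node 16 .one .nil) .nil) .nil)) (.node 3 (.node 4 (.node 11 (.node 19 .one .nil) .nil) (.node 5 (.node 13 (.node 17 .one .nil) .nil) .nil)) (.node 4 (.node 9 (.node 12 (.node 13 .one .nil) .nil) .nil) (.node 5 (.node 8 (.node 10 (.node 15 .one .nil) .nil) .nil) .nil))))) (.node 6 (.node 15 (.node 16 (.node 2 (.node 17 .one .nil) (.node 8 (.node 11 .one .nil) (.node 9 (.node 10 .one .nil) .nil))) .nil) (.node 9 (.node 11 (.node 13 (.node 17 .one .nil) .nil) .nil) .nil)) (.node 9 (.node 11 (.node 17 (.node 3 (.node 16 .one .nil) (.node 4 (.node 15 .one .nil) .nil)) .nil) .nil) .nil))) (.node 15 (.node 17 (.node 1 (.node 6 (.node 11 (.node 19 .one .nil) .nil) (.node 9 (.node 12 (.node 16 .one .nil) .nil) .nil)) (.node 3 (.node 4 (.node 13 (.node 18 .one .nil) .nil)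 (.node 5 (.node 10 (.node 19 .one .nil) .nil) .nil)) (.node 8 (.node 2 (.node 10 (.node 18 .one .nil) .nil) (.node 5 (.node 12 (.node 13 .one .nil) .nil) .nil)) .nil))) (.node 8 (.node 10 (.node 18 (.node 3 (.node 16 .one .nil) (.node 6 (.node 13 .one .nil) .nil)) .nil) .nil) .nil)) (.node 3 (.node 13 (.node 17 (.node 18 (.node 8 (.node 11 .one .nil) (.node 9 (.node 10 .one .nil) .nil)) .nil) .nil) .nil) .nil))) (.node 8 (.node 13 (.node 9 (.node 12 (.node 16 (.node 1 (.node 18 .one .nil) (.node 2 (.node 17 .one .nil) (.node 4 (.node 15 .one .nil) (.node 5 (.node 14 .one .nil) .nil)))) .nil) (.node 4 (.node 11 (.node 14 (.node 18 .one .nil) .nil) .nil) (.node 5 (.node 10 (.node 15 (.node 17 .one .nil) .nil) .nil) .nil))) (.node 18 (.node 2 (.node 4 (.node 12 (.node 19 .one .nil) .nil) (.node 6 (.node 14 (.node 16 .one .nil) .nil) .nil)) (.node 5 (.node 1 (.node 15 (.node 17 .one .nil) .nil) (.node 3 (.node 10 (.node 19 .one .nil) .nil) .nil)) .nil)) (.node 3 (.node 5 (.node 15 (.node 16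 (.node 17 .one .nil) .nil) .nil) .nil) .nil))) (.node 16 (.node 15 (.node 1 (.node 5 (.node 12 (.node 19 .one .nil) .nil) (.node 9 (.node 11 (.node 17 .one .nil) .nil) .nil)) (.node 2 (.node 4 (.node 14 (.node 18 .one .nil) .nil) (.node 6 (.node 10 (.node 19 .one .nil) .nil) .nil)) .nil)) (.node 2 (.node 9 (.node 10 (.node 14 (.node 18 .one .nil) .nil) .nil) .nil) .nil)) .nil)) (.node 9 (.node 13 (.node 17 (.node 1 (.node 5 (.node 12 (.node 19 .one .nil) .nil) (.node 6 (.node 15 (.node 16 .one .nil) .nil) .nil)) (.node 4 (.node 2 (.node 14 (.node 18 .one .nil) .nil) (.node 3 (.node 11 (.node 19 .one .nil) .nil) .nil)) .nil)) (.node 3 (.node 4 (.node 14 (.node 16 (.node 18 .one .nil) .nil) .nil) .nil) .nil)) (.node 14 (.node 16 (.node 1 (.node 5 (.node 15 (.node 17 .one .nil) .nil) (.node 6 (.node 11 (.node 19 .one .nil) .nil) .nil)) (.node 2 (.node 4 (.node 12 (.node 19 .one .nil) .nil) .nil) .nil)) .nil) .nil)) .nil)))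
def T1 : Tr := (.node 5 (.node 12 (.node 19 (.node 2 (.node 6 (.node 14 (.node 16 .one .nil) .nil) (.node 8 (.node 10 (.node 18 .one .nil) .nil) .nil)) (.node 3 (.node 4 (.node 13 (.node 18 .one .nil) .nil) (.node 7 (.node 11 (.node 17 .one .nil) .nil) .nil)) (.node 4 (.node 9 (.node 11 (.node 14 .one .nil) .nil) .nil) (.node 6 (.node 7 (.node 10 (.node 15 .one .nil) .nil) .nil) .nil)))) (.node 8 (.node 15 (.node 16 (.node 2 (.node 17 .one .nil) (.node 6 (.node 13 .one .nil) (.node 9 (.node 10 .one .nil) .nil))) .nil) (.node 9 (.node 11 (.node 13 (.node 17 .one .nil) .nil) .nil) .nil)) (.node 9 (.node 13 (.node 17 (.node 3 (.node 16 .one .nil) (.node 4 (.node 15 .one .nil) .nil)) .nil) .nil) .nil))) (.node 15 (.node 6 (.node 10 (.node 19 (.node 2 (.node 17 .one .nil) (.node 3 (.node 16 .one .nil) (.node 8 (.node 11 .one .nil) .nil))) .nil) (.node 7 (.node 11 (.node 14 (.node 17 .one .nil) .nil) .nil) .nil)) (.node 3 (.node 17 (.node 4 (.node 11 (.node 19 .one .nil) .nil) (.node 7 (.node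 10 (.node 18 .one .nil) .nil) .nil)) .nil) .nil)) (.node 3 (.node 11 (.node 17 (.node 19 (.node 6 (.node 13 .one .nil) (.node 9 (.node 10 .one .nil) .nil)) .nil) .nil) .nil) .nil))) (.node 6 (.node 11 (.node 9 (.node 14 (.node 16 (.node 2 (.node 17 .one .nil) (.node 4 (.node 15 .one .nil) (.node 7 (.node 12 .one .nil) .nil))) .nil) (.node 4 (.node 12 (.node 13 (.node 19 .one .nil) .nil) .nil) (.node 7 (.node 10 (.node 15 (.node 17 .one .nil) .nil) .nil) .nil))) (.node 19 (.node 2 (.node 4 (.node 14 (.node 18 .one .nil) .nil) (.node 8 (.node 12 (.node 16 .one .nil) .nil) .nil)) (.node 3 (.node 7 (.node 10 (.node 18 .one .nil) .nil) .nil) .nil)) (.node 3 (.node 7 (.node 15 (.node 16 (.node 17 .one .nil) .nil) .nil) .nil) .nil))) (.node 2 (.node 16 (.node 10 (.node 8 (.node 15 (.node 18 .one .nil) .nil) (.node 9 (.node 12 (.node 19 .one .nil) .nil) .nil)) (.node 4 (.node 12 (.node 15 (.node 19 .one .nil) .nil) .nil) .nil)) .nil) .nil)) (.node 4 (.node 9 (.node 11 (.node 3 (.node 12 (.node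 16 (.node 19 .one .nil) .nil) (.node 13 (.node 17 (.node 18 .one .nil) .nil) .nil)) (.node 2 (.node 12 (.node 17 (.node 19 .one .nil) .nil) .nil) .nil)) (.node 2 (.node 12 (.node 14 (.node 16 (.node 18 .one .nil) .nil) .nil) .nil) .nil)) .nil) .nil)))
def T2 : Tr := (.node 4 (.node 12 (.node 8 (.node 13 (.node 18 (.node 3 (.node 16 .one .nil) (.node 5 (.node 14 .one .nil) (.node 9 (.node 10 .one .nil) .nil))) .nil) (.node 5 (.node 10 (.node 15 (.node 19 .one .nil) .nil) .nil) (.node 9 (.node 11 (.node 14 (.node 16 .one .nil) .nil) .nil) .nil))) (.node 19 (.node 3 (.node 5 (.node 13 (.node 17 .one .nil) .nil) (.node 7 (.node 10 (.node 18 .one .nil) .nil) .nil)) (.node 6 (.node 7 (.node 11 (.node 14 .one .nil) .nil) .nil) .nil)) (.node 6 (.node 9 (.node 13 (.node 14 (.node 16 .one .nil) .nil) .nil) .nil) .nil))) (.node 3 (.node 18 (.node 10 (.node 19 (.node 5 (.node 14 .one .nil) (.node 6 (.node 13 .one .nil) (.node 8 (.node 11 .one .nil) .nil))) .nil) (.node 7 (.node 11 (.node 14 (.node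 17 .one .nil) .nil) .nil) .nil)) (.node 6 (.node 11 (.node 14 (.node 16 (.node 19 .one .nil) .nil) .nil) .nil) .nil)) (.node 6 (.node 10 (.node 14 (.node 7 (.node 15 (.node 18 .one .nil) .nil) (.node 9 (.node 11 (.node 19 .one .nil) .nil) .nil)) .nil) .nil) .nil))) (.node 10 (.node 6 (.node 7 (.node 3 (.node 11 (.node 17 (.node 19 .one .nil) .nil) (.node 14 (.node 16 (.node 18 .one .nil) .nil) .nil)) (.node 8 (.node 11 (.node 14 (.node 18 .one .nil) .nil) (.node 12 (.node 15 (.node 16 .one .nil) .nil) .nil)) .nil)) (.node 5 (.node 8 (.node 12 (.node 13 (.node 19 .one .nil) .nil) (.node 14 (.node 15 (.node 16 .one .nil) .nil) .nil)) .nil) .nil)) (.node 3 (.node 5 (.node 8 (.node 12 (.node 16 (.node 19 .one .nil) .nil) (.node 13 (.node 17 (.node 18 .one .nil) .nil) .nil)) .nil) .nil) .nil)) .nil))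
def T3 : Tr := (.node 4 (.node 11 (.node 7 (.node 6 (.node 10 (.node 15 (.node 19 .one .nil) .nil) (.node 13 (.node 14 (.node 18 .one .nil) .nil) .nil)) (.node 9 (.node 10 (.node 14 (.node 18 .one .nil) .nil) (.node 12 (.node 13 (.node 17 .one .nil) .nil) .nil)) .nil)) (.node 5 (.node 13 (.node 8 (.node 12 (.node 19 .one .nil) .nil) (.node 9 (.node 14 (.node 17 .one .nil) .nil) .nil)) .nil) .nil)) (.node 5 (.node 10 (.node 13 (.node 8 (.node 15 (.node 18 .one .nil) .nil) (.node 9 (.node 12 (.node 19 .one .nil) .nil) .nil)) .nil) .nil) .nil)) (.node 5 (.node 7 (.node 10 (.node 6 (.node 11 (.node 14 (.node 19 .one .nil) .nil) (.node 13 (.node 15 (.node 17 .one .nil) .nil) .nil)) (.node 8 (.node 11 (.node 15 (.node 17 .one .nil) .nil) (.node 12 (.node 13 (.node 18 .one .nil) .nil) .nil)) .nil)) .nil) .nil) .nil))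
/-- the tree of the masks -/
def T : Tr := (.node 0 T0 (.node 1 T1 (.node 2 T2 (.node 3 T3 .nil))))
theorem cT : chkC L 120 (cds T) 0 = true := by decide +kernel
def Q0 : ℕ := 0x198671a46818c621705b1605615457194641d4741d8771ac6a1cc72164541685d178711c05f1846f1b06e1b4601445014c5210043104360c4330c8380d0390ec3a138301344f0dc350f03d11444118480fc4c0f8471284912c420ac280a42a0bc2c0b42e05c110400f0380800800014040280602c0d0300109c0301c120241409825090230681906c1d04c220541c07c1e0582106020
theorem cs0 : chkS L Q0 181889 120 = true := by decide +kernel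
def Q1 : ℕ := 0x1bc6e1b46c1c0711c8731dc761d4741445011447118481304b0f83f0f44110c42100370d4330c8380d0390ec3a0d8311ac6a0c04a110651904e0f0661a0671a44d17c5e1805d188631844915454158581705316c57168591484f08c26094220842007c1e0902e0b4270bc2c0ac2a0a4280701d0681b060190581702c0c018010100500c0201c140540902800034130401103c0e04808
theorem cs1 : chkS L Q1 181840 120 = true := by decide +kernel
def Q2 : ℕ := 0x1d0751d8771b86c1bc6d1c4731c0721906519c661a4681a86b15857150591785f168581545d1805c1886316c610bc2a0ac2c09427098220841f0781d0701b0681905c160441004c15050120340c02c0a0240801c06014040080314c1803c5014452090011384d13c290004c12c0e1284912047118451102e10c420f83d0fc3c104400b4200ec3a0e4380dc360d4340cc320c0310a023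
theorem cs2 : chkS L Q2 181448 120 = true := by decide +kernel
def Q3 : ℕ := 0x19c66194641384d1104a118481304b1a4681ac6a1dc761d47410c411083f0f83d0f03a0cc350c0390c4380d8370ec34114470c8731c86d1b0701006e1406f1447118c61188491805f1785d14c5c16056150551685216c4f15c590a02b0a8290b82d0b02f074210801c0781f098250882309c240641806c1a028090501500c0700800018040040b03017058050480f0200e04c1103410
theorem cs3 : chkS L Q3 178312 120 = true := by decide +kernel
theorem okF : okm 88770 = true := by decide +kernel
theorem cL : chkL 88770 L PL 120 = true := by decide +kernel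

end Pool.Agent.U986.LC.FX867
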