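import Pool.Agent.N238.G6.Base2

set_option autoImplicit false
set_option maxRecDepth 100000

namespace Pool.Agent.U986.LC.FX870
open Pool.Agent.N238.G6

def L : ℕ := 0x535a8475a8437a843da838da82cda829da828fa894ce885ce884ee884de886ce8435e83a4e82e4e82b4e82a6e82a4f85a5384e5384a5784a738936388b63887638836b88367836a382ea3826e3826a784ad3826b38939388b9388793883978839b833a982ba9823b9823ad8568d84e8d8478d8469d8468f828db898cd88acd889cd888dd823e9888ed854e984ce9845e9844f9844eb828dac6652c62d2c6272c7252cb152c9552c91d2c9172c915ac3c5641cd641c7641c56c1e5646256ca35648756483d6483764835e4395c41b5c4197c419dc464dc446dc445dc444fc444de42a4eca2ccca1ccca0ecca0dccb0ccc195cc744cc564cc554cc546cc544ece0d1cd0d1cc8d1cc0f1ce245cd245cca45cc265c26a3c7489c6c89c6499c648bce443cd443ccc43cc463cb485c9c85c9685c9495c9487c1c5746c4d44e4d44c4f44c6d4a4e548ce5486e5484f5484e74b303cab03ca703ca307c372541f25417654172741725c23a9c6589c4d4d4172d4a58d48d8d4878d4858f4a30bce149cd149cc949cc169c195d4a95348d53489734895b489d34859d435b141db1415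f1415b9415b3415b1c637144b71443f144379443754671344f13447934471b4471747311c5b11c5391c5319c5315c5311ec0d1e6489ec149e43716752165d21655616552965521ee1a16a9a16a1e16a1b16a1a9699a1a91e1a91b1a91a9ad1a1a44e9a72a1a6aa1a62e1a62b1a62a1e4c4d6c245ed9056b90569b056990d69905eb164693646916c69164ed1646544ce785465a54658746585565854e58d46e4856cc856c6856c4956d1946b1946939469194e919c644dc6468dac2ccac1ccac0dcad0cca788ca3a8ca398ca389ca388da388ce62a5ac3a528ba5283e5283b5283ad2c0eca68ec22aec229ec228fc228ed228ec655ac217ac215ec215bc215aca5ca521ea521ce521cb521ca5a74a4636a4634e4634b4634a4e34a66c4876c443e6252ee0e2ab0e2aa4e2aa0f2aa0e2ee286ab286aa686aa296aa286e4a53a784aa6c4aa686aa684ae684bae883ab883aac83aa893aa883e1ca726c8e22e8e22c9e22c8f22c8e6c8d628cd628ad6288f6288d72d846a9c46a9a46a9866a9847ae8466ac466aa466a8666a84762d8e2694aa15ae2552366b2322f2322b6322b2b22b2722b2367322a3722a3362a332aa3326a3322ed303acb03ac307ac703ac5a328da3285e32d5066b5066970669506e85ab2c30bae18aab18aaa58aaa18ae950e6c94e28d4e28b4e2896e2894f2435aa471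36e1526c5526c1726c15a6a19aac1d2685b3263b2227b2223f2223ba223b6223b26597221d72219f22197a2197321972a5b1621f1621b9621b1e21b1721b16a791263d12639926391a6391363912e9485dc245da303dc443d99057c485795067a8467a286b9846bc303ba883b7c2233c6233c2333c22b3c2277a2433a6433a24b3a2473a2535e2195661956259562395621b6e21566615662556623566217d621983639b2a19aaa19a2e19a2a59a2a1de621584e55b52159d21595615952359521d91647ba243bc223e3223a7223a3623a3263a3227a0e2b85a3391a1ba1a1783a53d4a4396a4394e4394a6394a4b88d63c152789535c0d1d94b43919479152dd47057470554f05547255470d54707b854598d45987459854d98555dc1157c1155c9155c1355c11d5c117d91239d123991339912b99923b8b0378b0338f0338b1338b0b38b079a5458356583939ba1293e1293a9293a1693a1393a12dd2529c6529c2d29c2569c252bea1236e1236a9236a1636a1336a127e3115cb115c3915c3117c3155d61457614556945561655614d56147c2729aa7212e7212af212a7612a7252a731a2b19c6b114eb1146f1146b5146b3146b139732117b211772117361173299b3111bb111b7111b3511b319b330533b0533705333453330dd330353b0353703533435330ba32a35338333385c319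5c149dc0ccba0ccda18abe26897268963689626c96268d6268be29897298963989629c96298d6298b88cd9894e31b391991a3ca5c14b5c14adc14a7c14a5d14a5c3d85895958958d8958789585995858bb84a9a86a9a84b9a84adaa8c3a89c3a88d3a88c7e88c3ea0997a0996a0d96a09b6a09de858568d856878568595685876b09969585a94a9ab1a12b9a12b1e12b1b12b1a5a98c3b92837928339683392933928b392872f1a1ac4a9173a195295aca912da912ce912cb912cab12ca95b4a8935a8934e8934b8934aa934a8d84ce9858d5a6ac127ac126ec126bc126ae126ac59c6c11e6c11d6c11c6e11c6d11c6c99c9c11e9c11d9c11c9e11c9d11c9c9bc0c53e0c53d0c53c0e53c0d53c0cdd4899cc899c4999e44c5c64c5c46c5c5899c72914f29147691472d1c54c5d518575185559855518d472b1c44e5551a5cc5a14d5a14cda14c7a14c5b1c48b9e60a9760a9670a9660e9660ad4c5a355187660abc489b47293e4a8365a8364e8364b8364aa364a87c44c7dc0c35e0c35d0c35c0e35c0d35c0cb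
def PL : ℕ := 0x6ac05074c05394c0ab4650e2ac80cab0851d4ec05854c05a96a858303aab8506650822ec8ea2087155418cab0340d703465a6340b94286a60266c54385831546c0c855c701a832a5702a6a8c84e50416ac8a961850d343899b0221d5022e5ae221a941053b23a5041c34d0a374188bb02503a5835409995406ba6260a94386b40346c40c75d0a1b1846074a72a0418d5284ac332a52b22154322276a6216252a3a8105c56c458283b2b4604ec2042ea6551086a5aa065094b8ab04151d2c2b1ab0845d1042ab21396b811b10654ac18152c189da9980b12ab1940232b85d09ca8822356b42162989182b11d44d5184298d982a11564d71095844a16306b52870a76205886a4688cc55815c44336222a7226295632295035488c2b0b44570b425a2344394a82a64a62c54b8191152c5881a9c899a2850b42c2c155c708a8b0a59594254198d1a1c2a8aa305394821ab22a196541558c1421ad9a2231d405519748883b0a50ba2889929895915414b898b0a05d51422b28396b88195160294b82b44b42c44475d2a06a52084ec8e845170514a8c236322b523429a5c09d8885017620cd5087622c5b1909032b85d41ca0a2a314545c2d4a04ad18852e866246074cad088d0d085da58883529b1829112b81d45ca420a334d41c9590aa2c4662a02a6350564d702a0b5028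6b31d09511980b559aa05417103632ab12971076028445d8c2a5336081aa4aa1c1632818ab6a981474181334d11a9416ac21a32b0a03530a1753129054ae27417294108cdac888d09caca80bb10113a5a34441996981aa5a819b1029d10446b40b96b80a94264895386b09306c08c76c6886254510ec8e908270db0a60856346b12306aa9c20429d760469113a8331521c62a84a82b11d295318843548aa36a0a4435a55c2294c49582911630ab32871131075d842622a4aa2350d60570aa4350d42306c4ca15ca2329322595a04395182969162c35381a10d0d5850a5c858a8d8d0a8c0cb560819a91a1c16346a10b711a232a875086b0a16654102ec8e828a7051518ec0990558d0acc8c8aaa70176140c09d4c58616a8a0c4c2a5c0ec44c4e8685301aa36a1a0c15aa133116253630888ab6a88547488531557012e541066c8686854e168c16521ab0169332812b2a86a12a074531a8454e885a0654e0aca4c8b0a11d75182c68162c44274c310ad10e5ae10a529822c4c235c710a698c24c1965688214ae27487284518c5ac188529c70156308d7085632858d035c4458c855c2858c155c08d7103634450ea85c14a54c0e845c85854baa070d0a0655a5071510b32a623342621569423543304a998c52a84636605552c409ca6c40b644aa05595290c388d35850a728b110d832a8556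14a0b2e2145654ad03028e92a3a1956080ba93a0c1614cc685ad112528374231d2849422d8561843a93a443604c468db0a0dd4449510eb284a8c62b214741511ae00e1a8c54374446029da983183622ea12951811955580b463a03a6270544d503a0a72260d614a623584e114568c3284caae00e2a543437442a045da585220e99414ec21305ca94a588d505888da888cd0d4684a6035a32a0c38555583117281296a3151a0a8da80d35311a360813a4ba1451914588b063a93a6071504d11381a36a21ca53811b18119a8b54460a9650d1aa02ea2e02ac6046a94cd118465a604e50ca2256a1a83681b03315b13210959642b22a430d436c2d021d899a84881aeb50810b550761842adaa44acc4044cda8464d81a56066911aac231d40c74852b05442b84b82a1152dd31084276a64422b89382910d4dd508a5a12205d9502ec08b3588a90e20a5660a53650b0d6a04c436c2c209d858a54850acd898acc0940cd6458a85195610cc6158856682e24e034d684654a108e92e888550b89916909c29d819a1416266b10a50b15c350811ac3a8c06c68b154a222da225953044a530ab84b8a85052dd302a1952141d519a222e855886a0e14656182ac8a82c56622d416c0d105d898a8c888ad5858ad404c0d59484ec0530656a0a8b688b156602c456c4c142c64c62a0d53190a5aa10e52d022c6946290cd5298836819654c821ca94a198d5219885a818c52d46858614e8a0c69a3288456a84e10e9502b1931aa1314ca214c4a8b06b8938683054e868c65094b81575404a958611b21a1315a8533053620c88ea4e885c54814c4e1685b032a221da8171460d94b09176080aadaa0c1616ab11131315564441ca4ca1a8cd4290a36a11454cc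
def T0 : Tr := (.node 7 (.node 14 (.node 18 (.node 1 (.node 6 (.node 15 (.node 16 (.node 3 .one (.node 4 .one (.node 5 .one (.node 12 .one (.node 13 .one (.node 19 .one .nil)))))) .nil) (.node 2 (.node 10 (.node 19 .one .nil) .nil) .nil)) (.node 9 (.node 11 (.node 17 (.node 2 .one (.node 5 .one (.node 8 .one (.node 10 .one (.node 12 .one (.node 19 .one .nil)))))) .nil) (.node 4 (.node 12 (.node 13 .one .nil) .nil) .nil)) (.node 3 (.node 4 (.node 11 (.node 19 .one .nil) .nil) (.node 5 (.node 13 (.node 17 .one .nil) .nil) .nil)) (.node 8 (.node 2 (.node 12 (.node 16 .one .nil) .nil) (.node 5 (.node 10 (.node 15 .one .nil) .nil) .nil)) .nil)))) (.node 5 (.node 3 (.node 13 (.node 17 (.node 2 .one (.node 6 .one (.node 12 .one (.node 16 .one (.node 19 .one .nil))))) .nil) (.node 4 (.node 11 (.node 19 .one .nil) .nil) .nil)) (.node 8 (.node 10 (.node 15 (.node 4 .one (.node 9 .one (.node 11 .one (.node 12 .one (.node 19 .one .nil))))) .nil) (.node 2 (.node 12 (.node 16 .one .nil) .nil) .nil))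 (.node 2 (.node 6 (.node 10 (.node 19 .one .nil) .nil) .nil) (.node 4 (.node 9 (.node 12 (.node 13 .one .nil) .nil) .nil) .nil)))) (.node 12 (.node 2 (.node 8 (.node 16 (.node 3 .one (.node 11 .one (.node 17 .one (.node 19 .one .nil)))) .nil) (.node 6 (.node 10 (.node 19 .one .nil) .nil) .nil)) (.node 4 (.node 9 (.node 13 (.node 6 .one (.node 10 .one (.node 15 .one (.node 19 .one .nil)))) .nil) (.node 3 (.node 11 (.node 19 .one .nil) .nil) .nil)) .nil)) (.node 19 (.node 2 (.node 6 (.node 10 (.node 9 .one (.node 13 .one (.node 17 .one .nil))) .nil) .nil) (.node 3 (.node 4 (.node 11 (.node 8 .one (.node 15 .one (.node 16 .one .nil))) .nil) .nil) .nil)) .nil)))) (.node 6 (.node 15 (.node 16 (.node 2 (.node 17 (.node 3 .one (.node 4 .one (.node 5 .one (.node 12 .one (.node 13 .one (.node 19 .one .nil)))))) .nil) (.node 8 (.node 11 (.node 3 .one (.node 4 .one (.node 5 .one (.node 12 .one (.node 13 .one (.node 19 .one .nil)))))) .nil) (.node 9 (.node 10 (.node 3 .one (.node 4 .one (.node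 5 .one (.node 12 .one (.node 13 .one (.node 19 .one .nil)))))) .nil) .nil))) .nil) (.node 11 (.node 9 (.node 13 (.node 17 (.node 2 .one (.node 5 .one (.node 8 .one (.node 10 .one (.node 12 .one (.node 19 .one .nil)))))) .nil) .nil) (.node 19 (.node 2 (.node 4 (.node 12 .one .nil) .nil) (.node 3 (.node 5 (.node 10 .one .nil) .nil) .nil)) .nil)) .nil)) (.node 9 (.node 11 (.node 17 (.node 3 (.node 16 (.node 2 .one (.node 5 .one (.node 8 .one (.node 10 .one (.node 12 .one (.node 19 .one .nil)))))) .nil) (.node 4 (.node 15 (.node 2 .one (.node 5 .one (.node 8 .one (.node 10 .one (.node 12 .one (.node 19 .one .nil)))))) .nil) .nil)) .nil) (.node 12 (.node 16 (.node 2 (.node 4 (.node 19 .one .nil) .nil) (.node 5 (.node 8 (.node 13 .one .nil) .nil) .nil)) .nil) .nil)) (.node 5 (.node 15 (.node 17 (.node 3 (.node 10 (.node 19 .one .nil) .nil) (.node 8 (.node 12 (.node 13 .one .nil) .nil) .nil)) .nil) .nil) .nil)))) (.node 15 (.node 17 (.node 12 (.node 1 (.node 9 (.node 16 (.node 2 .one (.node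 3 .one (.node 4 .one (.node 10 .one (.node 18 .one (.node 19 .one .nil)))))) .nil) (.node 6 (.node 11 (.node 19 .one .nil) .nil) .nil)) (.node 5 (.node 8 (.node 13 (.node 2 .one (.node 4 .one (.node 6 .one (.node 11 .one (.node 19 .one .nil))))) .nil) (.node 3 (.node 10 (.node 19 .one .nil) .nil) .nil)) (.node 18 (.node 2 (.node 8 (.node 10 .one .nil) .nil) (.node 3 (.node 4 (.node 13 .one .nil) .nil) .nil)) .nil))) (.node 18 (.node 2 (.node 8 (.node 10 (.node 1 .one (.node 4 .one (.node 9 .one (.node 11 .one (.node 19 .one .nil))))) .nil) (.node 3 (.node 4 (.node 13 .one .nil) .nil) .nil)) (.node 3 (.node 4 (.node 13 (.node 1 .one (.node 6 .one (.node 16 .one (.node 19 .one .nil)))) .nil) .nil) (.node 1 (.node 6 (.node 11 (.node 19 .one .nil) .nil) .nil) .nil))) (.node 19 (.node 1 (.node 6 (.node 11 (.node 2 .one (.node 4 .one (.node 8 .one (.node 13 .one .nil)))) .nil) .nil) (.node 3 (.node 5 (.node 10 (.node 2 .one (.node 4 .one (.node 9 .one (.node 16 .one .nil)))) .nil) .nil)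 .nil)) .nil))) (.node 8 (.node 10 (.node 18 (.node 3 (.node 16 (.node 1 .one (.node 4 .one (.node 9 .one (.node 11 .one (.node 12 .one (.node 19 .one .nil)))))) .nil) (.node 6 (.node 13 (.node 1 .one (.node 4 .one (.node 9 .one (.node 11 .one (.node 12 .one (.node 19 .one .nil)))))) .nil) .nil)) .nil) (.node 12 (.node 16 (.node 1 (.node 5 (.node 19 .one .nil) .nil) (.node 4 (.node 9 (.node 13 .one .nil) .nil) .nil)) .nil) .nil)) (.node 6 (.node 10 (.node 19 (.node 1 (.node 5 (.node 12 .one .nil) .nil) (.node 3 (.node 4 (.node 11 .one .nil) .nil) .nil)) .nil) .nil) .nil))) (.node 3 (.node 17 (.node 13 (.node 18 (.node 8 (.node 11 (.node 1 .one (.node 2 .one (.node 6 .one (.node 12 .one (.node 16 .one (.node 19 .one .nil)))))) .nil) (.node 9 (.node 10 (.node 1 .one (.node 2 .one (.node 6 .one (.node 12 .one (.node 16 .one (.node 19 .one .nil)))))) .nil) .nil)) .nil) (.node 11 (.node 19 (.node 1 (.node 5 (.node 12 .one .nil) .nil) (.node 2 (.node 6 (.node 10 .one .nil) .nil) .nil)) .nil)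 .nil)) (.node 10 (.node 18 (.node 19 (.node 1 (.node 6 (.node 11 .one .nil) .nil) (.node 2 (.node 4 (.node 12 .one .nil) .nil) .nil)) .nil) .nil) .nil)) (.node 12 (.node 13 (.node 8 (.node 2 (.node 4 (.node 18 (.node 19 .one .nil) .nil) (.node 9 (.node 16 (.node 17 .one .nil) .nil) .nil)) (.node 1 (.node 9 (.node 16 (.node 18 .one .nil) .nil) .nil) .nil)) (.node 1 (.node 5 (.node 9 (.node 17 (.node 19 .one .nil) .nil) .nil) .nil) .nil)) .nil) .nil)))) (.node 8 (.node 13 (.node 9 (.node 12 (.node 16 (.node 1 (.node 18 (.node 3 .one (.node 6 .one (.node 10 .one (.node 11 .one (.node 19 .one .nil))))) .nil) (.node 2 (.node 17 (.node 3 .one (.node 6 .one (.node 10 .one (.node 11 .one (.node 19 .one .nil))))) .nil) (.node 4 (.node 15 (.node 3 .one (.node 6 .one (.node 10 .one (.node 11 .one (.node 19 .one .nil))))) .nil) (.node 5 (.node 14 (.node 3 .one (.node 6 .one (.node 10 .one (.node 11 .one (.node 19 .one .nil))))) .nil) .nil)))) .nil) (.node 4 (.node 11 (.node 14 (.node 18 (.node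 1 .one (.node 5 .one (.node 6 .one (.node 10 .one (.node 15 .one (.node 19 .one .nil)))))) .nil) (.node 3 (.node 17 (.node 19 .one .nil) .nil) .nil)) (.node 5 (.node 10 (.node 15 (.node 17 .one .nil) .nil) .nil) .nil)) (.node 5 (.node 10 (.node 15 (.node 17 (.node 2 .one (.node 6 .one (.node 11 .one (.node 14 .one (.node 19 .one .nil))))) .nil) (.node 3 (.node 18 (.node 19 .one .nil) .nil) .nil)) .nil) .nil))) (.node 18 (.node 2 (.node 6 (.node 14 (.node 16 (.node 1 .one (.node 3 .one (.node 5 .one (.node 11 .one (.node 17 .one (.node 19 .one .nil)))))) .nil) (.node 4 (.node 12 (.node 19 .one .nil) .nil) .nil)) (.node 4 (.node 12 (.node 19 (.node 1 .one (.node 11 .one (.node 15 .one (.node 17 .one .nil)))) .nil) .nil) (.node 1 (.node 5 (.node 15 (.node 17 .one .nil) .nil) .nil) .nil))) (.node 5 (.node 1 (.node 15 (.node 17 (.node 4 .one (.node 6 .one (.node 11 .one (.node 14 .one (.node 19 .one .nil))))) .nil) (.node 3 (.node 10 (.node 19 .one .nil) .nil) .nil)) (.node 3 (.node 10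 (.node 19 (.node 6 .one (.node 11 .one (.node 14 .one (.node 16 .one .nil)))) .nil) .nil) .nil)) .nil)) (.node 5 (.node 3 (.node 15 (.node 16 (.node 17 (.node 2 .one (.node 4 .one (.node 6 .one (.node 11 .one (.node 14 .one (.node 19 .one .nil)))))) .nil) .nil) (.node 4 (.node 11 (.node 12 (.node 19 .one .nil) .nil) .nil) .nil)) (.node 2 (.node 6 (.node 10 (.node 12 (.node 19 .one .nil) .nil) .nil) .nil) .nil)) (.node 2 (.node 6 (.node 10 (.node 15 (.node 16 (.node 19 .one .nil) .nil) .nil) .nil) .nil) .nil)))) (.node 16 (.node 15 (.node 1 (.node 11 (.node 9 (.node 17 (.node 2 .one (.node 3 .one (.node 4 .one (.node 10 .one (.node 18 .one (.node 19 .one .nil)))))) .nil) (.node 5 (.node 12 (.node 19 .one .nil) .nil) .nil)) (.node 5 (.node 12 (.node 19 (.node 3 .one (.node 4 .one (.node 14 .one (.node 18 .one .nil)))) .nil) .nil) (.node 2 (.node 4 (.node 14 (.node 18 .one .nil) .nil) .nil) .nil))) (.node 2 (.node 4 (.node 14 (.node 18 (.node 3 .one (.node 5 .one (.node 11 .one (.node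 17 .one (.node 19 .one .nil))))) .nil) (.node 6 (.node 10 (.node 19 .one .nil) .nil) .nil)) (.node 6 (.node 10 (.node 19 (.node 3 .one (.node 9 .one (.node 11 .one (.node 17 .one .nil)))) .nil) .nil) .nil)) .nil)) (.node 2 (.node 10 (.node 9 (.node 14 (.node 18 (.node 1 .one (.node 3 .one (.node 5 .one (.node 11 .one (.node 17 .one (.node 19 .one .nil)))))) .nil) .nil) (.node 3 (.node 5 (.node 12 (.node 19 .one .nil) .nil) .nil) .nil)) (.node 1 (.node 6 (.node 11 (.node 12 (.node 19 .one .nil) .nil) .nil) .nil) .nil)) (.node 1 (.node 6 (.node 9 (.node 11 (.node 14 (.node 19 .one .nil) .nil) .nil) .nil) .nil) .nil))) (.node 10 (.node 19 (.node 2 (.node 4 (.node 3 (.node 11 (.node 18 .one .nil) .nil) (.node 5 (.node 12 (.node 15 .one .nil) .nil) .nil)) (.node 1 (.node 5 (.node 12 (.node 18 .one .nil) .nil) .nil) .nil)) (.node 1 (.node 5 (.node 6 (.node 11 (.node 15 .one .nil) .nil) .nil) .nil) .nil)) .nil) .nil))) (.node 9 (.node 19 (.node 1 (.node 11 (.node 6 (.node 14 (.node 16 (.node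 3 .one (.node 5 .one (.node 10 .one (.node 13 .one (.node 18 .one .nil))))) .nil) (.node 4 (.node 12 (.node 13 .one .nil) .nil) .nil)) (.node 4 (.node 12 (.node 2 (.node 17 .one .nil) (.node 3 (.node 16 .one .nil) (.node 5 (.node 14 .one .nil) .nil))) .nil) (.node 3 (.node 5 (.node 10 (.node 17 .one .nil) .nil) .nil) .nil))) (.node 17 (.node 5 (.node 12 (.node 13 (.node 2 .one (.node 6 .one (.node 10 .one (.node 14 .one (.node 18 .one .nil))))) .nil) (.node 14 (.node 15 (.node 16 .one .nil) .nil) .nil)) (.node 6 (.node 13 (.node 15 (.node 16 .one .nil) .nil) .nil) .nil)) (.node 2 (.node 6 (.node 10 (.node 12 (.node 16 .one .nil) .nil) .nil) .nil) .nil))) (.node 4 (.node 2 (.node 14 (.node 12 (.node 16 (.node 3 .one (.node 5 .one (.node 10 .one (.node 15 .one (.node 17 .one .nil))))) .nil) (.node 6 (.node 10 (.node 11 .one .nil) .nil) (.node 13 (.node 17 (.node 18 .one .nil) .nil) .nil))) (.node 3 (.node 11 (.node 13 (.node 17 .one .nil) .nil) .nil) .nil)) (.node 3 (.node 13 (.node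 11 (.node 17 (.node 6 .one (.node 10 .one (.node 15 .one (.node 16 .one .nil)))) .nil) (.node 5 (.node 10 (.node 12 .one .nil) .nil) (.node 14 (.node 16 (.node 18 .one .nil) .nil) .nil))) .nil) .nil)) .nil)) (.node 13 (.node 4 (.node 14 (.node 18 (.node 2 (.node 17 (.node 1 .one (.node 5 .one (.node 6 .one (.node 10 .one (.node 15 .one .nil))))) .nil) (.node 3 (.node 16 (.node 1 .one (.node 5 .one (.node 6 .one (.node 10 .one (.node 15 .one .nil))))) .nil) .nil)) .nil) (.node 1 (.node 6 (.node 15 (.node 16 (.node 17 .one .nil) .nil) .nil) .nil) .nil)) (.node 1 (.node 6 (.node 15 (.node 16 (.node 17 (.node 2 .one (.node 3 .one (.node 10 .one (.node 18 .one .nil)))) .nil) .nil) .nil) .nil) .nil)) (.node 1 (.node 5 (.node 14 (.node 15 (.node 16 (.node 17 (.node 2 .one (.node 3 .one (.node 4 .one (.node 10 .one (.node 18 .one .nil))))) .nil) .nil) .nil) .nil) .nil) .nil))) (.node 19 (.node 1 (.node 5 (.node 3 (.node 4 (.node 11 (.node 15 (.node 17 .one .nil) .nil) (.node 12 (.node 13 (.node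 18 .one .nil) .nil) .nil)) (.node 6 (.node 10 (.node 15 (.node 16 .one .nil) .nil) (.node 11 (.node 13 (.node 17 .one .nil) .nil) .nil)) .nil)) (.node 2 (.node 6 (.node 10 (.node 15 (.node 17 .one .nil) .nil) (.node 12 (.node 14 (.node 16 .one .nil) .nil) .nil)) .nil) .nil)) (.node 2 (.node 4 (.node 6 (.node 11 (.node 14 (.node 18 .one .nil) .nil) (.node 12 (.node 15 (.node 16 .one .nil) .nil) .nil)) .nil) .nil) .nil)) (.node 2 (.node 3 (.node 4 (.node 5 (.node 10 (.node 14 (.node 18 .one .nil) .nil) (.node 12 (.node 13 (.node 17 .one .nil) .nil) .nil)) (.node 6 (.node 10 (.node 13 (.node 18 .one .nil) .nil) (.node 11 (.node 14 (.node 16 .one .nil) .nil) .nil)) .nil)) .nil) .nil) .nil)) .nil))))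
def T1 : Tr := (.node 5 (.node 12 (.node 8 (.node 15 (.node 16 (.node 2 (.node 17 (.node 3 .one (.node 4 .one (.node 7 .one (.node 11 .one (.node 14 .one (.node 18 .one .nil)))))) .nil) (.node 6 (.node 13 (.node 3 .one (.node 4 .one (.node 7 .one (.node 11 .one (.node 14 .one (.node 18 .one .nil)))))) .nil) (.node 9 (.node 10 (.node 3 .one (.node 4 .one (.node 7 .one (.node 11 .one (.node 14 .one (.node 18 .one .nil)))))) .nil) .nil))) .nil) (.node 11 (.node 9 (.node 13 (.node 17 (.node 2 .one (.node 6 .one (.node 7 .one (.node 10 .one (.node 14 .one (.node 18 .one .nil)))))) .nil) (.node 4 (.node 14 (.node 19 .one .nil) .nil) .nil)) (.node 19 (.node 2 (.node 10 (.node 18 .one .nil) .nil) (.node 3 (.node 7 (.node 17 .one .nil) .nil) .nil)) .nil)) (.node 18 (.node 2 (.node 10 (.node 19 (.node 7 .one (.node 9 .one (.node 14 .one (.node 17 .one .nil)))) .nil) (.node 4 (.node 13 (.node 14 .one .nil) .nil) .nil)) (.node 3 (.node 7 (.node 10 (.node 13 .one .nil) .nil) .nil) .nil)) .nil)))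 (.node 19 (.node 7 (.node 6 (.node 10 (.node 15 (.node 4 .one (.node 9 .one (.node 13 .one (.node 14 .one (.node 18 .one .nil))))) .nil) (.node 2 (.node 14 (.node 16 .one .nil) .nil) .nil)) (.node 3 (.node 11 (.node 17 (.node 2 .one (.node 14 .one (.node 16 .one (.node 18 .one .nil)))) .nil) (.node 4 (.node 13 (.node 18 .one .nil) .nil) .nil)) (.node 4 (.node 9 (.node 11 (.node 14 .one .nil) .nil) .nil) .nil))) (.node 14 (.node 2 (.node 6 (.node 16 (.node 3 .one (.node 13 .one (.node 17 .one (.node 18 .one .nil)))) .nil) .nil) (.node 4 (.node 9 (.node 11 (.node 10 .one (.node 15 .one (.node 18 .one .nil))) .nil) (.node 3 (.node 13 (.node 18 .one .nil) .nil) .nil)) .nil)) (.node 3 (.node 4 (.node 13 (.node 18 (.node 6 .one (.node 15 .one (.node 16 .one .nil))) .nil) .nil) .nil) .nil))) (.node 9 (.node 13 (.node 17 (.node 3 (.node 16 (.node 2 .one (.node 6 .one (.node 7 .one (.node 10 .one (.node 14 .one (.node 18 .one .nil)))))) .nil) (.node 4 (.node 15 (.node 2 .one (.node 6 .one (.node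 7 .one (.node 10 .one (.node 14 .one (.node 18 .one .nil)))))) .nil) .nil)) .nil) (.node 14 (.node 16 (.node 2 (.node 4 (.node 18 .one .nil) .nil) (.node 6 (.node 7 (.node 11 .one .nil) .nil) .nil)) .nil) .nil)) (.node 7 (.node 15 (.node 17 (.node 3 (.node 10 (.node 18 .one .nil) .nil) (.node 6 (.node 11 (.node 14 .one .nil) .nil) .nil)) .nil) .nil) .nil)))) (.node 15 (.node 6 (.node 10 (.node 19 (.node 2 (.node 17 (.node 4 .one (.node 9 .one (.node 13 .one (.node 14 .one (.node 18 .one .nil))))) .nil) (.node 3 (.node 16 (.node 4 .one (.node 9 .one (.node 13 .one (.node 14 .one (.node 18 .one .nil))))) .nil) (.node 8 (.node 11 (.node 4 .one (.node 9 .one (.node 13 .one (.node 14 .one (.node 18 .one .nil))))) .nil) .nil))) .nil) (.node 11 (.node 14 (.node 7 (.node 17 (.node 2 .one (.node 4 .one (.node 8 .one (.node 13 .one (.node 18 .one .nil))))) .nil) (.node 4 (.node 9 (.node 16 .one .nil) .nil) .nil)) .nil) .nil)) (.node 3 (.node 17 (.node 4 (.node 11 (.node 19 (.node 2 .one (.node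 8 .one (.node 14 .one (.node 16 .one (.node 18 .one .nil))))) .nil) (.node 7 (.node 10 (.node 18 .one .nil) .nil) .nil)) (.node 7 (.node 10 (.node 18 (.node 2 .one (.node 9 .one (.node 14 .one (.node 16 .one .nil)))) .nil) .nil) .nil)) (.node 4 (.node 8 (.node 10 (.node 13 (.node 18 .one .nil) .nil) .nil) .nil) .nil)) .nil)) (.node 3 (.node 17 (.node 11 (.node 19 (.node 6 (.node 13 (.node 2 .one (.node 8 .one (.node 14 .one (.node 16 .one (.node 18 .one .nil))))) .nil) (.node 9 (.node 10 (.node 2 .one (.node 8 .one (.node 14 .one (.node 16 .one (.node 18 .one .nil))))) .nil) .nil)) .nil) (.node 2 (.node 8 (.node 10 (.node 13 (.node 18 .one .nil) .nil) .nil) .nil) .nil)) (.node 2 (.node 4 (.node 10 (.node 14 (.node 18 (.node 19 .one .nil) .nil) .nil) .nil) .nil) .nil)) (.node 2 (.node 6 (.node 11 (.node 14 (.node 4 (.node 18 (.node 19 .one .nil) .nil) (.node 9 (.node 16 (.node 17 .one .nil) .nil) .nil)) .nil) .nil) .nil) .nil)))) (.node 6 (.node 11 (.node 9 (.node 14 (.node 16 (.node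 2 (.node 17 (.node 3 .one (.node 8 .one (.node 10 .one (.node 13 .one (.node 18 .one .nil))))) .nil) (.node 4 (.node 15 (.node 3 .one (.node 8 .one (.node 10 .one (.node 13 .one (.node 18 .one .nil))))) .nil) (.node 7 (.node 12 (.node 3 .one (.node 8 .one (.node 10 .one (.node 13 .one (.node 18 .one .nil))))) .nil) .nil))) .nil) (.node 7 (.node 10 (.node 15 (.node 17 (.node 2 .one (.node 4 .one (.node 8 .one (.node 12 .one (.node 13 .one (.node 18 .one .nil)))))) .nil) (.node 3 (.node 18 (.node 19 .one .nil) .nil) .nil)) (.node 4 (.node 12 (.node 13 (.node 19 .one .nil) .nil) .nil) .nil)) (.node 4 (.node 13 (.node 12 (.node 19 (.node 8 .one (.node 10 .one (.node 15 .one (.node 18 .one .nil)))) .nil) (.node 3 (.node 17 (.node 18 .one .nil) .nil) .nil)) .nil) .nil))) (.node 7 (.node 3 (.node 16 (.node 15 (.node 17 (.node 2 .one (.node 4 .one (.node 8 .one (.node 12 .one (.node 13 .one (.node 18 .one .nil)))))) .nil) (.node 10 (.node 18 (.node 19 .one .nil) .nil) .nil)) (.node 18 (.node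 10 (.node 19 (.node 8 .one (.node 12 .one (.node 13 .one .nil))) .nil) (.node 4 (.node 13 (.node 14 .one .nil) .nil) .nil)) .nil)) (.node 2 (.node 8 (.node 10 (.node 14 (.node 18 .one .nil) .nil) (.node 12 (.node 16 (.node 19 .one .nil) .nil) .nil)) .nil) .nil)) (.node 2 (.node 19 (.node 8 (.node 12 (.node 16 (.node 3 .one (.node 13 .one (.node 17 .one (.node 18 .one .nil)))) .nil) (.node 4 (.node 14 (.node 18 .one .nil) .nil) .nil)) (.node 4 (.node 14 (.node 18 (.node 13 .one (.node 15 .one (.node 17 .one .nil))) .nil) .nil) .nil)) (.node 8 (.node 10 (.node 15 (.node 16 (.node 18 .one .nil) .nil) .nil) .nil) .nil)) .nil))) (.node 2 (.node 16 (.node 10 (.node 18 (.node 8 (.node 15 (.node 3 .one (.node 4 .one (.node 9 .one (.node 13 .one (.node 17 .one .nil))))) .nil) (.node 3 (.node 7 (.node 14 .one .nil) .nil) (.node 9 (.node 12 (.node 19 .one .nil) .nil) .nil))) (.node 9 (.node 12 (.node 19 (.node 3 .one (.node 7 .one (.node 13 .one (.node 17 .one .nil)))) .nil) .nil) .nil)) (.node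 4 (.node 12 (.node 15 (.node 19 (.node 3 .one (.node 7 .one (.node 13 .one (.node 17 .one (.node 18 .one .nil))))) .nil) .nil) .nil) .nil)) (.node 4 (.node 10 (.node 18 (.node 3 (.node 13 (.node 19 .one .nil) .nil) (.node 7 (.node 14 (.node 15 .one .nil) .nil) .nil)) .nil) .nil) .nil)) .nil)) (.node 4 (.node 9 (.node 11 (.node 3 (.node 18 (.node 13 (.node 17 (.node 2 .one (.node 8 .one (.node 10 .one (.node 15 .one (.node 16 .one .nil))))) .nil) (.node 7 (.node 10 (.node 14 .one .nil) .nil) (.node 12 (.node 16 (.node 19 .one .nil) .nil) .nil))) (.node 12 (.node 16 (.node 19 (.node 7 .one (.node 8 .one (.node 10 .one (.node 15 .one .nil)))) .nil) .nil) .nil)) (.node 2 (.node 12 (.node 17 (.node 19 (.node 7 .one (.node 8 .one (.node 10 .one (.node 15 .one (.node 18 .one .nil))))) .nil) .nil) .nil) .nil)) (.node 2 (.node 12 (.node 18 (.node 14 (.node 16 (.node 3 .one (.node 7 .one (.node 10 .one (.node 15 .one (.node 17 .one .nil))))) .nil) (.node 8 (.node 10 (.node 13 .one .nil) .nil)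 .nil)) .nil) .nil) .nil)) (.node 2 (.node 3 (.node 18 (.node 7 (.node 10 (.node 12 (.node 19 .one .nil) .nil) (.node 11 (.node 14 (.node 17 .one .nil) .nil) .nil)) (.node 8 (.node 10 (.node 11 (.node 19 .one .nil) .nil) (.node 12 (.node 13 (.node 16 .one .nil) .nil) .nil)) .nil)) .nil) .nil) .nil)) .nil)))
def T2 : Tr := (.node 4 (.node 12 (.node 8 (.node 13 (.node 18 (.node 3 (.node 16 (.node 6 .one (.node 7 .one (.node 11 .one (.node 15 .one (.node 17 .one .nil))))) .nil) (.node 5 (.node 14 (.node 6 .one (.node 7 .one (.node 11 .one (.node 15 .one (.node 17 .one .nil))))) .nil) (.node 9 (.node 10 (.node 6 .one (.node 7 .one (.node 11 .one (.node 15 .one (.node 17 .one .nil))))) .nil) .nil))) .nil) (.node 11 (.node 14 (.node 9 (.node 16 (.node 3 .one (.node 5 .one (.node 7 .one (.node 10 .one (.node 15 .one (.node 17 .one .nil)))))) .nil) (.node 6 (.node 7 (.node 19 .one .nil) .nil) .nil)) (.node 5 (.node 10 (.node 15 (.node 19 .one .nil) .nil) .nil) .nil)) (.node 10 (.node 15 (.node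 5 (.node 19 (.node 7 .one (.node 9 .one (.node 14 .one (.node 17 .one .nil)))) .nil) (.node 6 (.node 7 (.node 16 .one .nil) .nil) .nil)) .nil) .nil))) (.node 7 (.node 19 (.node 3 (.node 10 (.node 18 (.node 9 .one (.node 15 .one (.node 16 .one (.node 17 .one .nil)))) .nil) (.node 5 (.node 13 (.node 17 .one .nil) .nil) .nil)) (.node 6 (.node 11 (.node 14 (.node 5 .one (.node 13 .one (.node 15 .one (.node 17 .one .nil)))) .nil) .nil) .nil)) (.node 14 (.node 6 (.node 9 (.node 13 (.node 16 .one .nil) .nil) (.node 10 (.node 15 (.node 18 .one .nil) .nil) .nil)) (.node 3 (.node 11 (.node 17 (.node 18 .one .nil) .nil) .nil) .nil)) (.node 3 (.node 9 (.node 11 (.node 13 (.node 17 .one .nil) .nil) .nil) .nil) .nil))) (.node 13 (.node 6 (.node 9 (.node 14 (.node 16 (.node 3 .one (.node 5 .one (.node 10 .one (.node 15 .one (.node 17 .one .nil))))) .nil) .nil) (.node 3 (.node 5 (.node 17 (.node 19 .one .nil) .nil) .nil) .nil)) (.node 3 (.node 5 (.node 17 (.node 19 (.node 14 .one (.node 15 .one (.node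 16 .one .nil))) .nil) .nil) .nil) .nil)) .nil))) (.node 14 (.node 6 (.node 10 (.node 9 (.node 11 (.node 19 (.node 5 .one (.node 8 .one (.node 13 .one (.node 15 .one (.node 17 .one .nil))))) .nil) (.node 7 (.node 15 (.node 18 .one .nil) .nil) .nil)) (.node 15 (.node 7 (.node 18 (.node 5 .one (.node 13 .one (.node 17 .one .nil))) .nil) (.node 5 (.node 8 (.node 16 .one .nil) .nil) .nil)) .nil)) (.node 3 (.node 11 (.node 16 (.node 19 (.node 5 .one (.node 8 .one (.node 13 .one (.node 15 .one (.node 17 .one .nil))))) .nil) .nil) .nil) .nil)) (.node 3 (.node 18 (.node 5 (.node 10 (.node 19 (.node 9 .one (.node 15 .one (.node 16 .one (.node 17 .one .nil)))) .nil) (.node 7 (.node 11 (.node 17 .one .nil) .nil) .nil)) (.node 7 (.node 11 (.node 17 (.node 8 .one (.node 15 .one (.node 16 .one .nil))) .nil) .nil) .nil)) (.node 5 (.node 9 (.node 11 (.node 13 (.node 17 .one .nil) .nil) .nil) .nil) .nil)) .nil)) (.node 3 (.node 10 (.node 18 (.node 19 (.node 6 (.node 13 (.node 9 .one (.node 15 .one (.node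 16 .one (.node 17 .one .nil)))) .nil) (.node 8 (.node 11 (.node 9 .one (.node 15 .one (.node 16 .one (.node 17 .one .nil)))) .nil) .nil)) .nil) .nil) .nil) .nil))) (.node 10 (.node 6 (.node 7 (.node 3 (.node 16 (.node 14 (.node 18 (.node 5 .one (.node 9 .one (.node 12 .one (.node 13 .one (.node 17 .one .nil))))) .nil) (.node 8 (.node 12 (.node 15 .one .nil) .nil) (.node 11 (.node 17 (.node 19 .one .nil) .nil) .nil))) (.node 17 (.node 11 (.node 19 (.node 8 .one (.node 9 .one (.node 12 .one (.node 13 .one .nil)))) .nil) (.node 5 (.node 13 (.node 15 .one .nil) .nil) .nil)) .nil)) (.node 8 (.node 11 (.node 14 (.node 18 (.node 5 .one (.node 9 .one (.node 12 .one (.node 13 .one (.node 17 .one .nil))))) .nil) (.node 12 (.node 15 (.node 16 .one .nil) .nil) .nil)) (.node 12 (.node 15 (.node 16 (.node 9 .one (.node 13 .one (.node 17 .one .nil))) .nil) (.node 5 (.node 13 (.node 19 .one .nil) .nil) .nil)) .nil)) .nil)) (.node 5 (.node 8 (.node 13 (.node 12 (.node 19 (.node 9 .one (.node 11 .one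 (.node 14 .one (.node 17 .one .nil)))) .nil) (.node 3 (.node 17 (.node 18 .one .nil) .nil) (.node 14 (.node 15 (.node 16 .one .nil) .nil) .nil))) (.node 14 (.node 15 (.node 16 (.node 3 .one (.node 9 .one (.node 11 .one (.node 17 .one .nil)))) .nil) .nil) .nil)) .nil) .nil)) (.node 3 (.node 5 (.node 8 (.node 16 (.node 12 (.node 19 (.node 7 .one (.node 9 .one (.node 11 .one (.node 14 .one (.node 17 .one .nil))))) .nil) (.node 13 (.node 17 (.node 18 .one .nil) .nil) .nil)) (.node 17 (.node 13 (.node 18 (.node 9 .one (.node 11 .one (.node 14 .one .nil))) .nil) (.node 7 (.node 11 (.node 15 .one .nil) .nil) .nil)) .nil)) .nil) .nil) .nil)) .nil))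
def T3 : Tr := (.node 4 (.node 11 (.node 7 (.node 10 (.node 9 (.node 14 (.node 18 (.node 5 .one (.node 8 .one (.node 12 .one (.node 15 .one (.node 16 .one .nil))))) .nil) (.node 6 (.node 15 (.node 19 .one .nil) .nil) (.node 12 (.node 13 (.node 17 .one .nil) .nil) .nil))) (.node 15 (.node 6 (.node 19 (.node 8 .one (.node 12 .one (.node 13 .one (.node 16 .one .nil)))) .nil) (.node 5 (.node 8 (.node 17 .one .nil) .nil) .nil)) .nil)) (.node 13 (.node 6 (.node 14 (.node 18 (.node 5 .one (.node 8 .one (.node 12 .one (.node 15 .one (.node 16 .one .nil))))) .nil) (.node 9 (.node 12 (.node 17 .one .nil) .nil) .nil)) (.node 12 (.node 9 (.node 17 (.node 8 .one (.node 15 .one (.node 16 .one .nil))) .nil) (.node 5 (.node 8 (.node 19 .one .nil) .nil) .nil)) .nil)) .nil)) (.node 5 (.node 13 (.node 8 (.node 12 (.node 19 (.node 6 .one (.node 14 .one (.node 15 .one (.node 16 .one .nil)))) .nil) (.node 9 (.node 14 (.node 17 .one .nil) .nil) (.node 10 (.node 15 (.node 18 .one .nil) .nil) .nil))) (.node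 9 (.node 14 (.node 17 (.node 6 .one (.node 10 .one (.node 15 .one (.node 16 .one .nil)))) .nil) .nil) .nil)) .nil) .nil)) (.node 5 (.node 10 (.node 13 (.node 9 (.node 12 (.node 19 (.node 6 .one (.node 7 .one (.node 14 .one (.node 15 .one (.node 16 .one .nil))))) .nil) (.node 8 (.node 15 (.node 18 .one .nil) .nil) .nil)) (.node 15 (.node 8 (.node 18 (.node 6 .one (.node 14 .one (.node 16 .one .nil))) .nil) (.node 6 (.node 7 (.node 17 .one .nil) .nil) .nil)) .nil)) .nil) .nil) .nil)) (.node 5 (.node 7 (.node 10 (.node 6 (.node 13 (.node 15 (.node 17 (.node 9 .one (.node 12 .one (.node 14 .one (.node 16 .one .nil)))) .nil) (.node 8 (.node 12 (.node 18 .one .nil) .nil) (.node 11 (.node 14 (.node 19 .one .nil) .nil) .nil))) (.node 11 (.node 14 (.node 19 (.node 8 .one (.node 9 .one (.node 12 .one (.node 16 .one .nil)))) .nil) .nil) .nil)) (.node 8 (.node 11 (.node 15 (.node 17 (.node 9 .one (.node 12 .one (.node 14 .one (.node 16 .one .nil)))) .nil) (.node 12 (.node 13 (.node 18 .one .nil)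 .nil) .nil)) (.node 12 (.node 13 (.node 18 (.node 9 .one (.node 14 .one (.node 16 .one .nil))) .nil) .nil) .nil)) .nil)) .nil) .nil) .nil))
/-- the tree of the masks -/
def T : Tr := (.node 0 T0 (.node 1 T1 (.node 2 T2 (.node 3 T3 .nil))))
theorem cT : chkC L 720 (cds T) 0 = true := by decide +kernel
def Q0 : ℕ := 0x9ea799de789fa7d9ee7ca0e81a027fa0a76a2685a228794e529465093e4e9364c92e4a9164490e428fa3d8f23b8ea398b62c8ae298a2218821f87a1d8ce328c62e8be2a8c2268962488e229be6d9b26b9ba709d2739ca71b06bfafa75b026ab1ec3b1ac5b12cbb2ac8b26cfb3accb36c2a1a8da328ba2a8ea4e8fa4a91a42848da378d63496e5c96a599061c86e19862649966398a49922478e246af6bcaeebaae6b8adeb6ad6b49625795a54aceb2ac6b09862786aafabaadab2abaaa559a26999e66a7e9ea7699a6e9caa6a8a9e9aa9aa590298a5e96a5694a92a3a8aa1a826097e3f97a5d8561485e1680e02806007fdfe8120881e0581a0c82e0982a0d84e128461083e0e6adb7695a468da2685b46cdb26c5b56d9aa6a5a8699a76297b5e9785bd6e5b56c5ad5e591635855d57d625254851d4651544621775d9755c15c5815555153549515415b569595615661d8661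584609816017f5f97c5f5797f1f17c9f67d5f47cd745cd725a9717f5f07bdee7b1ed7edfa7e5f87dd8353d4e5314b5296959d68599656418e63d8d6319564d9464991535eb55dd570dc2705c0681bf6f9bd6f1bb6e5ba7a9e96e1e8751d3749b06bdae6b1d179de6795e478dad6699866597659e1781dc77dcf775e2779d0721c7719c5625c4739cd731cb729c967d9e62d9d6719b76dda765d875dd65054050d424e1394ed3a4f53c4f93f4c9314b92f4c1374d9334d1354a127495264912d4b12a4ad294711b469194611745923489214811f4791d435134510841d0641504455094290b431124451043d0e2289a22c9b27c982649725895250932487b1987a1e0791c8711a0701b86f1cc771d4741805f1785d1705a16c58124480d4340cc320c4300b02b0901e0180501003008010002f0b8290381705815050130480f0a8411003f0f83c0f4560a0270981f0940d11c461144310855150531445013c4e1344b1280c02c0a020073fc091302d401023f4fe3f0fb3e8f93e0f708c220841d0801040503148760701a06c19060111b46c19c6b1a8693d8f43c8f33a8883a4e83acf13c0ee3b0ed204801f87d1f0ef1fcf50ec390e0370d8e7398e5390e3384e20e8e0110ba2b8ad2b0892acaa2a4a829c9d298a537cde2ccb22c4572c0af300bf2f8bd2ecbc194591906318861374dc36cda364d8330cb270d7358c1328b92e0b72d4d52449023c8d2d8d4238872148621083320c7318c5310c32088c308c92d0a428ca2278a1280d3348d1340cf338cd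
theorem cs0 : chkS L Q0 181889 720 = true := by decide +kernel
def Q1 : ℕ := 0xaa2a7a9a9aa6297a5a95a7a9ca6e99a76a5a92a3a8aa1a82b3acab0abaadaaeacaa6aaaf2bbabebaac6b9ae2b6adeb4ad6cfb3acdb0ac1b02bfafabda52c7b0ec6b16ccb12cbb2ac9b229f80e01801ff80a048220781a0570dc1701bf709d5751d3749d1741c871dc5719ce735cc72dca781df779dd73ddc711db769d9761d76d5b46cdb26c1af6b9ad6adaa6a5a8699a5691a36899565193649916819f6799c6759a6659865d965ed785e97953d4e5354b529646298b531695a1675956f5b96d5b15e625775d95c5c1755995555153549515415b569595615761d866158460d816017f5f97d5f1b169d6b559495214751944589615756057e8da328ba2a8ea4e8fa4a91a41b666dac5cd745c96a5c5e6791e278de5759be6f5bb6e5ba6f19063d8e635f67c9f57cdf4726759d2739ca709ba6d9b26b9a9f1a1283a0a81a027f9c67a9e6789de767867e9f67b9f26fa2685a2287a19f07bdeb7b9ec7b58c685fe9a66899e6685a6599263989fc9866097e5e8565d9725b96a596de5394a5193e507f64e9364c92e4a9625795a55951ea7a5e879db88fa3f8cd458862087e1e875638721b86a19862179264791a488ca318b9fa7edf97de2f8e2378da35851f88f23b8ea2d8e64060a0d8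320a8263482e3089a258922388a138b22b8aa298a2279164490e3d90a4184a118420f6220e4e93b4e5384f53c4fd3e50943505403c0ef3b8ed3b0c6314c3308c4370db368d9360d1340cf338cd374de35cd6354d434cd240ceb3a8e73a4e83f8c73c4cc32cca320c9401013f50237cf6380f53c8f346d0a4310d3d11542ce6394e438ce238508418ff4110544d374d9354d1334691945d16460fc3ecfa3e4f83dd074252248d2d4b12b4a9294852047d1e4751c4a1274992549112445104390f451324c52e4c12f2e8b92e0b72d8b42d4c1300bf2f8bd2ecbc2b8ac2b4ab2a8b32c4b22c0af290a228ca1280a929ca8298a52709d2789f260992689b2449023c8e2308d25c9625494248931244815c5611c461144410c4213c4e1344c12c4a0bc2d05c0e0ac2a078060b016054130480f0300a0240801c1402c290a0260941f0342408c220841d0801009c2e224880701b0681906011204801fc7e1f47c22c8a21c862148420c820ec3a0e4370e036104400fc3d0f83c0140400c01008001ec581e8731dc76198651646418c6017c5e1745b188751705515053148511e4721c4681c06f1405a1b8781846d19c6c1ac6a1a4740d4340cc310c830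
theorem cs1 : chkS L Q1 181840 720 = true := by decide +kernel
def Q2 : ℕ := 0xb1ec6b16c3b06bfb02beb3eceb36c2b32c4b2ec9b2ac8a7e9ea729ba6698a5e96a5295aa2a7a6aa6a76a5a92a3a8aa1a82b3acab0abaadab2abaaaa9af6bcabebbaeab1ae6b8adeb6ad2b59d6739d2729c26e9b26d9ae6a9fa7d9f26f9ee719ea789e6779da89a2287a1683a0682a027fa4e91a4a90a128fa1a8ea328da2e8a9966498e629a66899e6690249922468e2378da358d21c86e1a862198ce328ba2f8c2268962488a239825f8fe5e8b22b8aa2989e6191e318a2218821f87a5d9725b96a5994e528fa4f94251876459124390a3d9064e9364c92a4b8f23b8ea398b65895e569525550d425054046d1a4651845d164712849d264952d4b12b4a923489214811f4791d405003c4f03bcee3b4fb3e8f93e0fc3f4f63d4f43c8f3380cc32cca320c7318c530cc437cde354d6350d7374db370da364d82e8b92e0b72d8b5304c02f8bf2f4bb2f0b32c8b12c0af2b8ad2b0ab2a8a92a0a7298a52749c26c9925c962549424c912408f2388d22c7b1987a1e0791c8711a0701b8891946418c62184872188521083204801fc7e1f46d19c6c1ac6a1645815c561545414c511485013c4e1344b1304a0bc2e0b4290a02709823088210801f05c16054140481d0701b06819060491202c0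902a078130ac2511c4611443110421043f1003e0f43c0ec390e8380dc360d4330d0320c43085e16856143b0c9040692307c0386f17c5d1705b168e6390e2384e38220781a0542e0c82e0a8250a8120380a01801ff7fa0d84e128461083e0e3dce51780c02c0a024072480d4a5242d0a428ca2278a0208067f5fc284c27c5f27d9f57d1f3455f07bdee7b1ed7edfa7e5f87dd3f014030040001132451314b9304bdeb785e076dd9769d875dd6771de77ddd26873180771d8751d1ea7a5e84f9e7799e5791e278cfe73dce731cd72dc9729d5751d3749d174109721c7719c5711c3709c1701bf6f9bd6f1bb6e90841d063fd04021056e5b86dcd36d80f6d5b46cdb26c50d6c1af6b9ad6b13b6ac11680026699966197659036559464d926453a6a9a8699a7340cf338cd349a5691a24e1a16418e6358c4f1a363da967d9e6759c66cd14dd134d9354d13362d8a6258861d866158361182605805fd7d5f97c5916356d5a565575615655553551525455053d4d5394c52d4a5254752146515445ed7a5e562575605e1775d975571615d1735c9715c15f5a9695a167599655bd6e5b56c5796b2293d26139431124451043c9f439023ace73a8883a4e8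
theorem cs2 : chkS L Q2 181448 720 = true := by decide +kernel
def Q3 : ℕ := 0x9f67e9f27b9e67a9e2779d2739ca719c26f9b66e9b26b7c5ef7c1ec7b9f57c9f67d1f36f5be6f1ba7adbb791e6795e3789c7721c5711da76dd9761d6785df771de775c673dcd739cc72dc99da89a2287a1682a0e81a027fa4a91a4284a3e86a368ea328ba2aceb3ecdb32cab2ec9b22939aac7b1ac5b12c3b0ac0b06bfafa75665986699765193655926e59e67d9d66d8f63990635ae6c1af6b5ac6d9a96a9a76a1b36d5b46c9b15c9745cd71601815fd7c5f58962d8a5f96c5b96d5ad6a5a1675a566591615896057d5d5795a56d595615655d5455553549505214951d465114e53d4d5314a52d96671655458661d85611835d9775d55c5c1d4749d1741d3729c270dc1701a0699915e9785ed6f5e6b6ae2b5ad2b7af6bbaf2b96aebaabda3695a468aacaaeadaaaa9a7dd7a7a9ca6e9da8ea4a8aa1782a06fe088120781a05a6697a6296a5603a52a7aa29aa9aa580602801ff756b2aceb1abab0985a1632539364c93a4b92a5795a58956547b65194a4f941fd7a5e87a9e76e1fe97e6097a15976679a66899a1698e65992627f25a9725b965b78fe3e90182846128420f839889124590e3d906427e5fb7ddfa8320d82e4891e4991a097e23b8ea3c8e6388d6378da3485233516318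ca308be2d8ba0a8ae2c8aa2989e28896268922384e2286e1c86a1985e188822187e1e58e1d4ed3a4f53c4e5385054050d424fd3e4a127491264952d4b12b4a9294c9314c12f4b9374d9344cd354511541d08419044151343511449104390f4892347119469184591746d0a4250c42d204851f4751e40101409032e8de37cc02fcbe2f0bd2ecd6354c1350d3348d1340cd33cce32ccc324c8328b92e0b72d0b62d4d73f4fe31cc6314c3308c4380f63d4f33c8f13c0ef3b4ec3b8ea3ace73a4e8374dc36cd8368d93d0fc3ecfa3e0f93dcff398e5390e2384e32a4a829ca5298a428ca2280a12ccb22c4af2c0ae2b4ac2a8ab1588915c882288b12448104400fc3c0f83d0ec3a0e4360e0372689b2789c204801fc7e1f07d21c8621484208830ac2a0181e0bc2d038170b80501000004020701a064110600306c2408c2108010074290a0270980d0941f0882c2749f0300b0280901c0811c4611444108432649813c4e1344c1284b25c9625493248942449023c8d2308e058150501203c131dc731d8581ec7a1805f1785d16c661945919063168781846d19c6c1ac691d0350d0330c0321a8620c475170551505314850144791c8711a06e1bc70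
theorem cs3 : chkS L Q3 178312 720 = true := by decide +kernel
theorem okF : okm 88778 = true := by decide +kernel
theorem cL : chkL 88778 L PL 720 = true := by decide +kernel

end Pool.Agent.U986.LC.FX870
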