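import Pool.Agent.U986.LC.P2bPart
import Pool.Agent.U986.LC.P2bPsd

set_option autoImplicit false
set_option maxRecDepth 100000
set_option maxHeartbeats 4000000
open Finset

namespace Pool.Agent.U986.LC.P2b
open Pool.Agent.H122R2.N6 Pool.Agent.H37R3.Pen Pool.Agent.Y580.FL Pool.Agent.N238.GT Pool.Agent.TH773.ST
  Pool.Agent.H37R3.CopL Pool.Agent.N238.G6 Pool.Agent.U986.LC

theorem hc (b012 b013 b023 b123 b014 b024 b124 b034 b134 b234 : ℕ) (hb012 : Bt b012) (hb013 : Bt b013) (hb023 : Bt b023) (hb123 : Bt b123) (hb014 : Bt b014) (hb024 : Bt b024) (hb124 : Bt b124) (hb034 : Bt b034) (hb134 : Bt b134) (hb234 : Bt b234) (ht : tg b012 b013 b023 b123 b014 b024 b124 b034 b134 b234 = 4) :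
    chkT q4 q2 Z 154978359907109760 LT b012 b013 b023 b123 b014 b024 b124 b034 b134 b234 = true := by
  have h : part b012 b013 = true := by
    rcases hb012 with rfl | rfl <;> rcases hb013 with rfl | rfl
    exacts [part00, part01, part10, part11]
  have h2 := (B2_true (B2_true (B2_true (B2_true (B2_true (B2_true (B2_true (B2_true h hb023) hb123) hb014) hb024) hb124) hb034) hb134) hb234)
  refine or_false_left h2 ?_
  rw [ht]
  rfl

theorem rng : (nall 16 fun c => and (Nat.blt (rho c) 4) (nall 64 fun i => Nat.blt (pc c i) 64)) = true := by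
  decide +kernel

theorem rho_lt {c : ℕ} (h : c < 16) : rho c < 4 := by
  have := nall_true rng c h
  rw [Bool.and_eq_true] at this
  exact Nat.le_of_ble_eq_true this.1

theorem pc_lt {c i : ℕ} (h : c < 16) (hi : i < 64) : pc c i < 64 := by
  have := nall_true rng c h
  rw [Bool.and_eq_true] at this
  exact Nat.le_of_ble_eq_true (nall_true this.2 i hi)

theorem g4_all {r i j : ℕ} (hr : r < 4) (hi : i < 64) (hj : j < 64) : g4 r i j = true := by
  have h : chk4 r = true := by
    interval_cases r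
    exacts [cp0, cp1, cp2, cp3]
  exact nall_true (nall_true h i hi) j hj

theorem hq4 (c i j : ℕ) (hc : c < 16) (hi : i < 64) (hj : j < 64) : (q4 c i j : ℤ) =
    ∑ k ∈ range 74, (w4 (rho c) k : ℤ) * ((l4 (rho c) (pc c i) k : ℤ) - 16384) *
      ((l4 (rho c) (pc c j) k : ℤ) - 16384) + (4611686018427387904 + (fun _ : ℕ => (0 : ℤ)) c) := by
  have h := Nat.eq_of_beq_eq_true (g4_all (rho_lt hc) (pc_lt hc hi) (pc_lt hc hj))
  unfold ll sw sl at h
  rw [nsum_eq, nsum_eq, nsum_eq, nsum_eq] at h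
  have h2 := congrArg (fun n : ℕ => (n : ℤ)) h
  simp only [Nat.add_eq, Nat.mul_eq] at h2
  push_cast at h2
  rw [expand (range 74) (fun k => w4 (rho c) k) (fun k => l4 (rho c) (pc c i) k)
    (fun k => l4 (rho c) (pc c j) k) 16384]
  have h3 : (q4 c i j : ℤ) = (tq (rho c) (pc c i) (pc c j) : ℤ) := rfl
  rw [h3]
  linarith

theorem hq2 (i j : ℕ) (hi : i < 16) (hj : j < 16) : (q2 i j : ℤ) =
    ∑ k ∈ range 14, (w2 k : ℤ) * ((l2 i k : ℤ) - 16384) * ((l2 j k : ℤ) - 16384)
      + (4611686018427387904 + (fun _ : ℕ => (0 : ℤ)) (kk i j)) := by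
  have h := Nat.eq_of_beq_eq_true (nall_true (nall_true cpb i hi) j hj)
  unfold ll2 sw2 sl2 at h
  rw [nsum_eq, nsum_eq, nsum_eq, nsum_eq] at h
  have h2 := congrArg (fun n : ℕ => (n : ℤ)) h
  simp only [Nat.add_eq, Nat.mul_eq] at h2
  push_cast at h2
  rw [expand (range 14) (fun k => w2 k) (fun k => l2 i k) (fun k => l2 j k) 16384]
  linarith

theorem sv_zero {V : Type} [Fintype V] (E : V → V → V → ℕ) : Sv E (fun _ => (0 : ℤ)) = 0 := by
  simp [Sv]

theorem t2_zero {V : Type} [Fintype V] (E : V → V → V → ℕ) : T2 E (fun _ => (0 : ℤ)) = 0 := by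
  simp [T2]

/-- the inequality of the certificate -/
theorem main {V : Type} [Fintype V] {E : V → V → V → ℕ} (hE : Sy E) (hK : NoK4 E) :
    729 * (∑ x : Fin 6 → V, wE E FG2.T 2 3 0 (x 0) (x 1) (x 2) (x 3) (x 4) (x 5)) +
      1912 * NT E ≤ 42660 * (Fintype.card V) ^ 6 := by
  have hb := boundY E hE 74 14 (fun a b c d e f => ZE E Z a b c d e f + 154978359907109760 * XL6 E MT a b c d e f - 154978359907109760) q4
    (fun c k => w4 (rho c) k) (fun c i k => l4 (rho c) (pc c i) k)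
    q2 w2 l2 16384 4611686018427387904 4611686018427387904 (fun _ => (0 : ℤ)) (fun _ => (0 : ℤ)) hq4 hq2
    (leafT_all hE hK (hX0 hE FG2.cT FG2.cL FG2.cs0 2 3 0 59089552495963920 CST) (hX1 hE FG2.cT FG2.cL FG2.cs1 2 3 0 59089552495963920 CST)
      (hX2 hE FG2.cT FG2.cL FG2.cs2 2 3 0 59089552495963920 CST) (hX3 hE FG2.cT FG2.cL FG2.cs3 2 3 0 59089552495963920 CST) cs4 cs2 hc)
  rw [sv_zero, t2_zero, mul_zero, mul_zero, mul_zero, zero_add, zero_add] at hb
  have h1 := conc6 hE FG2.cT 2 3 0 59089552495963920 CST 3457833071986036800 154978359907109760 (by decide) rfl hb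
  have h2 : 81055627566480 * (729 * (∑ x : Fin 6 → V, wE E FG2.T 2 3 0 (x 0) (x 1) (x 2) (x 3) (x 4) (x 5)) +
      1912 * NT E) ≤ 81055627566480 * (42660 * (Fintype.card V) ^ 6) := by
    calc _ = 59089552495963920 * (∑ x : Fin 6 → V, wE E FG2.T 2 3 0 (x 0) (x 1) (x 2) (x 3) (x 4) (x 5)) +
        154978359907109760 * NT E := by ring
      _ ≤ _ := h1
      _ = _ := by ring
  exact Nat.le_of_mul_le_mul_left h2 (by norm_num)

end Pool.Agent.U986.LC.P2b
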