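import Pool.Agent.U986.LC.Cone
import Pool.Agent.U986.LC.P2aFin
import Pool.Agent.U986.LC.P2bFin
import Pool.Agent.U986.LC.P3aFin
import Pool.Agent.U986.LC.P3bFin
import Pool.Agent.U986.LC.P4aFin
import Pool.Agent.U986.LC.P4bFin
import Pool.Agent.U986.LC.P5aFin
import Pool.Agent.U986.LC.P5bFin
import Pool.Agent.U986.LC.P6aFin
import Pool.Agent.U986.LC.P6bFin
import Pool.Agent.U986.LC.P7aFin
import Pool.Agent.U986.LC.P7bFin

/-! Connected graphs on four vertices. -/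

set_option autoImplicit false
set_option maxRecDepth 100000
set_option maxHeartbeats 400000
open Finset
open scoped Classical

namespace Pool.Agent.U986.LC
open Pool.Agent.H122R2.N6 hiding K43Free
open Pool.Agent.H37R3.Pen hiding bt
open Pool.Agent.R85.GT Pool.Agent.Y580.FL Pool.Agent.TH773.ST Pool.Agent.N238.G6

theorem fP2a : Fact 1 153 19 := by
  intro V _ E hE hK
  have hP := P2a.main hE hK
  have sP := sum_wE (A := 1) (b1 := 3) (b2 := 0) hE FG2.cT FG2.okF FG2.cL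
  unfold N6 X3
  generalize (∑ x : Fin 6 → V, wE E FG2.T 1 3 0 (x 0) (x 1) (x 2) (x 3) (x 4) (x 5)) = w1 at hP sP
  generalize (∑ x : Fin 6 → V, SubI E 19 x) = Z at sP ⊢
  generalize Fintype.card V ^ 3 * ∑ a, ∑ b, ∑ c, E a b c = X at sP ⊢
  generalize Fintype.card V ^ 6 = W at hP sP ⊢
  generalize NT E = T at hP ⊢
  omega

theorem fP2b : Fact 2 153 19 := by
  intro V _ E hE hK
  have hP := P2b.main hE hK
  have sP := sum_wE (A := 2) (b1 := 3) (b2 := 0) hE FG2.cT FG2.okF FG2.cL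
  unfold N6 X3
  generalize (∑ x : Fin 6 → V, wE E FG2.T 2 3 0 (x 0) (x 1) (x 2) (x 3) (x 4) (x 5)) = w1 at hP sP
  generalize (∑ x : Fin 6 → V, SubI E 19 x) = Z at sP ⊢
  generalize Fintype.card V ^ 3 * ∑ a, ∑ b, ∑ c, E a b c = X at sP ⊢
  generalize Fintype.card V ^ 6 = W at hP sP ⊢
  generalize NT E = T at hP ⊢
  omega

theorem col19 : N6 Rf 19 = 153 := by decide +kernel

theorem fP3a : Fact 1 144 35 := by
  intro V _ E hE hK
  have hP := P3a.main hE hK
  have sP := sum_wE (A := 1) (b1 := 18) (b2 := 0) hE FG3.cT FG3.okF FG3.cL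
  unfold N6 X3
  generalize (∑ x : Fin 6 → V, wE E FG3.T 1 18 0 (x 0) (x 1) (x 2) (x 3) (x 4) (x 5)) = w1 at hP sP
  generalize (∑ x : Fin 6 → V, SubI E 35 x) = Z at sP ⊢
  generalize Fintype.card V ^ 3 * ∑ a, ∑ b, ∑ c, E a b c = X at sP ⊢
  generalize Fintype.card V ^ 6 = W at hP sP ⊢
  generalize NT E = T at hP ⊢
  omega

theorem fP3b : Fact 2 144 35 := by
  intro V _ E hE hK
  have hP := P3b.main hE hK
  have sP := sum_wE (A := 1) (b1 := 9) (b2 := 0) hE FG3.cT FG3.okF FG3.cL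
  unfold N6 X3
  generalize (∑ x : Fin 6 → V, wE E FG3.T 1 9 0 (x 0) (x 1) (x 2) (x 3) (x 4) (x 5)) = w1 at hP sP
  generalize (∑ x : Fin 6 → V, SubI E 35 x) = Z at sP ⊢
  generalize Fintype.card V ^ 3 * ∑ a, ∑ b, ∑ c, E a b c = X at sP ⊢
  generalize Fintype.card V ^ 6 = W at hP sP ⊢
  generalize NT E = T at hP ⊢
  omega

theorem col35 : N6 Rf 35 = 144 := by decide +kernel

theorem fP4a : Fact 1 72 23 := by
  intro V _ E hE hK
  have hP := P4a.main hE hK
  have sP := sum_wE (A := 1) (b1 := 18) (b2 := 0) hE FG4.cT FG4.okF FG4.cL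
  unfold N6 X3
  generalize (∑ x : Fin 6 → V, wE E FG4.T 1 18 0 (x 0) (x 1) (x 2) (x 3) (x 4) (x 5)) = w1 at hP sP
  generalize (∑ x : Fin 6 → V, SubI E 23 x) = Z at sP ⊢
  generalize Fintype.card V ^ 3 * ∑ a, ∑ b, ∑ c, E a b c = X at sP ⊢
  generalize Fintype.card V ^ 6 = W at hP sP ⊢
  generalize NT E = T at hP ⊢
  omega

theorem fP4b : Fact 2 72 23 := by
  intro V _ E hE hK
  have hP := P4b.main hE hK
  have sP := sum_wE (A := 1) (b1 := 9) (b2 := 0) hE FG4.cT FG4.okF FG4.cL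
  unfold N6 X3
  generalize (∑ x : Fin 6 → V, wE E FG4.T 1 9 0 (x 0) (x 1) (x 2) (x 3) (x 4) (x 5)) = w1 at hP sP
  generalize (∑ x : Fin 6 → V, SubI E 23 x) = Z at sP ⊢
  generalize Fintype.card V ^ 3 * ∑ a, ∑ b, ∑ c, E a b c = X at sP ⊢
  generalize Fintype.card V ^ 6 = W at hP sP ⊢
  generalize NT E = T at hP ⊢
  omega

theorem col23 : N6 Rf 23 = 72 := by decide +kernel

theorem fP5a : Fact 1 117 163 := by
  intro V _ E hE hK
  have hP := P5a.main hE hK
  have sP := sum_wE (A := 2) (b1 := 9) (b2 := 0) hE FG5.cT FG5.okF FG5.cL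
  unfold N6 X3
  generalize (∑ x : Fin 6 → V, wE E FG5.T 2 9 0 (x 0) (x 1) (x 2) (x 3) (x 4) (x 5)) = w1 at hP sP
  generalize (∑ x : Fin 6 → V, SubI E 163 x) = Z at sP ⊢
  generalize Fintype.card V ^ 3 * ∑ a, ∑ b, ∑ c, E a b c = X at sP ⊢
  generalize Fintype.card V ^ 6 = W at hP sP ⊢
  generalize NT E = T at hP ⊢
  omega

theorem fP5b : Fact 2 117 163 := by
  intro V _ E hE hK
  have hP := P5b.main hE hK
  have sP := sum_wE (A := 4) (b1 := 9) (b2 := 0) hE FG5.cT FG5.okF FG5.cL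
  unfold N6 X3
  generalize (∑ x : Fin 6 → V, wE E FG5.T 4 9 0 (x 0) (x 1) (x 2) (x 3) (x 4) (x 5)) = w1 at hP sP
  generalize (∑ x : Fin 6 → V, SubI E 163 x) = Z at sP ⊢
  generalize Fintype.card V ^ 3 * ∑ a, ∑ b, ∑ c, E a b c = X at sP ⊢
  generalize Fintype.card V ^ 6 = W at hP sP ⊢
  generalize NT E = T at hP ⊢
  omega

theorem col163 : N6 Rf 163 = 117 := by decide +kernel

theorem fP6a : Fact 1 54 55 := by
  intro V _ E hE hK
  have hP := P6a.main hE hK
  have sP := sum_wE (A := 1) (b1 := 9) (b2 := 0) hE FG6.cT FG6.okF FG6.cL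
  unfold N6 X3
  generalize (∑ x : Fin 6 → V, wE E FG6.T 1 9 0 (x 0) (x 1) (x 2) (x 3) (x 4) (x 5)) = w1 at hP sP
  generalize (∑ x : Fin 6 → V, SubI E 55 x) = Z at sP ⊢
  generalize Fintype.card V ^ 3 * ∑ a, ∑ b, ∑ c, E a b c = X at sP ⊢
  generalize Fintype.card V ^ 6 = W at hP sP ⊢
  generalize NT E = T at hP ⊢
  omega

theorem fP6b : Fact 2 54 55 := by
  intro V _ E hE hK
  have hP := P6b.main hE hK
  have sP := sum_wE (A := 2) (b1 := 9) (b2 := 0) hE FG6.cT FG6.okF FG6.cL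
  unfold N6 X3
  generalize (∑ x : Fin 6 → V, wE E FG6.T 2 9 0 (x 0) (x 1) (x 2) (x 3) (x 4) (x 5)) = w1 at hP sP
  generalize (∑ x : Fin 6 → V, SubI E 55 x) = Z at sP ⊢
  generalize Fintype.card V ^ 3 * ∑ a, ∑ b, ∑ c, E a b c = X at sP ⊢
  generalize Fintype.card V ^ 6 = W at hP sP ⊢
  generalize NT E = T at hP ⊢
  omega

theorem col55 : N6 Rf 55 = 54 := by decide +kernel

theorem fP7a : Fact 1 45 183 := by
  intro V _ E hE hK
  have hP := P7a.main hE hK
  have sP := sum_wE (A := 2) (b1 := 3) (b2 := 0) hE FG7.cT FG7.okF FG7.cL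
  unfold N6 X3
  generalize (∑ x : Fin 6 → V, wE E FG7.T 2 3 0 (x 0) (x 1) (x 2) (x 3) (x 4) (x 5)) = w1 at hP sP
  generalize (∑ x : Fin 6 → V, SubI E 183 x) = Z at sP ⊢
  generalize Fintype.card V ^ 3 * ∑ a, ∑ b, ∑ c, E a b c = X at sP ⊢
  generalize Fintype.card V ^ 6 = W at hP sP ⊢
  generalize NT E = T at hP ⊢
  omega

theorem fP7b : Fact 2 45 183 := by
  intro V _ E hE hK
  have hP := P7b.main hE hK
  have sP := sum_wE (A := 4) (b1 := 3) (b2 := 0) hE FG7.cT FG7.okF FG7.cL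
  unfold N6 X3
  generalize (∑ x : Fin 6 → V, wE E FG7.T 4 3 0 (x 0) (x 1) (x 2) (x 3) (x 4) (x 5)) = w1 at hP sP
  generalize (∑ x : Fin 6 → V, SubI E 183 x) = Z at sP ⊢
  generalize Fintype.card V ^ 3 * ∑ a, ∑ b, ∑ c, E a b c = X at sP ⊢
  generalize Fintype.card V ^ 6 = W at hP sP ⊢
  generalize NT E = T at hP ⊢
  omega

theorem col183 : N6 Rf 183 = 45 := by decide +kernel

def TB4 : ℕ := 0x2c688000b72a318000372b31000037296a0000172b508000372a660000172b460000172b460000132c2d0000372989800017298d00001700000000002c688000a32a318000232b3100002300000000002c4c8000372a858000172b888000a329518000232a8c80001700000000002b5080002300000000002c458000172c458000132c2d00002300000000002c4c8000230000000000000000000000000000002c688000372a8c8000a32b8500001729710000232b888000172a70800023000000000000000000002c65000017298d0000232c6500001300000000002c688000230000000000000000000000000000002c688000172a8c8000232b8880002300000000002c6880001300000000000000000000000000000000000000000000000000000000000000000000000000000000000000000000000000000000000000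
def en4 (w : ℕ) : ℕ := Nat.mod (Nat.shiftRight TB4 (Nat.mul 40 w)) 1099511627776
def okR4 (m : ℕ) : Bool := (or (Nat.beq m 19) (or (Nat.beq m 35) (or (Nat.beq m 23) (or (Nat.beq m 163) (or (Nat.beq m 55) (Nat.beq m 183))))))
def tt4 (c e : ℕ) : Bool := and (okm c) (and (okR4 (Nat.mod e 1048576)) (and (okm (Nat.mod e 1048576)) (chkP c (Nat.mod e 1048576) (Nat.shiftRight e 20))))
def t4 (b01 b02 b12 b03 b13 b23 : ℕ) : Bool := or (not (conn4 b01 b02 b12 b03 b13 b23)) (tt4 (cm b01 b02 b12 b03 b13 b23 0 0 0 0) (en4 (Nat.add b01 (Nat.mul 2 (Nat.add b02 (Nat.mul 2 (Nat.add b12 (Nat.mul 2 (Nat.add b03 (Nat.mul 2 (Nat.add b13 (Nat.mul 2 b23))))))))))))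
theorem T4 : (B2 fun b01 => B2 fun b02 => B2 fun b12 => B2 fun b03 => B2 fun b13 => B2 fun b23 => t4 b01 b02 b12 b03 b13 b23) = true := by decide +kernel

theorem el4 {c e : ℕ} {b : Bool} (hb : b = true) (h : (or (not b) (tt4 c e)) = true) :
    tt4 c e = true := by
  rw [hb, Bool.not_true, Bool.false_or] at h
  exact h

theorem ex4 {c e : ℕ} (h : tt4 c e = true) : ∃ m p, okm c = true ∧ okR4 m = true ∧
    okm m = true ∧ chkP c m p = true := by
  unfold tt4 at h
  rw [Bool.and_eq_true, Bool.and_eq_true, Bool.and_eq_true] at h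
  exact ⟨_, _, h.1, h.2.1, h.2.2.1, h.2.2.2⟩

theorem fact4 {L : SimpleGraph (Fin 4)} (h : L.Connected) :
    Fact 1 (N6 Rf (cm4 L)) (cm4 L) ∧ Fact 2 (N6 Rf (cm4 L)) (cm4 L) := by
  have h1 := (B2_true (B2_true (B2_true (B2_true (B2_true (B2_true T4 (bb_Bt L 0 1)) (bb_Bt L 0 2)) (bb_Bt L 1 2)) (bb_Bt L 0 3)) (bb_Bt L 1 3)) (bb_Bt L 2 3))
  unfold t4 at h1
  obtain ⟨m, p, hc, hr, hm, hp⟩ := ex4 (el4 (conn4_true h) h1)
  clear h1
  change okm (cm4 L) = true at hc
  change chkP (cm4 L) m p = true at hp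
  generalize cm4 L = c at hc hp ⊢
  have e1 : N6 Rf c = N6 Rf m := N6_relabel Rf_sy hc hm hp
  have e2 : ∀ {V : Type} [Fintype V] {E : V → V → V → ℕ}, Sy E → N6 E c = N6 E m :=
    fun hE => N6_relabel hE hc hm hp
  rw [e1]
  unfold okR4 at hr
  simp only [Bool.or_eq_true] at hr
  rcases hr with hr | hr | hr | hr | hr | hr
  · have := Nat.eq_of_beq_eq_true hr
    subst this
    rw [col19]
    exact ⟨fun hE hK => by rw [e2 hE]; exact fP2a hE hK, fun hE hK => by rw [e2 hE]; exact fP2b hE hK⟩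
  · have := Nat.eq_of_beq_eq_true hr
    subst this
    rw [col35]
    exact ⟨fun hE hK => by rw [e2 hE]; exact fP3a hE hK, fun hE hK => by rw [e2 hE]; exact fP3b hE hK⟩
  · have := Nat.eq_of_beq_eq_true hr
    subst this
    rw [col23]
    exact ⟨fun hE hK => by rw [e2 hE]; exact fP4a hE hK, fun hE hK => by rw [e2 hE]; exact fP4b hE hK⟩
  · have := Nat.eq_of_beq_eq_true hr
    subst this
    rw [col163]
    exact ⟨fun hE hK => by rw [e2 hE]; exact fP5a hE hK, fun hE hK => by rw [e2 hE]; exact fP5b hE hK⟩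
  · have := Nat.eq_of_beq_eq_true hr
    subst this
    rw [col55]
    exact ⟨fun hE hK => by rw [e2 hE]; exact fP6a hE hK, fun hE hK => by rw [e2 hE]; exact fP6b hE hK⟩
  · have := Nat.eq_of_beq_eq_true hr
    subst this
    rw [col183]
    exact ⟨fun hE hK => by rw [e2 hE]; exact fP7a hE hK, fun hE hK => by rw [e2 hE]; exact fP7b hE hK⟩

end Pool.Agent.U986.LC
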