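import Pool.Agent.U986.LC.Core

/-! Homomorphisms of 3-graphs, cones, and Turán's construction. -/

set_option autoImplicit false
set_option maxRecDepth 100000
set_option maxHeartbeats 4000000
open Finset
open scoped Classical

namespace Pool.Agent.U986.LC
open Pool.Agent.H122R2.N6 hiding K43Free
open Pool.Agent.H37R3.Pen hiding bt
open Pool.Agent.R85.GT Pool.Agent.Y580.FL Pool.Agent.TH773.ST Pool.Agent.N238.G6

theorem card_le_six' {α : Type} [DecidableEq α] {a b c d e f : α} :
    ({a, b, c, d, e, f} : Finset α).card ≤ 6 := by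
  refine (card_insert_le _ _).trans ?_
  have := card_le_five (a := b) (b := c) (c := d) (d := e) (e := f)
  omega

section
variable {n : ℕ}

theorem S3_tri {H : Finset (Finset (Fin n))} (hH : ∀ e ∈ H, e.card = 3) :
    ∑ a, ∑ b, ∑ c, tri H a b c = 6 * H.card := by
  refine le_antisymm ?_ (six_card_le hH)
  set T : Finset (Fin n × Fin n × Fin n) :=
    univ.filter fun t => ({t.1, t.2.1, t.2.2} : Finset (Fin n)) ∈ H with hT
  have e1 : ∑ a, ∑ b, ∑ c, tri H a b c = T.card := by
    rw [hT, card_filter, Fintype.sum_prod_type]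
    refine sum_congr rfl fun a _ => ?_
    rw [Fintype.sum_prod_type]
    refine sum_congr rfl fun b _ => sum_congr rfl fun c _ => ?_
    rw [tri_ite]
  have hfw := card_eq_sum_card_fiberwise (s := T)
    (f := fun t : Fin n × Fin n × Fin n => ({t.1, t.2.1, t.2.2} : Finset (Fin n)))
    (t := H) (fun t ht => (mem_filter.mp (mem_coe.mp ht)).2)
  rw [e1, hfw, mul_comm, ← smul_eq_mul, ← sum_const]
  refine sum_le_sum fun e he => ?_
  obtain ⟨a, b, c, hab, hac, hbc, rfl⟩ := Finset.card_eq_three.mp (hH e he)
  have hsub : T.filter (fun t : Fin n × Fin n × Fin n => ({t.1, t.2.1, t.2.2} : Finset (Fin n)) =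
      {a, b, c}) ⊆ {(a, b, c), (a, c, b), (b, a, c), (b, c, a), (c, a, b), (c, b, a)} := by
    rintro ⟨x, y, z⟩ ht
    obtain ⟨h1, h2⟩ := mem_filter.mp ht
    simp only at h2
    have h3 : ({x, y, z} : Finset (Fin n)).card = 3 := by
      rw [h2]; exact hH _ he
    have d1 : x ≠ y := by
      rintro rfl
      have : ({x, x, z} : Finset (Fin n)).card ≤ 2 := by
        rw [insert_eq_of_mem (mem_insert_self _ _)]; exact card_le_two
      omega
    have d2 : x ≠ z := by
      rintro rfl
      have : ({x, y, x} : Finset (Fin n)).card ≤ 2 := by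
        rw [insert_comm, insert_eq_of_mem (mem_singleton_self _)]; exact card_le_two
      omega
    have d3 : y ≠ z := by
      rintro rfl
      have : ({x, y, y} : Finset (Fin n)).card ≤ 2 := by
        rw [insert_eq_of_mem (mem_singleton_self y)]; exact card_le_two
      omega
    have hx : x ∈ ({a, b, c} : Finset (Fin n)) := by rw [← h2]; simp
    have hy : y ∈ ({a, b, c} : Finset (Fin n)) := by rw [← h2]; simp
    have hz : z ∈ ({a, b, c} : Finset (Fin n)) := by rw [← h2]; simp
    simp only [mem_insert, mem_singleton] at hx hy hz ⊢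
    rcases hx with rfl | rfl | rfl <;> rcases hy with rfl | rfl | rfl <;>
      rcases hz with rfl | rfl | rfl <;> simp_all
  exact (card_le_card hsub).trans card_le_six'

/-- the distance to Turán's construction -/
theorem six_symm_le {H : Finset (Finset (Fin n))} (hH : ∀ e ∈ H, e.card = 3) (g : Fin n → Fin 3) :
    6 * (symmDiff H (turan g)).card ≤ bad (tri H) g := by
  have hD : ∀ e ∈ symmDiff H (turan g), e.card = 3 := by
    intro e he
    rw [mem_symmDiff] at he
    rcases he with he | he
    exacts [hH e he.1, turan_card he.1]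
  refine (six_card_le hD).trans ?_
  have e1 : ∑ a, ∑ b, ∑ c, tri (symmDiff H (turan g)) a b c =
      ((univ : Finset (Fin n × Fin n × Fin n)).filter fun t =>
        ({t.1, t.2.1, t.2.2} : Finset (Fin n)) ∈ symmDiff H (turan g)).card := by
    rw [Finset.card_filter, Fintype.sum_prod_type]
    refine sum_congr rfl fun a _ => ?_
    rw [Fintype.sum_prod_type]
    refine sum_congr rfl fun b _ => sum_congr rfl fun c _ => ?_
    rw [tri_ite]
  rw [e1]
  unfold bad
  refine card_le_card_of_injOn (fun p => ![p.1, p.2.1, p.2.2]) ?_ ?_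
  · rintro ⟨a, b, c⟩ hp
    have hp' : ({a, b, c} : Finset (Fin n)) ∈ symmDiff H (turan g) :=
      (mem_filter.mp (mem_coe.mp hp)).2
    refine mem_coe.mpr (mem_filter.mpr ⟨mem_univ _, ?_⟩)
    have h3 := hD _ hp'
    have hab : a ≠ b := by
      rintro rfl
      have : ({a, a, c} : Finset (Fin n)).card ≤ 2 := by
        rw [insert_eq_of_mem (mem_insert_self _ _)]; exact card_le_two
      omega
    have hac : a ≠ c := by
      rintro rfl
      have : ({a, b, a} : Finset (Fin n)).card ≤ 2 := by
        rw [insert_comm, insert_eq_of_mem (mem_singleton_self _)]; exact card_le_two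
      omega
    have hbc : b ≠ c := by
      rintro rfl
      have : ({a, b, b} : Finset (Fin n)).card ≤ 2 := by
        rw [insert_eq_of_mem (mem_singleton_self b)]; exact card_le_two
      omega
    change tri H a b c ≠ Rf (g a) (g b) (g c)
    have hm := mem_turan (g := g) hab hac hbc
    rw [mem_symmDiff, hm] at hp'
    have ht : tri H a b c = 1 ↔ ({a, b, c} : Finset (Fin n)) ∈ H := tri_iff
    intro h
    rcases hp' with ⟨h1, h2⟩ | ⟨h1, h2⟩
    · rw [← ht, h] at h1; exact h2 h1
    · rw [← ht, h] at h2; exact h2 h1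
  · rintro ⟨a, b, c⟩ _ ⟨a', b', c'⟩ _ h
    have h0 := congrFun h 0
    have h1 := congrFun h 1
    have h2 := congrFun h 2
    simp only [Matrix.cons_val_zero, Matrix.cons_val_one, Matrix.cons_val] at h0 h1 h2
    rw [h0, h1, h2]

/-- the conclusions for 3-graphs -/
theorem fin3 {H : Finset (Finset (Fin n))} (h3 : ∀ e ∈ H, e.card = 3) (hK : K43Free H) {tc F : ℕ}
    (h1 : Fact 1 tc F) (h2 : Fact 2 tc F) :
    729 * (N6 (tri H) F + 6 * (n ^ 3 * H.card)) ≤ (tc + 405) * n ^ 6 ∧
    729 * (2 * N6 (tri H) F + 6 * (n ^ 3 * H.card)) ≤ (2 * tc + 405) * n ^ 6 ∧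
    ∃ g : Fin n → Fin 3, n ^ 3 * (symmDiff H (turan g)).card +
      107520 * (729 * (N6 (tri H) F + 6 * (n ^ 3 * H.card))) ≤ 107520 * ((tc + 405) * n ^ 6) := by
  obtain ⟨a1, a2, g, a3⟩ := fin2 (tri_sy H) (tri_noK4 h3 hK) h1 h2
  have e : X3 (tri H) = 6 * (n ^ 3 * H.card) := by
    unfold X3
    rw [Fintype.card_fin, S3_tri h3]
    ring
  rw [e, Fintype.card_fin] at a1 a2 a3
  refine ⟨a1, a2, g, ?_⟩
  have h5 := Nat.mul_le_mul_left (n ^ 3) (six_symm_le h3 g)
  have h6 : n ^ 3 * (6 * (symmDiff H (turan g)).card) =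
    6 * (n ^ 3 * (symmDiff H (turan g)).card) := by ring
  rw [h6] at h5
  generalize n ^ 3 * (symmDiff H (turan g)).card = A at h5 ⊢
  generalize n ^ 3 * bad (tri H) g = B at h5 a3
  generalize (tc + 405) * n ^ 6 = W at a3 ⊢
  generalize N6 (tri H) F + 6 * (n ^ 3 * H.card) = C at a3 ⊢
  omega

end

/-! ### Turán's construction -/

/-- `n ^ k` and the number of injective maps -/
theorem pow_le_desc (n k : ℕ) : n ^ (k + 1) ≤ n.descFactorial (k + 1) + (k + 1).choose 2 * n ^ k := by
  induction k with
  | zero => simp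
  | succ k ih =>
    have h1 : n ^ (k + 1 + 1) = n * n ^ (k + 1) := by ring
    have h2 : n * n.descFactorial (k + 1) ≤ n.descFactorial (k + 1 + 1) + (k + 1) * n ^ (k + 1) := by
      rw [Nat.descFactorial_succ n (k + 1)]
      have h3 : n ≤ (n - (k + 1)) + (k + 1) := by omega
      calc n * n.descFactorial (k + 1) ≤ ((n - (k + 1)) + (k + 1)) * n.descFactorial (k + 1) :=
            Nat.mul_le_mul_right _ h3
        _ = (n - (k + 1)) * n.descFactorial (k + 1) + (k + 1) * n.descFactorial (k + 1) := by ring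
        _ ≤ (n - (k + 1)) * n.descFactorial (k + 1) + (k + 1) * n ^ (k + 1) :=
            Nat.add_le_add_left (Nat.mul_le_mul_left _ (Nat.descFactorial_le_pow _ _)) _
    have h4 : (k + 1 + 1).choose 2 = (k + 1) + (k + 1).choose 2 := by
      rw [Nat.choose_succ_succ, Nat.choose_one_right]
    calc n ^ (k + 1 + 1) = n * n ^ (k + 1) := h1
      _ ≤ n * (n.descFactorial (k + 1) + (k + 1).choose 2 * n ^ k) := Nat.mul_le_mul_left _ ih
      _ = n * n.descFactorial (k + 1) + (k + 1).choose 2 * n ^ (k + 1) := by ring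
      _ ≤ n.descFactorial (k + 1 + 1) + (k + 1) * n ^ (k + 1) + (k + 1).choose 2 * n ^ (k + 1) :=
          Nat.add_le_add_right h2 _
      _ = n.descFactorial (k + 1 + 1) + (k + 1 + 1).choose 2 * n ^ (k + 1) := by rw [h4]; ring

theorem card_noninj (n k : ℕ) :
    ((univ : Finset (Fin (k + 1) → Fin n)).filter fun f => ¬ Function.Injective f).card ≤
      (k + 1).choose 2 * n ^ k := by
  have h1 := card_filter_add_card_filter_not (s := (univ : Finset (Fin (k + 1) → Fin n)))
    (fun f => Function.Injective f)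
  have h2 : ((univ : Finset (Fin (k + 1) → Fin n)).filter fun f => Function.Injective f).card =
      n.descFactorial (k + 1) := by
    rw [← Fintype.card_subtype, Fintype.card_congr (Equiv.subtypeInjectiveEquivEmbedding _ _),
      Fintype.card_embedding_eq, Fintype.card_fin, Fintype.card_fin]
  have h3 : (univ : Finset (Fin (k + 1) → Fin n)).card = n ^ (k + 1) := by
    rw [card_univ, Fintype.card_fun, Fintype.card_fin, Fintype.card_fin]
  have h4 := pow_le_desc n k
  omega

/-- the homomorphisms to Turán's construction with equal parts -/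
theorem turan_homs {k n m : ℕ} (F : Finset (Finset (Fin (k + 1)))) (g : Fin n → Fin 3)
    (hg : ∀ p, (univ.filter fun i => g i = p).card = m) :
    cols F * m ^ (k + 1) ≤ homs F (turan g) + (k + 1).choose 2 * n ^ k := by
  unfold cols
  set VV := (univ : Finset (Fin (k + 1) → Fin 3)).filter fun c => F ⊆ turan c with hVV
  set A := (univ : Finset (Fin (k + 1) → Fin n)).filter fun f => g ∘ f ∈ VV with hA
  have h1 : A.card = VV.card * m ^ (k + 1) := by
    have hmap : ∀ f ∈ A, g ∘ f ∈ VV := fun f hf => (mem_filter.mp hf).2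
    rw [card_eq_sum_card_fiberwise hmap, ← smul_eq_mul, ← sum_const]
    refine sum_congr rfl fun c hc => ?_
    have h2 : A.filter (fun f => g ∘ f = c) =
        Fintype.piFinset fun i => univ.filter fun x => g x = c i := by
      ext f
      rw [mem_filter, Fintype.mem_piFinset]
      constructor
      · rintro ⟨-, h⟩ i
        exact mem_filter.mpr ⟨mem_univ _, congrFun h i⟩
      · intro h
        have h3 : g ∘ f = c := funext fun i => (mem_filter.mp (h i)).2
        exact ⟨mem_filter.mpr ⟨mem_univ _, by rw [h3]; exact hc⟩, h3⟩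
    rw [h2, Fintype.card_piFinset]
    simp only [hg, prod_const, card_univ, Fintype.card_fin]
  have h2 : A ⊆ ((univ : Finset (Fin (k + 1) → Fin n)).filter fun f =>
      ∀ t ∈ F, t.image f ∈ turan g) ∪
      ((univ : Finset (Fin (k + 1) → Fin n)).filter fun f => ¬ Function.Injective f) := by
    intro f hf
    rw [mem_union, mem_filter, mem_filter]
    by_cases hi : Function.Injective f
    · left
      refine ⟨mem_univ _, fun t ht => ?_⟩
      have h3 := (mem_filter.mp (mem_filter.mp hf).2).2 ht
      exact (mem_turan_comp g f hi t).mpr h3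
    · exact Or.inr ⟨mem_univ _, hi⟩
  rw [← h1]
  refine (card_le_card h2).trans ((card_union_le _ _).trans ?_)
  exact Nat.add_le_add_left (card_noninj n k) _

theorem cov4 : ∀ a b d e : Fin 3, rB a b d = false ∨ rB a b e = false ∨ rB a d e = false ∨
    rB b d e = false := by decide

theorem turan_free {n : ℕ} (g : Fin n → Fin 3) : K43Free (turan g) := by
  intro S hS
  obtain ⟨x, y, z, w, h1, h2, h3, h4, h5, h6, rfl⟩ := card_eq_four.mp hS
  have key : ∀ a b c : Fin n, a ≠ b → a ≠ c → b ≠ c → rB (g a) (g b) (g c) = false →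
      ({a, b, c} : Finset (Fin n)).card = 3 ∧ ({a, b, c} : Finset (Fin n)) ∉ turan g := by
    intro a b c hab hac hbc h
    refine ⟨?_, fun h' => ?_⟩
    · rw [card_insert_of_notMem (by simp [hab, hac]), card_pair hbc]
    · have h7 := (mem_turan hab hac hbc).mp h'
      unfold Rf at h7
      rw [h] at h7
      exact absurd h7 (by decide)
  rcases cov4 (g x) (g y) (g z) (g w) with h | h | h | h
  · exact ⟨_, by intro u hu; simp at hu ⊢; tauto, key x y z h1 h2 h4 h⟩
  · exact ⟨_, by intro u hu; simp at hu ⊢; tauto, key x y w h1 h3 h5 h⟩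
  · exact ⟨_, by intro u hu; simp at hu ⊢; tauto, key x z w h2 h3 h6 h⟩
  · exact ⟨_, by intro u hu; simp at hu ⊢; tauto, key y z w h4 h5 h6 h⟩

end Pool.Agent.U986.LC
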