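import Pool.Agent.U986.LC.P3aTab

set_option autoImplicit false
set_option maxRecDepth 100000

namespace Pool.Agent.U986.LC.P3a

open Pool.Agent.H122R2.N6 Pool.Agent.N238.GT Pool.Agent.TH773.ST

noncomputable def part (b012 b013 : ℕ) : Bool := B2 fun b023 => B2 fun b123 => B2 fun b014 => B2 fun b024 => B2 fun b124 => B2 fun b034 => B2 fun b134 => B2 fun b234 => or (not (Nat.beq (tg b012 b013 b023 b123 b014 b024 b124 b034 b134 b234) 4)) (chkT q4 q2 Z 14917049024890320 LT b012 b013 b023 b123 b014 b024 b124 b034 b134 b234)

theorem part00 : part 0 0 = true := by decide +kernel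
theorem part01 : part 0 1 = true := by decide +kernel
theorem part10 : part 1 0 = true := by decide +kernel
theorem part11 : part 1 1 = true := by decide +kernel

end Pool.Agent.U986.LC.P3a
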