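import Pool.Agent.U986.LC.Six
import Pool.Agent.U986.LC.Main4

/-! 3-graphs on six vertices: two inequalities at once, relabelling, links. -/

set_option autoImplicit false
set_option maxRecDepth 100000
set_option maxHeartbeats 4000000
open Finset
open scoped Classical

namespace Pool.Agent.U986.LC
open Pool.Agent.H122R2.N6 hiding K43Free
open Pool.Agent.H37R3.Pen hiding bt
open Pool.Agent.R85.GT Pool.Agent.Y580.FL Pool.Agent.TH773.ST Pool.Agent.N238.G6

/-- what is proved for a 3-graph with mask `F` and `tc` colourings -/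
def FMT (tc F : ℕ) : Prop :=
  ∀ (V : Type) [Fintype V] (E : V → V → V → ℕ), Sy E → NoK4 E →
    2916 * N6 E F + NT E ≤ 4 * (tc * Fintype.card V ^ 6) ∧
    405 * N6 E F ≤ tc * X3 E ∧
    36 * (tc * X3 E) + 3645 * N6 E F ≤ 25 * (tc * Fintype.card V ^ 6)

theorem FMT_mono {tc C r m : ℕ} (h : FMT tc r) (h0 : 0 < tc) (hC : tc ≤ C)
    (hm : ∀ {V : Type} [Fintype V] {E : V → V → V → ℕ}, Sy E → N6 E m ≤ N6 E r) : FMT C m := by
  intro V _ E hE hK
  obtain ⟨h1, h2, h3⟩ := h V E hE hK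
  have hn := hm (V := V) hE
  have e1 : 36 * (tc * X3 E) ≤ 25 * (tc * Fintype.card V ^ 6) := (Nat.le_add_right _ _).trans h3
  have e2 : 36 * X3 E ≤ 25 * Fintype.card V ^ 6 := by
    refine Nat.le_of_mul_le_mul_left (c := tc) ?_ h0
    calc _ = 36 * (tc * X3 E) := by ring
      _ ≤ _ := e1
      _ = _ := by ring
  obtain ⟨d, rfl⟩ := Nat.exists_eq_add_of_le hC
  have e3 := Nat.mul_le_mul_left d e2
  have q1 : (tc + d) * Fintype.card V ^ 6 = tc * Fintype.card V ^ 6 + d * Fintype.card V ^ 6 := by ring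
  have q2 : (tc + d) * X3 E = tc * X3 E + d * X3 E := by ring
  have q3 : d * (36 * X3 E) = 36 * (d * X3 E) := by ring
  have q4 : d * (25 * Fintype.card V ^ 6) = 25 * (d * Fintype.card V ^ 6) := by ring
  rw [q3, q4] at e3
  rw [q1, q2]
  generalize d * Fintype.card V ^ 6 = W' at e3 ⊢
  generalize d * X3 E = X' at e3 ⊢
  generalize tc * Fintype.card V ^ 6 = W at h1 h3 ⊢
  generalize tc * X3 E = X at h2 h3 ⊢
  omega

/-! ### bits of masks -/

theorem bt0 {b r : ℕ} (hb : Bt b) : bt (Nat.add b (Nat.mul 2 r)) 0 = b := by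
  unfold bt
  change (b + 2 * r) >>> 0 % 2 = b
  rw [Nat.shiftRight_zero]
  rcases hb with rfl | rfl <;> omega

theorem btS {b r k : ℕ} (hb : Bt b) : bt (Nat.add b (Nat.mul 2 r)) (k + 1) = bt r k := by
  unfold bt
  change (b + 2 * r) >>> (k + 1) % 2 = r >>> k % 2
  rw [Nat.shiftRight_succ_inside]
  have : (b + 2 * r) / 2 = r := by rcases hb with rfl | rfl <;> omega
  rw [this]

theorem btL {b : ℕ} (hb : Bt b) : bt b 0 = b := by
  unfold bt
  change b >>> 0 % 2 = b
  rw [Nat.shiftRight_zero]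
  rcases hb with rfl | rfl <;> omega

theorem btL1 {b : ℕ} (hb : Bt b) : bt b 1 = 0 := by
  unfold bt
  change b >>> 1 % 2 = 0
  rcases hb with rfl | rfl <;> decide

/-- the bit of a triple -/
def tb (m i j k : ℕ) : Bool := Nat.beq (bt m (tiN i j k)) 1

theorem tb_mk6 {F : Finset (Finset (Fin 6))} (h3 : ∀ t ∈ F, t.card = 3) (i j k : Fin 6) :
    tb (mk6 F) i j k = true ↔ ({i, j, k} : Finset (Fin 6)) ∈ F := by
  have key : ∀ i j k : Fin 6, bt (mk6 F) (tiN i j k) = fb F i j k →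
      (tb (mk6 F) i j k = true ↔ ({i, j, k} : Finset (Fin 6)) ∈ F) := by
    intro i j k h
    unfold tb
    rw [h]
    unfold fb
    split_ifs with h2 <;> simp [h2]
  have srt : ∀ i j k : Fin 6, i < j → j < k → bt (mk6 F) (tiN i j k) = fb F i j k := by
    intro i j k hij hjk
    unfold mk6 Pool.Agent.N238.G6.cd6
    fin_cases i <;> fin_cases j <;> first | exact absurd hij (by decide) | skip
    all_goals fin_cases k <;> first | exact absurd hjk (by decide) | skip
    · change bt _ 0 = _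
      rw [bt0 (fb_Bt F _ _ _)]; rfl
    · change bt _ 1 = _
      rw [btS (fb_Bt F _ _ _), bt0 (fb_Bt F _ _ _)]; rfl
    · change bt _ 4 = _
      rw [btS (fb_Bt F _ _ _), btS (fb_Bt F _ _ _), btS (fb_Bt F _ _ _), btS (fb_Bt F _ _ _), bt0 (fb_Bt F _ _ _)]; rfl
    · change bt _ 10 = _
      iterate 10 rw [btS (fb_Bt F _ _ _)]
      rw [bt0 (fb_Bt F _ _ _)]; rfl
    · change bt _ 2 = _
      iterate 2 rw [btS (fb_Bt F _ _ _)]
      rw [bt0 (fb_Bt F _ _ _)]; rfl
    · change bt _ 5 = _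
      iterate 5 rw [btS (fb_Bt F _ _ _)]
      rw [bt0 (fb_Bt F _ _ _)]; rfl
    · change bt _ 11 = _
      iterate 11 rw [btS (fb_Bt F _ _ _)]
      rw [bt0 (fb_Bt F _ _ _)]; rfl
    · change bt _ 7 = _
      iterate 7 rw [btS (fb_Bt F _ _ _)]
      rw [bt0 (fb_Bt F _ _ _)]; rfl
    · change bt _ 13 = _
      iterate 13 rw [btS (fb_Bt F _ _ _)]
      rw [bt0 (fb_Bt F _ _ _)]; rfl
    · change bt _ 16 = _
      iterate 16 rw [btS (fb_Bt F _ _ _)]
      rw [bt0 (fb_Bt F _ _ _)]; rfl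
    · change bt _ 3 = _
      iterate 3 rw [btS (fb_Bt F _ _ _)]
      rw [bt0 (fb_Bt F _ _ _)]; rfl
    · change bt _ 6 = _
      iterate 6 rw [btS (fb_Bt F _ _ _)]
      rw [bt0 (fb_Bt F _ _ _)]; rfl
    · change bt _ 12 = _
      iterate 12 rw [btS (fb_Bt F _ _ _)]
      rw [bt0 (fb_Bt F _ _ _)]; rfl
    · change bt _ 8 = _
      iterate 8 rw [btS (fb_Bt F _ _ _)]
      rw [bt0 (fb_Bt F _ _ _)]; rfl
    · change bt _ 14 = _
      iterate 14 rw [btS (fb_Bt F _ _ _)]
      rw [bt0 (fb_Bt F _ _ _)]; rfl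
    · change bt _ 17 = _
      iterate 17 rw [btS (fb_Bt F _ _ _)]
      rw [bt0 (fb_Bt F _ _ _)]; rfl
    · change bt _ 9 = _
      iterate 9 rw [btS (fb_Bt F _ _ _)]
      rw [bt0 (fb_Bt F _ _ _)]; rfl
    · change bt _ 15 = _
      iterate 15 rw [btS (fb_Bt F _ _ _)]
      rw [bt0 (fb_Bt F _ _ _)]; rfl
    · change bt _ 18 = _
      iterate 18 rw [btS (fb_Bt F _ _ _)]
      rw [bt0 (fb_Bt F _ _ _)]; rfl
    · change bt _ 19 = _
      iterate 19 rw [btS (fb_Bt F _ _ _)]
      rw [btL (fb_Bt F _ _ _)]; rfl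
  have b20 : bt (mk6 F) 20 = 0 := by
    unfold mk6 Pool.Agent.N238.G6.cd6
    iterate 19 rw [btS (fb_Bt F _ _ _)]
    exact btL1 (fb_Bt F _ _ _)
  have t213 : ∀ i j k : Fin 6, tb (mk6 F) j i k = tb (mk6 F) i j k := by
    intro i j k; unfold tb; rw [tiN_213]
  have t132 : ∀ i j k : Fin 6, tb (mk6 F) i k j = tb (mk6 F) i j k := by
    intro i j k; unfold tb; rw [tiN_132]
  by_cases hd : i = j ∨ i = k ∨ j = k
  · have h1 : tb (mk6 F) i j k = false := by
      unfold tb
      rw [tiN_deg i j k hd, b20]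
      rfl
    rw [h1]
    refine ⟨fun h => absurd h (by decide), fun h => ?_⟩
    exfalso
    have h5 := h3 _ h
    rcases hd with rfl | rfl | rfl
    · have : ({i, i, k} : Finset (Fin 6)).card ≤ 2 := by
        rw [insert_eq_of_mem (mem_insert_self _ _)]; exact card_le_two
      omega
    · have : ({i, j, i} : Finset (Fin 6)).card ≤ 2 := by
        rw [insert_comm, insert_eq_of_mem (mem_singleton_self _)]
        exact card_le_two
      omega
    · have : ({i, j, j} : Finset (Fin 6)).card ≤ 2 := by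
        rw [insert_eq_of_mem (a := j) (mem_singleton_self _)]; exact card_le_two
      omega
  push Not at hd
  obtain ⟨hij, hik, hjk⟩ := hd
  rcases lt_or_gt_of_ne hij with h1 | h1 <;> rcases lt_or_gt_of_ne hik with h2 | h2 <;>
    rcases lt_or_gt_of_ne hjk with h3 | h3
  · exact key i j k (srt i j k h1 h3)
  · rw [← t132, ← set_132]
    exact key i k j (srt i k j h2 h3)
  · exact absurd (h1.trans h3) (not_lt.mpr h2.le)
  · rw [← t132, ← t213, ← set_132, ← set_213]
    exact key k i j (srt k i j h2 h1)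
  · rw [← t213, ← set_213]
    exact key j i k (srt j i k h1 h2)
  · exact absurd (h1.trans h2) (not_lt.mpr h3.le)
  · rw [← t213, ← t132, ← set_213, ← set_132]
    exact key j k i (srt j k i h3 h2)
  · rw [← t213, ← t132, ← t213, ← set_213, ← set_132, ← set_213]
    exact key k j i (srt k j i h3 h1)

end Pool.Agent.U986.LC
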