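import Pool.Agent.U986.LC.Pat0

/-! Relabelling of 3-graphs on six vertices, and their links. -/

set_option autoImplicit false
set_option maxRecDepth 100000
set_option maxHeartbeats 4000000
open Finset
open scoped Classical

namespace Pool.Agent.U986.LC
open Pool.Agent.H122R2.N6 hiding K43Free
open Pool.Agent.H37R3.Pen hiding bt
open Pool.Agent.R85.GT Pool.Agent.Y580.FL Pool.Agent.TH773.ST Pool.Agent.N238.G6

/-! ### masks -/

/-- `p` codes an injective map which sends the triples of the mask `r` to triples of the mask `m` -/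
def chkS (r m p : ℕ) : Bool :=
  and (nall 6 fun i => nall 6 fun j => or (Nat.beq i j) (not (Nat.beq (dg p i) (dg p j))))
    (nall 6 fun k => nall k fun j => nall j fun i =>
      Nat.ble (bt r (tiN i j k)) (bt m (tiN (dg p i) (dg p j) (dg p k))))

theorem chkS_inj {c m p : ℕ} (h : chkS c m p = true) : Function.Injective (gq p) := by
  unfold chkS at h
  rw [Bool.and_eq_true] at h
  intro i j hij
  have h1 := nall_true (nall_true h.1 i.val i.isLt) j.val j.isLt
  rw [Bool.or_eq_true] at h1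
  rcases h1 with h1 | h1
  · exact Fin.ext (Nat.eq_of_beq_eq_true h1)
  · exfalso
    rw [Bool.not_eq_true'] at h1
    have h2 : dg p i.val = dg p j.val := congrArg Fin.val hij
    rw [h2, Nat.beq_refl] at h1
    exact Bool.noConfusion h1

section
variable {V : Type} {E : V → V → V → ℕ}

theorem chkS_sub (hE : Sy E) {r m p : ℕ} (hr : bt r 20 = 0) (h : chkS r m p = true) (x : Fin 6 → V)
    (hs : Sub E m x) : Sub E r (x ∘ gq p) := by
  unfold chkS at h
  rw [Bool.and_eq_true] at h
  have srt : ∀ i j k : Fin 6, i < j → j < k → bt r (tiN i j k) = 1 →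
      E ((x ∘ gq p) i) ((x ∘ gq p) j) ((x ∘ gq p) k) = 1 := by
    intro i j k hij hjk h1
    have h2 := Nat.le_of_ble_eq_true (nall_true (nall_true (nall_true h.2 k.val k.isLt) j.val hjk) i.val hij)
    rw [h1] at h2
    have h3 : bt m (tiN (gq p i) (gq p j) (gq p k)) = 1 := by
      rcases bt_Bt m (tiN (gq p i) (gq p j) (gq p k)) with h4 | h4
      · have h5 : 1 ≤ bt m (tiN (gq p i) (gq p j) (gq p k)) := h2
        omega
      · exact h4
    exact hs _ _ _ h3
  intro i j k hijk
  by_cases hd : i = j ∨ i = k ∨ j = k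
  · rw [tiN_deg i j k hd, hr] at hijk
    exact absurd hijk (by norm_num)
  push Not at hd
  obtain ⟨hij, hik, hjk⟩ := hd
  rcases lt_or_gt_of_ne hij with h1 | h1 <;> rcases lt_or_gt_of_ne hik with h2 | h2 <;>
    rcases lt_or_gt_of_ne hjk with h3 | h3
  · exact srt i j k h1 h3 hijk
  · rw [← tiN_132] at hijk
    rw [← hE.h132]
    exact srt i k j h2 h3 hijk
  · exact absurd (h1.trans h3) (not_lt.mpr h2.le)
  · rw [← tiN_132, ← tiN_213] at hijk
    rw [← hE.h132, ← hE.h213]
    exact srt k i j h2 h1 hijk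
  · rw [← tiN_213] at hijk
    rw [← hE.h213]
    exact srt j i k h1 h2 hijk
  · exact absurd (h1.trans h2) (not_lt.mpr h3.le)
  · rw [← tiN_213, ← tiN_132] at hijk
    rw [← hE.h213, ← hE.h132]
    exact srt j k i h3 h2 hijk
  · rw [← tiN_213, ← tiN_132, ← tiN_213] at hijk
    rw [← hE.h213, ← hE.h132, ← hE.h213]
    exact srt k j i h3 h1 hijk

theorem okm20 {m : ℕ} (h : okm m = true) : bt m 20 = 0 := by
  unfold okm at h
  rw [Bool.and_eq_true] at h
  exact Nat.eq_of_beq_eq_true h.2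

theorem N6_sub {V : Type} [Fintype V] {E : V → V → V → ℕ} (hE : Sy E) {r m p : ℕ}
    (hr : okm r = true) (hm : okm m = true) (h : chkS r m p = true) : N6 E m ≤ N6 E r := by
  have hb := Finite.injective_iff_bijective.mp (chkS_inj h)
  have h1 : N6 E m ≤ ∑ x : Fin 6 → V, SubI E r (x ∘ gq p) := by
    unfold N6
    refine sum_le_sum fun x _ => ?_
    rw [SubI_eq hE hm, SubI_eq hE hr]
    split_ifs with a b
    · exact le_rfl
    · exact absurd (chkS_sub hE (okm20 hr) h x a) b
    · exact Nat.zero_le _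
    · exact le_rfl
  refine h1.trans (le_of_eq ?_)
  unfold N6
  exact Equiv.sum_comp (Equiv.arrowCongr (Equiv.ofBijective _ hb).symm (Equiv.refl V))
    (fun x => SubI E r x)

end

theorem FMT_relabel {tc c m p : ℕ} (hm' : FMT tc m) (hc : okm c = true) (hm : okm m = true)
    (h : chkP c m p = true) : FMT tc c := by
  intro V _ E hE hK
  rw [N6_relabel hE hc hm h]
  exact hm' V E hE hK

/-! ### relabelling of 3-graphs -/

section
variable (σ : Equiv.Perm (Fin 6)) (F : Finset (Finset (Fin 6)))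

/-- the triples which `σ` sends to edges -/
noncomputable def pb : Finset (Finset (Fin 6)) :=
  ((univ : Finset (Fin 6)).powersetCard 3).filter fun t => t.image σ ∈ F

variable {σ F}

theorem mem_pb (h3 : ∀ t ∈ F, t.card = 3) {t : Finset (Fin 6)} : t ∈ pb σ F ↔ t.image σ ∈ F := by
  unfold pb
  rw [mem_filter, mem_powersetCard]
  refine ⟨fun h => h.2, fun h => ⟨⟨subset_univ _, ?_⟩, h⟩⟩
  rw [← h3 _ h, card_image_of_injective _ σ.injective]

theorem pb_card3 {t : Finset (Fin 6)} (h : t ∈ pb σ F) : t.card = 3 :=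
  (mem_powersetCard.mp (mem_filter.mp h).1).2

theorem mem_pb3 (h3 : ∀ t ∈ F, t.card = 3) {i j k : Fin 6} :
    ({i, j, k} : Finset (Fin 6)) ∈ pb σ F ↔ ({σ i, σ j, σ k} : Finset (Fin 6)) ∈ F := by
  rw [mem_pb h3, image_insert, image_insert, image_singleton]

theorem comp_bij {α : Type} (σ : Equiv.Perm (Fin 6)) :
    Function.Bijective fun g : Fin 6 → α => g ∘ σ := by
  constructor
  · intro g h e
    funext i
    have := congrFun e (σ.symm i)
    simpa using this
  · intro g
    exact ⟨g ∘ σ.symm, by funext i; simp⟩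

theorem homs_pb (h3 : ∀ t ∈ F, t.card = 3) {n : ℕ} (H : Finset (Finset (Fin n))) :
    homs F H = homs (pb σ F) H := by
  unfold homs
  refine card_bijective _ (comp_bij σ) fun g => ?_
  rw [mem_filter, mem_filter]
  refine ⟨fun h => ⟨mem_univ _, fun t ht => ?_⟩, fun h => ⟨mem_univ _, fun t ht => ?_⟩⟩
  · rw [← image_image]
    exact h.2 _ ((mem_pb h3).mp ht)
  · have h1 : t = (t.image σ.symm).image σ := by
      rw [image_image]
      simp
    have h2 : t.image σ.symm ∈ pb σ F := by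
      rw [mem_pb h3, ← h1]; exact ht
    have h5 := h.2 _ h2
    rw [← image_image, ← h1] at h5
    exact h5

theorem cols_pb (h3 : ∀ t ∈ F, t.card = 3) : cols F = cols (pb σ F) := by
  unfold cols
  refine card_bijective _ (comp_bij σ) fun g => ?_
  rw [mem_filter, mem_filter]
  refine ⟨fun h => ⟨mem_univ _, fun t ht => ?_⟩, fun h => ⟨mem_univ _, fun t ht => ?_⟩⟩
  · exact (mem_turan_comp g σ σ.injective t).mp (h.2 ((mem_pb h3).mp ht))
  · have h1 : t = (t.image σ.symm).image σ := by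
      rw [image_image]
      simp
    have h2 : t.image σ.symm ∈ pb σ F := by
      rw [mem_pb h3, ← h1]; exact ht
    rw [h1]
    exact (mem_turan_comp g σ σ.injective _).mpr (h.2 h2)

end

/-! ### the conditions -/

/-- The link graph of the vertex `v` of `F`: the graph on the other vertices in which `a`, `b` are
adjacent if and only if `{v, a, b}` is an edge of `F`. -/
def link (F : Finset (Finset (Fin 6))) (v : Fin 6) : SimpleGraph {x : Fin 6 // x ≠ v} :=
  SimpleGraph.fromRel fun a b => ({v, a.1, b.1} : Finset (Fin 6)) ∈ F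

/-- every four vertices contain an edge -/
def Qd (F : Finset (Finset (Fin 6))) : Prop :=
  ∀ a b d e : Fin 6, a < b → b < d → d < e → ({a, b, d} : Finset (Fin 6)) ∈ F ∨
    ({a, b, e} : Finset (Fin 6)) ∈ F ∨ ({a, d, e} : Finset (Fin 6)) ∈ F ∨
    ({b, d, e} : Finset (Fin 6)) ∈ F

/-- consequences of the connectedness of the links -/
def Ct (F : Finset (Finset (Fin 6))) : Prop :=
  ∀ v a b : Fin 6, v ≠ a → v ≠ b → ∃ x, x ≠ a ∧ x ≠ b ∧
    (({v, a, x} : Finset (Fin 6)) ∈ F ∨ ({v, b, x} : Finset (Fin 6)) ∈ F)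

theorem four_sub {F : Finset (Finset (Fin 6))} (h3 : ∀ t ∈ F, t.card = 3)
    (h4 : ∀ S : Finset (Fin 6), S.card = 4 → ∃ t ∈ F, t ⊆ S) {a b d e : Fin 6}
    (hab : a ≠ b) (had : a ≠ d) (hae : a ≠ e) (hbd : b ≠ d) (hbe : b ≠ e) (hde : d ≠ e) :
    ({a, b, d} : Finset (Fin 6)) ∈ F ∨
    ({a, b, e} : Finset (Fin 6)) ∈ F ∨ ({a, d, e} : Finset (Fin 6)) ∈ F ∨
    ({b, d, e} : Finset (Fin 6)) ∈ F := by
  have hS : ({a, b, d, e} : Finset (Fin 6)).card = 4 := by
    rw [card_insert_of_notMem (by simp [hab, had, hae]), card_insert_of_notMem (by simp [hbd, hbe]),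
      card_pair hde]
  obtain ⟨t, ht, hs⟩ := h4 _ hS
  have h5 := h3 t ht
  have h6 : (({a, b, d, e} : Finset (Fin 6)) \ t).card = 1 := by
    rw [card_sdiff_of_subset hs, hS, h5]
  obtain ⟨z, hz⟩ := card_eq_one.mp h6
  have h7 : z ∈ ({a, b, d, e} : Finset (Fin 6)) := by
    have : z ∈ ({a, b, d, e} : Finset (Fin 6)) \ t := by rw [hz]; exact mem_singleton_self _
    exact (mem_sdiff.mp this).1
  have h8 : t = ({a, b, d, e} : Finset (Fin 6)).erase z := by
    rw [← Finset.sdiff_sdiff_eq_self hs, hz, sdiff_singleton_eq_erase]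
  simp only [mem_insert, mem_singleton] at h7
  rcases h7 with rfl | rfl | rfl | rfl
  · right; right; right
    rw [erase_insert (by simp [hab, had, hae])] at h8
    rwa [h8] at ht
  · right; right; left
    have : ({a, z, d, e} : Finset (Fin 6)).erase z = {a, d, e} := by
      ext y; simp only [mem_erase, mem_insert, mem_singleton]
      constructor
      · rintro ⟨h, h' | h' | h' | h'⟩ <;> simp_all
      · rintro (h' | h' | h') <;> subst h' <;> simp_all [Ne.symm]
    rw [this] at h8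
    rwa [h8] at ht
  · right; left
    have : ({a, b, z, e} : Finset (Fin 6)).erase z = {a, b, e} := by
      ext y; simp only [mem_erase, mem_insert, mem_singleton]
      constructor
      · rintro ⟨h, h' | h' | h' | h'⟩ <;> simp_all
      · rintro (h' | h' | h') <;> subst h' <;> simp_all [Ne.symm]
    rw [this] at h8
    rwa [h8] at ht
  · left
    have : ({a, b, d, z} : Finset (Fin 6)).erase z = {a, b, d} := by
      ext y; simp only [mem_erase, mem_insert, mem_singleton]
      constructor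
      · rintro ⟨h, h' | h' | h' | h'⟩ <;> simp_all
      · rintro (h' | h' | h') <;> subst h' <;> simp_all [Ne.symm]
    rw [this] at h8
    rwa [h8] at ht

theorem out3 : ∀ v a b : Fin 6, ∃ z, z ≠ v ∧ z ≠ a ∧ z ≠ b := by decide

theorem Ct_of_link {F : Finset (Finset (Fin 6))} (h : ∀ v, (link F v).Connected) : Ct F := by
  intro v a b hva hvb
  obtain ⟨z, hzv, hza, hzb⟩ := out3 v a b
  obtain ⟨w⟩ := (h v).preconnected ⟨a, hva.symm⟩ ⟨z, hzv⟩
  obtain ⟨d, -, h1, h2⟩ := w.exists_boundary_dart {y | y.1 = a ∨ y.1 = b} (Or.inl rfl)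
    (by rintro (h' | h'); exacts [hza h', hzb h'])
  have h3 := d.adj
  have h4 : ({v, d.fst.1, d.snd.1} : Finset (Fin 6)) ∈ F := by
    rcases (SimpleGraph.fromRel_adj _ _ _).mp h3 with ⟨-, h5 | h5⟩
    · exact h5
    · rw [← set_132]; exact h5
  refine ⟨d.snd.1, fun h' => h2 (Or.inl h'), fun h' => h2 (Or.inr h'), ?_⟩
  rcases h1 with h1 | h1
  · left; rw [← h1]; exact h4
  · right; rw [← h1]; exact h4

theorem Ct_pb {σ : Equiv.Perm (Fin 6)} {F : Finset (Finset (Fin 6))} (h3 : ∀ t ∈ F, t.card = 3)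
    (h : Ct F) : Ct (pb σ F) := by
  intro v a b hva hvb
  obtain ⟨x, hxa, hxb, hx⟩ := h (σ v) (σ a) (σ b) (fun h' => hva (σ.injective h'))
    (fun h' => hvb (σ.injective h'))
  refine ⟨σ.symm x, fun h' => hxa (by rw [← h', Equiv.apply_symm_apply]),
    fun h' => hxb (by rw [← h', Equiv.apply_symm_apply]), ?_⟩
  rw [mem_pb3 h3, mem_pb3 h3, Equiv.apply_symm_apply]
  exact hx

theorem Qd_pb {σ : Equiv.Perm (Fin 6)} {F : Finset (Finset (Fin 6))} (h3 : ∀ t ∈ F, t.card = 3)
    (h4 : ∀ S : Finset (Fin 6), S.card = 4 → ∃ t ∈ F, t ⊆ S) : Qd (pb σ F) := by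
  intro a b d e hab hbd hde
  rw [mem_pb3 h3, mem_pb3 h3, mem_pb3 h3, mem_pb3 h3]
  have n : ∀ {i j : Fin 6}, i < j → σ i ≠ σ j := fun h h' => h.ne (σ.injective h')
  exact four_sub h3 h4 (n hab) (n (hab.trans hbd)) (n ((hab.trans hbd).trans hde)) (n hbd)
    (n (hbd.trans hde)) (n hde)

/-! ### colourings -/

/-- one of the triples of a quadruple is an edge of Turán's construction -/
def rq (c : Fin 6 → Fin 3) (a b d e : Fin 6) : Bool :=
  rB (c a) (c b) (c d) || rB (c a) (c b) (c e) || rB (c a) (c d) (c e) || rB (c b) (c d) (c e)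

def rqa (c : Fin 6 → Fin 3) : Bool :=
  rq c 0 1 2 3 && rq c 0 1 2 4 && rq c 0 1 2 5 && rq c 0 1 3 4 && rq c 0 1 3 5 && rq c 0 1 4 5 &&
  rq c 0 2 3 4 && rq c 0 2 3 5 && rq c 0 2 4 5 && rq c 0 3 4 5 && rq c 1 2 3 4 && rq c 1 2 3 5 &&
  rq c 1 2 4 5 && rq c 1 3 4 5 && rq c 2 3 4 5

theorem fib2 : ∀ c : Fin 6 → Fin 3, rqa c = true →
    ∀ p, ((univ : Finset (Fin 6)).filter fun i => c i = p).card = 2 := by decide +kernel

/-- the colouring with the classes `{0, 1}`, `{2, 3}`, `{4, 5}` -/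
def c0 : Fin 6 → Fin 3 := ![0, 0, 1, 1, 2, 2]

theorem exists_perm {c : Fin 6 → Fin 3}
    (h : ∀ p, ((univ : Finset (Fin 6)).filter fun i => c i = p).card = 2) :
    ∃ σ : Equiv.Perm (Fin 6), c ∘ σ = c0 := by
  obtain ⟨a0, b0, n0, e0⟩ := card_eq_two.mp (h 0)
  obtain ⟨a1, b1, n1, e1⟩ := card_eq_two.mp (h 1)
  obtain ⟨a2, b2, n2, e2⟩ := card_eq_two.mp (h 2)
  have m : ∀ {p : Fin 3} {a b : Fin 6}, (univ : Finset (Fin 6)).filter (fun i => c i = p) = {a, b} →
      c a = p ∧ c b = p := by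
    intro p a b e
    have h1 : a ∈ (univ : Finset (Fin 6)).filter fun i => c i = p := by rw [e]; simp
    have h2 : b ∈ (univ : Finset (Fin 6)).filter fun i => c i = p := by rw [e]; simp
    exact ⟨(mem_filter.mp h1).2, (mem_filter.mp h2).2⟩
  obtain ⟨p0, q0⟩ := m e0
  obtain ⟨p1, q1⟩ := m e1
  obtain ⟨p2, q2⟩ := m e2
  have hc : c ∘ ![a0, b0, a1, b1, a2, b2] = c0 := by
    funext i
    fin_cases i
    exacts [p0, q0, p1, q1, p2, q2]
  have hi : Function.Injective ![a0, b0, a1, b1, a2, b2] := by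
    intro i j hij
    have hcij : c0 i = c0 j := by rw [← hc]; exact congrArg c hij
    fin_cases i <;> fin_cases j <;> first | rfl | exact absurd hcij (by decide) | skip
    exacts [absurd hij n0, absurd hij.symm n0, absurd hij n1, absurd hij.symm n1, absurd hij n2,
      absurd hij.symm n2]
  exact ⟨Equiv.ofBijective _ (Finite.injective_iff_bijective.mp hi), hc⟩

theorem rB_of {F : Finset (Finset (Fin 6))} {c : Fin 6 → Fin 3} (hF : F ⊆ turan c) {i j k : Fin 6}
    (hij : i ≠ j) (hik : i ≠ k) (hjk : j ≠ k) (h : ({i, j, k} : Finset (Fin 6)) ∈ F) :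
    rB (c i) (c j) (c k) = true := by
  have h1 := (mem_turan hij hik hjk).mp (hF h)
  unfold Rf at h1
  by_contra h2
  rw [Bool.not_eq_true] at h2
  rw [h2] at h1
  exact absurd h1 (by decide)

theorem rqa_true {F : Finset (Finset (Fin 6))} {c : Fin 6 → Fin 3} (hF : F ⊆ turan c)
    (h3 : ∀ t ∈ F, t.card = 3)
    (h4 : ∀ S : Finset (Fin 6), S.card = 4 → ∃ t ∈ F, t ⊆ S) : rqa c = true := by
  have key : ∀ a b d e : Fin 6, a < b → b < d → d < e → rq c a b d e = true := by
    intro a b d e hab hbd hde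
    unfold rq
    simp only [Bool.or_eq_true]
    have h5 := four_sub h3 h4 hab.ne (hab.trans hbd).ne ((hab.trans hbd).trans hde).ne hbd.ne
      (hbd.trans hde).ne hde.ne
    rcases h5 with h | h | h | h
    · exact Or.inl (Or.inl (Or.inl (rB_of hF hab.ne (hab.trans hbd).ne hbd.ne h)))
    · exact Or.inl (Or.inl (Or.inr (rB_of hF hab.ne ((hab.trans hbd).trans hde).ne (hbd.trans hde).ne h)))
    · exact Or.inl (Or.inr (rB_of hF (hab.trans hbd).ne ((hab.trans hbd).trans hde).ne hde.ne h))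
    · exact Or.inr (rB_of hF hbd.ne (hbd.trans hde).ne hde.ne h)
  unfold rqa
  simp only [Bool.and_eq_true]
  refine ⟨⟨⟨⟨⟨⟨⟨⟨⟨⟨⟨⟨⟨⟨?_, ?_⟩, ?_⟩, ?_⟩, ?_⟩, ?_⟩, ?_⟩, ?_⟩, ?_⟩, ?_⟩, ?_⟩, ?_⟩, ?_⟩, ?_⟩, ?_⟩ <;>
    exact key _ _ _ _ (by decide) (by decide) (by decide)

theorem pb_turan {σ : Equiv.Perm (Fin 6)} {F : Finset (Finset (Fin 6))} {c : Fin 6 → Fin 3}
    (h3 : ∀ t ∈ F, t.card = 3) (hF : F ⊆ turan c) : pb σ F ⊆ turan (c ∘ σ) := fun t ht =>
  (mem_turan_comp c σ σ.injective t).mp (hF ((mem_pb h3).mp ht))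

/-! ### the conditions for masks -/

theorem nall_intro {n : ℕ} {f : ℕ → Bool} (h : ∀ k < n, f k = true) : nall n f = true := by
  induction n with
  | zero => rfl
  | succ n ih =>
    change (nall n f && f n) = true
    rw [ih fun k hk => h k (Nat.lt_succ_of_lt hk), h n (Nat.lt_succ_self n)]
    rfl

/-- every four vertices contain an edge -/
def cQ (m : ℕ) : Bool := nall 6 fun e => nall e fun d => nall d fun b => nall b fun a =>
  or (tb m a b d) (or (tb m a b e) (or (tb m a d e) (tb m b d e)))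

/-- the consequences of the connectedness of the links -/
def cC (m : ℕ) : Bool := nall 6 fun v => nall 6 fun a => nall (Nat.succ a) fun b =>
  or (Nat.beq v a) (or (Nat.beq v b) (not (nall 6 fun x =>
    or (Nat.beq x a) (or (Nat.beq x b) (not (or (tb m v a x) (tb m v b x)))))))

theorem cQ_true {F : Finset (Finset (Fin 6))} (h3 : ∀ t ∈ F, t.card = 3) (h : Qd F) :
    cQ (mk6 F) = true := by
  unfold cQ
  refine nall_intro fun e he => nall_intro fun d hd => nall_intro fun b hb => nall_intro fun a ha => ?_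
  have h1 := h ⟨a, by omega⟩ ⟨b, by omega⟩ ⟨d, by omega⟩ ⟨e, he⟩ ha hb hd
  simp only [Bool.or_eq_true]
  rcases h1 with h1 | h1 | h1 | h1
  · exact Or.inl ((tb_mk6 h3 _ _ _).mpr h1)
  · exact Or.inr (Or.inl ((tb_mk6 h3 _ _ _).mpr h1))
  · exact Or.inr (Or.inr (Or.inl ((tb_mk6 h3 _ _ _).mpr h1)))
  · exact Or.inr (Or.inr (Or.inr ((tb_mk6 h3 _ _ _).mpr h1)))

theorem cC_true {F : Finset (Finset (Fin 6))} (h3 : ∀ t ∈ F, t.card = 3) (h : Ct F) :
    cC (mk6 F) = true := by
  unfold cC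
  refine nall_intro fun v hv => nall_intro fun a ha => nall_intro fun b hb => ?_
  by_cases hva : v = a
  · subst hva
    rw [Nat.beq_refl]; rfl
  by_cases hvb : v = b
  · subst hvb
    rw [Nat.beq_refl]; simp
  have hb6 : b < 6 := by
    have : b < a + 1 := hb
    omega
  obtain ⟨x, hxa, hxb, hx⟩ := h ⟨v, hv⟩ ⟨a, ha⟩ ⟨b, hb6⟩ (fun h' => hva (congrArg Fin.val h'))
    (fun h' => hvb (congrArg Fin.val h'))
  have h1 : nall 6 (fun x => or (Nat.beq x a) (or (Nat.beq x b)
      (not (or (tb (mk6 F) v a x) (tb (mk6 F) v b x))))) = false := by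
    rw [← Bool.not_eq_true]
    intro h2
    have h4 := nall_true h2 x.val x.isLt
    simp only [Bool.or_eq_true, Bool.not_eq_true'] at h4
    rcases h4 with h4 | h4 | h4
    · exact hxa (Fin.ext (Nat.eq_of_beq_eq_true h4))
    · exact hxb (Fin.ext (Nat.eq_of_beq_eq_true h4))
    · rw [Bool.or_eq_false_iff] at h4
      rcases hx with hx | hx
      · have := (tb_mk6 h3 ⟨v, hv⟩ ⟨a, ha⟩ x).mpr hx
        rw [show tb (mk6 F) v a x = true from this] at h4
        exact absurd h4.1 (by decide)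
      · have := (tb_mk6 h3 ⟨v, hv⟩ ⟨b, hb6⟩ x).mpr hx
        rw [show tb (mk6 F) v b x = true from this] at h4
        exact absurd h4.2 (by decide)
  rw [h1]
  simp

/-! ### three colourings -/

theorem turan_rot {n : ℕ} (g : Fin n → Fin 3) : turan (fun i => g i + 1) = turan g := by
  have key : ∀ p q r : Fin 3, Rf (p + 1) (q + 1) (r + 1) = Rf p q r := by
    unfold Rf; decide +kernel
  ext t
  by_cases ht : t.card = 3
  · obtain ⟨a, b, c, h1, h2, h4, rfl⟩ := card_eq_three.mp ht
    rw [mem_turan h1 h2 h4, mem_turan h1 h2 h4, key]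
  · exact ⟨fun h => absurd (turan_card h) ht, fun h => absurd (turan_card h) ht⟩

theorem cols_ge3 {F : Finset (Finset (Fin 6))} (hF : F ⊆ turan c0) : 3 ≤ cols F := by
  unfold cols
  have e1 : turan (fun i => c0 i + 1) = turan c0 := turan_rot _
  have e2 : turan (fun i => c0 i + 1 + 1) = turan c0 := by
    rw [← e1]; exact turan_rot _
  have h : ({c0, fun i => c0 i + 1, fun i => c0 i + 1 + 1} : Finset (Fin 6 → Fin 3)) ⊆
      (univ : Finset (Fin 6 → Fin 3)).filter fun c => F ⊆ turan c := by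
    intro c hc
    rw [mem_filter]
    refine ⟨mem_univ _, ?_⟩
    simp only [mem_insert, mem_singleton] at hc
    rcases hc with rfl | rfl | rfl
    · exact hF
    · rw [e1]; exact hF
    · rw [e2]; exact hF
  refine le_trans (le_of_eq ?_) (card_le_card h)
  rw [card_insert_of_notMem, card_pair]
  · intro h2; have := congrFun h2 0; revert this; decide
  · simp only [mem_insert, mem_singleton]
    rintro (h2 | h2) <;> (have := congrFun h2 0; revert this; decide)

end Pool.Agent.U986.LC
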