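import Pool.Agent.U986.LC.Pat3
import Pool.Agent.U986.LC.Y558tFin
import Pool.Agent.U986.LC.Y558zFin
import Pool.Agent.U986.LC.Y805tFin
import Pool.Agent.U986.LC.Y805zFin
import Pool.Agent.U986.LC.Y721tFin
import Pool.Agent.U986.LC.Y721zFin
import Pool.Agent.U986.LC.Y797tFin
import Pool.Agent.U986.LC.Y797zFin
import Pool.Agent.U986.LC.Y217tFin
import Pool.Agent.U986.LC.Y217zFin
import Pool.Agent.U986.LC.Y863tFin
import Pool.Agent.U986.LC.Y863zFin
import Pool.Agent.U986.LC.Y864tFin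
import Pool.Agent.U986.LC.Y864zFin
import Pool.Agent.U986.LC.Y867tFin
import Pool.Agent.U986.LC.Y867zFin
import Pool.Agent.U986.LC.Y819tFin
import Pool.Agent.U986.LC.Y819zFin
import Pool.Agent.U986.LC.Y870tFin
import Pool.Agent.U986.LC.Y870zFin
import Pool.Agent.U986.LC.Y869tFin
import Pool.Agent.U986.LC.Y869zFin
import Pool.Agent.U986.LC.Y807tFin
import Pool.Agent.U986.LC.Y807zFin

/-! The inequalities for the 3-graphs contained in Turán's construction on six vertices. -/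

set_option autoImplicit false
set_option maxRecDepth 100000
set_option maxHeartbeats 4000000
open Finset
open scoped Classical

namespace Pool.Agent.U986.LC
open Pool.Agent.H122R2.N6 hiding K43Free
open Pool.Agent.H37R3.Pen hiding bt
open Pool.Agent.R85.GT Pool.Agent.Y580.FL Pool.Agent.TH773.ST Pool.Agent.N238.G6

theorem fY558 : FMT 3 14177 := by
  intro V _ E hE hK
  have hP := Y558t.main hE hK
  have sP := sum_wE (A := 15) (b1 := 16) (b2 := 0) hE FX558.cT FX558.okF FX558.cL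
  have hQ := Y558z.main hE hK
  have sQ := sum_wE (A := 15) (b1 := 0) (b2 := 4) hE FX558.cT FX558.okF FX558.cL
  unfold N6 X3
  generalize (∑ x : Fin 6 → V, wE E FX558.T 15 16 0 (x 0) (x 1) (x 2) (x 3) (x 4) (x 5)) = w1 at hP sP
  generalize (∑ x : Fin 6 → V, wE E FX558.T 15 0 4 (x 0) (x 1) (x 2) (x 3) (x 4) (x 5)) = w2 at hQ sQ
  generalize (∑ x : Fin 6 → V, SubI E 14177 x) = Z at sP sQ ⊢
  generalize Fintype.card V ^ 3 * ∑ a, ∑ b, ∑ c, E a b c = X at sP sQ ⊢
  generalize Fintype.card V ^ 6 = W at hP sP hQ sQ ⊢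
  generalize NT E = T at hP hQ ⊢
  omega

theorem fY805 : FMT 3 79658 := by
  intro V _ E hE hK
  have hP := Y805t.main hE hK
  have sP := sum_wE (A := 15) (b1 := 16) (b2 := 0) hE FX805.cT FX805.okF FX805.cL
  have hQ := Y805z.main hE hK
  have sQ := sum_wE (A := 15) (b1 := 0) (b2 := 4) hE FX805.cT FX805.okF FX805.cL
  unfold N6 X3
  generalize (∑ x : Fin 6 → V, wE E FX805.T 15 16 0 (x 0) (x 1) (x 2) (x 3) (x 4) (x 5)) = w1 at hP sP
  generalize (∑ x : Fin 6 → V, wE E FX805.T 15 0 4 (x 0) (x 1) (x 2) (x 3) (x 4) (x 5)) = w2 at hQ sQ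
  generalize (∑ x : Fin 6 → V, SubI E 79658 x) = Z at sP sQ ⊢
  generalize Fintype.card V ^ 3 * ∑ a, ∑ b, ∑ c, E a b c = X at sP sQ ⊢
  generalize Fintype.card V ^ 6 = W at hP sP hQ sQ ⊢
  generalize NT E = T at hP hQ ⊢
  omega

theorem fY721 : FMT 6 78620 := by
  intro V _ E hE hK
  have hP := Y721t.main hE hK
  have sP := sum_wE (A := 15) (b1 := 32) (b2 := 0) hE FX721.cT FX721.okF FX721.cL
  have hQ := Y721z.main hE hK
  have sQ := sum_wE (A := 15) (b1 := 0) (b2 := 8) hE FX721.cT FX721.okF FX721.cL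
  unfold N6 X3
  generalize (∑ x : Fin 6 → V, wE E FX721.T 15 32 0 (x 0) (x 1) (x 2) (x 3) (x 4) (x 5)) = w1 at hP sP
  generalize (∑ x : Fin 6 → V, wE E FX721.T 15 0 8 (x 0) (x 1) (x 2) (x 3) (x 4) (x 5)) = w2 at hQ sQ
  generalize (∑ x : Fin 6 → V, SubI E 78620 x) = Z at sP sQ ⊢
  generalize Fintype.card V ^ 3 * ∑ a, ∑ b, ∑ c, E a b c = X at sP sQ ⊢
  generalize Fintype.card V ^ 6 = W at hP sP hQ sQ ⊢
  generalize NT E = T at hP hQ ⊢
  omega

theorem fY797 : FMT 3 79644 := by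
  intro V _ E hE hK
  have hP := Y797t.main hE hK
  have sP := sum_wE (A := 15) (b1 := 8) (b2 := 0) hE FX797.cT FX797.okF FX797.cL
  have hQ := Y797z.main hE hK
  have sQ := sum_wE (A := 15) (b1 := 0) (b2 := 2) hE FX797.cT FX797.okF FX797.cL
  unfold N6 X3
  generalize (∑ x : Fin 6 → V, wE E FX797.T 15 8 0 (x 0) (x 1) (x 2) (x 3) (x 4) (x 5)) = w1 at hP sP
  generalize (∑ x : Fin 6 → V, wE E FX797.T 15 0 2 (x 0) (x 1) (x 2) (x 3) (x 4) (x 5)) = w2 at hQ sQ
  generalize (∑ x : Fin 6 → V, SubI E 79644 x) = Z at sP sQ ⊢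
  generalize Fintype.card V ^ 3 * ∑ a, ∑ b, ∑ c, E a b c = X at sP sQ ⊢
  generalize Fintype.card V ^ 6 = W at hP sP hQ sQ ⊢
  generalize NT E = T at hP hQ ⊢
  omega

theorem fY217 : FMT 3 3531 := by
  intro V _ E hE hK
  have hP := Y217t.main hE hK
  have sP := sum_wE (A := 15) (b1 := 16) (b2 := 0) hE FX217.cT FX217.okF FX217.cL
  have hQ := Y217z.main hE hK
  have sQ := sum_wE (A := 15) (b1 := 0) (b2 := 4) hE FX217.cT FX217.okF FX217.cL
  unfold N6 X3
  generalize (∑ x : Fin 6 → V, wE E FX217.T 15 16 0 (x 0) (x 1) (x 2) (x 3) (x 4) (x 5)) = w1 at hP sP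
  generalize (∑ x : Fin 6 → V, wE E FX217.T 15 0 4 (x 0) (x 1) (x 2) (x 3) (x 4) (x 5)) = w2 at hQ sQ
  generalize (∑ x : Fin 6 → V, SubI E 3531 x) = Z at sP sQ ⊢
  generalize Fintype.card V ^ 3 * ∑ a, ∑ b, ∑ c, E a b c = X at sP sQ ⊢
  generalize Fintype.card V ^ 6 = W at hP sP hQ sQ ⊢
  generalize NT E = T at hP hQ ⊢
  omega

theorem fY863 : FMT 15 88662 := by
  intro V _ E hE hK
  have hP := Y863t.main hE hK
  have sP := sum_wE (A := 9) (b1 := 8) (b2 := 0) hE FX863.cT FX863.okF FX863.cL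
  have hQ := Y863z.main hE hK
  have sQ := sum_wE (A := 9) (b1 := 0) (b2 := 2) hE FX863.cT FX863.okF FX863.cL
  unfold N6 X3
  generalize (∑ x : Fin 6 → V, wE E FX863.T 9 8 0 (x 0) (x 1) (x 2) (x 3) (x 4) (x 5)) = w1 at hP sP
  generalize (∑ x : Fin 6 → V, wE E FX863.T 9 0 2 (x 0) (x 1) (x 2) (x 3) (x 4) (x 5)) = w2 at hQ sQ
  generalize (∑ x : Fin 6 → V, SubI E 88662 x) = Z at sP sQ ⊢
  generalize Fintype.card V ^ 3 * ∑ a, ∑ b, ∑ c, E a b c = X at sP sQ ⊢
  generalize Fintype.card V ^ 6 = W at hP sP hQ sQ ⊢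
  generalize NT E = T at hP hQ ⊢
  omega

theorem fY864 : FMT 6 88663 := by
  intro V _ E hE hK
  have hP := Y864t.main hE hK
  have sP := sum_wE (A := 45) (b1 := 16) (b2 := 0) hE FX864.cT FX864.okF FX864.cL
  have hQ := Y864z.main hE hK
  have sQ := sum_wE (A := 45) (b1 := 0) (b2 := 4) hE FX864.cT FX864.okF FX864.cL
  unfold N6 X3
  generalize (∑ x : Fin 6 → V, wE E FX864.T 45 16 0 (x 0) (x 1) (x 2) (x 3) (x 4) (x 5)) = w1 at hP sP
  generalize (∑ x : Fin 6 → V, wE E FX864.T 45 0 4 (x 0) (x 1) (x 2) (x 3) (x 4) (x 5)) = w2 at hQ sQ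
  generalize (∑ x : Fin 6 → V, SubI E 88663 x) = Z at sP sQ ⊢
  generalize Fintype.card V ^ 3 * ∑ a, ∑ b, ∑ c, E a b c = X at sP sQ ⊢
  generalize Fintype.card V ^ 6 = W at hP sP hQ sQ ⊢
  generalize NT E = T at hP hQ ⊢
  omega

theorem fY867 : FMT 9 88770 := by
  intro V _ E hE hK
  have hP := Y867t.main hE hK
  have sP := sum_wE (A := 15) (b1 := 8) (b2 := 0) hE FX867.cT FX867.okF FX867.cL
  have hQ := Y867z.main hE hK
  have sQ := sum_wE (A := 15) (b1 := 0) (b2 := 2) hE FX867.cT FX867.okF FX867.cL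
  unfold N6 X3
  generalize (∑ x : Fin 6 → V, wE E FX867.T 15 8 0 (x 0) (x 1) (x 2) (x 3) (x 4) (x 5)) = w1 at hP sP
  generalize (∑ x : Fin 6 → V, wE E FX867.T 15 0 2 (x 0) (x 1) (x 2) (x 3) (x 4) (x 5)) = w2 at hQ sQ
  generalize (∑ x : Fin 6 → V, SubI E 88770 x) = Z at sP sQ ⊢
  generalize Fintype.card V ^ 3 * ∑ a, ∑ b, ∑ c, E a b c = X at sP sQ ⊢
  generalize Fintype.card V ^ 6 = W at hP sP hQ sQ ⊢
  generalize NT E = T at hP hQ ⊢
  omega

theorem fY819 : FMT 3 79753 := by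
  intro V _ E hE hK
  have hP := Y819t.main hE hK
  have sP := sum_wE (A := 45) (b1 := 16) (b2 := 0) hE FX819.cT FX819.okF FX819.cL
  have hQ := Y819z.main hE hK
  have sQ := sum_wE (A := 45) (b1 := 0) (b2 := 4) hE FX819.cT FX819.okF FX819.cL
  unfold N6 X3
  generalize (∑ x : Fin 6 → V, wE E FX819.T 45 16 0 (x 0) (x 1) (x 2) (x 3) (x 4) (x 5)) = w1 at hP sP
  generalize (∑ x : Fin 6 → V, wE E FX819.T 45 0 4 (x 0) (x 1) (x 2) (x 3) (x 4) (x 5)) = w2 at hQ sQ
  generalize (∑ x : Fin 6 → V, SubI E 79753 x) = Z at sP sQ ⊢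
  generalize Fintype.card V ^ 3 * ∑ a, ∑ b, ∑ c, E a b c = X at sP sQ ⊢
  generalize Fintype.card V ^ 6 = W at hP sP hQ sQ ⊢
  generalize NT E = T at hP hQ ⊢
  omega

theorem fY870 : FMT 3 88778 := by
  intro V _ E hE hK
  have hP := Y870t.main hE hK
  have sP := sum_wE (A := 15) (b1 := 16) (b2 := 0) hE FX870.cT FX870.okF FX870.cL
  have hQ := Y870z.main hE hK
  have sQ := sum_wE (A := 15) (b1 := 0) (b2 := 4) hE FX870.cT FX870.okF FX870.cL
  unfold N6 X3
  generalize (∑ x : Fin 6 → V, wE E FX870.T 15 16 0 (x 0) (x 1) (x 2) (x 3) (x 4) (x 5)) = w1 at hP sP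
  generalize (∑ x : Fin 6 → V, wE E FX870.T 15 0 4 (x 0) (x 1) (x 2) (x 3) (x 4) (x 5)) = w2 at hQ sQ
  generalize (∑ x : Fin 6 → V, SubI E 88778 x) = Z at sP sQ ⊢
  generalize Fintype.card V ^ 3 * ∑ a, ∑ b, ∑ c, E a b c = X at sP sQ ⊢
  generalize Fintype.card V ^ 6 = W at hP sP hQ sQ ⊢
  generalize NT E = T at hP hQ ⊢
  omega

theorem fY869 : FMT 3 88775 := by
  intro V _ E hE hK
  have hP := Y869t.main hE hK
  have sP := sum_wE (A := 15) (b1 := 16) (b2 := 0) hE FX869.cT FX869.okF FX869.cL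
  have hQ := Y869z.main hE hK
  have sQ := sum_wE (A := 15) (b1 := 0) (b2 := 4) hE FX869.cT FX869.okF FX869.cL
  unfold N6 X3
  generalize (∑ x : Fin 6 → V, wE E FX869.T 15 16 0 (x 0) (x 1) (x 2) (x 3) (x 4) (x 5)) = w1 at hP sP
  generalize (∑ x : Fin 6 → V, wE E FX869.T 15 0 4 (x 0) (x 1) (x 2) (x 3) (x 4) (x 5)) = w2 at hQ sQ
  generalize (∑ x : Fin 6 → V, SubI E 88775 x) = Z at sP sQ ⊢
  generalize Fintype.card V ^ 3 * ∑ a, ∑ b, ∑ c, E a b c = X at sP sQ ⊢
  generalize Fintype.card V ^ 6 = W at hP sP hQ sQ ⊢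
  generalize NT E = T at hP hQ ⊢
  omega

theorem fY807 : FMT 3 79660 := by
  intro V _ E hE hK
  have hP := Y807t.main hE hK
  have sP := sum_wE (A := 15) (b1 := 16) (b2 := 0) hE FX807.cT FX807.okF FX807.cL
  have hQ := Y807z.main hE hK
  have sQ := sum_wE (A := 15) (b1 := 0) (b2 := 4) hE FX807.cT FX807.okF FX807.cL
  unfold N6 X3
  generalize (∑ x : Fin 6 → V, wE E FX807.T 15 16 0 (x 0) (x 1) (x 2) (x 3) (x 4) (x 5)) = w1 at hP sP
  generalize (∑ x : Fin 6 → V, wE E FX807.T 15 0 4 (x 0) (x 1) (x 2) (x 3) (x 4) (x 5)) = w2 at hQ sQ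
  generalize (∑ x : Fin 6 → V, SubI E 79660 x) = Z at sP sQ ⊢
  generalize Fintype.card V ^ 3 * ∑ a, ∑ b, ∑ c, E a b c = X at sP sQ ⊢
  generalize Fintype.card V ^ 6 = W at hP sP hQ sQ ⊢
  generalize NT E = T at hP hQ ⊢
  omega

theorem FMT_sub {tc r m p : ℕ} (h : FMT tc r) (h0 : 0 < tc) (hr : okm r = true) (hm : okm m = true)
    (hp : Pool.Agent.U986.LC.chkS r m p = true) : FMT tc m :=
  FMT_mono h h0 le_rfl fun {_ _ _} hE => N6_sub hE hr hm hp

theorem gY793 : FMT 6 79637 :=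
  FMT_sub fY721 (by norm_num) (p := 82251) (by decide +kernel) (by decide +kernel) (by decide +kernel)

theorem cY793 : N6 Rf 79637 = 6 := by decide +kernel

theorem gY863 : FMT 15 88662 :=
  FMT_sub fY863 (by norm_num) (p := 181896) (by decide +kernel) (by decide +kernel) (by decide +kernel)

theorem cY863 : N6 Rf 88662 = 15 := by decide +kernel

theorem gY864 : FMT 6 88663 :=
  FMT_sub fY864 (by norm_num) (p := 181896) (by decide +kernel) (by decide +kernel) (by decide +kernel)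

theorem cY864 : N6 Rf 88663 = 6 := by decide +kernel

theorem gY865 : FMT 6 88670 :=
  FMT_sub fY721 (by norm_num) (p := 181448) (by decide +kernel) (by decide +kernel) (by decide +kernel)

theorem cY865 : N6 Rf 88670 = 6 := by decide +kernel

theorem gY867 : FMT 9 88770 :=
  FMT_sub fY867 (by norm_num) (p := 181896) (by decide +kernel) (by decide +kernel) (by decide +kernel)

theorem cY867 : N6 Rf 88770 = 9 := by decide +kernel

theorem gY868 : FMT 6 88771 :=
  FMT_sub fY721 (by norm_num) (p := 99436) (by decide +kernel) (by decide +kernel) (by decide +kernel)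

theorem cY868 : N6 Rf 88771 = 6 := by decide +kernel

theorem gY875 : FMT 6 88790 :=
  FMT_sub fY721 (by norm_num) (p := 173601) (by decide +kernel) (by decide +kernel) (by decide +kernel)

theorem cY875 : N6 Rf 88790 = 6 := by decide +kernel

theorem gY957 : FMT 15 242467 :=
  FMT_sub fY863 (by norm_num) (p := 177416) (by decide +kernel) (by decide +kernel) (by decide +kernel)

theorem cY957 : N6 Rf 242467 = 15 := by decide +kernel

theorem gY958 : FMT 6 242471 :=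
  FMT_sub fY721 (by norm_num) (p := 153105) (by decide +kernel) (by decide +kernel) (by decide +kernel)

theorem cY958 : N6 Rf 242471 = 6 := by decide +kernel

theorem fb_zero {F : Finset (Finset (Fin 6))} (hF : F ⊆ turan c0) {i j k : Fin 6} (hij : i ≠ j)
    (hik : i ≠ k) (hjk : j ≠ k) (h : rB (c0 i) (c0 j) (c0 k) = false) : fb F i j k = 0 := by
  unfold fb
  rw [if_neg]
  intro h2
  rw [rB_of hF hij hik hjk h2] at h
  exact absurd h (by decide)

theorem mk6_cmt {F : Finset (Finset (Fin 6))} (hF : F ⊆ turan c0) : mk6 F = cmt (fb F 0 1 2) (fb F 0 1 3) (fb F 0 2 4) (fb F 1 2 4) (fb F 0 3 4) (fb F 1 3 4) (fb F 2 3 4) (fb F 0 2 5) (fb F 1 2 5) (fb F 0 3 5) (fb F 1 3 5) (fb F 2 3 5) (fb F 0 4 5) (fb F 1 4 5) := by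
  unfold mk6 cmt
  rw [fb_zero hF (i := 0) (j := 2) (k := 3) (by decide) (by decide) (by decide) (by decide), fb_zero hF (i := 1) (j := 2) (k := 3) (by decide) (by decide) (by decide) (by decide), fb_zero hF (i := 0) (j := 1) (k := 4) (by decide) (by decide) (by decide) (by decide), fb_zero hF (i := 0) (j := 1) (k := 5) (by decide) (by decide) (by decide) (by decide), fb_zero hF (i := 2) (j := 4) (k := 5) (by decide) (by decide) (by decide) (by decide), fb_zero hF (i := 3) (j := 4) (k := 5) (by decide) (by decide) (by decide) (by decide)]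

theorem ttp_of {m w : ℕ} (h1 : cQ m = true) (h2 : cC m = true) (h : tlf m w = true) :
    okm m = true ∧ ∃ r p, okm r = true ∧ ((okX r = true ∧ chkP m r p = true) ∨
      (okR r = true ∧ Pool.Agent.U986.LC.chkS r m p = true)) := by
  unfold tlf at h
  generalize ent w = e at h
  rw [h1, h2, Bool.and_true, Bool.not_true, Bool.false_or] at h
  unfold ttp at h
  rw [Bool.and_eq_true, Bool.and_eq_true, Bool.or_eq_true, Bool.and_eq_true, Bool.and_eq_true] at h
  exact ⟨h.1, _, _, h.2.1, h.2.2⟩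

theorem factp0 {F : Finset (Finset (Fin 6))} (hF : F ⊆ turan c0) (hQ : Qd F) (hC : Ct F) :
    FMT (cols F) (mk6 F) := by
  have h3 : ∀ t ∈ F, t.card = 3 := fun t ht => turan_card (hF ht)
  have h := (B2_true (B2_true (B2_true (B2_true (B2_true (B2_true (B2_true (B2_true (B2_true (B2_true (B2_true (B2_true (Tp_all (fb_Bt F 0 1 2) (fb_Bt F 0 1 3)) (fb_Bt F 0 2 4)) (fb_Bt F 1 2 4)) (fb_Bt F 0 3 4)) (fb_Bt F 1 3 4)) (fb_Bt F 2 3 4)) (fb_Bt F 0 2 5)) (fb_Bt F 1 2 5)) (fb_Bt F 0 3 5)) (fb_Bt F 1 3 5)) (fb_Bt F 2 3 5)) (fb_Bt F 0 4 5)) (fb_Bt F 1 4 5))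
  unfold tcp at h
  rw [← mk6_cmt hF] at h
  obtain ⟨hm, r, p, hr, h5⟩ := ttp_of (cQ_true h3 hQ) (cC_true h3 hC) h
  clear h
  have hcol := N6_Rf6 h3
  rw [← hcol]
  have h3c : 3 ≤ N6 Rf (mk6 F) := by rw [hcol]; exact cols_ge3 hF
  generalize mk6 F = m at hm h5 h3c ⊢
  rcases h5 with ⟨h6, h7⟩ | ⟨h6, h7⟩
  · have e1 : N6 Rf m = N6 Rf r := N6_relabel Rf_sy hm hr h7
    rw [e1]
    refine FMT_relabel ?_ hm hr h7
    unfold okX at h6
    simp only [Bool.or_eq_true] at h6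
    rcases h6 with h6 | h6 | h6 | h6 | h6 | h6 | h6 | h6 | h6
    · have := Nat.eq_of_beq_eq_true h6
      subst this
      rw [cY793]
      exact gY793
    · have := Nat.eq_of_beq_eq_true h6
      subst this
      rw [cY863]
      exact gY863
    · have := Nat.eq_of_beq_eq_true h6
      subst this
      rw [cY864]
      exact gY864
    · have := Nat.eq_of_beq_eq_true h6
      subst this
      rw [cY865]
      exact gY865
    · have := Nat.eq_of_beq_eq_true h6
      subst this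
      rw [cY867]
      exact gY867
    · have := Nat.eq_of_beq_eq_true h6
      subst this
      rw [cY868]
      exact gY868
    · have := Nat.eq_of_beq_eq_true h6
      subst this
      rw [cY875]
      exact gY875
    · have := Nat.eq_of_beq_eq_true h6
      subst this
      rw [cY957]
      exact gY957
    · have := Nat.eq_of_beq_eq_true h6
      subst this
      rw [cY958]
      exact gY958
  · unfold okR at h6
    simp only [Bool.or_eq_true] at h6
    rcases h6 with h6 | h6 | h6 | h6 | h6 | h6 | h6 | h6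
    · have := Nat.eq_of_beq_eq_true h6
      subst this
      exact FMT_mono fY558 (by norm_num) h3c fun {_ _ _} hE => N6_sub hE hr hm h7
    · have := Nat.eq_of_beq_eq_true h6
      subst this
      exact FMT_mono fY805 (by norm_num) h3c fun {_ _ _} hE => N6_sub hE hr hm h7
    · have := Nat.eq_of_beq_eq_true h6
      subst this
      exact FMT_mono fY797 (by norm_num) h3c fun {_ _ _} hE => N6_sub hE hr hm h7
    · have := Nat.eq_of_beq_eq_true h6
      subst this
      exact FMT_mono fY217 (by norm_num) h3c fun {_ _ _} hE => N6_sub hE hr hm h7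
    · have := Nat.eq_of_beq_eq_true h6
      subst this
      exact FMT_mono fY819 (by norm_num) h3c fun {_ _ _} hE => N6_sub hE hr hm h7
    · have := Nat.eq_of_beq_eq_true h6
      subst this
      exact FMT_mono fY870 (by norm_num) h3c fun {_ _ _} hE => N6_sub hE hr hm h7
    · have := Nat.eq_of_beq_eq_true h6
      subst this
      exact FMT_mono fY869 (by norm_num) h3c fun {_ _ _} hE => N6_sub hE hr hm h7
    · have := Nat.eq_of_beq_eq_true h6
      subst this
      exact FMT_mono fY807 (by norm_num) h3c fun {_ _ _} hE => N6_sub hE hr hm h7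

/-- the two inequalities and the stability for 3-graphs -/
theorem finp {n : ℕ} {H : Finset (Finset (Fin n))} (h3 : ∀ e ∈ H, e.card = 3) (hK : K43Free H)
    {C m : ℕ} (hC : 1 ≤ C) (h : FMT C m) :
    135 * N6 (tri H) m ≤ 2 * C * (n ^ 3 * H.card) ∧
    216 * (C * (n ^ 3 * H.card)) + 3645 * N6 (tri H) m ≤ 25 * (C * n ^ 6) ∧
    729 * N6 (tri H) m ≤ C * n ^ 6 ∧
    ∃ g : Fin n → Fin 3, n ^ 3 * (symmDiff H (turan g)).card +
      430080 * (729 * N6 (tri H) m) ≤ 430080 * (C * n ^ 6) := by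
  obtain ⟨a1, a2, a3⟩ := h (Fin n) (tri H) (tri_sy H) (tri_noK4 h3 hK)
  have e : X3 (tri H) = 6 * (n ^ 3 * H.card) := by
    unfold X3
    rw [Fintype.card_fin, S3_tri h3]
    ring
  rw [Fintype.card_fin] at a1 a3
  have b1 : 729 * N6 (tri H) m ≤ C * n ^ 6 := by omega
  obtain ⟨D, hD⟩ := Nat.exists_eq_add_of_le b1
  obtain ⟨g, hg⟩ := stab (tri_sy H) (tri_noK4 h3 hK) (Y := 2580480 * D) (by omega) (by
    intro hx
    rw [Fintype.card_fin] at hx ⊢
    have e1 := Nat.mul_le_mul_left C hx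
    have e2 : C * (1000 * X3 (tri H)) = 1000 * (C * X3 (tri H)) := by ring
    have e3 : C * (550 * n ^ 6) = 550 * (C * n ^ 6) := by ring
    rw [e2, e3] at e1
    have e4 : n ^ 6 ≤ C * n ^ 6 := Nat.le_mul_of_pos_left _ hC
    generalize C * X3 (tri H) = X at a2 e1
    generalize C * n ^ 6 = W at hD e1 e4
    generalize N6 (tri H) m = N at a2 hD
    generalize n ^ 6 = W0 at e4 ⊢
    omega)
  rw [Fintype.card_fin] at hg
  rw [e] at a2 a3
  have q1 : C * (6 * (n ^ 3 * H.card)) = 6 * (C * (n ^ 3 * H.card)) := by ring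
  have q2 : 2 * C * (n ^ 3 * H.card) = 2 * (C * (n ^ 3 * H.card)) := by ring
  rw [q1] at a2 a3
  refine ⟨?_, ?_, b1, g, ?_⟩
  · rw [q2]
    generalize C * (n ^ 3 * H.card) = X at a2 ⊢
    omega
  · generalize C * (n ^ 3 * H.card) = X at a3 ⊢
    generalize C * n ^ 6 = W at a3 ⊢
    omega
  · have h5 := Nat.mul_le_mul_left (n ^ 3) (six_symm_le h3 g)
    have h6 : n ^ 3 * (6 * (symmDiff H (turan g)).card) =
      6 * (n ^ 3 * (symmDiff H (turan g)).card) := by ring
    rw [h6] at h5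
    generalize n ^ 3 * (symmDiff H (turan g)).card = A at h5 ⊢
    generalize n ^ 3 * bad (tri H) g = B at h5 hg
    generalize C * n ^ 6 = W at hD ⊢
    generalize N6 (tri H) m = N at hD ⊢
    omega

theorem mainp {n : ℕ} {H : Finset (Finset (Fin n))} (h3 : ∀ e ∈ H, e.card = 3) (hK : K43Free H)
    {F : Finset (Finset (Fin 6))} (hc : ∃ c, F ⊆ turan c)
    (h4 : ∀ S : Finset (Fin 6), S.card = 4 → ∃ t ∈ F, t ⊆ S) (hl : ∀ v, (link F v).Connected) :
    135 * homs F H ≤ 2 * cols F * (n ^ 3 * H.card) ∧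
    216 * (cols F * (n ^ 3 * H.card)) + 3645 * homs F H ≤ 25 * (cols F * n ^ 6) ∧
    729 * homs F H ≤ cols F * n ^ 6 ∧
    ∃ g : Fin n → Fin 3, n ^ 3 * (symmDiff H (turan g)).card +
      430080 * (729 * homs F H) ≤ 430080 * (cols F * n ^ 6) := by
  obtain ⟨c, hc⟩ := hc
  have f3 : ∀ t ∈ F, t.card = 3 := fun t ht => turan_card (hc ht)
  obtain ⟨σ, hσ⟩ := exists_perm (fib2 c (rqa_true hc f3 h4))
  have hp : pb σ F ⊆ turan c0 := by rw [← hσ]; exact pb_turan f3 hc
  have h5 := factp0 hp (Qd_pb f3 h4) (Ct_pb f3 (Ct_of_link hl))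
  rw [← cols_pb f3] at h5
  have h6 : 1 ≤ cols F := by
    rw [cols_pb (σ := σ) f3]
    exact le_trans (by norm_num) (cols_ge3 hp)
  have h7 := finp h3 hK h6 h5
  rw [N6_tri6 (fun t ht => pb_card3 ht) H, ← homs_pb f3] at h7
  exact h7

end Pool.Agent.U986.LC
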