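import Pool.Agent.U986.LC.Cone

/-! 3-graphs on six vertices and their masks. -/

set_option autoImplicit false
set_option maxRecDepth 100000
set_option maxHeartbeats 4000000
open Finset
open scoped Classical

namespace Pool.Agent.U986.LC
open Pool.Agent.H122R2.N6 hiding K43Free
open Pool.Agent.H37R3.Pen hiding bt
open Pool.Agent.R85.GT Pool.Agent.Y580.FL Pool.Agent.TH773.ST Pool.Agent.N238.G6

/-- indicator of the triples of `F` -/
noncomputable def fb (F : Finset (Finset (Fin 6))) (i j k : Fin 6) : ℕ :=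
  if ({i, j, k} : Finset (Fin 6)) ∈ F then 1 else 0

theorem fb_Bt (F : Finset (Finset (Fin 6))) (i j k : Fin 6) : Bt (fb F i j k) := by
  unfold fb Bt; split_ifs <;> simp

theorem fb_le (F : Finset (Finset (Fin 6))) (i j k : Fin 6) {e : ℕ} (he : Bt e) :
    fb F i j k ≤ e ↔ (({i, j, k} : Finset (Fin 6)) ∈ F → e = 1) := by
  unfold fb
  rcases he with rfl | rfl <;> split_ifs with h <;> simp [h]

/-- the mask of a 3-graph on six vertices -/
noncomputable def mk6 (F : Finset (Finset (Fin 6))) : ℕ :=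
  cd6 (fb F 0 1 2) (fb F 0 1 3) (fb F 0 2 3) (fb F 1 2 3) (fb F 0 1 4) (fb F 0 2 4) (fb F 1 2 4) (fb F 0 3 4) (fb F 1 3 4) (fb F 2 3 4) (fb F 0 1 5) (fb F 0 2 5) (fb F 1 2 5) (fb F 0 3 5) (fb F 1 3 5) (fb F 2 3 5) (fb F 0 4 5) (fb F 1 4 5) (fb F 2 4 5) (fb F 3 4 5)

theorem set_213 {α : Type} [DecidableEq α] (i j k : α) : ({j, i, k} : Finset α) = {i, j, k} := by
  ext a; simp only [mem_insert, mem_singleton]; tauto

theorem set_132 {α : Type} [DecidableEq α] (i j k : α) : ({i, k, j} : Finset α) = {i, j, k} := by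
  ext a; simp only [mem_insert, mem_singleton]; tauto

section
variable {V : Type} [Fintype V] {E : V → V → V → ℕ}

omit [Fintype V] in
theorem sub6 (hE : Sy E) {F : Finset (Finset (Fin 6))} (h3 : ∀ t ∈ F, t.card = 3) (x : Fin 6 → V) :
    SubI E (mk6 F) x = if (∀ i j k : Fin 6, ({i, j, k} : Finset (Fin 6)) ∈ F → E (x i) (x j) (x k) = 1)
      then 1 else 0 := by
  have h4 := sb6_iff (fb_Bt F 0 1 2) (fb_Bt F 0 1 3) (fb_Bt F 0 2 3) (fb_Bt F 1 2 3) (fb_Bt F 0 1 4) (fb_Bt F 0 2 4) (fb_Bt F 1 2 4) (fb_Bt F 0 3 4) (fb_Bt F 1 3 4) (fb_Bt F 2 3 4) (fb_Bt F 0 1 5) (fb_Bt F 0 2 5) (fb_Bt F 1 2 5) (fb_Bt F 0 3 5) (fb_Bt F 1 3 5) (fb_Bt F 2 3 5) (fb_Bt F 0 4 5) (fb_Bt F 1 4 5) (fb_Bt F 2 4 5) (fb_Bt F 3 4 5) (hE.b (x 0) (x 1) (x 2)) (hE.b (x 0) (x 1) (x 3)) (hE.b (x 0) (x 2) (x 3)) (hE.b (x 1) (x 2) (x 3)) (hE.b (x 0) (x 1) (x 4)) (hE.b (x 0) (x 2) (x 4)) (hE.b (x 1) (x 2) (x 4)) (hE.b (x 0) (x 3) (x 4))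 (hE.b (x 1) (x 3) (x 4)) (hE.b (x 2) (x 3) (x 4)) (hE.b (x 0) (x 1) (x 5)) (hE.b (x 0) (x 2) (x 5)) (hE.b (x 1) (x 2) (x 5)) (hE.b (x 0) (x 3) (x 5)) (hE.b (x 1) (x 3) (x 5)) (hE.b (x 2) (x 3) (x 5)) (hE.b (x 0) (x 4) (x 5)) (hE.b (x 1) (x 4) (x 5)) (hE.b (x 2) (x 4) (x 5)) (hE.b (x 3) (x 4) (x 5))
  refine Eq.trans h4 (if_congr ?_ rfl rfl)
  constructor
  · rintro ⟨a0, a1, a2, a3, a4, a5, a6, a7, a8, a9, a10, a11, a12, a13, a14, a15, a16, a17, a18, a19⟩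
    have srt : ∀ i j k : Fin 6, i < j → j < k → (({i, j, k} : Finset (Fin 6)) ∈ F → E (x i) (x j) (x k) = 1) := by
      intro i j k hij hjk
      fin_cases i <;> fin_cases j <;> first | exact absurd hij (by decide) | skip
      all_goals fin_cases k <;> first | exact absurd hjk (by decide) | skip
      exacts [(fb_le F 0 1 2 (hE.b _ _ _)).mp a0, (fb_le F 0 1 3 (hE.b _ _ _)).mp a1, (fb_le F 0 1 4 (hE.b _ _ _)).mp a4, (fb_le F 0 1 5 (hE.b _ _ _)).mp a10, (fb_le F 0 2 3 (hE.b _ _ _)).mp a2, (fb_le F 0 2 4 (hE.b _ _ _)).mp a5, (fb_le F 0 2 5 (hE.b _ _ _)).mp a11, (fb_le F 0 3 4 (hE.b _ _ _)).mp a7, (fb_le F 0 3 5 (hE.b _ _ _)).mp a13, (fb_le F 0 4 5 (hE.b _ _ _)).mp a16, (fb_le F 1 2 3 (hE.b _ _ _)).mp a3, (fb_le F 1 2 4 (hE.b _ _ _)).mp a6, (fb_le F 1 2 5 (hE.b _ _ _)).mp a12, (fb_le F 1 3 4 (hE.b _ _ _)).mp a8, (fb_le F 1 3 5 (hE.b _ _ _)).mp a14, (fb_le F 1 4 5 (hE.b _ _ _)).mp a17, (fb_le F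 2 3 4 (hE.b _ _ _)).mp a9, (fb_le F 2 3 5 (hE.b _ _ _)).mp a15, (fb_le F 2 4 5 (hE.b _ _ _)).mp a18, (fb_le F 3 4 5 (hE.b _ _ _)).mp a19]
    intro i j k hijk
    have hne : i ≠ j ∧ i ≠ k ∧ j ≠ k := by
      have h5 := h3 _ hijk
      refine ⟨?_, ?_, ?_⟩
      · rintro rfl
        have : ({i, i, k} : Finset (Fin 6)).card ≤ 2 := by
          rw [insert_eq_of_mem (mem_insert_self _ _)]; exact card_le_two
        omega
      · rintro rfl
        have : ({i, j, i} : Finset (Fin 6)).card ≤ 2 := by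
          rw [insert_comm, insert_eq_of_mem (mem_singleton_self _)]
          exact card_le_two
        omega
      · rintro rfl
        have : ({i, j, j} : Finset (Fin 6)).card ≤ 2 := by
          rw [insert_eq_of_mem (a := j) (mem_singleton_self _)]; exact card_le_two
        omega
    obtain ⟨hij, hik, hjk⟩ := hne
    rcases lt_or_gt_of_ne hij with h1 | h1 <;> rcases lt_or_gt_of_ne hik with h2 | h2 <;>
      rcases lt_or_gt_of_ne hjk with h3 | h3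
    · exact srt i j k h1 h3 hijk
    · rw [← set_132] at hijk
      rw [← hE.h132]
      exact srt i k j h2 h3 hijk
    · exact absurd (h1.trans h3) (not_lt.mpr h2.le)
    · rw [← set_132, ← set_213] at hijk
      rw [← hE.h132, ← hE.h213]
      exact srt k i j h2 h1 hijk
    · rw [← set_213] at hijk
      rw [← hE.h213]
      exact srt j i k h1 h2 hijk
    · exact absurd (h1.trans h2) (not_lt.mpr h3.le)
    · rw [← set_213, ← set_132] at hijk
      rw [← hE.h213, ← hE.h132]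
      exact srt j k i h3 h2 hijk
    · rw [← set_213, ← set_132, ← set_213] at hijk
      rw [← hE.h213, ← hE.h132, ← hE.h213]
      exact srt k j i h3 h1 hijk
  · intro h
    exact ⟨(fb_le F 0 1 2 (hE.b _ _ _)).mpr (h 0 1 2), (fb_le F 0 1 3 (hE.b _ _ _)).mpr (h 0 1 3), (fb_le F 0 2 3 (hE.b _ _ _)).mpr (h 0 2 3), (fb_le F 1 2 3 (hE.b _ _ _)).mpr (h 1 2 3), (fb_le F 0 1 4 (hE.b _ _ _)).mpr (h 0 1 4), (fb_le F 0 2 4 (hE.b _ _ _)).mpr (h 0 2 4), (fb_le F 1 2 4 (hE.b _ _ _)).mpr (h 1 2 4), (fb_le F 0 3 4 (hE.b _ _ _)).mpr (h 0 3 4), (fb_le F 1 3 4 (hE.b _ _ _)).mpr (h 1 3 4), (fb_le F 2 3 4 (hE.b _ _ _)).mpr (h 2 3 4), (fb_le F 0 1 5 (hE.b _ _ _)).mpr (h 0 1 5), (fb_le F 0 2 5 (hE.b _ _ _)).mpr (h 0 2 5), (fb_le F 1 2 5 (hE.b _ _ _)).mpr (h 1 2 5), (fb_le F 0 3 5 (hE.b _ _ _)).mpr (h 0 3 5), (fb_le F 1 3 5 (hE.b _ _ _)).mpr (h 1 3 5), (fb_le F 2 3 5 (hE.b _ _ _)).mpr (h 2 3 5), (fb_le F 0 4 5 (hE.b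 _ _ _)).mpr (h 0 4 5), (fb_le F 1 4 5 (hE.b _ _ _)).mpr (h 1 4 5), (fb_le F 2 4 5 (hE.b _ _ _)).mpr (h 2 4 5), (fb_le F 3 4 5 (hE.b _ _ _)).mpr (h 3 4 5)⟩

theorem N6_mk6 (hE : Sy E) {F : Finset (Finset (Fin 6))} (h3 : ∀ t ∈ F, t.card = 3) :
    N6 E (mk6 F) = ((univ : Finset (Fin 6 → V)).filter fun x =>
      ∀ i j k : Fin 6, ({i, j, k} : Finset (Fin 6)) ∈ F → E (x i) (x j) (x k) = 1).card := by
  unfold N6
  rw [card_filter]
  exact sum_congr rfl fun x _ => sub6 hE h3 x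

end

theorem N6_tri6 {n : ℕ} {F : Finset (Finset (Fin 6))} (h3 : ∀ t ∈ F, t.card = 3)
    (H : Finset (Finset (Fin n))) : N6 (tri H) (mk6 F) = homs F H := by
  rw [N6_mk6 (tri_sy H) h3]
  unfold homs
  congr 1
  ext x
  rw [mem_filter, mem_filter]
  refine and_congr_right fun _ => ?_
  constructor
  · intro h t ht
    obtain ⟨a, b, c, -, -, -, rfl⟩ := card_eq_three.mp (h3 t ht)
    rw [image_insert, image_insert, image_singleton]
    exact tri_iff.mp (h a b c ht)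
  · intro h i j k hijk
    rw [tri_iff]
    have h1 := h _ hijk
    rwa [image_insert, image_insert, image_singleton] at h1

theorem N6_Rf6 {F : Finset (Finset (Fin 6))} (h3 : ∀ t ∈ F, t.card = 3) :
    N6 Rf (mk6 F) = cols F := by
  rw [N6_mk6 Rf_sy h3]
  unfold cols
  congr 1
  ext x
  rw [mem_filter, mem_filter]
  refine and_congr_right fun _ => ?_
  constructor
  · intro h t ht
    obtain ⟨a, b, c, h1, h2, h4, rfl⟩ := card_eq_three.mp (h3 t ht)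
    exact (mem_turan h1 h2 h4).mpr (h a b c ht)
  · intro h i j k hijk
    have h1 := h hijk
    have h5 := h3 _ hijk
    have hij : i ≠ j := by
      rintro rfl
      have : ({i, i, k} : Finset (Fin 6)).card ≤ 2 := by
        rw [insert_eq_of_mem (mem_insert_self _ _)]; exact card_le_two
      omega
    have hik : i ≠ k := by
      rintro rfl
      have : ({i, j, i} : Finset (Fin 6)).card ≤ 2 := by
        rw [insert_comm, insert_eq_of_mem (mem_singleton_self _)]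
        exact card_le_two
      omega
    have hjk : j ≠ k := by
      rintro rfl
      have : ({i, j, j} : Finset (Fin 6)).card ≤ 2 := by
        rw [insert_eq_of_mem (a := j) (mem_singleton_self _)]; exact card_le_two
      omega
    exact (mem_turan hij hik hjk).mp h1

end Pool.Agent.U986.LC
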